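import Mathlib

/-!
# [SC7-W1] Stepanov's method, the auxiliary polynomial is not zero

`F` finite field with `q` elements, `q` odd, `f ∈ F[X]` squarefree of degree `N ≥ 1`, `f(0) ≠ 0`, `g = f ^ ((q - 1) / 2)`.

`nonvanish`: let `j₀` be the smallest `j` with `(r j, s j) ≠ (0, 0)`. The sum is
`X ^ (j₀ q) * (r_{j₀} + s_{j₀} g + X ^ q * (...))`, so `X ^ q ∣ r + s g` (`r = r j₀`, `s = s j₀`; `X ^ (j₀ q)` can be cancelled).
Multiply by `f (r - s g)`: `X ^ q ∣ f r ^ 2 - s ^ 2 f g ^ 2 = f r ^ 2 - s ^ 2 f ^ q`, because `f * g ^ 2 = f ^ q` (`q` odd). In characteristic `p`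
with `q = p ^ m` the polynomial `f ^ q = f(X ^ q)` (`FiniteField.expand_card`: `expand F q f = f ^ q`), so `X ^ q ∣ f ^ q - C (f.eval 0)`
(`Polynomial.expand`, `X ∣ f - C (f.eval 0)`). So `X ^ q ∣ f r ^ 2 - C (f.eval 0) s ^ 2`, a polynomial of degree at most
`N + 2 (B - 1) < q`: it is zero, `f r ^ 2 = C (f.eval 0) * s ^ 2`. `f.eval 0 ≠ 0`. If `r = 0` then `s = 0`, contradiction. If `r ≠ 0`
then `f` is, up to a unit, a square times ...: take an irreducible factor `π` of `f` (`natDegree ≥ 1`): `π ^ 2 ∤ f` (squarefree), so the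
multiplicity (`emultiplicity`/`count` of normalized factors) of `π` on the left hand side is odd and on the right hand side even,
contradiction.
-/

set_option autoImplicit false

open Polynomial

namespace SC7

/-- `f * r ^ 2 = C a * s ^ 2` is impossible for a squarefree `f` of positive degree, `r ≠ 0`. -/
theorem w1_square {F : Type} [Field F] (f r s : F[X]) (hf : Squarefree f) (hN : 1 ≤ f.natDegree)
    (a : F) (ha : a ≠ 0) (h : f * r ^ 2 = C a * s ^ 2) : r = 0 := by
  by_contra hr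
  have hfu : ¬ IsUnit f := by
    intro hu
    have := natDegree_eq_zero_of_isUnit hu
    omega
  have hf0 : f ≠ 0 := by
    rintro rfl
    rw [natDegree_zero] at hN
    omega
  obtain ⟨π, hπ, hπf⟩ := WfDvdMonoid.exists_irreducible_factor hfu hf0
  have hp : Prime π := hπ.prime
  have hs : s ≠ 0 := by
    rintro rfl
    rw [zero_pow two_ne_zero, mul_zero] at h
    exact mul_ne_zero hf0 (pow_ne_zero 2 hr) h
  have e1 : emultiplicity π f = 1 := by
    have h1 : emultiplicity π f = ((1 : ℕ) : ℕ∞) := by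
      rw [emultiplicity_eq_coe]
      refine ⟨by rwa [pow_one], fun h2 => ?_⟩
      rw [pow_two] at h2
      exact hπ.not_isUnit (hf π h2)
    exact h1
  have e2 : emultiplicity π (C a) = 0 := by
    rw [emultiplicity_eq_zero]
    intro h2
    exact hπ.not_isUnit (isUnit_of_dvd_unit h2 (isUnit_C.2 (isUnit_iff_ne_zero.2 ha)))
  obtain ⟨m, hm⟩ : ∃ m : ℕ, emultiplicity π r = m :=
    ⟨_, (FiniteMultiplicity.of_prime_left hp hr).emultiplicity_eq_multiplicity⟩
  obtain ⟨n, hn⟩ : ∃ n : ℕ, emultiplicity π s = n :=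
    ⟨_, (FiniteMultiplicity.of_prime_left hp hs).emultiplicity_eq_multiplicity⟩
  have h1 := congrArg (emultiplicity π) h
  rw [emultiplicity_mul hp, emultiplicity_mul hp, emultiplicity_pow hp, emultiplicity_pow hp, e1, e2, hm, hn] at h1
  have h2 : 1 + 2 * m = 0 + 2 * n := by exact_mod_cast h1
  omega

private theorem w1_key {F : Type} [Field F] [Fintype F] (hodd : Odd (Fintype.card F)) (f : F[X])
    (hf : Squarefree f) (hN : 1 ≤ f.natDegree) (h0 : f.eval 0 ≠ 0) (B : ℕ)
    (hB : 2 * B + f.natDegree ≤ Fintype.card F + 1) (r s : F[X])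
    (hr : r.degree < B) (hs : s.degree < B)
    (h : X ^ Fintype.card F ∣ r + s * f ^ ((Fintype.card F - 1) / 2)) : r = 0 ∧ s = 0 := by
  set q := Fintype.card F with hq
  set g := f ^ ((q - 1) / 2) with hg
  have hf0 : f ≠ 0 := by
    rintro rfl
    rw [natDegree_zero] at hN
    omega
  have hfg : f * g ^ 2 = f ^ q := by
    rw [hg, ← pow_mul, ← pow_succ']
    congr 1
    obtain ⟨t, ht⟩ := hodd
    omega
  have h1 : X ^ q ∣ f ^ q - C (f.eval 0) := by
    have h2 : X ∣ f - C (f.eval 0) := by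
      rw [X_dvd_iff, coeff_sub, coeff_C_zero, coeff_zero_eq_eval_zero, sub_self]
    obtain ⟨u, hu⟩ := h2
    have h3 := congrArg (expand F q) hu
    rw [map_sub, expand_C, map_mul, expand_X, FiniteField.expand_card] at h3
    exact ⟨_, h3⟩
  have h2 : X ^ q ∣ f * r ^ 2 - C (f.eval 0) * s ^ 2 := by
    have h3 : f * r ^ 2 - C (f.eval 0) * s ^ 2 =
        (r + s * g) * (f * (r - s * g)) + s ^ 2 * (f ^ q - C (f.eval 0)) := by
      rw [← hfg]
      ring
    rw [h3]
    exact dvd_add (Dvd.dvd.mul_right h _) (Dvd.dvd.mul_left h1 _)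
  have hd : ∀ (c u : F[X]), u.degree < B → c.natDegree + 2 * B ≤ q + 1 → (c * u ^ 2).degree < q := by
    intro c u hu hc
    by_cases hu0 : u = 0
    · rw [hu0, zero_pow two_ne_zero, mul_zero, degree_zero]
      exact WithBot.bot_lt_coe q
    · have h4 : u.natDegree < B := (natDegree_lt_iff_degree_lt hu0).2 hu
      refine lt_of_le_of_lt degree_le_natDegree ?_
      have h5 := natDegree_mul_le (p := c) (q := u ^ 2)
      have h6 := natDegree_pow_le (p := u) (n := 2)
      have h7 : (c * u ^ 2).natDegree < q := by omega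
      exact_mod_cast h7
  have h3 : f * r ^ 2 - C (f.eval 0) * s ^ 2 = 0 := by
    refine eq_zero_of_dvd_of_degree_lt h2 ?_
    rw [degree_X_pow]
    refine lt_of_le_of_lt (degree_sub_le _ _) (max_lt ?_ ?_)
    · exact hd f r hr (by omega)
    · refine hd (C (f.eval 0)) s hs ?_
      rw [natDegree_C]
      omega
  have h4 := sub_eq_zero.1 h3
  have h5 := w1_square f r s hf hN _ h0 h4
  refine ⟨h5, ?_⟩
  rw [h5, zero_pow two_ne_zero, mul_zero] at h4
  have h6 := (mul_eq_zero.1 h4.symm).resolve_left (C_ne_zero.2 h0)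
  exact pow_eq_zero_iff (two_ne_zero) |>.1 h6

theorem nonvanish {F : Type} [Field F] [Fintype F] (hodd : Odd (Fintype.card F)) (f : F[X])
    (hf : Squarefree f) (hN : 1 ≤ f.natDegree) (h0 : f.eval 0 ≠ 0) (J B : ℕ)
    (hB : 2 * B + f.natDegree ≤ Fintype.card F + 1) (r s : ℕ → F[X])
    (hr : ∀ j, (r j).degree < B) (hs : ∀ j, (s j).degree < B)
    (h : ∑ j ∈ Finset.range J, (r j + s j * f ^ ((Fintype.card F - 1) / 2)) *
      X ^ (j * Fintype.card F) = 0) : ∀ j < J, r j = 0 ∧ s j = 0 := by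
  have hq1 : 1 < Fintype.card F := Fintype.one_lt_card
  intro j
  induction j using Nat.strong_induction_on with
  | _ j ih =>
  intro hj
  apply w1_key hodd f hf hN h0 B hB (r j) (s j) (hr j) (hs j)
  have h1 : X ^ ((j + 1) * Fintype.card F) ∣ (r j + s j * f ^ ((Fintype.card F - 1) / 2)) *
      X ^ (j * Fintype.card F) := by
    rw [← Finset.add_sum_erase _ _ (Finset.mem_range.2 hj)] at h
    rw [eq_neg_of_add_eq_zero_left h, dvd_neg]
    refine Finset.dvd_sum fun i hi => ?_
    obtain ⟨hij, hi'⟩ := Finset.mem_erase.1 hi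
    rcases lt_or_gt_of_ne hij with hlt | hgt
    · obtain ⟨e1, e2⟩ := ih i hlt (by omega)
      rw [e1, e2, zero_mul, add_zero, zero_mul]
      exact dvd_zero _
    · exact Dvd.dvd.mul_left (pow_dvd_pow X (Nat.mul_le_mul_right _ hgt)) _
  rw [Nat.succ_mul, pow_add, mul_comm (X ^ (j * Fintype.card F)) (X ^ Fintype.card F)] at h1
  exact (mul_dvd_mul_iff_right (pow_ne_zero _ X_ne_zero)).1 h1

end SC7
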