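import Pool.Agent.MP_c1dca2_ag.SC5.A3

/-!
# [SC7-C1] short representatives modulo a prime

Let `n = finrank ℚ K`, `b = RingOfIntegers.basis K`. `SC5.exists_gen`: `al v ∈ v`, `al v ≠ 0`, with coordinates `|.|^n ≤ nv v`. There is
`C₁` (natural) with: the coordinates of `a * b j` are at most `C₁ * max |coordinates of a|` (structure constants of the basis).
Let `a = al v`. For `x : 𝓞 K` write `x / a = ∑ j, t j b j` with `t j ∈ ℚ` (the `b j` are a `ℚ`-basis of `K`:
`Module.Basis.localizationLocalization` / `RingOfIntegers.integralBasis`), `y = ∑ j, ⌊t j⌋ b j ∈ 𝓞 K`,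
`r = x - a y = ∑ j, (t j - ⌊t j⌋) a b j ∈ 𝓞 K`: its coordinates are at most `n C₁ max |coordinates of a|`, and `x - r = a y ∈ v`.
So `C = (n C₁) ^ n`.
-/

set_option autoImplicit false

open NumberField IsDedekindDomain SC5

namespace SC7

theorem c1_abs_repr {K : Type} [Field K] [NumberField K]
    (B : ℕ) (c : Module.Free.ChooseBasisIndex ℤ (𝓞 K) → ℤ) (hc : ∀ i, |c i| ≤ B)
    (i j : Module.Free.ChooseBasisIndex ℤ (𝓞 K)) :
    |(RingOfIntegers.basis K).repr (el (RingOfIntegers.basis K) c * RingOfIntegers.basis K j) i| ≤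
      B * ∑ k, |(RingOfIntegers.basis K).repr
        (RingOfIntegers.basis K k * RingOfIntegers.basis K j) i| := by
  have h1 : (RingOfIntegers.basis K).repr
      (el (RingOfIntegers.basis K) c * RingOfIntegers.basis K j) i =
      ∑ k, c k * (RingOfIntegers.basis K).repr
        (RingOfIntegers.basis K k * RingOfIntegers.basis K j) i := by
    unfold el
    rw [Finset.sum_mul, map_sum, Finsupp.finsetSum_apply]
    refine Finset.sum_congr rfl fun k _ => ?_
    rw [smul_mul_assoc, map_smul, Finsupp.smul_apply, smul_eq_mul]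
  rw [h1, Finset.mul_sum]
  refine (Finset.abs_sum_le_sum_abs _ _).trans (Finset.sum_le_sum fun k _ => ?_)
  rw [abs_mul]
  exact mul_le_mul_of_nonneg_right (hc k) (abs_nonneg _)

theorem short_rep (K : Type) [Field K] [NumberField K] : ∃ C : ℕ, 0 < C ∧ ∀ (v : Pr K)
    (x : 𝓞 K), ∃ c : Module.Free.ChooseBasisIndex ℤ (𝓞 K) → ℤ,
      x - el (RingOfIntegers.basis K) c ∈ v.asIdeal ∧
      ∀ i, |c i| ^ (Module.finrank ℚ K) ≤ (C * nv v : ℤ) := by
  classical
  set b := RingOfIntegers.basis K with hb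
  set C0 : ℕ := (∑ i, ∑ j, ∑ k, |b.repr (b k * b j) i|).toNat with hC0
  have hC0' : ((C0 : ℕ) : ℤ) = ∑ i, ∑ j, ∑ k, |b.repr (b k * b j) i| :=
    Int.toNat_of_nonneg (Finset.sum_nonneg fun i _ => Finset.sum_nonneg fun j _ =>
      Finset.sum_nonneg fun k _ => abs_nonneg _)
  refine ⟨(C0 + 1) ^ (Module.finrank ℚ K), by positivity, fun v x => ?_⟩
  obtain ⟨ca, B, hB, hca, ha0, hav⟩ := A3_pigeon v
  rw [← hb] at ha0 hav
  set a := el b ca with ha
  set t : Module.Free.ChooseBasisIndex ℤ (𝓞 K) → ℚ := fun j =>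
    (integralBasis K).repr (algebraMap (𝓞 K) K x / algebraMap (𝓞 K) K a) j with ht
  set y : 𝓞 K := ∑ j, ⌊t j⌋ • b j with hy
  set r : 𝓞 K := x - a * y with hr
  have haK : algebraMap (𝓞 K) K a ≠ 0 := by
    intro h
    exact ha0 ((FaithfulSMul.algebraMap_injective (𝓞 K) K) (by rw [h, map_zero]))
  have hxa : algebraMap (𝓞 K) K x / algebraMap (𝓞 K) K a =
      ∑ j, t j • algebraMap (𝓞 K) K (b j) := by
    conv_lhs => rw [← (integralBasis K).sum_repr
      (algebraMap (𝓞 K) K x / algebraMap (𝓞 K) K a)]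
    refine Finset.sum_congr rfl fun j _ => ?_
    rw [integralBasis_apply]
  have hyK : algebraMap (𝓞 K) K y = ∑ j, (⌊t j⌋ : ℚ) • algebraMap (𝓞 K) K (b j) := by
    rw [hy, map_sum]
    refine Finset.sum_congr rfl fun j _ => ?_
    rw [map_zsmul, Int.cast_smul_eq_zsmul]
  have hrK : algebraMap (𝓞 K) K r = ∑ j, Int.fract (t j) • algebraMap (𝓞 K) K (a * b j) := by
    have h1 : algebraMap (𝓞 K) K x = algebraMap (𝓞 K) K a *
        (algebraMap (𝓞 K) K x / algebraMap (𝓞 K) K a) := by
      field_simp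
    rw [hr, map_sub, map_mul, hyK, h1, hxa, ← mul_sub, ← Finset.sum_sub_distrib, Finset.mul_sum]
    refine Finset.sum_congr rfl fun j _ => ?_
    rw [← sub_smul, Int.self_sub_floor, mul_smul_comm, map_mul]
  have hcoord : ∀ i, ((b.repr r i : ℤ) : ℚ) = ∑ j, Int.fract (t j) * ((b.repr (a * b j) i : ℤ) : ℚ) := by
    intro i
    have h1 := integralBasis_repr_apply K r i
    rw [hrK, map_sum, Finsupp.finsetSum_apply] at h1
    have h2 : ∀ j, ((integralBasis K).repr (Int.fract (t j) • algebraMap (𝓞 K) K (a * b j))) i =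
        Int.fract (t j) * ((b.repr (a * b j) i : ℤ) : ℚ) := by
      intro j
      rw [map_smul, Finsupp.smul_apply, integralBasis_repr_apply, smul_eq_mul]
      rfl
    simp only [h2] at h1
    rw [h1]
    rfl
  refine ⟨fun i => b.repr r i, ?_, ?_⟩
  · have h1 : el b (fun i => b.repr r i) = r := by
      unfold el
      exact b.sum_repr r
    rw [h1, hr, sub_sub_cancel]
    exact Ideal.mul_mem_right _ _ hav
  · intro i
    have h1 : |b.repr r i| ≤ (B : ℤ) * C0 := by
      have h2 : |((b.repr r i : ℤ) : ℚ)| ≤ ∑ j, |((b.repr (a * b j) i : ℤ) : ℚ)| := by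
        rw [hcoord i]
        refine (Finset.abs_sum_le_sum_abs _ _).trans (Finset.sum_le_sum fun j _ => ?_)
        rw [abs_mul, abs_of_nonneg (Int.fract_nonneg _)]
        exact mul_le_of_le_one_left (abs_nonneg _) (Int.fract_lt_one _).le
      have h3 : |b.repr r i| ≤ ∑ j, |b.repr (a * b j) i| := by
        exact_mod_cast h2
      refine h3.trans ?_
      have h4 : ∑ j, |b.repr (a * b j) i| ≤ ∑ j, (B : ℤ) * ∑ k, |b.repr (b k * b j) i| :=
        Finset.sum_le_sum fun j _ => c1_abs_repr B ca hca i j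
      refine h4.trans ?_
      rw [← Finset.mul_sum, hC0']
      refine mul_le_mul_of_nonneg_left ?_ (by positivity)
      exact Finset.single_le_sum (f := fun i => ∑ j, ∑ k, |b.repr (b k * b j) i|)
        (fun i _ => Finset.sum_nonneg fun j _ => Finset.sum_nonneg fun k _ => abs_nonneg _)
        (Finset.mem_univ i)
    have h5 : |b.repr r i| ^ (Module.finrank ℚ K) ≤ ((B : ℤ) * C0) ^ (Module.finrank ℚ K) :=
      pow_le_pow_left₀ (abs_nonneg _) h1 _
    refine h5.trans ?_
    rw [mul_pow, mul_comm]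
    have h6 : ((B : ℤ)) ^ (Module.finrank ℚ K) ≤ (nv v : ℤ) := by exact_mod_cast hB
    have h7 : ((C0 : ℕ) : ℤ) ^ (Module.finrank ℚ K) ≤
        (((C0 + 1) ^ (Module.finrank ℚ K) : ℕ) : ℤ) := by
      push_cast
      exact pow_le_pow_left₀ (by positivity) (by linarith) _
    exact mul_le_mul h7 h6 (by positivity) (by positivity)

end SC7
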