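import Pool.Agent.MP_c1dca2_ag.SC5.C7

/-!
# [SC7-C2] the elements of a prime in a box (`c7_box ι N` = the box of size `N`)

Let `R` be a set of representatives of `𝓞 K / v` with coordinates at most `D`, one for each class (`hD`; choose), `#R = nv v`
(`nv v = Ideal.absNorm v.asIdeal = Nat.card (𝓞 K ⧸ v.asIdeal)`, `Ideal.absNorm_apply`, `Submodule.cardQuot_apply`).
`lat_upper`: `(c, r) ↦ c + r` from `{c in box N, c ∈ v} × R` to the box `N + D` is injective (`c + r = c' + r'` gives `r ≡ r'` mod `v`, so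
`r = r'`). `lat_lower`: for `x` in the box `N - D` let `r` be the representative of its class; `x ↦ (x - r, r)` is an injective map to
`{c in box N, c ∈ v} × R`. (`q4_box_card`: the box has `(2 N + 1) ^ n` elements, it is in SC5/Q4; prove it again or
`Fintype.card_piFinset`, `Int.card_Icc`.)
-/

set_option autoImplicit false

open NumberField IsDedekindDomain SC5

namespace SC7

private theorem c2_add {K : Type} [Field K] [NumberField K] {ι : Type} [Fintype ι]
    (b : Module.Basis ι ℤ (𝓞 K)) (c c' : ι → ℤ) : el b (c + c') = el b c + el b c' := by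
  unfold el
  rw [← Finset.sum_add_distrib]
  refine Finset.sum_congr rfl fun i _ => ?_
  rw [Pi.add_apply, add_smul]

private theorem c2_sub {K : Type} [Field K] [NumberField K] {ι : Type} [Fintype ι]
    (b : Module.Basis ι ℤ (𝓞 K)) (c c' : ι → ℤ) : el b (c - c') = el b c - el b c' := by
  unfold el
  rw [← Finset.sum_sub_distrib]
  refine Finset.sum_congr rfl fun i _ => ?_
  rw [Pi.sub_apply, sub_smul]

private theorem c2_card (ι : Type) [Fintype ι] (N : ℕ) :
    (c7_box ι N).card = (2 * N + 1) ^ Fintype.card ι := by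
  classical
  unfold c7_box
  rw [Fintype.card_piFinset]
  simp only [Int.card_Icc, Finset.prod_const, Finset.card_univ]
  congr 1
  omega

private theorem c2_nv {K : Type} [Field K] [NumberField K] (v : Pr K) :
    nv v = Nat.card (𝓞 K ⧸ v.asIdeal) ∧ Finite (𝓞 K ⧸ v.asIdeal) := by
  have h1 : nv v = Nat.card (𝓞 K ⧸ v.asIdeal) := by
    unfold nv
    rw [Ideal.absNorm_apply, Submodule.cardQuot_apply]
  refine ⟨h1, Nat.finite_of_card_ne_zero ?_⟩
  rw [← h1]
  have := two_le_nv v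
  omega

private theorem c2_rep {K : Type} [Field K] [NumberField K] {ι : Type} [Fintype ι]
    (b : Module.Basis ι ℤ (𝓞 K)) (v : Pr K) (D : ℕ)
    (hD : ∀ x : 𝓞 K, ∃ c : ι → ℤ, x - el b c ∈ v.asIdeal ∧ ∀ i, |c i| ≤ D) :
    ∃ rep : (𝓞 K ⧸ v.asIdeal) → (ι → ℤ), ∀ q, Ideal.Quotient.mk v.asIdeal (el b (rep q)) = q ∧
      ∀ i, |rep q i| ≤ D := by
  have h : ∀ q : 𝓞 K ⧸ v.asIdeal, ∃ c : ι → ℤ, Ideal.Quotient.mk v.asIdeal (el b c) = q ∧ ∀ i, |c i| ≤ D := by
    intro q
    obtain ⟨x, rfl⟩ := Ideal.Quotient.mk_surjective q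
    obtain ⟨c, h1, h2⟩ := hD x
    exact ⟨c, ((Ideal.Quotient.eq).2 h1).symm, h2⟩
  choose rep hrep using h
  exact ⟨rep, hrep⟩

open scoped Classical in
theorem lat_upper {K : Type} [Field K] [NumberField K] {ι : Type} [Fintype ι]
    (b : Module.Basis ι ℤ (𝓞 K)) (v : Pr K) (N D : ℕ)
    (hD : ∀ x : 𝓞 K, ∃ c : ι → ℤ, x - el b c ∈ v.asIdeal ∧ ∀ i, |c i| ≤ D) :
    ((c7_box ι N).filter (fun c => el b c ∈ v.asIdeal)).card * nv v ≤
      (2 * (N + D) + 1) ^ (Fintype.card ι) := by
  obtain ⟨hnv, hfin⟩ := c2_nv v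
  have : Fintype (𝓞 K ⧸ v.asIdeal) := Fintype.ofFinite _
  obtain ⟨rep, hrep⟩ := c2_rep b v D hD
  have hmk : ∀ c ∈ (c7_box ι N).filter (fun c => el b c ∈ v.asIdeal), ∀ q : 𝓞 K ⧸ v.asIdeal,
      Ideal.Quotient.mk v.asIdeal (el b (c + rep q)) = q := by
    intro c hc q
    rw [c2_add, map_add, (hrep q).1, Ideal.Quotient.eq_zero_iff_mem.2 (Finset.mem_filter.1 hc).2, zero_add]
  rw [hnv, Nat.card_eq_fintype_card, ← Finset.card_univ, ← Finset.card_product, ← c2_card]
  refine Finset.card_le_card_of_injOn (fun p => p.1 + rep p.2) ?_ ?_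
  · rintro ⟨c, q⟩ hp
    have hp' := Finset.mem_product.1 hp
    have hc := (c7_mem_box N c).1 (Finset.mem_filter.1 hp'.1).1
    rw [Finset.mem_coe, c7_mem_box]
    intro i
    have h1 := hc i
    have h2 := (hrep q).2 i
    have h3 : |c i + rep q i| ≤ |c i| + |rep q i| := abs_add_le _ _
    show |c i + rep q i| ≤ ((N + D : ℕ) : ℤ)
    push_cast
    linarith
  · rintro ⟨c, q⟩ hp ⟨c', q'⟩ hp' heq
    have hc := (Finset.mem_product.1 hp).1
    have hc' := (Finset.mem_product.1 hp').1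
    dsimp only at heq hc hc'
    have h1 := hmk c hc q
    rw [heq, hmk c' hc' q'] at h1
    subst h1
    have h2 : c = c' := add_right_cancel heq
    rw [h2]

open scoped Classical in
theorem lat_lower {K : Type} [Field K] [NumberField K] {ι : Type} [Fintype ι]
    (b : Module.Basis ι ℤ (𝓞 K)) (v : Pr K) (N D : ℕ) (hDN : D ≤ N)
    (hD : ∀ x : 𝓞 K, ∃ c : ι → ℤ, x - el b c ∈ v.asIdeal ∧ ∀ i, |c i| ≤ D) :
    (2 * (N - D) + 1) ^ (Fintype.card ι) ≤
      ((c7_box ι N).filter (fun c => el b c ∈ v.asIdeal)).card * nv v := by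
  obtain ⟨hnv, hfin⟩ := c2_nv v
  have : Fintype (𝓞 K ⧸ v.asIdeal) := Fintype.ofFinite _
  obtain ⟨rep, hrep⟩ := c2_rep b v D hD
  rw [hnv, Nat.card_eq_fintype_card, ← c2_card, ← Finset.card_univ (α := 𝓞 K ⧸ v.asIdeal), ← Finset.card_product]
  refine Finset.card_le_card_of_injOn
    (fun x => (x - rep (Ideal.Quotient.mk v.asIdeal (el b x)), Ideal.Quotient.mk v.asIdeal (el b x))) ?_ ?_
  · intro x hx
    have hx' := (c7_mem_box _ x).1 hx
    rw [Finset.mem_coe, Finset.mem_product]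
    refine ⟨?_, Finset.mem_univ _⟩
    dsimp only
    rw [Finset.mem_filter, c7_mem_box]
    constructor
    · intro i
      have h1 := hx' i
      have h2 := (hrep (Ideal.Quotient.mk v.asIdeal (el b x))).2 i
      have h3 : |x i - rep (Ideal.Quotient.mk v.asIdeal (el b x)) i| ≤
          |x i| + |rep (Ideal.Quotient.mk v.asIdeal (el b x)) i| := abs_sub _ _
      show |x i - rep (Ideal.Quotient.mk v.asIdeal (el b x)) i| ≤ (N : ℤ)
      rw [Nat.cast_sub hDN] at h1
      linarith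
    · rw [c2_sub]
      exact (Ideal.Quotient.eq).1 (hrep (Ideal.Quotient.mk v.asIdeal (el b x))).1.symm
  · intro x _ y _ hxy
    dsimp only at hxy
    have h1 := congrArg Prod.fst hxy
    have h2 := congrArg Prod.snd hxy
    dsimp only at h1 h2
    rw [h2] at h1
    exact sub_left_injective h1

end SC7
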