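import Pool.Agent.MP_c1dca2_ag.SC5.Defs

/-!
# [SC7-C3] the number of ideals of norm at most `T`

Mathlib (`NumberField.Ideal.tendsto_norm_le_div_atTop` or a similar name: the number divided by `T` converges, so it is bounded for large `T`;
finiteness: `Ideal.finite_setOf_absNorm_le`; for small `T ≥ 1` take a large constant). Any proof.
-/

set_option autoImplicit false

open NumberField IsDedekindDomain SC5

namespace SC7

private theorem C3_fin (K : Type) [Field K] [NumberField K] (T : ℝ) :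
    {I : Ideal (𝓞 K) | (Ideal.absNorm I : ℝ) ≤ T}.Finite := by
  refine (Ideal.finite_setOfPred_absNorm_le (S := 𝓞 K) ⌊T⌋₊).subset fun I hI => ?_
  exact Nat.le_floor hI

theorem ideal_count (K : Type) [Field K] [NumberField K] : ∃ C : ℝ, 0 < C ∧ ∀ T : ℝ, 1 ≤ T →
    {I : Ideal (𝓞 K) | I ≠ ⊥ ∧ (Ideal.absNorm I : ℝ) ≤ T}.Finite ∧
    ({I : Ideal (𝓞 K) | I ≠ ⊥ ∧ (Ideal.absNorm I : ℝ) ≤ T}.ncard : ℝ) ≤ C * T := by
  have h0 := NumberField.Ideal.tendsto_norm_le_div_atTop K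
  set L := ((2 ^ InfinitePlace.nrRealPlaces K * (2 * Real.pi) ^ InfinitePlace.nrComplexPlaces K * Units.regulator K *
    classNumber K) / (Units.torsionOrder K * Real.sqrt |discr K|)) with hL
  have h1 := h0.eventually (gt_mem_nhds (lt_add_one L))
  obtain ⟨s0, hs0⟩ := Filter.eventually_atTop.1 h1
  set s1 := max s0 1 with hs1
  set M : ℝ := ({I : Ideal (𝓞 K) | (Ideal.absNorm I : ℝ) ≤ s1}.ncard : ℝ) with hM
  have hM0 : 0 ≤ M := Nat.cast_nonneg _
  refine ⟨|L| + 1 + M, by positivity, fun T hT => ⟨(C3_fin K T).subset fun I hI => hI.2, ?_⟩⟩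
  have h2 : ({I : Ideal (𝓞 K) | I ≠ ⊥ ∧ (Ideal.absNorm I : ℝ) ≤ T}.ncard : ℝ) ≤
      ({I : Ideal (𝓞 K) | (Ideal.absNorm I : ℝ) ≤ T}.ncard : ℝ) := by
    have hsub : {I : Ideal (𝓞 K) | I ≠ ⊥ ∧ (Ideal.absNorm I : ℝ) ≤ T} ⊆
        {I : Ideal (𝓞 K) | (Ideal.absNorm I : ℝ) ≤ T} := fun I hI => hI.2
    exact Nat.cast_le.2 (Set.ncard_le_ncard hsub (C3_fin K T))
  refine h2.trans ?_
  have hT0 : 0 < T := by linarith
  rcases le_total s1 T with h | h
  · have h3 := hs0 T ((le_max_left _ _).trans h)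
    rw [div_lt_iff₀ hT0] at h3
    have h4 : (Nat.card {I : Ideal (𝓞 K) // (Ideal.absNorm I : ℝ) ≤ T} : ℝ) =
      ({I : Ideal (𝓞 K) | (Ideal.absNorm I : ℝ) ≤ T}.ncard : ℝ) := rfl
    rw [← h4]
    have h5 : L ≤ |L| := le_abs_self L
    have h6 : (L + 1) * T ≤ (|L| + 1 + M) * T := mul_le_mul_of_nonneg_right (by linarith) hT0.le
    linarith
  · have h3 : ({I : Ideal (𝓞 K) | (Ideal.absNorm I : ℝ) ≤ T}.ncard : ℝ) ≤ M := by
      rw [hM]
      have hsub : {I : Ideal (𝓞 K) | (Ideal.absNorm I : ℝ) ≤ T} ⊆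
          {I : Ideal (𝓞 K) | (Ideal.absNorm I : ℝ) ≤ s1} := fun I hI => le_trans hI h
      exact Nat.cast_le.2 (Set.ncard_le_ncard hsub (C3_fin K s1))
    have h5 : 0 ≤ |L| := abs_nonneg L
    nlinarith

end SC7
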