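import Pool.Agent.MP_c1dca2_ag.SC5.C7
import Pool.Agent.MP_c1dca2_ag.SC7.C3

/-!
# [SC7-C3b] the mean value of the logarithm of the norm in a box

`n = card ι`.
`log_norm_upper`: `norm_box` (SC5/A3): `absNorm ≤ C N ^ n` for all `c` in the box; sum (`q4_box_card`-like: the box has `(2N+1)^n` elements;
all terms are `≥ 0`).
`log_norm_lower`: let `X = C N ^ n` (`C` from `norm_box`, `C ≥ 1`). For `y ≥ 1`: `log y ≤ 8 y ^ (1/8)` (`Real.log_le_rpow_div`). So
`∑_{c ≠ 0} log (X / N(c)) ≤ 8 ∑_{c ≠ 0} (X / N(c)) ^ (1/8) = 8 ∑_{I, N I ≤ X} #{c : (c) = I} (X / N I) ^ (1/8)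
≤ 8 C' ∑_{I, N I ≤ X} (X / N I) ^ (7/8)` (`box_gen`, SC5/A5, with `N ^ n ≤ X`). Dyadic decomposition: the `I` with
`X 2^(-j-1) < N I ≤ X 2^(-j)` are at most `C'' X 2^(-j)` many (`ideal_count`) and have `(X / N I)^(7/8) ≤ 2^((j+1) 7/8)`: the sum is at most
`2 C'' X ∑_j 2^(-j/8)`. (Alternative without dyadic decomposition: `(X/m)^(7/8) ≤ 1 + ∑_{m ≤ t ≤ X} C (X/t)^(7/8)/t`-type Abel summation.)
The number of `c ≠ 0` in the box is `(2 N + 1)^n - 1`, and `log X = n log N + log C`.
-/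

set_option autoImplicit false

open NumberField IsDedekindDomain SC5

namespace SC7

private theorem C3b_card (ι : Type) [Fintype ι] (N : ℕ) :
    (c7_box ι N).card = (2 * N + 1) ^ Fintype.card ι := by
  classical
  unfold c7_box
  rw [Fintype.card_piFinset]
  simp only [Int.card_Icc, Finset.prod_const, Finset.card_univ]
  congr 1
  omega

private theorem C3b_pow (y : ℝ) (hy : 1 ≤ y) (M : ℕ) (hM : y < 2 ^ M) :
    y ^ (7 / 8 : ℝ) ≤ ∑ j ∈ Finset.range M, if (2 : ℝ) ^ j ≤ y then ((2 : ℝ) ^ (7 / 8 : ℝ)) ^ (j + 1) else 0 := by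
  obtain ⟨j, hj1, hj2⟩ : ∃ j : ℕ, (2 : ℝ) ^ j ≤ y ∧ y < 2 ^ (j + 1) := by
    obtain ⟨n, hn⟩ := exists_nat_pow_near hy (one_lt_two)
    exact ⟨n, hn.1, hn.2⟩
  have hjM : j < M := by
    by_contra h
    push Not at h
    have h1 : (2 : ℝ) ^ M ≤ 2 ^ j := pow_le_pow_right₀ one_le_two h
    linarith
  have h2 : (if (2 : ℝ) ^ j ≤ y then ((2 : ℝ) ^ (7 / 8 : ℝ)) ^ (j + 1) else 0) ≤
      ∑ j ∈ Finset.range M, if (2 : ℝ) ^ j ≤ y then ((2 : ℝ) ^ (7 / 8 : ℝ)) ^ (j + 1) else 0 := by
    refine Finset.single_le_sum (f := fun j => if (2 : ℝ) ^ j ≤ y then ((2 : ℝ) ^ (7 / 8 : ℝ)) ^ (j + 1) else 0)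
      (fun j _ => ?_) (Finset.mem_range.2 hjM)
    show 0 ≤ if (2 : ℝ) ^ j ≤ y then ((2 : ℝ) ^ (7 / 8 : ℝ)) ^ (j + 1) else 0
    split_ifs
    · positivity
    · exact le_rfl
  rw [if_pos hj1] at h2
  refine le_trans ?_ h2
  rw [← Real.rpow_natCast, ← Real.rpow_mul (by norm_num), mul_comm, Real.rpow_mul (by norm_num), Real.rpow_natCast]
  exact Real.rpow_le_rpow (by linarith) hj2.le (by norm_num)

private theorem C3b_beta : (2 : ℝ) ^ (7 / 8 : ℝ) < 2 := by
  have h := Real.rpow_lt_rpow_of_exponent_lt (x := 2) one_lt_two (show (7 / 8 : ℝ) < 1 by norm_num)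
  rwa [Real.rpow_one] at h

private theorem C3b_sum (K : Type) [Field K] [NumberField K] : ∃ C : ℝ, 0 < C ∧ ∀ X : ℝ, 1 ≤ X →
    ∀ T : Finset (Ideal (𝓞 K)), (∀ I ∈ T, I ≠ ⊥ ∧ (Ideal.absNorm I : ℝ) ≤ X) →
      ∑ I ∈ T, (X / Ideal.absNorm I) ^ (7 / 8 : ℝ) ≤ C * X := by
  classical
  obtain ⟨C, hC, hcount⟩ := ideal_count K
  set β : ℝ := (2 : ℝ) ^ (7 / 8 : ℝ) with hβ
  have hβ0 : 0 < β := by positivity
  have hβ2 : β < 2 := C3b_beta
  have hr : 0 < 1 - β / 2 := by linarith
  refine ⟨C * (β * (1 - β / 2)⁻¹), by positivity, fun X hX T hT => ?_⟩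
  have hX0 : 0 < X := by linarith
  obtain ⟨M, hM⟩ := pow_unbounded_of_one_lt X (one_lt_two (α := ℝ))
  have hpos : ∀ I ∈ T, (1 : ℝ) ≤ Ideal.absNorm I := by
    intro I hI
    have h1 : Ideal.absNorm I ≠ 0 := by
      rw [Ne, Ideal.absNorm_eq_zero_iff]
      exact (hT I hI).1
    exact_mod_cast Nat.one_le_iff_ne_zero.2 h1
  calc ∑ I ∈ T, (X / Ideal.absNorm I) ^ (7 / 8 : ℝ)
      ≤ ∑ I ∈ T, ∑ j ∈ Finset.range M, (if (2 : ℝ) ^ j ≤ X / Ideal.absNorm I then β ^ (j + 1) else 0) := by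
        refine Finset.sum_le_sum fun I hI => ?_
        have h1 := hpos I hI
        refine C3b_pow _ ?_ M ?_
        · rw [one_le_div (by linarith)]
          exact (hT I hI).2
        · refine lt_of_le_of_lt ?_ hM
          exact div_le_self hX0.le h1
    _ = ∑ j ∈ Finset.range M, ∑ I ∈ T, (if (2 : ℝ) ^ j ≤ X / Ideal.absNorm I then β ^ (j + 1) else 0) :=
        Finset.sum_comm
    _ ≤ ∑ j ∈ Finset.range M, (C * X * β) * (β / 2) ^ j := by
        refine Finset.sum_le_sum fun j _ => ?_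
        rw [← Finset.sum_filter, Finset.sum_const, nsmul_eq_mul]
        have h2 : (((T.filter fun I => (2 : ℝ) ^ j ≤ X / Ideal.absNorm I).card : ℕ) : ℝ) ≤ C * (X / 2 ^ j) := by
          by_cases hj : 1 ≤ X / 2 ^ j
          · obtain ⟨hfin, hle⟩ := hcount (X / 2 ^ j) hj
            refine le_trans ?_ hle
            rw [← Set.ncard_coe_finset]
            refine Nat.cast_le.2 (Set.ncard_le_ncard ?_ hfin)
            intro I hI
            rw [Finset.mem_coe, Finset.mem_filter] at hI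
            refine ⟨(hT I hI.1).1, ?_⟩
            have h3 := hpos I hI.1
            have h4 := hI.2
            rw [le_div_iff₀ (by linarith)] at h4
            rw [le_div_iff₀ (by positivity)]
            linarith
          · have h3 : (T.filter fun I => (2 : ℝ) ^ j ≤ X / Ideal.absNorm I) = ∅ := by
              rw [Finset.filter_eq_empty_iff]
              intro I hI h4
              apply hj
              have h5 := hpos I hI
              rw [le_div_iff₀ (by linarith)] at h4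
              rw [le_div_iff₀ (by positivity)]
              have h6 : (0 : ℝ) < 2 ^ j := by positivity
              nlinarith
            rw [h3, Finset.card_empty, Nat.cast_zero]
            positivity
        calc (((T.filter fun I => (2 : ℝ) ^ j ≤ X / Ideal.absNorm I).card : ℕ) : ℝ) * β ^ (j + 1)
            ≤ (C * (X / 2 ^ j)) * β ^ (j + 1) := mul_le_mul_of_nonneg_right h2 (by positivity)
          _ = (C * X * β) * (β / 2) ^ j := by
            rw [div_pow, pow_succ]
            ring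
    _ = (C * X * β) * ∑ j ∈ Finset.range M, (β / 2) ^ j := by rw [Finset.mul_sum]
    _ ≤ (C * X * β) * (1 - β / 2)⁻¹ := by
        refine mul_le_mul_of_nonneg_left ?_ (by positivity)
        have h1 : Summable fun j : ℕ => (β / 2) ^ j :=
          summable_geometric_of_lt_one (by positivity) (by linarith)
        rw [← tsum_geometric_of_lt_one (by positivity) (by linarith)]
        exact h1.sum_le_tsum _ fun j _ => by positivity
    _ = C * (β * (1 - β / 2)⁻¹) * X := by ring

private theorem C3b_ne {K : Type} [Field K] [NumberField K] {ι : Type} [Fintype ι]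
    (b : Module.Basis ι ℤ (𝓞 K)) {c : ι → ℤ} (hc : c ≠ 0) : Ideal.span {el b c} ≠ ⊥ := by
  rw [Ne, Ideal.span_singleton_eq_bot]
  exact fun h => hc (a4_zero b c h)

private theorem C3b_one {K : Type} [Field K] [NumberField K] {I : Ideal (𝓞 K)} (hI : I ≠ ⊥) :
    (1 : ℝ) ≤ Ideal.absNorm I := by
  have h1 : Ideal.absNorm I ≠ 0 := by
    rw [Ne, Ideal.absNorm_eq_zero_iff]
    exact hI
  exact_mod_cast Nat.one_le_iff_ne_zero.2 h1

open scoped Classical in
theorem log_norm_upper {K : Type} [Field K] [NumberField K] {ι : Type} [Fintype ι]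
    (b : Module.Basis ι ℤ (𝓞 K)) : ∃ C : ℝ, ∀ N : ℕ, 1 ≤ N →
    ∑ c ∈ (c7_box ι N).filter (fun c => c ≠ 0),
        Real.log (Ideal.absNorm (Ideal.span {el b c})) ≤
      (2 * N + 1 : ℝ) ^ (Fintype.card ι) * ((Fintype.card ι : ℝ) * Real.log N + C) := by
  obtain ⟨C, hC, hbox⟩ := norm_box b
  refine ⟨Real.log C, fun N hN => ?_⟩
  have hN1 : (1 : ℝ) ≤ N := by exact_mod_cast hN
  have hC1 : (1 : ℝ) ≤ C := by exact_mod_cast hC
  have h0 : 0 ≤ (Fintype.card ι : ℝ) * Real.log N + Real.log C :=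
    add_nonneg (mul_nonneg (Nat.cast_nonneg _) (Real.log_nonneg hN1)) (Real.log_nonneg hC1)
  have h1 : ∀ c ∈ (c7_box ι N).filter (fun c => c ≠ 0),
      Real.log (Ideal.absNorm (Ideal.span {el b c})) ≤ (Fintype.card ι : ℝ) * Real.log N + Real.log C := by
    intro c hc
    obtain ⟨h2, h3⟩ := Finset.mem_filter.1 hc
    have h4 := hbox c N ((c7_mem_box N c).1 h2)
    have h5 : (Ideal.absNorm (Ideal.span {el b c}) : ℝ) ≤ C * (N : ℝ) ^ (Fintype.card ι) := by
      exact_mod_cast h4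
    have h6 := C3b_one (C3b_ne b h3)
    have h7 := Real.log_le_log (by linarith) h5
    rw [Real.log_mul (by linarith) (by positivity), Real.log_pow] at h7
    linarith
  refine (Finset.sum_le_card_nsmul _ _ _ h1).trans ?_
  rw [nsmul_eq_mul]
  refine mul_le_mul_of_nonneg_right ?_ h0
  have h8 : (((c7_box ι N).filter (fun c => c ≠ 0)).card : ℝ) ≤ ((c7_box ι N).card : ℝ) := by
    exact_mod_cast Finset.card_filter_le _ _
  rw [C3b_card] at h8
  push_cast at h8
  exact h8

open scoped Classical in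
theorem log_norm_lower {K : Type} [Field K] [NumberField K] {ι : Type} [Fintype ι]
    (b : Module.Basis ι ℤ (𝓞 K)) : ∃ C : ℝ, ∀ N : ℕ, 1 ≤ N →
    (2 * N + 1 : ℝ) ^ (Fintype.card ι) * ((Fintype.card ι : ℝ) * Real.log N - C) ≤
      ∑ c ∈ (c7_box ι N).filter (fun c => c ≠ 0),
        Real.log (Ideal.absNorm (Ideal.span {el b c})) := by
  obtain ⟨C, hC, hbox⟩ := norm_box b
  obtain ⟨C1, hC1, hgen⟩ := box_gen b
  obtain ⟨C2, hC2, hsum⟩ := C3b_sum K
  have hC' : (1 : ℝ) ≤ C := by exact_mod_cast hC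
  refine ⟨8 * C1 * C2 * C + (Fintype.card ι : ℝ), fun N hN => ?_⟩
  have hN1 : (1 : ℝ) ≤ N := by exact_mod_cast hN
  set n := Fintype.card ι with hn
  set X : ℝ := C * (N : ℝ) ^ n with hX
  have hNn : (1 : ℝ) ≤ (N : ℝ) ^ n := one_le_pow₀ hN1
  have hX1 : 1 ≤ X := by nlinarith
  have hX0 : 0 < X := by linarith
  set B := (c7_box ι N).filter (fun c => c ≠ 0) with hB
  have hmem : ∀ c ∈ B, Ideal.span {el b c} ≠ ⊥ ∧ (Ideal.absNorm (Ideal.span {el b c}) : ℝ) ≤ X := by
    intro c hc
    obtain ⟨h2, h3⟩ := Finset.mem_filter.1 hc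
    refine ⟨C3b_ne b h3, ?_⟩
    have h4 := hbox c N ((c7_mem_box N c).1 h2)
    rw [hX]
    exact_mod_cast h4
  -- the main estimate
  have h1 : ∑ c ∈ B, (Real.log X - Real.log (Ideal.absNorm (Ideal.span {el b c}))) ≤ 8 * C1 * C2 * X := by
    calc ∑ c ∈ B, (Real.log X - Real.log (Ideal.absNorm (Ideal.span {el b c})))
        ≤ ∑ c ∈ B, 8 * (X / Ideal.absNorm (Ideal.span {el b c})) ^ (1 / 8 : ℝ) := by
          refine Finset.sum_le_sum fun c hc => ?_
          obtain ⟨h2, h3⟩ := hmem c hc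
          have h4 := C3b_one h2
          rw [← Real.log_div (by linarith) (by linarith)]
          have h5 := Real.log_le_rpow_div (x := X / Ideal.absNorm (Ideal.span {el b c})) (ε := 1 / 8)
            (by positivity) (by norm_num)
          refine h5.trans (le_of_eq ?_)
          ring
      _ = ∑ I ∈ B.image (fun c => Ideal.span {el b c}), ∑ c ∈ B with Ideal.span {el b c} = I,
            8 * (X / Ideal.absNorm (Ideal.span {el b c})) ^ (1 / 8 : ℝ) := by
          rw [Finset.sum_fiberwise_of_maps_to]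
          intro c hc
          exact Finset.mem_image_of_mem _ hc
      _ = ∑ I ∈ B.image (fun c => Ideal.span {el b c}),
            ((B.filter fun c => Ideal.span {el b c} = I).card : ℝ) * (8 * (X / Ideal.absNorm I) ^ (1 / 8 : ℝ)) := by
          refine Finset.sum_congr rfl fun I _ => ?_
          rw [Finset.sum_congr rfl (g := fun _ => 8 * (X / Ideal.absNorm I) ^ (1 / 8 : ℝ))]
          · rw [Finset.sum_const, nsmul_eq_mul]
          · intro c hc
            rw [(Finset.mem_filter.1 hc).2]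
      _ ≤ ∑ I ∈ B.image (fun c => Ideal.span {el b c}), 8 * C1 * (X / Ideal.absNorm I) ^ (7 / 8 : ℝ) := by
          refine Finset.sum_le_sum fun I hI => ?_
          obtain ⟨c0, hc0, rfl⟩ := Finset.mem_image.1 hI
          obtain ⟨h2, h3⟩ := hmem c0 hc0
          have h4 := C3b_one h2
          have h5 := hgen N hN _ h2
          have h6 : ((B.filter fun c => Ideal.span {el b c} = Ideal.span {el b c0}).card : ℝ) ≤
              (Nat.card {c : ι → ℤ // (∀ i, |c i| ≤ N) ∧ Ideal.span {el b c} = Ideal.span {el b c0}} : ℝ) := by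
            rw [c7_card N (fun c => Ideal.span {el b c} = Ideal.span {el b c0})]
            refine Nat.cast_le.2 (Finset.card_le_card ?_)
            intro c hc
            rw [Finset.mem_filter] at hc ⊢
            exact ⟨(Finset.mem_filter.1 hc.1).1, hc.2⟩
          set A : ℝ := (Ideal.absNorm (Ideal.span {el b c0}) : ℝ) with hA
          have hA0 : 0 < A := by linarith
          have h7 : ((N : ℝ) ^ n / A) ^ (3 / 4 : ℝ) ≤ (X / A) ^ (3 / 4 : ℝ) := by
            refine Real.rpow_le_rpow (by positivity) ?_ (by norm_num)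
            refine div_le_div_of_nonneg_right ?_ hA0.le
            rw [hX]
            nlinarith
          have h8 : (X / A) ^ (3 / 4 : ℝ) * (X / A) ^ (1 / 8 : ℝ) = (X / A) ^ (7 / 8 : ℝ) := by
            rw [← Real.rpow_add (by positivity)]
            norm_num
          have h9 : ((B.filter fun c => Ideal.span {el b c} = Ideal.span {el b c0}).card : ℝ) ≤
              C1 * (X / A) ^ (3 / 4 : ℝ) :=
            h6.trans (h5.trans (mul_le_mul_of_nonneg_left h7 hC1.le))
          calc ((B.filter fun c => Ideal.span {el b c} = Ideal.span {el b c0}).card : ℝ) *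
                (8 * (X / A) ^ (1 / 8 : ℝ)) ≤ (C1 * (X / A) ^ (3 / 4 : ℝ)) * (8 * (X / A) ^ (1 / 8 : ℝ)) :=
              mul_le_mul_of_nonneg_right h9 (by positivity)
            _ = 8 * C1 * ((X / A) ^ (3 / 4 : ℝ) * (X / A) ^ (1 / 8 : ℝ)) := by ring
            _ = _ := by rw [h8]
      _ = 8 * C1 * ∑ I ∈ B.image (fun c => Ideal.span {el b c}), (X / Ideal.absNorm I) ^ (7 / 8 : ℝ) := by
          rw [Finset.mul_sum]
      _ ≤ 8 * C1 * (C2 * X) := by
          refine mul_le_mul_of_nonneg_left (hsum X hX1 _ fun I hI => ?_) (by positivity)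
          obtain ⟨c0, hc0, rfl⟩ := Finset.mem_image.1 hI
          exact hmem c0 hc0
      _ = 8 * C1 * C2 * X := by ring
  rw [Finset.sum_sub_distrib, Finset.sum_const, nsmul_eq_mul] at h1
  have hBcard : (B.card : ℝ) = (2 * N + 1 : ℝ) ^ n - 1 := by
    have h2 : B = (c7_box ι N).erase 0 := by
      ext c
      rw [hB, Finset.mem_filter, Finset.mem_erase]
      tauto
    have h3 : (0 : ι → ℤ) ∈ c7_box ι N := (c7_mem_box N 0).2 fun i => by simp
    have h4 := Finset.card_erase_add_one h3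
    rw [← h2, C3b_card] at h4
    have h5 : ((B.card + 1 : ℕ) : ℝ) = (((2 * N + 1) ^ n : ℕ) : ℝ) := by rw [h4]
    push_cast at h5
    linarith
  set Q : ℝ := (2 * N + 1 : ℝ) ^ n with hQ
  have hNQ : (N : ℝ) ^ n ≤ Q := pow_le_pow_left₀ (by linarith) (by linarith) n
  have hQ1 : 1 ≤ Q := hNn.trans hNQ
  have hlogX : Real.log X = Real.log C + n * Real.log N := by
    rw [hX, Real.log_mul (by linarith) (by positivity), Real.log_pow]
  have hlogN : 0 ≤ Real.log N := Real.log_nonneg hN1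
  have hlogC : 0 ≤ Real.log C := Real.log_nonneg hC'
  have hnlog : (n : ℝ) * Real.log N ≤ n * Q := by
    rcases Nat.eq_zero_or_pos n with h | h
    · rw [h]
      simp
    · refine mul_le_mul_of_nonneg_left ?_ (Nat.cast_nonneg _)
      have h2 : Real.log N ≤ N := Real.log_le_self (by linarith)
      have h3 : (N : ℝ) ≤ (N : ℝ) ^ n := le_self_pow₀ hN1 (by omega)
      linarith
  have hX2 : 8 * C1 * C2 * X ≤ 8 * C1 * C2 * C * Q := by
    rw [hX]
    have : 8 * C1 * C2 * (C * (N : ℝ) ^ n) = 8 * C1 * C2 * C * (N : ℝ) ^ n := by ring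
    rw [this]
    exact mul_le_mul_of_nonneg_left hNQ (by positivity)
  rw [hBcard, hlogX] at h1
  nlinarith [mul_nonneg (sub_nonneg.2 hQ1) hlogC]

end SC7
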