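import Pool.Agent.MP_c1dca2_ag.SC5.A6

/-!
# [SC7-C4] Chebyshev's upper bound for the primes of a number field

`theta_upper`: `∑_{v ∈ T} log (nv v)`, `nv v ≤ x`: group by the rational prime `p` below `v` (`nv v = p ^ f`, `p ≤ x`; see SC5/A6, A7 for
the same grouping): `∑_{v | p} log (nv v) ≤ n log p` (`n = finrank ℚ K`), so the sum is at most
`n ∑_{p ≤ x} log p = n θ(x) ≤ n log 4 x` (Mathlib: `Chebyshev.theta_le_log4_mul_x`, Chebyshev.theta).
`theta_root`: dyadic decomposition: the `v` with `x 2^(-j-1) < nv v ≤ x 2^(-j)`: `nv v ^ (1/n - 1) ≤ (x 2^(-j-1))^(1/n - 1)`, so the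
part is at most `C x 2^(-j) (x 2^(-j-1))^(1/n - 1) ≤ 2 C x^(1/n) 2^(-j/n)`; sum over `j` (a geometric series; or compare
`u^(1/n - 1) ≤ ...` by Abel summation).
-/

set_option autoImplicit false

open NumberField IsDedekindDomain SC5

namespace SC7

private theorem c4_below {K : Type} [Field K] [NumberField K] (v : Pr K) :
    ∃ p : ℕ, p.Prime ∧ (p : 𝓞 K) ∈ v.asIdeal ∧ p ≤ nv v ∧
      Real.log (nv v) ≤ Module.finrank ℚ K * Real.log p := by
  have h1 : v.asIdeal.IsPrime := v.isPrime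
  have := h1
  have : NeZero v.asIdeal := ⟨v.ne_bot⟩
  have hpp := Nat.absNorm_under_prime v.asIdeal
  set p := Ideal.absNorm (Ideal.under ℤ v.asIdeal) with hpdef
  have hspan : Ideal.span {(p : ℤ)} = Ideal.under ℤ v.asIdeal := Int.ideal_span_absNorm_eq_self _
  have : v.asIdeal.LiesOver (Ideal.span {(p : ℤ)}) := ⟨hspan⟩
  have hnorm := Ideal.absNorm_eq_pow_inertiaDeg' (R := 𝓞 K) v.asIdeal hpp
  set f := (Ideal.span {(p : ℤ)}).inertiaDeg' v.asIdeal with hf
  have hnv : nv v = p ^ f := hnorm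
  have hf1 : f ≠ 0 := by
    intro h
    rw [h, pow_zero, Ideal.absNorm_eq_one_iff] at hnorm
    exact h1.ne_top hnorm
  have hmem2 : (p : 𝓞 K) ∈ v.asIdeal := by
    have hmem : (p : ℤ) ∈ Ideal.under ℤ v.asIdeal := by
      rw [← hspan]; exact Ideal.mem_span_singleton_self _
    have := Ideal.mem_comap.mp hmem
    simpa using this
  refine ⟨p, hpp, hmem2, ?_, ?_⟩
  · rw [hnv]; exact Nat.le_self_pow hf1 p
  · have h2 : Ideal.span {(p : 𝓞 K)} ≤ v.asIdeal := (Ideal.span_singleton_le_iff_mem _).2 hmem2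
    have h3 := Ideal.absNorm_dvd_absNorm_of_le h2
    rw [Ideal.absNorm_span_natCast, RingOfIntegers.rank] at h3
    have h4 : nv v ≤ p ^ Module.finrank ℚ K := Nat.le_of_dvd (pow_pos hpp.pos _) h3
    have h5 : (0 : ℝ) < nv v := by
      rw [hnv]
      exact_mod_cast pow_pos hpp.pos _
    rw [← Real.log_pow]
    apply Real.log_le_log h5
    exact_mod_cast h4

private theorem c4_theta (z : ℝ) (hz : 1 ≤ z) (F : Finset ℕ)
    (hF : ∀ p ∈ F, p.Prime ∧ (p : ℝ) ≤ z) : ∑ p ∈ F, Real.log p ≤ Real.log 4 * z := by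
  refine le_trans ?_ (Chebyshev.theta_le_log4_mul_x (x := z) (by linarith))
  rw [Chebyshev.theta]
  refine Finset.sum_le_sum_of_subset_of_nonneg ?_ ?_
  · intro p hp
    obtain ⟨hpp, h1⟩ := hF p hp
    simp only [Finset.mem_filter, Finset.mem_Ioc]
    exact ⟨⟨hpp.pos, Nat.le_floor h1⟩, hpp⟩
  · intro p hp _
    simp only [Finset.mem_filter, Finset.mem_Ioc] at hp
    exact Real.log_nonneg (by exact_mod_cast hp.1.1)

theorem theta_upper (K : Type) [Field K] [NumberField K] : ∃ C : ℝ, 0 < C ∧ ∀ x : ℝ, 1 ≤ x →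
    ∀ T : Finset (Pr K), (∀ v ∈ T, (nv v : ℝ) ≤ x) → ∑ v ∈ T, Real.log (nv v) ≤ C * x := by
  classical
  have hn : 0 < Module.finrank ℚ K := Module.finrank_pos
  have hn' : (0 : ℝ) < Module.finrank ℚ K := by exact_mod_cast hn
  have hl4 : 0 < Real.log 4 := Real.log_pos (by norm_num)
  refine ⟨Module.finrank ℚ K * (Module.finrank ℚ K * Real.log 4), by positivity, ?_⟩
  intro z hz T hT
  choose g hg using fun v : Pr K => c4_below v
  calc ∑ v ∈ T, Real.log (nv v) ≤ ∑ v ∈ T, Module.finrank ℚ K * Real.log (g v) :=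
        Finset.sum_le_sum fun v _ => (hg v).2.2.2
    _ = ∑ m ∈ T.image g, ∑ v ∈ T with g v = m, Module.finrank ℚ K * Real.log (g v) := by
        rw [Finset.sum_fiberwise_of_maps_to]
        intro P hP
        exact Finset.mem_image_of_mem g hP
    _ = ∑ m ∈ T.image g, ((T.filter fun v => g v = m).card : ℝ) *
          (Module.finrank ℚ K * Real.log m) := by
        apply Finset.sum_congr rfl
        intro m _
        rw [Finset.sum_congr rfl (g := fun _ => Module.finrank ℚ K * Real.log m)]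
        · rw [Finset.sum_const, nsmul_eq_mul]
        · intro P hP
          rw [(Finset.mem_filter.mp hP).2]
    _ ≤ ∑ m ∈ T.image g, (Module.finrank ℚ K : ℝ) * (Module.finrank ℚ K * Real.log m) := by
        apply Finset.sum_le_sum
        intro m hm
        obtain ⟨v, hv, hvm⟩ := Finset.mem_image.mp hm
        have hmp : m.Prime := hvm ▸ (hg v).1
        have hm1 : (1 : ℝ) ≤ m := by exact_mod_cast hmp.one_lt.le
        apply mul_le_mul_of_nonneg_right _ (mul_nonneg hn'.le (Real.log_nonneg hm1))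
        have hinj : Function.Injective (fun v : Pr K => v.asIdeal) :=
          fun a b h => HeightOneSpectrum.ext h
        have := SC4.card_above_le K m hmp ((T.filter fun v => g v = m).image
          (fun v : Pr K => v.asIdeal)) (by
          intro Q hQ
          obtain ⟨w, hw, rfl⟩ := Finset.mem_image.mp hQ
          obtain ⟨-, hwm⟩ := Finset.mem_filter.mp hw
          refine ⟨w.isPrime, w.ne_bot, ?_⟩
          rw [← hwm]
          exact (hg w).2.1)
        rw [Finset.card_image_of_injective _ hinj] at this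
        exact_mod_cast this
    _ = (Module.finrank ℚ K : ℝ) * (Module.finrank ℚ K * ∑ m ∈ T.image g, Real.log m) := by
        rw [Finset.mul_sum, Finset.mul_sum]
    _ ≤ Module.finrank ℚ K * (Module.finrank ℚ K * (Real.log 4 * z)) := by
        apply mul_le_mul_of_nonneg_left _ hn'.le
        apply mul_le_mul_of_nonneg_left _ hn'.le
        apply c4_theta z hz
        intro p hp
        obtain ⟨v, hv, rfl⟩ := Finset.mem_image.mp hp
        refine ⟨(hg v).1, le_trans ?_ (hT v hv)⟩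
        exact_mod_cast (hg v).2.2.1
    _ = Module.finrank ℚ K * (Module.finrank ℚ K * Real.log 4) * z := by ring

theorem theta_root (K : Type) [Field K] [NumberField K] : ∃ C : ℝ, 0 < C ∧ ∀ x : ℝ, 1 ≤ x →
    ∀ T : Finset (Pr K), (∀ v ∈ T, (nv v : ℝ) ≤ x) →
      ∑ v ∈ T, Real.log (nv v) / nv v * (nv v : ℝ) ^ (1 / (Module.finrank ℚ K : ℝ)) ≤
        C * x ^ (1 / (Module.finrank ℚ K : ℝ)) := by
  classical
  obtain ⟨C, hC, hT0⟩ := theta_upper K
  have hn : 0 < Module.finrank ℚ K := Module.finrank_pos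
  have hn1 : (1 : ℝ) ≤ Module.finrank ℚ K := by exact_mod_cast hn
  set a : ℝ := 1 / (Module.finrank ℚ K : ℝ) with ha
  have ha0 : 0 < a := by positivity
  have ha1 : a ≤ 1 := by
    rw [ha, div_le_one (by linarith)]
    exact hn1
  set b : ℝ := (2 : ℝ) ^ a with hb
  have hb1 : 1 < b := Real.one_lt_rpow (by norm_num) ha0
  have hb0 : 0 < b - 1 := by linarith
  refine ⟨2 * C * (b / (b - 1)), by positivity, ?_⟩
  intro x hx T hT
  have hpow : ∀ i : ℕ, ((2 : ℝ) ^ i) ^ a = b ^ i := by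
    intro i
    rw [hb, ← Real.rpow_natCast, ← Real.rpow_natCast, ← Real.rpow_mul (by norm_num),
      ← Real.rpow_mul (by norm_num), mul_comm]
  have hnv : ∀ v ∈ T, 2 ≤ nv v := by
    intro v _
    obtain ⟨p, hp, -, h1, -⟩ := c4_below v
    exact hp.two_le.trans h1
  have hterm : ∀ i : ℕ, ∑ v ∈ T with Nat.log 2 (nv v) = i,
      Real.log (nv v) / nv v * (nv v : ℝ) ^ a ≤ 2 * C * b ^ i := by
    intro i
    have h1 : ∀ v ∈ T.filter (fun v => Nat.log 2 (nv v) = i),
        Real.log (nv v) / nv v * (nv v : ℝ) ^ a ≤ Real.log (nv v) * (((2 : ℝ) ^ i)⁻¹ * b ^ i) := by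
      intro v hv
      rw [Finset.mem_filter] at hv
      have h2 := hnv v hv.1
      have h3 : 2 ^ i ≤ nv v := by
        rw [← hv.2]
        exact Nat.pow_log_le_self 2 (by omega)
      have h4 : (2 : ℝ) ^ i ≤ nv v := by exact_mod_cast h3
      have h5 : (0 : ℝ) < 2 ^ i := by positivity
      have h6 : (0 : ℝ) < nv v := h5.trans_le h4
      have h7 : Real.log (nv v) / nv v * (nv v : ℝ) ^ a = Real.log (nv v) * (nv v : ℝ) ^ (a - 1) := by
        rw [Real.rpow_sub_one h6.ne']
        ring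
      have h8 : ((2 : ℝ) ^ i)⁻¹ * b ^ i = ((2 : ℝ) ^ i) ^ (a - 1) := by
        rw [Real.rpow_sub_one h5.ne', hpow]
        ring
      rw [h7, h8]
      apply mul_le_mul_of_nonneg_left _ (Real.log_nonneg (by
        have : (2 : ℝ) ≤ nv v := by exact_mod_cast h2
        linarith))
      exact Real.rpow_le_rpow_of_nonpos h5 h4 (by linarith)
    refine (Finset.sum_le_sum h1).trans ?_
    rw [← Finset.sum_mul]
    have h9 := hT0 (2 ^ (i + 1)) (one_le_pow₀ (by norm_num)) (T.filter (fun v => Nat.log 2 (nv v) = i)) (by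
      intro v hv
      rw [Finset.mem_filter] at hv
      have h3 := Nat.lt_pow_succ_log_self (b := 2) (by norm_num) (nv v)
      rw [hv.2] at h3
      exact_mod_cast h3.le)
    have h10 : (0 : ℝ) ≤ ((2 : ℝ) ^ i)⁻¹ * b ^ i := by positivity
    refine (mul_le_mul_of_nonneg_right h9 h10).trans (le_of_eq ?_)
    rw [pow_succ]
    field_simp
  set N := Nat.log 2 ⌊x⌋₊ with hN
  have hfl : 1 ≤ ⌊x⌋₊ := Nat.le_floor (by exact_mod_cast hx)
  have hmaps : ∀ v ∈ T, Nat.log 2 (nv v) ∈ Finset.range (N + 1) := by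
    intro v hv
    rw [Finset.mem_range]
    have h1 : nv v ≤ ⌊x⌋₊ := Nat.le_floor (hT v hv)
    exact Nat.lt_succ_of_le (Nat.log_mono_right h1)
  rw [← Finset.sum_fiberwise_of_maps_to hmaps]
  refine (Finset.sum_le_sum (fun i _ => hterm i)).trans ?_
  rw [← Finset.mul_sum, geom_sum_eq hb1.ne', mul_assoc (2 * C)]
  apply mul_le_mul_of_nonneg_left _ (by positivity)
  have h11 : b ^ N ≤ x ^ a := by
    rw [← hpow]
    apply Real.rpow_le_rpow (by positivity) _ ha0.le
    have h12 : 2 ^ N ≤ ⌊x⌋₊ := Nat.pow_log_le_self 2 (by omega)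
    have h13 : ((2 ^ N : ℕ) : ℝ) ≤ (⌊x⌋₊ : ℝ) := by exact_mod_cast h12
    have h14 : (⌊x⌋₊ : ℝ) ≤ x := Nat.floor_le (by linarith)
    push_cast at h13
    exact h13.trans h14
  rw [div_mul_eq_mul_div, div_le_div_iff_of_pos_right hb0, pow_succ]
  have h15 : b ^ N * b ≤ x ^ a * b := mul_le_mul_of_nonneg_right h11 (by linarith)
  linarith

end SC7
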