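import Pool.Agent.MP_c1dca2_ag.SC5.A6

/-!
# [SC7-C4b] the primes whose norm is not a prime

`nv v = p ^ f` with a prime `p` and `f ≥ 2` if it is not a prime (`nv v` is a prime power: `Ideal.absNorm` of a prime ideal; see SC5/A6, A7 for
the same facts, e.g. the grouping by the prime `p` below `v`); at most `n = finrank ℚ K` primes `v` lie above `p`. `log (nv v) / nv v ≤ 4 (nv v)^(-3/4) ≤
4 p ^ (-3/2)` (`log y ≤ 4 y^(1/4)`: `Real.log_le_rpow_div`), which is summable over `p`.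
-/

set_option autoImplicit false

open NumberField IsDedekindDomain SC5

namespace SC7

private theorem C4b_below {K : Type} [Field K] [NumberField K] (v : Pr K) (hv : ¬ (nv v).Prime) :
    ∃ p : ℕ, p.Prime ∧ (p : 𝓞 K) ∈ v.asIdeal ∧
      Real.log (nv v) / nv v ≤ 4 * ((p : ℝ) ^ (3 / 2 : ℝ))⁻¹ := by
  have h1 : v.asIdeal.IsPrime := v.isPrime
  have := h1
  have : NeZero v.asIdeal := ⟨v.ne_bot⟩
  have hpp := Nat.absNorm_under_prime v.asIdeal
  set p := Ideal.absNorm (Ideal.under ℤ v.asIdeal) with hpdef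
  have hspan : Ideal.span {(p : ℤ)} = Ideal.under ℤ v.asIdeal := Int.ideal_span_absNorm_eq_self _
  have : v.asIdeal.LiesOver (Ideal.span {(p : ℤ)}) := ⟨hspan⟩
  have hnorm := Ideal.absNorm_eq_pow_inertiaDeg' (R := 𝓞 K) v.asIdeal hpp
  set f := (Ideal.span {(p : ℤ)}).inertiaDeg' v.asIdeal with hf
  have hnv : nv v = p ^ f := hnorm
  have hf1 : f ≠ 0 := by
    intro h
    rw [h, pow_zero, Ideal.absNorm_eq_one_iff] at hnorm
    exact h1.ne_top hnorm
  have hf2 : 2 ≤ f := by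
    rcases Nat.lt_or_ge f 2 with h | h
    · exfalso
      have h2 : f = 1 := by omega
      rw [h2, pow_one] at hnv
      rw [hnv] at hv
      exact hv hpp
    · exact h
  refine ⟨p, hpp, ?_, ?_⟩
  · have hmem : (p : ℤ) ∈ Ideal.under ℤ v.asIdeal := by
      rw [← hspan]; exact Ideal.mem_span_singleton_self _
    have := Ideal.mem_comap.mp hmem
    simpa using this
  · have hp0 : (1 : ℝ) ≤ p := by exact_mod_cast hpp.one_lt.le
    have h2 : ((p : ℝ) ^ 2) ≤ nv v := by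
      rw [hnv]
      push_cast
      exact pow_le_pow_right₀ hp0 hf2
    set y : ℝ := (nv v : ℝ) with hy
    have hy1 : 1 ≤ y := (one_le_pow₀ hp0).trans h2
    have hy0 : 0 < y := by linarith
    have h3 := Real.log_le_rpow_div (x := y) (ε := 1 / 4) hy0.le (by norm_num)
    have h4 : y ^ (1 / 4 : ℝ) / y = (y ^ (3 / 4 : ℝ))⁻¹ := by
      rw [← Real.rpow_neg hy0.le, ← Real.rpow_sub_one hy0.ne']
      norm_num
    have h5 : (p : ℝ) ^ (3 / 2 : ℝ) ≤ y ^ (3 / 4 : ℝ) := by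
      have h6 : (p : ℝ) ^ (3 / 2 : ℝ) = ((p : ℝ) ^ 2) ^ (3 / 4 : ℝ) := by
        rw [← Real.rpow_natCast, ← Real.rpow_mul (by linarith)]
        norm_num
      rw [h6]
      exact Real.rpow_le_rpow (by positivity) h2 (by norm_num)
    calc Real.log y / y ≤ (y ^ (1 / 4 : ℝ) / (1 / 4)) / y := by
          exact div_le_div_of_nonneg_right h3 hy0.le
      _ = 4 * (y ^ (1 / 4 : ℝ) / y) := by ring
      _ = 4 * (y ^ (3 / 4 : ℝ))⁻¹ := by rw [h4]
      _ ≤ 4 * ((p : ℝ) ^ (3 / 2 : ℝ))⁻¹ := by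
          refine mul_le_mul_of_nonneg_left ?_ (by norm_num)
          exact inv_anti₀ (by positivity) h5

theorem nonprime_sum (K : Type) [Field K] [NumberField K] : ∃ C : ℝ, 0 < C ∧
    ∀ T : Finset (Pr K), (∀ v ∈ T, ¬ (nv v).Prime) →
      ∑ v ∈ T, Real.log (nv v) / nv v ≤ C := by
  classical
  have hs : Summable fun m : ℕ => ((m : ℝ) ^ (3 / 2 : ℝ))⁻¹ := Real.summable_nat_rpow_inv.2 (by norm_num)
  set A : ℝ := ∑' m : ℕ, ((m : ℝ) ^ (3 / 2 : ℝ))⁻¹ with hA
  have hA0 : 0 ≤ A := tsum_nonneg fun m => by positivity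
  refine ⟨(Module.finrank ℚ K : ℝ) * (4 * A) + 1, by positivity, fun T hT => ?_⟩
  have hg0 : ∀ v : Pr K, ∃ p : ℕ, ¬ (nv v).Prime → p.Prime ∧ (p : 𝓞 K) ∈ v.asIdeal ∧
      Real.log (nv v) / nv v ≤ 4 * ((p : ℝ) ^ (3 / 2 : ℝ))⁻¹ := by
    intro v
    by_cases h : (nv v).Prime
    · exact ⟨0, fun h' => absurd h h'⟩
    · obtain ⟨p, hp⟩ := C4b_below v h
      exact ⟨p, fun _ => hp⟩
  choose g hg using hg0
  calc ∑ v ∈ T, Real.log (nv v) / nv v ≤ ∑ v ∈ T, 4 * ((g v : ℝ) ^ (3 / 2 : ℝ))⁻¹ :=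
        Finset.sum_le_sum fun v hv => (hg v (hT v hv)).2.2
    _ = ∑ m ∈ T.image g, ∑ v ∈ T with g v = m, 4 * ((g v : ℝ) ^ (3 / 2 : ℝ))⁻¹ := by
        rw [Finset.sum_fiberwise_of_maps_to]
        intro P hP
        exact Finset.mem_image_of_mem g hP
    _ = ∑ m ∈ T.image g, ((T.filter fun v => g v = m).card : ℝ) * (4 * ((m : ℝ) ^ (3 / 2 : ℝ))⁻¹) := by
        apply Finset.sum_congr rfl
        intro m _
        rw [Finset.sum_congr rfl (g := fun _ => 4 * ((m : ℝ) ^ (3 / 2 : ℝ))⁻¹)]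
        · rw [Finset.sum_const, nsmul_eq_mul]
        · intro P hP
          rw [(Finset.mem_filter.mp hP).2]
    _ ≤ ∑ m ∈ T.image g, (Module.finrank ℚ K : ℝ) * (4 * ((m : ℝ) ^ (3 / 2 : ℝ))⁻¹) := by
        apply Finset.sum_le_sum
        intro m hm
        obtain ⟨v, hv, hvm⟩ := Finset.mem_image.mp hm
        have hmp : m.Prime := hvm ▸ (hg v (hT v hv)).1
        apply mul_le_mul_of_nonneg_right _ (by positivity)
        have hinj : Function.Injective (fun v : Pr K => v.asIdeal) :=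
          fun a b h => HeightOneSpectrum.ext h
        have := SC4.card_above_le K m hmp ((T.filter fun v => g v = m).image
          (fun v : Pr K => v.asIdeal)) (by
          intro Q hQ
          obtain ⟨w, hw, rfl⟩ := Finset.mem_image.mp hQ
          obtain ⟨hwT, hwm⟩ := Finset.mem_filter.mp hw
          refine ⟨w.isPrime, w.ne_bot, ?_⟩
          rw [← hwm]
          exact (hg w (hT w hwT)).2.1)
        rw [Finset.card_image_of_injective _ hinj] at this
        exact_mod_cast this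
    _ = (Module.finrank ℚ K : ℝ) * (4 * ∑ m ∈ T.image g, ((m : ℝ) ^ (3 / 2 : ℝ))⁻¹) := by
        rw [Finset.mul_sum, Finset.mul_sum]
    _ ≤ (Module.finrank ℚ K : ℝ) * (4 * A) + 1 := by
        have h1 : ∑ m ∈ T.image g, ((m : ℝ) ^ (3 / 2 : ℝ))⁻¹ ≤ A :=
          hs.sum_le_tsum _ fun m _ => by positivity
        have h2 : (Module.finrank ℚ K : ℝ) * (4 * ∑ m ∈ T.image g, ((m : ℝ) ^ (3 / 2 : ℝ))⁻¹) ≤
            (Module.finrank ℚ K : ℝ) * (4 * A) :=
          mul_le_mul_of_nonneg_left (by linarith) (Nat.cast_nonneg _)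
        linarith

end SC7
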