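import Pool.Agent.MP_c1dca2_ag.SC5.C6

/-!
# [SC7] 100% of the everywhere locally soluble quadratic twists of a hyperelliptic curve have no
section: definitions
-/

set_option autoImplicit false

open NumberField IsDedekindDomain SC5

noncomputable section

namespace SC7

section

variable (k : Type) [Field k] [NumberField k] {I : Type} {L : I → Type} [∀ i, Field (L i)]
  [∀ i, NumberField (L i)] [∀ i, Algebra k (L i)]

open scoped Classical in
/-- The proportion of the sign vectors above a prime allowed by the relation at `o`, if the signs at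
the primes of the `L i`, `i ∈ J`, are random. -/
def beta3 (J : Finset I) (o : PL L) : ℝ :=
  if ∀ q : PL L, bl k q.2 = bl k o.2 → Odd (dg k q.2) → q.1 ∈ J then
    1 / 2 ^ ((up k J o).card - 2) else 1 / 2 ^ ((up k J o).card - 1)

open scoped Classical in
/-- The cost of the relation at `o`. -/
def cp3 [Fintype I] (K : ℕ) (Λ : ℝ) (p : I → ℕ) (o : PL L) : ℝ :=
  if o.1 ∈ vis p (blk K Λ o) then beta3 k (vis p (blk K Λ o)) o else 1

/-- The additional conditions on the degrees of the fields. -/
structure Deg3 [Fintype I] (L : I → Type) [∀ i, Field (L i)] [∀ i, NumberField (L i)]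
    [∀ i, Algebra k (L i)] : Prop where
  two_le : ∀ i, 2 ≤ Module.finrank k (L i)
  even : Even (∑ i, Module.finrank k (L i))
  six_le : 6 ≤ ∑ i, Module.finrank k (L i)
  quad : ∀ t, Module.finrank k (L t) = 2 → ∃ s, Odd (Module.finrank k (L s))

/-- The primes outside `S` above which some `L i` has a prime of degree one. -/
def PS (L : I → Type) [∀ i, Field (L i)] [∀ i, NumberField (L i)] [∀ i, Algebra k (L i)]
    (S : Finset (Pr k)) : Set (Pr k) :=
  {v | v ∉ S ∧ ∃ (i : I) (w : Pr (L i)), bl k w = v ∧ dg k w = 1}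

end

open scoped Classical in
/-- The primes in `P` of norm at most `x`. -/
def PF {k : Type} [Field k] [NumberField k] (P : Set (Pr k)) (x : ℝ) : Finset (Pr k) :=
  (finite_nv k ⌊x⌋₊).toFinset.filter (fun v => v ∈ P)

/-- The sum of the inverse norms of the primes in `P` of norm at most `x`. -/
def MP {k : Type} [Field k] [NumberField k] (P : Set (Pr k)) (x : ℝ) : ℝ :=
  ∑ v ∈ PF P x, ((nv v : ℝ))⁻¹

theorem mem_PF {k : Type} [Field k] [NumberField k] (P : Set (Pr k)) (x : ℝ) (v : Pr k) :
    v ∈ PF P x ↔ v ∈ P ∧ (nv v : ℝ) ≤ x := by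
  classical
  unfold PF
  rw [Finset.mem_filter, Set.Finite.mem_toFinset, Set.mem_setOf_eq]
  constructor
  · rintro ⟨h1, h2⟩
    refine ⟨h2, ?_⟩
    have h3 : nv v ≠ 0 := by
      have := two_le_nv v
      omega
    exact (Nat.le_floor_iff' h3).1 h1
  · rintro ⟨h1, h2⟩
    exact ⟨Nat.le_floor h2, h1⟩

end SC7
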