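import Pool.Agent.MP_c1dca2_ag.SC7.C1
import Pool.Agent.MP_c1dca2_ag.SC7.C2
import Pool.Agent.MP_c1dca2_ag.SC7.C3b
import Pool.Agent.MP_c1dca2_ag.SC7.C4
import Pool.Agent.MP_c1dca2_ag.SC7.Defs

/-!
# [SC7-C5] Mertens: `∑_{nv v ≤ x} log (nv v) / nv v ≥ log x - C`

`b = RingOfIntegers.basis K`, `ι` its index type, `n = card ι = finrank ℚ K` (`card_basis`). Let `N ≥ 1`, `X = C₁ N ^ n` (`C₁` from
`norm_box`). By `t4_log_norm` (SC5/T4) for every `c ≠ 0` in the box: `log N(c) ≤ ∑_{v, nv v ≤ X} ∑_{j < J} [c ∈ v ^ (j+1)] log (nv v)`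
(the `v` with `c ∈ v` have `nv v ≤ N(c) ≤ X`; `J = ⌈X⌉`). Sum over the `c ≠ 0` in the box and interchange:
* `j = 0`: `#{c ≠ 0 in the box, c ∈ v} ≤ (2 (N + D_v) + 1) ^ n / nv v` by `lat_upper` with `D_v = ⌈(C₂ nv v)^(1/n)⌉₊` (`short_rep`; if
  `|c i| ^ n ≤ C₂ nv v` then `|c i| ≤ D_v`). For `nv v ≤ X`: `D_v ≤ C₃ N`, and `(2 (N + D_v) + 1) ^ n ≤ (2 N + 1) ^ n (1 + C₄ D_v / N)`
  (`(1 + t)^n ≤ 1 + C t` for `0 ≤ t ≤ C₃`).
* `j ≥ 1`: `box_ideal` (SC5/A4): at most `C₅ N ^ n / nv v ^ (j + 1)`; `∑_{j ≥ 1} nv v ^ (-j-1) ≤ 2 / nv v ^ 2`, and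
  `∑_v log (nv v) / nv v ^ 2 ≤ C` (`sum_sq`, SC5/A6, or `theta_upper`).
So with `log_norm_lower`: `(2N+1)^n (n log N - C) ≤ (2N+1)^n (∑_{nv v ≤ X} log (nv v) / nv v + (C₄/N) ∑_{nv v ≤ X} log (nv v) / nv v D_v + C)`
and `D_v ≤ C₆ (nv v)^(1/n)`, `theta_root`: the second sum is at most `C X^(1/n) ≤ C N`. Hence
`n log N - C ≤ ∑_{nv v ≤ C₁ N^n} log (nv v) / nv v` for all `N ≥ 1`. For `x ≥ 2` take `N = ⌊(x / C₁)^(1/n)⌋₊` (if it is `≥ 1`; otherwise `x` is bounded
and the claim is trivial with a large `C`): `C₁ N^n ≤ x` and `n log N ≥ log x - C`.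
(`PF Set.univ x` = the set of the primes with `nv v ≤ x`.)
-/

set_option autoImplicit false

open NumberField IsDedekindDomain SC5

namespace SC7

private theorem c5_pow (t M : ℝ) (h0 : 0 ≤ t) (hM : t ≤ M) (n : ℕ) :
    (1 + t) ^ n ≤ 1 + n * (1 + M) ^ n * t := by
  induction n with
  | zero => simp
  | succ m ih =>
    have h1 : 0 ≤ M := h0.trans hM
    have h2 : (1 : ℝ) ≤ (1 + M) ^ (m + 1) := one_le_pow₀ (by linarith)
    have h3 : (1 + t) ^ (m + 1) ≤ (1 + m * (1 + M) ^ m * t) * (1 + t) := by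
      rw [pow_succ]
      exact mul_le_mul_of_nonneg_right ih (by linarith)
    have h4 : (1 + M) ^ m * (1 + t) ≤ (1 + M) ^ (m + 1) := by
      rw [pow_succ]
      exact mul_le_mul_of_nonneg_left (by linarith) (by positivity)
    have h5 : (m : ℝ) * t * ((1 + M) ^ m * (1 + t)) ≤ (m : ℝ) * t * (1 + M) ^ (m + 1) :=
      mul_le_mul_of_nonneg_left h4 (by positivity)
    have h6 : t ≤ t * (1 + M) ^ (m + 1) := le_mul_of_one_le_right h0 h2
    push_cast
    calc (1 + t) ^ (m + 1) ≤ (1 + m * (1 + M) ^ m * t) * (1 + t) := h3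
      _ = 1 + t + (m : ℝ) * t * ((1 + M) ^ m * (1 + t)) := by ring
      _ ≤ 1 + t * (1 + M) ^ (m + 1) + (m : ℝ) * t * (1 + M) ^ (m + 1) := by linarith
      _ = _ := by ring

private theorem c5_sumsq (K : Type) [Field K] [NumberField K] : ∃ C : ℝ, 0 ≤ C ∧
    ∀ T : Finset (Pr K), ∑ v ∈ T, Real.log (nv v) / (nv v : ℝ) ^ 2 ≤ C := by
  have hinj : Function.Injective (fun v : Pr K => v.asIdeal) :=
    fun a b h => HeightOneSpectrum.ext h
  have hs : Summable (fun v : Pr K => (nv v : ℝ) ^ (-(3 / 2 : ℝ))) :=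
    (SC4.summable_ideals K (3 / 2) (by norm_num)).comp_injective hinj
  refine ⟨2 * ∑' v : Pr K, (nv v : ℝ) ^ (-(3 / 2 : ℝ)), ?_, ?_⟩
  · have : 0 ≤ ∑' v : Pr K, (nv v : ℝ) ^ (-(3 / 2 : ℝ)) := tsum_nonneg (fun v => by positivity)
    linarith
  intro T
  have h1 : ∀ v : Pr K, Real.log (nv v) / (nv v : ℝ) ^ 2 ≤ 2 * (nv v : ℝ) ^ (-(3 / 2 : ℝ)) := by
    intro v
    have h2 : (0 : ℝ) < nv v := by
      have := two_le_nv v
      exact_mod_cast (by omega : 0 < nv v)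
    have h3 := Real.log_le_rpow_div h2.le (show (0 : ℝ) < 1 / 2 by norm_num)
    rw [div_le_iff₀ (by positivity)]
    have h4 : (nv v : ℝ) ^ (-(3 / 2 : ℝ)) * (nv v : ℝ) ^ 2 = (nv v : ℝ) ^ (1 / 2 : ℝ) := by
      rw [← Real.rpow_natCast, ← Real.rpow_add h2]
      norm_num
    rw [mul_assoc, h4]
    linarith
  calc ∑ v ∈ T, Real.log (nv v) / (nv v : ℝ) ^ 2
      ≤ ∑ v ∈ T, 2 * (nv v : ℝ) ^ (-(3 / 2 : ℝ)) := Finset.sum_le_sum (fun v _ => h1 v)
    _ = 2 * ∑ v ∈ T, (nv v : ℝ) ^ (-(3 / 2 : ℝ)) := by rw [Finset.mul_sum]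
    _ ≤ _ := by
      have := hs.sum_le_tsum T (fun v _ => by positivity)
      linarith

private theorem c5_geom (m : ℝ) (hm : 2 ≤ m) (J : ℕ) :
    ∑ j ∈ Finset.range J, 1 / m ^ (j + 2) ≤ 2 / m ^ 2 := by
  have hm0 : 0 < m := by linarith
  have h := t4_geom m hm J
  calc ∑ j ∈ Finset.range J, 1 / m ^ (j + 2)
      = (1 / m) * ∑ j ∈ Finset.range J, 1 / m ^ (j + 1) := by
        rw [Finset.mul_sum]
        refine Finset.sum_congr rfl fun j _ => ?_
        rw [show j + 2 = (j + 1) + 1 from rfl, pow_succ m (j + 1)]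
        field_simp
    _ ≤ (1 / m) * (2 / m) := mul_le_mul_of_nonneg_left h (by positivity)
    _ = 2 / m ^ 2 := by field_simp

private theorem c5_core (K : Type) [Field K] [NumberField K] : ∃ (C₁ : ℕ) (C : ℝ), 0 < C₁ ∧
    ∀ N : ℕ, 1 ≤ N → (Module.finrank ℚ K : ℝ) * Real.log N - C ≤
      ∑ v ∈ PF (Set.univ : Set (Pr K)) ((C₁ * N ^ (Module.finrank ℚ K) : ℕ) : ℝ),
        Real.log (nv v) / nv v := by
  classical
  set b := RingOfIntegers.basis K with hb
  obtain ⟨C₁, hC₁, hnb⟩ := norm_box b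
  obtain ⟨C₂, hC₂, hsr⟩ := short_rep K
  obtain ⟨C₅, hC₅, hbox⟩ := box_ideal b
  obtain ⟨CL, hCL⟩ := log_norm_lower b
  obtain ⟨Cθ, hCθ, hθ⟩ := theta_root K
  obtain ⟨Cs, hCs, hs⟩ := c5_sumsq K
  have hcard : Fintype.card (Module.Free.ChooseBasisIndex ℤ (𝓞 K)) = Module.finrank ℚ K :=
    card_basis b
  set n := Module.finrank ℚ K with hn
  have hn0 : 0 < n := Module.finrank_pos
  have hnR : (0 : ℝ) < n := by exact_mod_cast hn0
  simp only [hcard] at hnb hbox hCL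
  set e : ℝ := 1 / (n : ℝ) with he
  have he0 : 0 < e := by positivity
  -- the constants
  set A₁ : ℝ := (C₁ : ℝ) ^ e with hA₁
  set A₂ : ℝ := (C₂ : ℝ) ^ e with hA₂
  have hA₁0 : 0 ≤ A₁ := by positivity
  have hA₂0 : 0 ≤ A₂ := by positivity
  set M : ℝ := A₂ * A₁ with hM
  set C₄ : ℝ := n * (1 + M) ^ n with hC₄
  have hM0 : 0 ≤ M := by positivity
  have hC₄0 : 0 ≤ C₄ := by positivity
  refine ⟨C₁, CL + C₄ * (A₂ * (Cθ * A₁)) + 2 * C₅ * Cs, hC₁, ?_⟩
  intro N hN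
  have hN' : (1 : ℝ) ≤ N := by exact_mod_cast hN
  have hN0 : (0 : ℝ) < N := by linarith
  set X : ℕ := C₁ * N ^ n with hX
  have hX1 : 1 ≤ X := Nat.one_le_iff_ne_zero.2 (by positivity)
  have hXR : (1 : ℝ) ≤ (X : ℝ) := by exact_mod_cast hX1
  have hXe : (X : ℝ) ^ e = A₁ * N := by
    rw [hX]
    push_cast
    rw [Real.mul_rpow (by positivity) (by positivity), ← Real.rpow_natCast, ← Real.rpow_mul hN0.le,
      he, mul_one_div_cancel hnR.ne', Real.rpow_one]
  set T : Finset (Pr K) := PF (Set.univ : Set (Pr K)) (X : ℝ) with hT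
  have hTmem : ∀ v : Pr K, v ∈ T ↔ (nv v : ℝ) ≤ X := by
    intro v
    rw [hT, mem_PF]
    simp
  set A : Finset (Module.Free.ChooseBasisIndex ℤ (𝓞 K) → ℤ) :=
    (c7_box _ N).filter (fun c => c ≠ 0) with hA
  set B : ℝ := (2 * (N : ℝ) + 1) ^ n with hB
  have hB0 : 0 < B := by positivity
  have hnv0 : ∀ v : Pr K, (2 : ℝ) ≤ nv v := fun v => by exact_mod_cast two_le_nv v
  have hlog0 : ∀ v : Pr K, 0 ≤ Real.log (nv v) := fun v => Real.log_natCast_nonneg _
  have h1 : ∀ c ∈ A, Real.log (Ideal.absNorm (Ideal.span {el b c})) ≤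
      ∑ v ∈ T, ∑ j ∈ Finset.range X,
        if Ideal.span {el b c} ≤ v.asIdeal ^ (j + 1) then Real.log (nv v) else 0 := by
    intro c hc
    obtain ⟨hcb, hc0⟩ := Finset.mem_filter.1 hc
    have hne : Ideal.span {el b c} ≠ ⊥ := by
      rw [Ne, Ideal.span_singleton_eq_bot]
      exact t3_el_ne b c hc0
    have hle := hnb c N ((c7_mem_box N c).1 hcb)
    refine t4_log_norm (Ideal.span {el b c}) hne T (fun v hv => ?_) X hle
    rw [hTmem]
    have h3 : Ideal.absNorm (Ideal.span {el b c}) ≠ 0 := by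
      rw [Ne, Ideal.absNorm_eq_zero_iff]
      exact hne
    have h4 : nv v ≤ X := (Nat.le_of_dvd (Nat.pos_of_ne_zero h3)
      (map_dvd Ideal.absNorm (Ideal.dvd_iff_le.2 hv))).trans hle
    exact_mod_cast h4
  have h2 : ∑ c ∈ A, Real.log (Ideal.absNorm (Ideal.span {el b c})) ≤
      ∑ v ∈ T, ∑ j ∈ Finset.range X,
        ((A.filter fun c => Ideal.span {el b c} ≤ v.asIdeal ^ (j + 1)).card : ℝ) *
          Real.log (nv v) := by
    refine (Finset.sum_le_sum h1).trans (le_of_eq ?_)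
    rw [Finset.sum_comm]
    refine Finset.sum_congr rfl fun v _ => ?_
    rw [Finset.sum_comm]
    refine Finset.sum_congr rfl fun j _ => ?_
    rw [← Finset.sum_filter, Finset.sum_const, nsmul_eq_mul]
  -- the terms with `j ≥ 1`
  have h3 : ∀ v ∈ T, ∑ j ∈ Finset.range (X - 1),
      ((A.filter fun c => Ideal.span {el b c} ≤ v.asIdeal ^ (j + 1 + 1)).card : ℝ) *
          Real.log (nv v) ≤ B * (2 * C₅ * (Real.log (nv v) / (nv v : ℝ) ^ 2)) := by
    intro v _
    have hterm : ∀ j ∈ Finset.range (X - 1),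
        ((A.filter fun c => Ideal.span {el b c} ≤ v.asIdeal ^ (j + 1 + 1)).card : ℝ) *
          Real.log (nv v) ≤ C₅ * (N : ℝ) ^ n * Real.log (nv v) * (1 / (nv v : ℝ) ^ (j + 2)) := by
      intro j _
      have hb1 := hbox N hN (v.asIdeal ^ (j + 1 + 1)) (pow_ne_zero _ v.ne_bot)
      have hc2 := c7_card (ι := Module.Free.ChooseBasisIndex ℤ (𝓞 K)) N
        (fun c => c ≠ 0 ∧ el b c ∈ v.asIdeal ^ (j + 1 + 1))
      rw [hc2, map_pow] at hb1
      push_cast at hb1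
      have hle : (A.filter fun c => Ideal.span {el b c} ≤ v.asIdeal ^ (j + 1 + 1)).card ≤
          ((c7_box _ N).filter fun c => c ≠ 0 ∧ el b c ∈ v.asIdeal ^ (j + 1 + 1)).card := by
        apply Finset.card_le_card
        intro c hc
        obtain ⟨hcA, hcv⟩ := Finset.mem_filter.1 hc
        obtain ⟨hcb, hc0⟩ := Finset.mem_filter.1 hcA
        exact Finset.mem_filter.2 ⟨hcb, hc0, (Ideal.span_singleton_le_iff_mem _).1 hcv⟩
      calc ((A.filter fun c => Ideal.span {el b c} ≤ v.asIdeal ^ (j + 1 + 1)).card : ℝ) *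
            Real.log (nv v)
          ≤ (((c7_box _ N).filter fun c => c ≠ 0 ∧ el b c ∈ v.asIdeal ^ (j + 1 + 1)).card : ℝ) *
            Real.log (nv v) := by
            apply mul_le_mul_of_nonneg_right _ (hlog0 v)
            exact_mod_cast hle
        _ ≤ (C₅ * (N : ℝ) ^ n / (nv v : ℝ) ^ (j + 1 + 1)) * Real.log (nv v) :=
            mul_le_mul_of_nonneg_right hb1 (hlog0 v)
        _ = _ := by
          rw [show j + 1 + 1 = j + 2 from rfl]
          ring
    have hNB : (N : ℝ) ^ n ≤ B := by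
      rw [hB]
      gcongr
      linarith
    calc _ ≤ ∑ j ∈ Finset.range (X - 1),
          C₅ * (N : ℝ) ^ n * Real.log (nv v) * (1 / (nv v : ℝ) ^ (j + 2)) :=
          Finset.sum_le_sum hterm
      _ = C₅ * (N : ℝ) ^ n * Real.log (nv v) *
          ∑ j ∈ Finset.range (X - 1), 1 / (nv v : ℝ) ^ (j + 2) := by rw [Finset.mul_sum]
      _ ≤ C₅ * (N : ℝ) ^ n * Real.log (nv v) * (2 / (nv v : ℝ) ^ 2) := by
          have := c5_geom (nv v) (hnv0 v) (X - 1)
          have h5 := hlog0 v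
          gcongr
      _ ≤ C₅ * B * Real.log (nv v) * (2 / (nv v : ℝ) ^ 2) := by
          have h5 := hlog0 v
          gcongr
      _ = _ := by ring
  -- the terms with `j = 0`
  have h4 : ∀ v ∈ T, ((A.filter fun c => Ideal.span {el b c} ≤ v.asIdeal ^ (0 + 1)).card : ℝ) *
      Real.log (nv v) ≤ B * (Real.log (nv v) / nv v +
        C₄ / N * A₂ * (Real.log (nv v) / nv v * (nv v : ℝ) ^ e)) := by
    intro v hv
    have hvX : (nv v : ℝ) ≤ X := (hTmem v).1 hv
    have hv0 : (0 : ℝ) < nv v := by linarith [hnv0 v]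
    set D : ℕ := ⌊((C₂ * nv v : ℕ) : ℝ) ^ e⌋₊ with hD
    have hDle : (D : ℝ) ≤ A₂ * (nv v : ℝ) ^ e := by
      rw [hA₂, ← Real.mul_rpow (by positivity) (by positivity)]
      refine (Nat.floor_le (by positivity)).trans (le_of_eq ?_)
      push_cast
      rfl
    have hDN : (D : ℝ) ≤ M * N := by
      refine hDle.trans ?_
      have h5 : (nv v : ℝ) ^ e ≤ (X : ℝ) ^ e := Real.rpow_le_rpow hv0.le hvX he0.le
      rw [hXe] at h5
      calc A₂ * (nv v : ℝ) ^ e ≤ A₂ * (A₁ * N) := mul_le_mul_of_nonneg_left h5 hA₂0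
        _ = M * N := by rw [hM]; ring
    have hDrep : ∀ x : 𝓞 K, ∃ c : Module.Free.ChooseBasisIndex ℤ (𝓞 K) → ℤ,
        x - el b c ∈ v.asIdeal ∧ ∀ i, |c i| ≤ D := by
      intro x
      obtain ⟨c, hc, hc'⟩ := hsr v x
      refine ⟨c, hc, fun i => ?_⟩
      have h6 : ((c i).natAbs : ℤ) ^ n ≤ ((C₂ * nv v : ℕ) : ℤ) := by
        rw [Int.natCast_natAbs]
        push_cast
        exact hc' i
      have h7 : (c i).natAbs ^ n ≤ C₂ * nv v := by exact_mod_cast h6
      have h8 : (((c i).natAbs : ℕ) : ℝ) ≤ ((C₂ * nv v : ℕ) : ℝ) ^ e := by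
        have h9 : (((c i).natAbs : ℕ) : ℝ) ^ n ≤ ((C₂ * nv v : ℕ) : ℝ) := by exact_mod_cast h7
        have h10 := Real.rpow_le_rpow (by positivity) h9 he0.le
        rwa [← Real.rpow_natCast, ← Real.rpow_mul (by positivity), he,
          mul_one_div_cancel hnR.ne', Real.rpow_one] at h10
      have h9 : (c i).natAbs ≤ D := Nat.le_floor h8
      have h10 : (((c i).natAbs : ℕ) : ℤ) ≤ (D : ℤ) := by exact_mod_cast h9
      rwa [Int.natCast_natAbs] at h10
    have hlat := lat_upper b v N D hDrep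
    rw [hcard] at hlat
    have hlatR : (((c7_box _ N).filter (fun c => el b c ∈ v.asIdeal)).card : ℝ) * nv v ≤
        (2 * ((N : ℝ) + D) + 1) ^ n := by exact_mod_cast hlat
    have hle : ((A.filter fun c => Ideal.span {el b c} ≤ v.asIdeal ^ (0 + 1)).card : ℝ) ≤
        (((c7_box _ N).filter (fun c => el b c ∈ v.asIdeal)).card : ℝ) := by
      have : (A.filter fun c => Ideal.span {el b c} ≤ v.asIdeal ^ (0 + 1)).card ≤
        ((c7_box _ N).filter (fun c => el b c ∈ v.asIdeal)).card := by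
        apply Finset.card_le_card
        intro c hc
        obtain ⟨hcA, hcv⟩ := Finset.mem_filter.1 hc
        obtain ⟨hcb, -⟩ := Finset.mem_filter.1 hcA
        rw [zero_add, pow_one] at hcv
        exact Finset.mem_filter.2 ⟨hcb, (Ideal.span_singleton_le_iff_mem _).1 hcv⟩
      exact_mod_cast this
    have ht0 : 0 ≤ (D : ℝ) / N := by positivity
    have htM : (D : ℝ) / N ≤ M := by
      rw [div_le_iff₀ hN0]
      exact hDN
    have hpow : (2 * ((N : ℝ) + D) + 1) ^ n ≤ B * (1 + C₄ * ((D : ℝ) / N)) := by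
      have h5 : 2 * ((N : ℝ) + D) + 1 ≤ (2 * N + 1) * (1 + (D : ℝ) / N) := by
        have h6 : (2 * (N : ℝ) + 1) * ((D : ℝ) / N) = 2 * D + (D : ℝ) / N := by
          field_simp
        nlinarith
      calc (2 * ((N : ℝ) + D) + 1) ^ n ≤ ((2 * N + 1) * (1 + (D : ℝ) / N)) ^ n := by
            gcongr
        _ = B * (1 + (D : ℝ) / N) ^ n := by rw [mul_pow, hB]
        _ ≤ B * (1 + C₄ * ((D : ℝ) / N)) := by
            apply mul_le_mul_of_nonneg_left _ hB0.le
            exact c5_pow _ M ht0 htM n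
    have hq0 : 0 ≤ Real.log (nv v) / nv v := div_nonneg (hlog0 v) hv0.le
    calc ((A.filter fun c => Ideal.span {el b c} ≤ v.asIdeal ^ (0 + 1)).card : ℝ) *
          Real.log (nv v)
        ≤ (((c7_box _ N).filter (fun c => el b c ∈ v.asIdeal)).card : ℝ) * Real.log (nv v) :=
          mul_le_mul_of_nonneg_right hle (hlog0 v)
      _ = ((((c7_box _ N).filter (fun c => el b c ∈ v.asIdeal)).card : ℝ) * nv v) *
          (Real.log (nv v) / nv v) := by field_simp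
      _ ≤ (B * (1 + C₄ * ((D : ℝ) / N))) * (Real.log (nv v) / nv v) :=
          mul_le_mul_of_nonneg_right (hlatR.trans hpow) hq0
      _ ≤ (B * (1 + C₄ * ((A₂ * (nv v : ℝ) ^ e) / N))) * (Real.log (nv v) / nv v) := by
          apply mul_le_mul_of_nonneg_right _ hq0
          gcongr
      _ = _ := by ring
  have h5 : ∑ v ∈ T, ∑ j ∈ Finset.range X,
        ((A.filter fun c => Ideal.span {el b c} ≤ v.asIdeal ^ (j + 1)).card : ℝ) *
          Real.log (nv v) ≤ ∑ v ∈ T, (B * (Real.log (nv v) / nv v +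
        C₄ / N * A₂ * (Real.log (nv v) / nv v * (nv v : ℝ) ^ e)) +
        B * (2 * C₅ * (Real.log (nv v) / (nv v : ℝ) ^ 2))) := by
    refine Finset.sum_le_sum fun v hv => ?_
    have hXs : X = (X - 1) + 1 := by omega
    rw [hXs, Finset.sum_range_succ']
    have := h3 v hv
    have := h4 v hv
    linarith
  have h6 : ∑ v ∈ T, (B * (Real.log (nv v) / nv v +
        C₄ / N * A₂ * (Real.log (nv v) / nv v * (nv v : ℝ) ^ e)) +
        B * (2 * C₅ * (Real.log (nv v) / (nv v : ℝ) ^ 2))) =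
      B * (∑ v ∈ T, Real.log (nv v) / nv v +
        C₄ / N * A₂ * ∑ v ∈ T, Real.log (nv v) / nv v * (nv v : ℝ) ^ e +
        2 * C₅ * ∑ v ∈ T, Real.log (nv v) / (nv v : ℝ) ^ 2) := by
    rw [Finset.sum_add_distrib, ← Finset.mul_sum, Finset.sum_add_distrib, ← Finset.mul_sum,
      ← Finset.mul_sum, ← Finset.mul_sum]
    ring
  have h7 := hθ X hXR T (fun v hv => (hTmem v).1 hv)
  have h8 := hs T
  have h9 := hCL N hN
  have h10 : B * ((n : ℝ) * Real.log N - CL) ≤ B * (∑ v ∈ T, Real.log (nv v) / nv v +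
        C₄ / N * A₂ * ∑ v ∈ T, Real.log (nv v) / nv v * (nv v : ℝ) ^ e +
        2 * C₅ * ∑ v ∈ T, Real.log (nv v) / (nv v : ℝ) ^ 2) := by
    rw [← h6]
    exact h9.trans (h2.trans h5)
  have h11 := le_of_mul_le_mul_left h10 hB0
  have h12 : C₄ / N * A₂ * ∑ v ∈ T, Real.log (nv v) / nv v * (nv v : ℝ) ^ e ≤
      C₄ * (A₂ * (Cθ * A₁)) := by
    calc C₄ / N * A₂ * ∑ v ∈ T, Real.log (nv v) / nv v * (nv v : ℝ) ^ e
        ≤ C₄ / N * A₂ * (Cθ * (A₁ * N)) := by
          rw [← hXe]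
          apply mul_le_mul_of_nonneg_left h7
          positivity
      _ = _ := by field_simp
  have h13 : 2 * C₅ * ∑ v ∈ T, Real.log (nv v) / (nv v : ℝ) ^ 2 ≤ 2 * C₅ * Cs :=
    mul_le_mul_of_nonneg_left h8 (by positivity)
  linarith

theorem mertens_lower (K : Type) [Field K] [NumberField K] : ∃ C : ℝ, ∀ x : ℝ, 2 ≤ x →
    Real.log x - C ≤ ∑ v ∈ PF (Set.univ : Set (Pr K)) x, Real.log (nv v) / nv v := by
  obtain ⟨C₁, C, hC₁, h⟩ := c5_core K
  set n := Module.finrank ℚ K with hn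
  have hn0 : 0 < n := Module.finrank_pos
  have hnR : (0 : ℝ) < n := by exact_mod_cast hn0
  have hC₁R : (1 : ℝ) ≤ C₁ := by exact_mod_cast hC₁
  have hl1 : 0 ≤ Real.log C₁ := Real.log_nonneg hC₁R
  have hl2 : 0 ≤ Real.log 2 := Real.log_nonneg (by norm_num)
  refine ⟨|C| + Real.log C₁ + n * Real.log 2, ?_⟩
  intro x hx
  have hterm : ∀ v : Pr K, 0 ≤ Real.log (nv v) / nv v := fun v =>
    div_nonneg (Real.log_natCast_nonneg _) (by positivity)
  have hx0 : (0 : ℝ) < x := by linarith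
  set y : ℝ := (x / C₁) ^ (1 / (n : ℝ)) with hy
  have hy0 : 0 ≤ y := by positivity
  have hyn : y ^ n = x / C₁ := by
    rw [hy, ← Real.rpow_natCast, ← Real.rpow_mul (by positivity), one_div_mul_cancel hnR.ne',
      Real.rpow_one]
  rcases lt_or_ge y 1 with hy1 | hy1
  · have h1 : x / C₁ < 1 := by
      rw [← hyn]
      exact pow_lt_one₀ hy0 hy1 hn0.ne'
    have h2 : x < C₁ := by
      rwa [div_lt_one (by linarith)] at h1
    have h3 : Real.log x ≤ Real.log C₁ := Real.log_le_log hx0 h2.le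
    have h4 : 0 ≤ ∑ v ∈ PF (Set.univ : Set (Pr K)) x, Real.log (nv v) / nv v :=
      Finset.sum_nonneg (fun v _ => hterm v)
    have h5 : 0 ≤ (n : ℝ) * Real.log 2 := by positivity
    have h6 := abs_nonneg C
    linarith
  · set N : ℕ := ⌊y⌋₊ with hN
    have hN1 : 1 ≤ N := Nat.le_floor (by simpa using hy1)
    have hN1' : (1 : ℝ) ≤ N := by exact_mod_cast hN1
    have hNy : (N : ℝ) ≤ y := Nat.floor_le hy0
    have hyN : y ≤ 2 * N := by
      have := Nat.lt_floor_add_one y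
      rw [← hN] at this
      linarith
    have h1 : ((C₁ * N ^ n : ℕ) : ℝ) ≤ x := by
      push_cast
      have h2 : (N : ℝ) ^ n ≤ y ^ n := by gcongr
      rw [hyn, le_div_iff₀ (by linarith)] at h2
      linarith
    have h2 : ∑ v ∈ PF (Set.univ : Set (Pr K)) ((C₁ * N ^ n : ℕ) : ℝ), Real.log (nv v) / nv v ≤
        ∑ v ∈ PF (Set.univ : Set (Pr K)) x, Real.log (nv v) / nv v := by
      apply Finset.sum_le_sum_of_subset_of_nonneg
      · intro v hv
        rw [mem_PF] at hv ⊢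
        exact ⟨hv.1, hv.2.trans h1⟩
      · intro v _ _
        exact hterm v
    have h3 := h N hN1
    have h4 : Real.log (x / C₁) ≤ n * Real.log (2 * N) := by
      rw [← hyn, Real.log_pow]
      apply mul_le_mul_of_nonneg_left _ hnR.le
      exact Real.log_le_log (by linarith) hyN
    rw [Real.log_div hx0.ne' (by linarith), Real.log_mul (by norm_num) (by linarith)] at h4
    have h6 := le_abs_self C
    linarith

end SC7
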