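import Pool.Agent.MP_c1dca2_ag.SC7.C1
import Pool.Agent.MP_c1dca2_ag.SC7.C2
import Pool.Agent.MP_c1dca2_ag.SC7.C3b
import Pool.Agent.MP_c1dca2_ag.SC7.C4
import Pool.Agent.MP_c1dca2_ag.SC7.Defs

/-!
# [SC7-C6] Mertens: `∑_{nv v ≤ x} log (nv v) / nv v ≤ log x + C`

`b = RingOfIntegers.basis K`, `ι` its index type, `n = card ι = finrank ℚ K` (`card_basis`). For `c ≠ 0` and a finite set `T` of primes:
`∑_{v ∈ T, c ∈ v} log (nv v) ≤ log N(c)` (the product of the distinct `v ∈ T` with `c ∈ v` divides `(c)`; `absNorm` multiplicative and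
monotone for divisibility). Let `N ≥ 1` and `T = {v : nv v ≤ ε N ^ n}` with `ε > 0` such that `D_v = ⌈(C₂ nv v)^(1/n)⌉₊ ≤ N` for
`v ∈ T` (`short_rep`; possible for `N ≥ N₀`). Sum over the `c ≠ 0` in the box: by `lat_lower`
`#{c ≠ 0 in the box, c ∈ v} ≥ (2 (N - D_v) + 1) ^ n / nv v - 1 ≥ (2N+1)^n (1 - n D_v / N) / nv v - 1` (Bernoulli:
`(2 (N - D) + 1)/(2 N + 1) ≥ 1 - D/N`). So with `log_norm_upper`
`∑_{v ∈ T} log (nv v) / nv v ≤ n log N + C + (n / N) ∑_{v ∈ T} D_v log (nv v) / nv v + (2N+1)^(-n) ∑_{v ∈ T} log (nv v) ≤ n log N + C'` by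
`theta_root` (`D_v ≤ C (nv v)^(1/n)`) and `theta_upper`. For `x ≥ 2` take `N` with `x ≤ ε N ^ n ≤ C x`: `N = ⌈(x/ε)^(1/n)⌉₊ (+ N₀)`.
-/

set_option autoImplicit false

open NumberField IsDedekindDomain SC5

namespace SC7

private theorem C6_log {K : Type} [Field K] [NumberField K] (I : Ideal (𝓞 K)) (hI : I ≠ ⊥)
    (T : Finset (Pr K)) (hT : ∀ v ∈ T, I ≤ v.asIdeal) :
    ∑ v ∈ T, Real.log (nv v) ≤ Real.log (Ideal.absNorm I) := by
  classical
  have hinj : Function.Injective (fun v : Pr K => v.asIdeal) :=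
    fun a b h => HeightOneSpectrum.ext h
  have h1 : ∏ P ∈ T.image (fun v : Pr K => v.asIdeal), P ∣ I := by
    refine Finset.prod_primes_dvd I ?_ ?_
    · intro P hP
      obtain ⟨v, hv, rfl⟩ := Finset.mem_image.1 hP
      exact v.prime
    · intro P hP
      obtain ⟨v, hv, rfl⟩ := Finset.mem_image.1 hP
      exact Ideal.dvd_iff_le.2 (hT v hv)
  rw [Finset.prod_image (fun a _ b _ h => hinj h)] at h1
  have h2 : Ideal.absNorm (∏ v ∈ T, v.asIdeal) = ∏ v ∈ T, nv v := by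
    rw [map_prod]
    rfl
  have h3 : (∏ v ∈ T, nv v) ∣ Ideal.absNorm I := by
    rw [← h2]
    exact map_dvd _ h1
  have h4 : 0 < Ideal.absNorm I := by
    rw [Nat.pos_iff_ne_zero, Ne, Ideal.absNorm_eq_zero_iff]
    exact hI
  have h5 := Nat.le_of_dvd h4 h3
  have h6 : ∀ v ∈ T, (nv v : ℝ) ≠ 0 := by
    intro v _
    have := two_le_nv v
    have h7 : nv v ≠ 0 := by omega
    exact_mod_cast h7
  rw [← Real.log_prod h6]
  refine Real.log_le_log ?_ ?_
  · refine Finset.prod_pos fun v _ => ?_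
    have := two_le_nv v
    exact_mod_cast (show 0 < nv v by omega)
  · exact_mod_cast h5

private theorem C6_bern (N D n : ℕ) (hN : 1 ≤ N) (hDN : D ≤ N) :
    (2 * N + 1 : ℝ) ^ n * (1 - n * D / N) ≤ (((2 * (N - D) + 1) ^ n : ℕ) : ℝ) := by
  have hN0 : (0 : ℝ) < N := by exact_mod_cast hN
  have hD1 : (D : ℝ) ≤ N := by exact_mod_cast hDN
  have hDN1 : (D : ℝ) / N ≤ 1 := by
    rw [div_le_one hN0]
    exact hD1
  have hDN0 : (0 : ℝ) ≤ (D : ℝ) / N := by positivity
  have h1 : 1 - (n : ℝ) * D / N ≤ (1 - (D : ℝ) / N) ^ n := by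
    have h2 := one_add_mul_le_pow (a := -((D : ℝ) / N)) (by linarith) n
    have h3 : (1 + -((D : ℝ) / N)) = 1 - (D : ℝ) / N := by ring
    rw [h3] at h2
    refine le_trans (le_of_eq ?_) h2
    ring
  have h4 : (2 * N + 1 : ℝ) * (1 - (D : ℝ) / N) ≤ 2 * ((N : ℝ) - D) + 1 := by
    have h5 : (2 * N + 1 : ℝ) * (1 - (D : ℝ) / N) = 2 * ((N : ℝ) - D) + 1 - (D : ℝ) / N := by
      field_simp
      ring
    rw [h5]
    linarith
  calc (2 * N + 1 : ℝ) ^ n * (1 - n * D / N) ≤ (2 * N + 1 : ℝ) ^ n * (1 - (D : ℝ) / N) ^ n :=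
        mul_le_mul_of_nonneg_left h1 (by positivity)
    _ = ((2 * N + 1 : ℝ) * (1 - (D : ℝ) / N)) ^ n := by rw [mul_pow]
    _ ≤ (2 * ((N : ℝ) - D) + 1) ^ n := by
        refine pow_le_pow_left₀ ?_ h4 n
        exact mul_nonneg (by positivity) (by linarith)
    _ = (((2 * (N - D) + 1) ^ n : ℕ) : ℝ) := by
        push_cast [Nat.cast_sub hDN]
        ring

theorem mertens_upper' (K : Type) [Field K] [NumberField K] : ∃ C : ℝ, ∀ x : ℝ, 2 ≤ x →
    ∑ v ∈ PF (Set.univ : Set (Pr K)) x, Real.log (nv v) / nv v ≤ Real.log x + C := by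
  classical
  set b := RingOfIntegers.basis K with hb
  obtain ⟨C2, hC2, hrep⟩ := short_rep K
  obtain ⟨C3, hlog⟩ := log_norm_upper b
  obtain ⟨C4, hC4, hroot⟩ := theta_root K
  obtain ⟨C5, hC5, htheta⟩ := theta_upper K
  set n := Module.finrank ℚ K with hn
  have hn0 : 0 < n := Module.finrank_pos
  have hn1 : (0 : ℝ) < n := by exact_mod_cast hn0
  have hcard : Fintype.card (Module.Free.ChooseBasisIndex ℤ (𝓞 K)) = n := card_basis b
  have hC21 : (1 : ℝ) ≤ C2 := by exact_mod_cast hC2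
  refine ⟨n * Real.log (4 * C2) + C3 + n * C4 + C5, fun x hx => ?_⟩
  have hx0 : 0 < x := by linarith
  set r : ℝ := x ^ (1 / (n : ℝ)) with hr
  have hr1 : 1 ≤ r := Real.one_le_rpow (by linarith) (by positivity)
  have hrn : r ^ n = x := by
    rw [hr, ← Real.rpow_natCast, ← Real.rpow_mul hx0.le, one_div_mul_cancel hn1.ne', Real.rpow_one]
  set N : ℕ := ⌈2 * C2 * r⌉₊ with hN
  have hNlow : 2 * C2 * r ≤ N := Nat.le_ceil _
  have hNup : (N : ℝ) ≤ 4 * C2 * r := by
    have h1 : (N : ℝ) < 2 * C2 * r + 1 := Nat.ceil_lt_add_one (by positivity)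
    have h2 : 1 ≤ C2 * r := by nlinarith
    linarith
  have hN1' : (1 : ℝ) ≤ N := by
    have h2 : 1 ≤ C2 * r := by nlinarith
    linarith
  have hN1 : 1 ≤ N := by exact_mod_cast hN1'
  have hN0 : (0 : ℝ) < N := by linarith
  set T := PF (Set.univ : Set (Pr K)) x with hT
  have hTx : ∀ v ∈ T, (nv v : ℝ) ≤ x := fun v hv => ((mem_PF _ _ _).1 hv).2
  -- the size of the representatives
  set D : Pr K → ℕ := fun v => ⌈((C2 : ℝ) * nv v) ^ (1 / (n : ℝ))⌉₊ with hD
  have hnv1 : ∀ v : Pr K, (1 : ℝ) ≤ nv v := by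
    intro v
    have := two_le_nv v
    exact_mod_cast (show 1 ≤ nv v by omega)
  have hD2 : ∀ v : Pr K, (D v : ℝ) ≤ 2 * C2 * (nv v : ℝ) ^ (1 / (n : ℝ)) := by
    intro v
    have h0 := hnv1 v
    have h1 : (D v : ℝ) < ((C2 : ℝ) * nv v) ^ (1 / (n : ℝ)) + 1 := Nat.ceil_lt_add_one (by positivity)
    have h2 : ((C2 : ℝ) * nv v) ^ (1 / (n : ℝ)) = (C2 : ℝ) ^ (1 / (n : ℝ)) * (nv v : ℝ) ^ (1 / (n : ℝ)) :=
      Real.mul_rpow (by linarith) (by linarith)
    have h3 : (C2 : ℝ) ^ (1 / (n : ℝ)) ≤ C2 := by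
      have h4 : (1 / (n : ℝ)) ≤ 1 := by
        rw [div_le_one hn1]
        exact_mod_cast hn0
      have h5 := Real.rpow_le_rpow_of_exponent_le hC21 h4
      rwa [Real.rpow_one] at h5
    have h6 : (1 : ℝ) ≤ (nv v : ℝ) ^ (1 / (n : ℝ)) := Real.one_le_rpow h0 (by positivity)
    have h7 : (C2 : ℝ) ^ (1 / (n : ℝ)) * (nv v : ℝ) ^ (1 / (n : ℝ)) ≤ C2 * (nv v : ℝ) ^ (1 / (n : ℝ)) :=
      mul_le_mul_of_nonneg_right h3 (by linarith)
    have h8 : 1 ≤ C2 * (nv v : ℝ) ^ (1 / (n : ℝ)) := by nlinarith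
    rw [h2] at h1
    linarith
  have hDrep : ∀ v : Pr K, ∀ y : 𝓞 K, ∃ c : Module.Free.ChooseBasisIndex ℤ (𝓞 K) → ℤ,
      y - el b c ∈ v.asIdeal ∧ ∀ i, |c i| ≤ D v := by
    intro v y
    obtain ⟨c, hc1, hc2⟩ := hrep v y
    refine ⟨c, hc1, fun i => ?_⟩
    have h1 : ((|c i| : ℤ) : ℝ) ^ n ≤ (C2 : ℝ) * nv v := by
      have h2 := hc2 i
      exact_mod_cast h2
    have h3 : ((|c i| : ℤ) : ℝ) ≤ ((C2 : ℝ) * nv v) ^ (1 / (n : ℝ)) := by
      have h4 : (0 : ℝ) ≤ ((|c i| : ℤ) : ℝ) := by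
        exact_mod_cast abs_nonneg (c i)
      have h5 := Real.rpow_le_rpow (by positivity) h1 (show (0 : ℝ) ≤ 1 / (n : ℝ) by positivity)
      rwa [← Real.rpow_natCast, ← Real.rpow_mul h4, mul_one_div_cancel hn1.ne', Real.rpow_one] at h5
    have h6 : ((|c i| : ℤ) : ℝ) ≤ ((D v : ℕ) : ℝ) := h3.trans (Nat.le_ceil _)
    exact_mod_cast h6
  have hDN : ∀ v ∈ T, D v ≤ N := by
    intro v hv
    have h1 := hD2 v
    have h2 : (nv v : ℝ) ^ (1 / (n : ℝ)) ≤ r :=
      Real.rpow_le_rpow (by linarith [hnv1 v]) (hTx v hv) (by positivity)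
    have h3 : 2 * (C2 : ℝ) * (nv v : ℝ) ^ (1 / (n : ℝ)) ≤ 2 * C2 * r :=
      mul_le_mul_of_nonneg_left h2 (by positivity)
    exact_mod_cast (h1.trans h3).trans hNlow
  -- the double sum
  have hmain : ∑ v ∈ T, Real.log (nv v) *
      (((c7_box _ N).filter (fun c => c ≠ 0)).filter (fun c => el b c ∈ v.asIdeal)).card ≤
      (2 * N + 1 : ℝ) ^ n * ((n : ℝ) * Real.log N + C3) := by
    calc ∑ v ∈ T, Real.log (nv v) *
      (((c7_box _ N).filter (fun c => c ≠ 0)).filter (fun c => el b c ∈ v.asIdeal)).card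
        = ∑ v ∈ T, ∑ c ∈ (c7_box _ N).filter (fun c => c ≠ 0),
            (if el b c ∈ v.asIdeal then Real.log (nv v) else 0) := by
          refine Finset.sum_congr rfl fun v _ => ?_
          rw [← Finset.sum_filter, Finset.sum_const, nsmul_eq_mul, mul_comm]
      _ = ∑ c ∈ (c7_box _ N).filter (fun c => c ≠ 0), ∑ v ∈ T,
            (if el b c ∈ v.asIdeal then Real.log (nv v) else 0) := Finset.sum_comm
      _ ≤ ∑ c ∈ (c7_box _ N).filter (fun c => c ≠ 0),
            Real.log (Ideal.absNorm (Ideal.span {el b c})) := by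
          refine Finset.sum_le_sum fun c hc => ?_
          rw [← Finset.sum_filter]
          refine C6_log _ ?_ _ ?_
          · rw [Ne, Ideal.span_singleton_eq_bot]
            exact fun h => (Finset.mem_filter.1 hc).2 (a4_zero b c h)
          · intro v hv
            rw [Ideal.span_singleton_le_iff_mem]
            exact (Finset.mem_filter.1 hv).2
      _ ≤ _ := by
          have h1 := hlog N hN1
          rw [hcard] at h1
          exact h1
  set Q : ℝ := (2 * N + 1 : ℝ) ^ n with hQ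
  have hQ0 : 0 < Q := by positivity
  have hlow : ∀ v ∈ T, Q * (Real.log (nv v) / nv v) - Q * (n / N) * (Real.log (nv v) / nv v * D v) -
      Real.log (nv v) ≤ Real.log (nv v) *
      (((c7_box _ N).filter (fun c => c ≠ 0)).filter (fun c => el b c ∈ v.asIdeal)).card := by
    intro v hv
    have h0 := hnv1 v
    have hl : 0 ≤ Real.log (nv v) := Real.log_nonneg h0
    have h1 := lat_lower b v N (D v) (hDN v hv) (hDrep v)
    rw [hcard] at h1
    have h2 := C6_bern N (D v) n hN1 (hDN v hv)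
    have h3 : (((2 * (N - D v) + 1) ^ n : ℕ) : ℝ) ≤
        (((c7_box _ N).filter (fun c => el b c ∈ v.asIdeal)).card : ℝ) * nv v := by
      exact_mod_cast h1
    have h4 : (((c7_box _ N).filter (fun c => el b c ∈ v.asIdeal)).card : ℝ) - 1 ≤
        (((c7_box _ N).filter (fun c => c ≠ 0)).filter (fun c => el b c ∈ v.asIdeal)).card := by
      have h5 : (((c7_box _ N).filter (fun c => c ≠ 0)).filter (fun c => el b c ∈ v.asIdeal)) =
          ((c7_box _ N).filter (fun c => el b c ∈ v.asIdeal)).erase 0 := by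
        ext c
        simp only [Finset.mem_filter, Finset.mem_erase]
        tauto
      rw [h5]
      have h6 := Finset.pred_card_le_card_erase (s := (c7_box _ N).filter (fun c => el b c ∈ v.asIdeal)) (a := 0)
      have h7 : ((c7_box _ N).filter (fun c => el b c ∈ v.asIdeal)).card ≤
          (((c7_box _ N).filter (fun c => el b c ∈ v.asIdeal)).erase 0).card + 1 := by omega
      have h8 : (((c7_box _ N).filter (fun c => el b c ∈ v.asIdeal)).card : ℝ) ≤
          (((c7_box _ N).filter (fun c => el b c ∈ v.asIdeal)).erase 0).card + 1 := by exact_mod_cast h7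
      linarith
    set M : ℝ := (((c7_box _ N).filter (fun c => el b c ∈ v.asIdeal)).card : ℝ) with hM
    have h5 : Q * (1 - n * D v / N) / nv v ≤ M := by
      rw [div_le_iff₀ (by linarith)]
      exact h2.trans h3
    have h6 : Q * (1 - n * D v / N) / nv v - 1 ≤
        (((c7_box _ N).filter (fun c => c ≠ 0)).filter (fun c => el b c ∈ v.asIdeal)).card := by
      linarith
    have h7 := mul_le_mul_of_nonneg_left h6 hl
    refine le_trans (le_of_eq ?_) h7
    field_simp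
  have hsum := (Finset.sum_le_sum hlow).trans hmain
  rw [Finset.sum_sub_distrib, Finset.sum_sub_distrib, ← Finset.mul_sum, ← Finset.mul_sum] at hsum
  have h1 := htheta x (by linarith) T hTx
  have h2 := hroot x (by linarith) T hTx
  have h3 : ∑ v ∈ T, Real.log (nv v) / nv v * D v ≤ C4 * N := by
    calc ∑ v ∈ T, Real.log (nv v) / nv v * D v
        ≤ ∑ v ∈ T, 2 * C2 * (Real.log (nv v) / nv v * (nv v : ℝ) ^ (1 / (n : ℝ))) := by
          refine Finset.sum_le_sum fun v _ => ?_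
          have h0 := hnv1 v
          have hl : 0 ≤ Real.log (nv v) := Real.log_nonneg h0
          have h4 := mul_le_mul_of_nonneg_left (hD2 v) (show 0 ≤ Real.log (nv v) / nv v by positivity)
          refine h4.trans (le_of_eq ?_)
          ring
      _ = 2 * C2 * ∑ v ∈ T, (Real.log (nv v) / nv v * (nv v : ℝ) ^ (1 / (n : ℝ))) := by rw [Finset.mul_sum]
      _ ≤ 2 * C2 * (C4 * r) := mul_le_mul_of_nonneg_left h2 (by positivity)
      _ = C4 * (2 * C2 * r) := by ring
      _ ≤ C4 * N := mul_le_mul_of_nonneg_left hNlow hC4.le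
  have hxQ : x ≤ Q := by
    rw [← hrn, hQ]
    refine pow_le_pow_left₀ (by linarith) ?_ n
    have h4 : r ≤ 2 * C2 * r := by nlinarith
    linarith
  have h4 : Q * (n / N) * ∑ v ∈ T, Real.log (nv v) / nv v * D v ≤ Q * (n * C4) := by
    calc Q * (n / N) * ∑ v ∈ T, Real.log (nv v) / nv v * D v ≤ Q * (n / N) * (C4 * N) :=
          mul_le_mul_of_nonneg_left h3 (by positivity)
      _ = Q * (n * C4) := by
          field_simp
  have h5 : ∑ v ∈ T, Real.log (nv v) ≤ Q * C5 := by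
    refine h1.trans ?_
    rw [mul_comm]
    exact mul_le_mul_of_nonneg_right hxQ hC5.le
  have h6 : Q * ∑ v ∈ T, Real.log (nv v) / nv v ≤ Q * ((n : ℝ) * Real.log N + C3 + n * C4 + C5) := by
    linarith
  have h7 : ∑ v ∈ T, Real.log (nv v) / nv v ≤ (n : ℝ) * Real.log N + C3 + n * C4 + C5 :=
    le_of_mul_le_mul_left h6 hQ0
  have h8 : (n : ℝ) * Real.log N ≤ n * Real.log (4 * C2) + Real.log x := by
    have h9 : Real.log N ≤ Real.log (4 * C2) + Real.log r := by
      rw [← Real.log_mul (by positivity) (by positivity)]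
      exact Real.log_le_log hN0 hNup
    have h10 : (n : ℝ) * Real.log r = Real.log x := by
      rw [← Real.log_pow, hrn]
    have h11 := mul_le_mul_of_nonneg_left h9 hn1.le
    linarith
  linarith

end SC7
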