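import Pool.Agent.MP_c1dca2_ag.SC7.C5
import Pool.Agent.MP_c1dca2_ag.SC7.C6
import Pool.Agent.MP_c1dca2_ag.SC7.C4b

/-!
# [SC7-C8] Chebyshev's lower bound for the primes of prime norm

`mertens_lower` at `x`, `mertens_upper'` at `x / A` (`A ≥ 1` fixed, `x ≥ 2 A`):
`∑_{x/A < nv v ≤ x} log (nv v) / nv v ≥ log A - C₁ - C₂`; the `v` with `nv v` not prime contribute at most `C₃` (`nonprime_sum`).
Take `A` with `log A - C₁ - C₂ - C₃ ≥ 1`. The primes with `x/A < nv v ≤ x`, `nv v` prime, are at least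
`1 / (log x / (x / A)) = x / (A log x)` many (`log (nv v) / nv v ≤ log x / (x / A)`). So `c = 1 / A`, `x₀ = 2 A + 2`.
-/

set_option autoImplicit false

open NumberField IsDedekindDomain SC5

namespace SC7

theorem chebyshev (K : Type) [Field K] [NumberField K] : ∃ c x₀ : ℝ, 0 < c ∧ ∀ x : ℝ, x₀ ≤ x →
    c * x / Real.log x ≤ ((PF {v : Pr K | (nv v).Prime} x).card : ℝ) := by
  classical
  obtain ⟨C1, h1⟩ := mertens_lower K
  obtain ⟨C2, h2⟩ := mertens_upper' K
  obtain ⟨C3, hC3, h3⟩ := nonprime_sum K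
  set A : ℝ := Real.exp (|C1| + |C2| + C3 + 1) with hA
  have hA0 : 0 < A := Real.exp_pos _
  have hA1 : 1 ≤ A := Real.one_le_exp (by positivity)
  have hlogA : Real.log A = |C1| + |C2| + C3 + 1 := Real.log_exp _
  refine ⟨1 / A, 2 * A + 2, by positivity, fun x hx => ?_⟩
  have hx2 : 2 ≤ x := by linarith
  have hx0 : 0 < x := by linarith
  have hxA : 2 ≤ x / A := by
    rw [le_div_iff₀ hA0]
    linarith
  have hlogx : 0 < Real.log x := Real.log_pos (by linarith)
  have h4 := h1 x hx2
  have h5 := h2 (x / A) hxA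
  rw [Real.log_div hx0.ne' hA0.ne'] at h5
  set T := PF (Set.univ : Set (Pr K)) x with hT
  set T' := PF (Set.univ : Set (Pr K)) (x / A) with hT'
  have hsub : T' ⊆ T := by
    intro v hv
    rw [hT', mem_PF] at hv
    rw [hT, mem_PF]
    exact ⟨hv.1, hv.2.trans (div_le_self hx0.le hA1)⟩
  have h6 := Finset.sum_sdiff (f := fun v : Pr K => Real.log (nv v) / nv v) hsub
  have h7 := Finset.sum_filter_add_sum_filter_not (T \ T') (fun v : Pr K => (nv v).Prime)
    (fun v : Pr K => Real.log (nv v) / nv v)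
  have h8 := h3 ((T \ T').filter fun v => ¬ (nv v).Prime) fun v hv => (Finset.mem_filter.1 hv).2
  set W := (T \ T').filter fun v => (nv v).Prime with hW
  have h9 : ∑ v ∈ W, Real.log (nv v) / nv v ≤ (W.card : ℝ) * (Real.log x * A / x) := by
    rw [← nsmul_eq_mul]
    refine Finset.sum_le_card_nsmul _ _ _ fun v hv => ?_
    obtain ⟨h10, h11⟩ := Finset.mem_filter.1 hv
    obtain ⟨h12, h13⟩ := Finset.mem_sdiff.1 h10
    rw [hT, mem_PF] at h12
    rw [hT', mem_PF] at h13
    have h14 : x / A < nv v := by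
      by_contra h
      push Not at h
      exact h13 ⟨trivial, h⟩
    have h15 : (1 : ℝ) ≤ nv v := by linarith
    have h16 : Real.log (nv v) ≤ Real.log x := Real.log_le_log (by linarith) h12.2
    have h17 : Real.log x * A / x = Real.log x / (x / A) := by
      field_simp
    rw [h17]
    exact div_le_div₀ hlogx.le h16 (by positivity) h14.le
  have h10 : 1 ≤ (W.card : ℝ) * (Real.log x * A / x) := by
    have h11 := le_abs_self C1
    have h12 := le_abs_self C2
    linarith
  have h11 : (W.card : ℝ) ≤ ((PF {v : Pr K | (nv v).Prime} x).card : ℝ) := by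
    refine Nat.cast_le.2 (Finset.card_le_card ?_)
    intro v hv
    obtain ⟨h12, h13⟩ := Finset.mem_filter.1 hv
    rw [mem_PF]
    refine ⟨h13, ?_⟩
    have h14 := (Finset.mem_sdiff.1 h12).1
    rw [hT, mem_PF] at h14
    exact h14.2
  refine le_trans ?_ h11
  have h12 : 0 < Real.log x * A / x := by positivity
  have h13 : 1 / A * x / Real.log x = 1 / (Real.log x * A / x) := by
    field_simp
  rw [h13, div_le_iff₀ h12]
  exact h10

end SC7
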