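import Pool.Agent.MP_c1dca2_ag.SC7.Defs

/-!
# [SC7-D1] the sum of the inverse norms of the squarefree ideals

`P` a set of primes, `MP P x = ∑_{v ∈ P, nv v ≤ x} 1 / nv v`. `C₁`: `mertens_upper` (SC5/A6): `∑_{nv v ≤ z} log (nv v) / nv v ≤ C₁ log z`,
`z ≥ 2`. Let `m ≥ 1` (large, depending on `C₁` only), `y = x ^ (1/m) ≥ 2`, `F = PF P y`. All sums over subsets `V` of `F`.
* total: `∑_{V ⊆ F} ∏_{v ∈ V} 1 / nv v = ∏_{v ∈ F} (1 + 1 / nv v)` (`Finset.prod_one_add` / `Finset.prod_add_one`); call it `Q`.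
* tail (Rankin): for `α = 1 / log y`, `V` with `∏ nv v > x ^ (1/4)`: `1 ≤ x^(-α/4) ∏ (nv v)^α`, so the tail is at most
`x^(-α/4) ∏_{v ∈ F} (1 + nv v ^ (α - 1))`, `x^(α/4) = exp (m/4)`, and `nv v ^ α ≤ 1 + (e - 1) α log (nv v)` for `nv v ≤ y`
(convexity of `exp` on `[0, 1]`: `e^t ≤ 1 + (e-1) t`, or `≤ 1 + 2 t`), `1 + nv v^(α-1) ≤ (1 + 1/nv v) exp (2 α log (nv v)/nv v)`, so it is at most
`Q exp (-m/4 + 2 C₁)`. Take `m ≥ 4 (2 C₁ + 1)`: the tail is at most `Q / e ≤ Q/2`.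
* So the sum over the `V` with `∏ nv v ≤ x^(1/4)` is at least `Q / 2`.
* `log Q ≥ ∑ (1/nv v - 1/nv v ^2) ≥ MP P y - C₂` (`Real.one_add_inv..`: `log (1+t) ≥ t - t^2/2`; `∑ 1/nv v ^ 2` bounded: `sum_sq` SC5/A6
or `t4_sq`), and `MP P x - MP P y ≤ log m + C₃` by `sum_upper` (SC5/A7) with `z = y`, `z' = x`: `log x / log y = m`.
-/

set_option autoImplicit false

open NumberField IsDedekindDomain SC5

namespace SC7

theorem D1_exp {t : ℝ} (h0 : 0 ≤ t) (h1 : t ≤ 1) : Real.exp t ≤ 1 + 2 * t := by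
  have h := Real.abs_exp_sub_one_le (x := t) (by rw [abs_of_nonneg h0]; exact h1)
  rw [abs_of_nonneg h0] at h
  have := (abs_le.1 h).2
  linarith

theorem D1_exp' {a : ℝ} (h0 : 0 ≤ a) (h1 : a ≤ 1 / 2) : Real.exp (a - a ^ 2) ≤ 1 + a := by
  have h2 : 0 < 1 - (a - a ^ 2) := by nlinarith
  have h3 : 1 - (a - a ^ 2) ≤ Real.exp (-(a - a ^ 2)) := by
    have := Real.add_one_le_exp (-(a - a ^ 2))
    linarith
  have h4 : Real.exp (a - a ^ 2) * Real.exp (-(a - a ^ 2)) = 1 := by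
    rw [← Real.exp_add]
    simp
  have h5 : Real.exp (a - a ^ 2) * (1 - (a - a ^ 2)) ≤ 1 :=
    (mul_le_mul_of_nonneg_left h3 (Real.exp_pos _).le).trans h4.le
  have h6 : 1 ≤ (1 + a) * (1 - (a - a ^ 2)) := by
    have : (1 + a) * (1 - (a - a ^ 2)) = 1 + a ^ 3 := by ring
    rw [this]
    have : 0 ≤ a ^ 3 := by positivity
    linarith
  exact le_of_mul_le_mul_right (h5.trans h6) h2

/-- The Rankin estimate. -/
theorem D1_core {ι : Type*} [DecidableEq ι] (F : Finset ι) (n : ι → ℝ)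
    (hn : ∀ v ∈ F, 2 ≤ n v) {Y : ℝ} (hY : 0 < Y) (hle : ∀ v ∈ F, Real.log (n v) ≤ Y)
    {C₁ : ℝ} (hC : ∑ v ∈ F, Real.log (n v) / n v ≤ C₁ * Y) {m : ℝ}
    (hm : 4 * (2 * C₁ + 1) ≤ m) {B : ℝ} (hB : 0 < B) (hBl : Real.log B = m * Y / 4)
    [DecidablePred (fun V : Finset ι => ∏ v ∈ V, n v ≤ B)] :
    (∏ v ∈ F, (1 + (n v)⁻¹)) / 2 ≤
      ∑ V ∈ F.powerset.filter (fun V => ∏ v ∈ V, n v ≤ B), ∏ v ∈ V, (n v)⁻¹ := by
  classical
  set e : ι → ℝ := fun v => Real.exp (Real.log (n v) / Y) with he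
  have hepos : ∀ v, 0 < e v := fun v => Real.exp_pos _
  have hnpos : ∀ v ∈ F, 0 < n v := fun v hv => by linarith [hn v hv]
  have htot : ∏ v ∈ F, (1 + (n v)⁻¹) = ∑ V ∈ F.powerset, ∏ v ∈ V, (n v)⁻¹ :=
    Finset.prod_one_add F
  have hsplit := Finset.sum_filter_add_sum_filter_not F.powerset
    (fun V => ∏ v ∈ V, n v ≤ B) (fun V => ∏ v ∈ V, (n v)⁻¹)
  -- the tail
  have htail : ∑ V ∈ F.powerset.filter (fun V => ¬ ∏ v ∈ V, n v ≤ B), ∏ v ∈ V, (n v)⁻¹ ≤
      Real.exp (-(m / 4)) * ∏ v ∈ F, (1 + (n v)⁻¹ * e v) := by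
    rw [Finset.prod_one_add, Finset.mul_sum]
    calc ∑ V ∈ F.powerset.filter (fun V => ¬ ∏ v ∈ V, n v ≤ B), ∏ v ∈ V, (n v)⁻¹
        ≤ ∑ V ∈ F.powerset.filter (fun V => ¬ ∏ v ∈ V, n v ≤ B),
          Real.exp (-(m / 4)) * ∏ v ∈ V, ((n v)⁻¹ * e v) := by
          refine Finset.sum_le_sum fun V hV => ?_
          rw [Finset.mem_filter, Finset.mem_powerset, not_le] at hV
          obtain ⟨hVF, hVB⟩ := hV
          have hpos : ∀ v ∈ V, 0 < n v := fun v hv => hnpos v (hVF hv)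
          have hprod : ∏ v ∈ V, e v = Real.exp (Real.log (∏ v ∈ V, n v) / Y) := by
            rw [he, ← Real.exp_sum, Real.log_prod (fun v hv => (hpos v hv).ne'),
              Finset.sum_div]
          have hlog : m / 4 ≤ Real.log (∏ v ∈ V, n v) / Y := by
            rw [le_div_iff₀ hY]
            have h1 := Real.log_le_log hB hVB.le
            rw [hBl] at h1
            linarith
          have hge : 1 ≤ Real.exp (-(m / 4)) * ∏ v ∈ V, e v := by
            rw [hprod, ← Real.exp_add]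
            apply Real.one_le_exp
            linarith
          have hA : 0 ≤ ∏ v ∈ V, (n v)⁻¹ :=
            Finset.prod_nonneg fun v hv => (inv_pos.2 (hpos v hv)).le
          rw [Finset.prod_mul_distrib]
          calc ∏ v ∈ V, (n v)⁻¹ = (∏ v ∈ V, (n v)⁻¹) * 1 := (mul_one _).symm
            _ ≤ (∏ v ∈ V, (n v)⁻¹) * (Real.exp (-(m / 4)) * ∏ v ∈ V, e v) :=
                mul_le_mul_of_nonneg_left hge hA
            _ = _ := by ring
      _ ≤ _ := by
          refine Finset.sum_le_sum_of_subset_of_nonneg (Finset.filter_subset _ _)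
            fun V hV _ => ?_
          rw [Finset.mem_powerset] at hV
          refine mul_nonneg (Real.exp_pos _).le (Finset.prod_nonneg fun v hv => ?_)
          exact mul_nonneg (inv_pos.2 (hnpos v (hV hv))).le (hepos v).le
  -- the product with the weights
  have hQpos : 0 < ∏ v ∈ F, (1 + (n v)⁻¹) := Finset.prod_pos fun v hv => by
    have := inv_pos.2 (hnpos v hv)
    linarith
  have hprod2 : ∏ v ∈ F, (1 + (n v)⁻¹ * e v) ≤
      (∏ v ∈ F, (1 + (n v)⁻¹)) * Real.exp (2 * C₁) := by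
    calc ∏ v ∈ F, (1 + (n v)⁻¹ * e v)
        ≤ ∏ v ∈ F, ((1 + (n v)⁻¹) * Real.exp (2 * (Real.log (n v) / n v) / Y)) := by
          refine Finset.prod_le_prod (fun v hv => ?_) fun v hv => ?_
          · have := mul_pos (inv_pos.2 (hnpos v hv)) (hepos v)
            linarith
          · have ha : 0 < (n v)⁻¹ := inv_pos.2 (hnpos v hv)
            have ht0 : 0 ≤ Real.log (n v) / Y :=
              div_nonneg (Real.log_nonneg (by linarith [hn v hv])) hY.le
            have ht1 : Real.log (n v) / Y ≤ 1 := by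
              rw [div_le_one hY]
              exact hle v hv
            have h1 : e v ≤ 1 + 2 * (Real.log (n v) / Y) := D1_exp ht0 ht1
            have h2 : 2 * (Real.log (n v) / n v) / Y =
                2 * (n v)⁻¹ * (Real.log (n v) / Y) := by
              rw [div_eq_mul_inv (Real.log (n v)) (n v)]
              ring
            have h3 : 1 + 2 * (n v)⁻¹ * (Real.log (n v) / Y) ≤
                Real.exp (2 * (Real.log (n v) / n v) / Y) := by
              rw [h2]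
              have := Real.add_one_le_exp (2 * (n v)⁻¹ * (Real.log (n v) / Y))
              linarith
            have h4 : (n v)⁻¹ * e v ≤ (n v)⁻¹ * (1 + 2 * (Real.log (n v) / Y)) :=
              mul_le_mul_of_nonneg_left h1 ha.le
            have h5 : 0 ≤ (n v)⁻¹ * (2 * (n v)⁻¹ * (Real.log (n v) / Y)) := by positivity
            calc 1 + (n v)⁻¹ * e v ≤
                (1 + (n v)⁻¹) * (1 + 2 * (n v)⁻¹ * (Real.log (n v) / Y)) := by nlinarith
              _ ≤ _ := mul_le_mul_of_nonneg_left h3 (by linarith)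
      _ = (∏ v ∈ F, (1 + (n v)⁻¹)) *
          Real.exp (2 * (∑ v ∈ F, Real.log (n v) / n v) / Y) := by
          rw [Finset.prod_mul_distrib, ← Real.exp_sum]
          congr 2
          rw [Finset.mul_sum, Finset.sum_div]
      _ ≤ _ := by
          refine mul_le_mul_of_nonneg_left (Real.exp_le_exp.2 ?_) hQpos.le
          rw [div_le_iff₀ hY]
          linarith
  have hfin : Real.exp (-(m / 4)) * ∏ v ∈ F, (1 + (n v)⁻¹ * e v) ≤
      (∏ v ∈ F, (1 + (n v)⁻¹)) / 2 := by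
    have h1 : Real.exp (-(m / 4)) * Real.exp (2 * C₁) ≤ 1 / 2 := by
      rw [← Real.exp_add]
      have h2 : -(m / 4) + 2 * C₁ ≤ -1 := by linarith
      have h3 : Real.exp (-(m / 4) + 2 * C₁) ≤ Real.exp (-1) := Real.exp_le_exp.2 h2
      have h4 : Real.exp (-1) * Real.exp 1 = 1 := by
        rw [← Real.exp_add]
        simp
      have h5 := Real.exp_one_gt_d9
      have h6 := Real.exp_pos (-1)
      nlinarith
    calc Real.exp (-(m / 4)) * ∏ v ∈ F, (1 + (n v)⁻¹ * e v)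
        ≤ Real.exp (-(m / 4)) * ((∏ v ∈ F, (1 + (n v)⁻¹)) * Real.exp (2 * C₁)) :=
          mul_le_mul_of_nonneg_left hprod2 (Real.exp_pos _).le
      _ = (∏ v ∈ F, (1 + (n v)⁻¹)) * (Real.exp (-(m / 4)) * Real.exp (2 * C₁)) := by ring
      _ ≤ (∏ v ∈ F, (1 + (n v)⁻¹)) * (1 / 2) := mul_le_mul_of_nonneg_left h1 hQpos.le
      _ = _ := by ring
  have h7 := htail.trans hfin
  rw [← htot] at hsplit
  linarith

theorem D1_lower {ι : Type*} (F : Finset ι) (n : ι → ℝ) (hn : ∀ v ∈ F, 2 ≤ n v) {C : ℝ}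
    (hC : ∑ v ∈ F, (n v ^ 2)⁻¹ ≤ C) :
    Real.exp (∑ v ∈ F, (n v)⁻¹ - C) ≤ ∏ v ∈ F, (1 + (n v)⁻¹) := by
  calc Real.exp (∑ v ∈ F, (n v)⁻¹ - C) ≤
        Real.exp (∑ v ∈ F, ((n v)⁻¹ - (n v)⁻¹ ^ 2)) := by
        apply Real.exp_le_exp.2
        rw [Finset.sum_sub_distrib]
        have : ∑ v ∈ F, (n v)⁻¹ ^ 2 = ∑ v ∈ F, (n v ^ 2)⁻¹ :=
          Finset.sum_congr rfl fun v _ => by rw [inv_pow]
        rw [this]
        linarith
    _ = ∏ v ∈ F, Real.exp ((n v)⁻¹ - (n v)⁻¹ ^ 2) := Real.exp_sum _ _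
    _ ≤ ∏ v ∈ F, (1 + (n v)⁻¹) := by
        refine Finset.prod_le_prod (fun v _ => (Real.exp_pos _).le) fun v hv => ?_
        have h2 := hn v hv
        refine D1_exp' (inv_nonneg.2 (by linarith)) ?_
        rw [one_div]
        exact inv_anti₀ (by norm_num) h2

theorem D1_sq (K : Type) [Field K] [NumberField K] : ∃ C : ℝ,
    ∀ T : Finset (Pr K), ∑ v ∈ T, ((nv v : ℝ) ^ 2)⁻¹ ≤ C := by
  classical
  obtain ⟨z, hz⟩ := sum_sq K 1 one_pos
  refine ⟨∑ v ∈ PF (Set.univ : Set (Pr K)) z, ((nv v : ℝ) ^ 2)⁻¹ + 1, fun T => ?_⟩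
  rw [← Finset.sum_filter_add_sum_filter_not T (fun v => (nv v : ℝ) ≤ z)]
  refine add_le_add ?_ (hz _ fun v hv => ?_)
  · refine Finset.sum_le_sum_of_subset_of_nonneg ?_ fun v _ _ => by positivity
    intro v hv
    rw [Finset.mem_filter] at hv
    rw [mem_PF]
    exact ⟨Set.mem_univ _, hv.2⟩
  · rw [Finset.mem_filter, not_le] at hv
    exact hv.2

open scoped Classical in
theorem sum_inv_V {k : Type} [Field k] [NumberField k] (P : Set (Pr k)) :
    ∃ (c : ℝ) (m : ℕ), 0 < c ∧ 1 ≤ m ∧ ∀ x : ℝ, 2 ^ m ≤ x →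
      c * Real.exp (MP P x) ≤
        ∑ V ∈ (PF P (x ^ (1 / (m : ℝ)))).powerset.filter
          (fun V => ∏ v ∈ V, (nv v : ℝ) ≤ x ^ (1 / 4 : ℝ)), ∏ v ∈ V, ((nv v : ℝ))⁻¹ := by
  obtain ⟨C₁, hC₁, hmu⟩ := mertens_upper k
  obtain ⟨C₂, hC₂⟩ := D1_sq k
  obtain ⟨C₃, hC₃⟩ := sum_upper k
  obtain ⟨m, hm⟩ := exists_nat_ge (4 * (2 * C₁ + 1))
  have hm1 : 1 ≤ m := by
    have h1 : (1 : ℝ) ≤ m := by linarith
    exact_mod_cast h1
  have hm0 : (0 : ℝ) < m := by exact_mod_cast hm1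
  refine ⟨Real.exp (-(Real.log m + C₃ + C₂)) / 2, m, by positivity, hm1, fun x hx => ?_⟩
  have hx1 : 1 ≤ x := (one_le_pow₀ (by norm_num : (1 : ℝ) ≤ 2)).trans hx
  have hx0 : 0 < x := lt_of_lt_of_le one_pos hx1
  set y : ℝ := x ^ (1 / (m : ℝ)) with hy
  have hy2 : 2 ≤ y := by
    rw [hy, one_div]
    calc (2 : ℝ) = (2 ^ m) ^ ((m : ℝ)⁻¹) :=
          (Real.pow_rpow_inv_natCast (by norm_num) (by omega)).symm
      _ ≤ x ^ ((m : ℝ)⁻¹) := Real.rpow_le_rpow (by positivity) hx (by positivity)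
  have hy0 : 0 < y := by linarith
  have hlogy : Real.log y = 1 / (m : ℝ) * Real.log x := by rw [hy, Real.log_rpow hx0]
  have hY : 0 < Real.log y := Real.log_pos (by linarith)
  have hlogx : Real.log x = m * Real.log y := by
    rw [hlogy]
    field_simp
  have hyx : y ≤ x := by
    rw [← Real.log_le_log_iff hy0 hx0, hlogx]
    have h1 : (1 : ℝ) ≤ m := by exact_mod_cast hm1
    nlinarith
  have hF2 : ∀ v ∈ PF P y, (2 : ℝ) ≤ nv v := fun v _ => by exact_mod_cast two_le_nv v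
  have hcore := D1_core (PF P y) (fun v => (nv v : ℝ)) hF2 hY
    (fun v hv => Real.log_le_log (by linarith [hF2 v hv]) ((mem_PF P y v).1 hv).2)
    (hmu y hy2 (PF P y) fun v hv => ((mem_PF P y v).1 hv).2) hm
    (Real.rpow_pos_of_pos hx0 (1 / 4 : ℝ)) (by
      rw [Real.log_rpow hx0, hlogx]
      ring)
  have hlow := D1_lower (PF P y) (fun v => (nv v : ℝ)) hF2 (hC₂ (PF P y))
  -- the primes between `y` and `x`
  have hMP : MP P x ≤ MP P y + (Real.log m + C₃) := by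
    have h1 := hC₃ y x (by linarith) hyx (PF P x \ PF P y) (by
      intro v hv
      rw [Finset.mem_sdiff, mem_PF, mem_PF] at hv
      refine ⟨?_, hv.1.2⟩
      by_contra h
      exact hv.2 ⟨hv.1.1, not_lt.1 h⟩)
    have h2 : Real.log x / Real.log y = m := by
      rw [hlogx]
      field_simp
    rw [h2] at h1
    have hsub : PF P y ⊆ PF P x := by
      intro v hv
      rw [mem_PF] at hv ⊢
      exact ⟨hv.1, hv.2.trans hyx⟩
    have h3 : MP P x = ∑ v ∈ PF P x \ PF P y, ((nv v : ℝ))⁻¹ + MP P y := by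
      unfold MP
      exact (Finset.sum_sdiff hsub).symm
    rw [h3]
    linarith
  have hexp : Real.exp (-(Real.log m + C₃ + C₂)) / 2 * Real.exp (MP P x) ≤
      (∏ v ∈ PF P y, (1 + ((nv v : ℝ))⁻¹)) / 2 := by
    have h4 : Real.exp (-(Real.log m + C₃ + C₂)) * Real.exp (MP P x) ≤
        ∏ v ∈ PF P y, (1 + ((nv v : ℝ))⁻¹) := by
      rw [← Real.exp_add]
      refine le_trans (Real.exp_le_exp.2 ?_) hlow
      show -(Real.log m + C₃ + C₂) + MP P x ≤ MP P y - C₂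
      linarith
    linarith
  exact hexp.trans hcore

end SC7
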