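import Pool.Agent.MP_c1dca2_ag.SC7.D1

/-!
# [SC7-D2] the number of the squarefree ideals with prime factors in `P`

`hP`: Chebyshev's lower bound for `P`: `#{v ∈ P, nv v ≤ x} ≥ c x / log x` for `x ≥ x₀`. `C₁`: `sum_upper`/`finite`: the number of all primes of
norm `≤ y` is at most `C₁ y` (from `Set.ncard` of ideals, or: at most `[k:ℚ]` primes above every rational prime, `nv v ≤ y` implies
`p ≤ y`; so at most `[k:ℚ] y`).
Let `m, c₁` from `sum_inv_V`, w.l.o.g. `m ≥ 3` is not needed: for `V₁ ⊆ PF P (x^(1/m))` with `∏ ≤ x^(1/4)` (all its elements have norm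
`≤ x^(1/4)`) and a prime `w ∈ P` with `x^(1/2) < nv w ≤ x / ∏_{V₁} nv v`, the set `V = V₁ ∪ {w}` has `∏ nv ≤ x` and `w` is the only element of `V` of
norm `> x^(1/2)`; so `(V₁, w) ↦ V` is injective. For given `V₁`: the number of the `w` is at least
`c (x/NV₁) / log x - C₁ x^(1/2) ≥ (c/2) (x / NV₁) / log x`, as `x / NV₁ ≥ x^(3/4)`, for `x` large. Sum over `V₁`.
-/

set_option autoImplicit false

open NumberField IsDedekindDomain SC5

namespace SC7

private theorem d2_cast {k : Type} [Field k] [NumberField k] (V : Finset (Pr k)) :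
    ∏ u ∈ V, (nv u : ℝ) = ((∏ u ∈ V, nv u : ℕ) : ℝ) := by
  rw [Nat.cast_prod]

private theorem d2_pos {k : Type} [Field k] [NumberField k] (V : Finset (Pr k)) :
    0 < ∏ u ∈ V, nv u :=
  Finset.prod_pos fun u _ => by
    have := two_le_nv u
    omega

private theorem d2_one {k : Type} [Field k] [NumberField k] (V : Finset (Pr k)) :
    1 ≤ ∏ u ∈ V, (nv u : ℝ) := by
  rw [d2_cast]
  exact_mod_cast d2_pos V

private theorem d2_le {k : Type} [Field k] [NumberField k] (V : Finset (Pr k)) (v : Pr k)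
    (hv : v ∈ V) : (nv v : ℝ) ≤ ∏ u ∈ V, (nv u : ℝ) := by
  rw [d2_cast]
  exact_mod_cast Nat.le_of_dvd (d2_pos V) (Finset.dvd_prod_of_mem _ hv)

/-- the number of the primes of norm at most `z` -/
private theorem d2_count (k : Type) [Field k] [NumberField k] : ∃ C : ℝ, 0 < C ∧ ∀ z : ℝ, 2 ≤ z →
    ∀ T : Finset (Pr k), (∀ v ∈ T, (nv v : ℝ) ≤ z) → (T.card : ℝ) ≤ C * z * Real.log z := by
  obtain ⟨C, hC, h⟩ := mertens_upper k
  have hl2 : 0 < Real.log 2 := Real.log_pos (by norm_num)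
  refine ⟨C / Real.log 2, by positivity, fun z hz T hT => ?_⟩
  have hz0 : 0 < z := by linarith
  have h1 := h z hz T hT
  have h2 : (T.card : ℝ) * (Real.log 2 / z) ≤ ∑ v ∈ T, Real.log (nv v) / nv v := by
    have h3 := Finset.card_nsmul_le_sum T (fun v => Real.log (nv v) / nv v) (Real.log 2 / z) (by
      intro v hv
      have h4 : (2 : ℝ) ≤ nv v := by exact_mod_cast two_le_nv v
      have h5 : Real.log 2 ≤ Real.log (nv v) := Real.log_le_log (by norm_num) h4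
      exact div_le_div₀ (hl2.le.trans h5) h5 (by linarith) (hT v hv))
    rwa [nsmul_eq_mul] at h3
  have h3 : (T.card : ℝ) * (Real.log 2 / z) ≤ C * Real.log z := h2.trans h1
  have e1 : (T.card : ℝ) * (Real.log 2 / z) * (z / Real.log 2) = T.card := by
    field_simp
  have e2 : C * Real.log z * (z / Real.log 2) = C / Real.log 2 * z * Real.log z := by
    field_simp
  rw [← e1, ← e2]
  exact mul_le_mul_of_nonneg_right h3 (by positivity)

theorem finite_V {k : Type} [Field k] [NumberField k] (P : Set (Pr k)) (x : ℝ) :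
    {V : Finset (Pr k) | (∀ v ∈ V, v ∈ P) ∧ ∏ v ∈ V, (nv v : ℝ) ≤ x}.Finite := by
  classical
  refine ((PF P x).powerset.finite_toSet).subset ?_
  rintro V ⟨h1, h2⟩
  rw [Finset.mem_coe, Finset.mem_powerset]
  intro v hv
  rw [mem_PF]
  exact ⟨h1 v hv, (d2_le V v hv).trans h2⟩

open scoped Classical in
/-- the sets `V₁ ∪ {w}` -/
private theorem d2_inj {k : Type} [Field k] [NumberField k] (P : Set (Pr k)) (x y : ℝ) (hx : 1 ≤ x)
    (A : Finset (Finset (Pr k))) (hA : ∀ V ∈ A, (∀ v ∈ V, v ∈ P) ∧ ∏ v ∈ V, (nv v : ℝ) ≤ y) :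
    ∑ V ∈ A, ((((PF P (x / ∏ v ∈ V, (nv v : ℝ))).filter (fun w => y < nv w)).card : ℕ) : ℝ) ≤
      ({V : Finset (Pr k) | (∀ v ∈ V, v ∈ P) ∧ ∏ v ∈ V, (nv v : ℝ) ≤ x}.ncard : ℝ) := by
  obtain ⟨W, hW⟩ : ∃ W : Finset (Pr k) → Finset (Pr k), ∀ V, W V =
    (PF P (x / ∏ v ∈ V, (nv v : ℝ))).filter (fun w => y < nv w) := ⟨_, fun V => rfl⟩
  have hmem : ∀ V ∈ A, ∀ w ∈ W V, w ∈ P ∧ (nv w : ℝ) * ∏ v ∈ V, (nv v : ℝ) ≤ x ∧ y < nv w := by
    intro V hV w hw
    rw [hW, Finset.mem_filter, mem_PF] at hw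
    exact ⟨hw.1.1, (le_div_iff₀ (lt_of_lt_of_le one_pos (d2_one V))).1 hw.1.2, hw.2⟩
  have hnot : ∀ V ∈ A, ∀ w : Pr k, y < nv w → w ∉ V := by
    intro V hV w hw hwV
    exact absurd ((d2_le V w hwV).trans (hA V hV).2) (not_le.2 hw)
  have hinj : Set.InjOn (fun p : (_ : Finset (Pr k)) × Pr k => insert p.2 p.1)
      (↑(A.sigma W) : Set ((_ : Finset (Pr k)) × Pr k)) := by
    rintro ⟨V, w⟩ h1 ⟨V', w'⟩ h2 h3
    rw [Finset.mem_coe, Finset.mem_sigma] at h1 h2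
    have a1 := hmem V h1.1 w h1.2
    have a2 := hmem V' h2.1 w' h2.2
    change insert w V = insert w' V' at h3
    have e1 : w' = w := by
      have h4 : w' ∈ insert w V := by
        rw [h3]
        exact Finset.mem_insert_self _ _
      rcases Finset.mem_insert.1 h4 with h4 | h4
      · exact h4
      · exact absurd h4 (hnot V h1.1 w' a2.2.2)
    subst e1
    have e2 : V = V' := by
      rw [← Finset.erase_insert (hnot V h1.1 w' a1.2.2), h3,
        Finset.erase_insert (hnot V' h2.1 w' a2.2.2)]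
    subst e2
    rfl
  have hsub : (↑((A.sigma W).image (fun p : (_ : Finset (Pr k)) × Pr k => insert p.2 p.1)) :
      Set (Finset (Pr k))) ⊆
      {V : Finset (Pr k) | (∀ v ∈ V, v ∈ P) ∧ ∏ v ∈ V, (nv v : ℝ) ≤ x} := by
    intro U hU
    rw [Finset.mem_coe, Finset.mem_image] at hU
    obtain ⟨⟨V, w⟩, h1, rfl⟩ := hU
    rw [Finset.mem_sigma] at h1
    have a1 := hmem V h1.1 w h1.2
    refine ⟨fun v hv => ?_, ?_⟩
    · rcases Finset.mem_insert.1 hv with rfl | hv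
      · exact a1.1
      · exact (hA V h1.1).1 v hv
    · change ∏ v ∈ insert w V, (nv v : ℝ) ≤ x
      rw [Finset.prod_insert (hnot V h1.1 w a1.2.2)]
      exact a1.2.1
  have h3 := Set.ncard_le_ncard hsub (finite_V P x)
  rw [Set.ncard_coe_finset, Finset.card_image_of_injOn hinj, Finset.card_sigma] at h3
  have h4 : ((∑ V ∈ A, (W V).card : ℕ) : ℝ) ≤
      ({V : Finset (Pr k) | (∀ v ∈ V, v ∈ P) ∧ ∏ v ∈ V, (nv v : ℝ) ≤ x}.ncard : ℝ) := by
    exact_mod_cast h3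
  rw [Nat.cast_sum] at h4
  refine le_trans (le_of_eq (Finset.sum_congr rfl fun V _ => ?_)) h4
  rw [hW]

/-- the inequality which holds for large `x` -/
private theorem d2_large (c C x₀ : ℝ) (hc : 0 < c) (m : ℕ) : ∃ x₁ : ℝ, ∀ x : ℝ, x₁ ≤ x →
    16 ≤ x ∧ 2 ^ m ≤ x ∧ x₀ ≤ x ^ (3 / 4 : ℝ) ∧
      C * x ^ (1 / 2 : ℝ) * Real.log (x ^ (1 / 2 : ℝ)) ≤ c / 2 * x ^ (3 / 4 : ℝ) / Real.log x := by
  have h1 : ∀ᶠ x : ℝ in Filter.atTop, |C| * Real.log x ^ 2 ≤ c / 2 * x ^ (1 / 4 : ℝ) := by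
    have h2 := (isLittleO_log_rpow_rpow_atTop (s := 1 / 4) 2 (by norm_num)).bound
      (c := c / 2 / (|C| + 1)) (by positivity)
    filter_upwards [h2, Filter.eventually_ge_atTop 1] with x hx hx1
    have hl : 0 ≤ Real.log x := Real.log_nonneg hx1
    rw [Real.norm_of_nonneg (Real.rpow_nonneg hl _), Real.norm_of_nonneg
      (Real.rpow_nonneg (by linarith) _)] at hx
    have e1 : Real.log x ^ (2 : ℝ) = Real.log x ^ 2 := by
      rw [← Real.rpow_natCast]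
      norm_num
    rw [e1] at hx
    have h3 : 0 ≤ x ^ (1 / 4 : ℝ) := Real.rpow_nonneg (by linarith) _
    calc |C| * Real.log x ^ 2 ≤ |C| * (c / 2 / (|C| + 1) * x ^ (1 / 4 : ℝ)) :=
          mul_le_mul_of_nonneg_left hx (abs_nonneg C)
      _ = (|C| / (|C| + 1)) * (c / 2 * x ^ (1 / 4 : ℝ)) := by ring
      _ ≤ 1 * (c / 2 * x ^ (1 / 4 : ℝ)) := by
          refine mul_le_mul_of_nonneg_right ?_ (by positivity)
          rw [div_le_one (by positivity)]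
          linarith
      _ = c / 2 * x ^ (1 / 4 : ℝ) := one_mul _
  have h2 : ∀ᶠ x : ℝ in Filter.atTop, x₀ ≤ x ^ (3 / 4 : ℝ) :=
    (tendsto_rpow_atTop (by norm_num : (0 : ℝ) < 3 / 4)).eventually_ge_atTop x₀
  have h3 := ((h1.and h2).and ((Filter.eventually_ge_atTop (16 : ℝ)).and
    (Filter.eventually_ge_atTop ((2 : ℝ) ^ m))))
  obtain ⟨x₁, hx₁⟩ := Filter.eventually_atTop.1 h3
  refine ⟨x₁, fun x hx => ?_⟩
  obtain ⟨⟨a1, a2⟩, a3, a4⟩ := hx₁ x hx
  refine ⟨a3, a4, a2, ?_⟩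
  have hx0 : 0 < x := by linarith
  have hl : 0 < Real.log x := Real.log_pos (by linarith)
  rw [Real.log_rpow hx0, le_div_iff₀ hl]
  have e1 : x ^ (3 / 4 : ℝ) = x ^ (1 / 2 : ℝ) * x ^ (1 / 4 : ℝ) := by
    rw [← Real.rpow_add hx0]
    norm_num
  have h5 : 0 < x ^ (1 / 2 : ℝ) := Real.rpow_pos_of_pos hx0 _
  have h6 : C * Real.log x ^ 2 ≤ |C| * Real.log x ^ 2 :=
    mul_le_mul_of_nonneg_right (le_abs_self C) (by positivity)
  have h7 : 0 ≤ |C| * Real.log x ^ 2 := by positivity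
  rw [e1]
  calc C * x ^ (1 / 2 : ℝ) * (1 / 2 * Real.log x) * Real.log x =
        x ^ (1 / 2 : ℝ) * (1 / 2 * (C * Real.log x ^ 2)) := by ring
    _ ≤ x ^ (1 / 2 : ℝ) * (c / 2 * x ^ (1 / 4 : ℝ)) :=
        mul_le_mul_of_nonneg_left (by linarith) h5.le
    _ = c / 2 * (x ^ (1 / 2 : ℝ) * x ^ (1 / 4 : ℝ)) := by ring

theorem count_V {k : Type} [Field k] [NumberField k] (P : Set (Pr k))
    (hP : ∃ c x₀ : ℝ, 0 < c ∧ ∀ x : ℝ, x₀ ≤ x → c * x / Real.log x ≤ ((PF P x).card : ℝ)) :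
    ∃ c x₀ : ℝ, 0 < c ∧ ∀ x : ℝ, x₀ ≤ x →
      c * x * Real.exp (MP P x) / Real.log x ≤
        ({V : Finset (Pr k) | (∀ v ∈ V, v ∈ P) ∧ ∏ v ∈ V, (nv v : ℝ) ≤ x}.ncard : ℝ) := by
  classical
  obtain ⟨c, x₀, hc, hP⟩ := hP
  obtain ⟨c₁, m, hc₁, hm, hV⟩ := sum_inv_V P
  obtain ⟨C, hC, hcount⟩ := d2_count k
  obtain ⟨x₁, hx₁⟩ := d2_large c C x₀ hc m
  refine ⟨c / 2 * c₁, x₁, by positivity, fun x hx => ?_⟩
  obtain ⟨a1, a2, a3, a4⟩ := hx₁ x hx
  have hx0 : 0 < x := by linarith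
  have hl : 0 < Real.log x := Real.log_pos (by linarith)
  obtain ⟨A, hA⟩ : ∃ A, A = (PF P (x ^ (1 / (m : ℝ)))).powerset.filter
          (fun V => ∏ v ∈ V, (nv v : ℝ) ≤ x ^ (1 / 4 : ℝ)) := ⟨_, rfl⟩
  have hA1 : ∀ V ∈ A, (∀ v ∈ V, v ∈ P) ∧ ∏ v ∈ V, (nv v : ℝ) ≤ x ^ (1 / 4 : ℝ) := by
    intro V hV
    rw [hA, Finset.mem_filter, Finset.mem_powerset] at hV
    exact ⟨fun v hv => ((mem_PF _ _ _).1 (hV.1 hv)).1, hV.2⟩
  have h14 : x ^ (1 / 4 : ℝ) ≤ x ^ (1 / 2 : ℝ) :=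
    Real.rpow_le_rpow_of_exponent_le (by linarith) (by norm_num)
  have hinj := d2_inj P x (x ^ (1 / 2 : ℝ)) (by linarith) A
    (fun V hV => ⟨(hA1 V hV).1, (hA1 V hV).2.trans h14⟩)
  have hx2 : (2 : ℝ) ≤ x ^ (1 / 2 : ℝ) := by
    have h1 : (4 : ℝ) ^ (1 / 2 : ℝ) ≤ x ^ (1 / 2 : ℝ) :=
      Real.rpow_le_rpow (by norm_num) (by linarith) (by norm_num)
    have h2 : (4 : ℝ) ^ (1 / 2 : ℝ) = 2 := by
      rw [← Real.sqrt_eq_rpow]
      rw [show (4 : ℝ) = 2 ^ 2 by norm_num, Real.sqrt_sq (by norm_num)]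
    rw [h2] at h1
    exact h1
  have key : ∀ V ∈ A, c / 2 * (x / Real.log x) * ∏ v ∈ V, ((nv v : ℝ))⁻¹ ≤
      ((((PF P (x / ∏ v ∈ V, (nv v : ℝ))).filter (fun w => x ^ (1 / 2 : ℝ) < nv w)).card : ℕ) :
        ℝ) := by
    intro V hV
    obtain ⟨N, hN⟩ : ∃ N, N = ∏ v ∈ V, (nv v : ℝ) := ⟨_, rfl⟩
    have hN1 : 1 ≤ N := by
      rw [hN]
      exact d2_one V
    have hN2 : N ≤ x ^ (1 / 4 : ℝ) := by
      rw [hN]
      exact (hA1 V hV).2
    have hN0 : 0 < N := by linarith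
    rw [Finset.prod_inv_distrib, ← hN]
    have b1 : x ^ (3 / 4 : ℝ) ≤ x / N := by
      rw [le_div_iff₀ hN0]
      calc x ^ (3 / 4 : ℝ) * N ≤ x ^ (3 / 4 : ℝ) * x ^ (1 / 4 : ℝ) :=
            mul_le_mul_of_nonneg_left hN2 (Real.rpow_nonneg hx0.le _)
        _ = x := by
            rw [← Real.rpow_add hx0]
            norm_num
    have b2 : x / N ≤ x := div_le_self hx0.le hN1
    have b3 : 1 < x / N := by
      refine lt_of_lt_of_le ?_ b1
      exact Real.one_lt_rpow (by linarith) (by norm_num)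
    have b4 := hP (x / N) (a3.trans b1)
    have b5 : Real.log (x / N) ≤ Real.log x := Real.log_le_log (by linarith) b2
    have b6 : 0 < Real.log (x / N) := Real.log_pos b3
    have b7 : c * (x / N) / Real.log x ≤ c * (x / N) / Real.log (x / N) :=
      div_le_div_of_nonneg_left (by positivity) b6 b5
    have b8 : (((PF P (x / N)).filter (fun w => ¬ x ^ (1 / 2 : ℝ) < nv w)).card : ℝ) ≤
        C * x ^ (1 / 2 : ℝ) * Real.log (x ^ (1 / 2 : ℝ)) := by
      apply hcount _ hx2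
      intro v hv
      exact not_lt.1 (Finset.mem_filter.1 hv).2
    have b9 : (((PF P (x / N)).filter (fun w => x ^ (1 / 2 : ℝ) < nv w)).card : ℝ) +
        (((PF P (x / N)).filter (fun w => ¬ x ^ (1 / 2 : ℝ) < nv w)).card : ℝ) =
        ((PF P (x / N)).card : ℝ) := by
      exact_mod_cast Finset.card_filter_add_card_filter_not (s := PF P (x / N))
        (fun w => x ^ (1 / 2 : ℝ) < nv w)
    have b10 : c / 2 * x ^ (3 / 4 : ℝ) / Real.log x ≤ c / 2 * (x / N) / Real.log x :=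
      div_le_div_of_nonneg_right (mul_le_mul_of_nonneg_left b1 (by positivity)) hl.le
    have e1 : c / 2 * (x / Real.log x) * N⁻¹ = c / 2 * (x / N) / Real.log x := by
      field_simp
    have e2 : c * (x / N) / Real.log x = c / 2 * (x / N) / Real.log x +
        c / 2 * (x / N) / Real.log x := by ring
    rw [e1]
    linarith
  have hsum := Finset.sum_le_sum key
  rw [← Finset.mul_sum] at hsum
  have h5 := hV x a2
  rw [← hA] at h5
  calc c / 2 * c₁ * x * Real.exp (MP P x) / Real.log x =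
        c / 2 * (x / Real.log x) * (c₁ * Real.exp (MP P x)) := by ring
    _ ≤ c / 2 * (x / Real.log x) * ∑ V ∈ A, ∏ v ∈ V, ((nv v : ℝ))⁻¹ :=
        mul_le_mul_of_nonneg_left h5 (by positivity)
    _ ≤ _ := hsum.trans hinj

end SC7
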