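import Pool.Agent.MP_c1dca2_ag.SC7.C8

/-!
# [SC7-D3] Chebyshev's lower bound for the primes above which `L i` has a prime of degree one

`chebyshev` for `L i`: `w` with `nv w` prime has `dg k w = 1` and `nv (bl k w) = nv w` (`a8_dg`, SC5/A8), so
`bl k w ∈ {v | v ∉ S' ∧ ∃ w, bl k w = v ∧ dg k w = 1}` unless `bl k w ∈ S'` (finitely many `v`, finitely many `w` by `finite_bl`: at most a constant
number `C₁`). Every `v` has at most `d = finrank k (L i)` primes `w` above it (`card_bl` SC5/A1: `∑ dg ≤ finrank`, `dg_pos`). So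
`#{v} ≥ (c x / log x - C₁) / d ≥ c' x / log x` for `x` large. (`P` is `PS k L S'`.)
-/

set_option autoImplicit false

open NumberField IsDedekindDomain SC5

namespace SC7

theorem chebyshev_PS {k : Type} [Field k] [NumberField k] {I : Type} (L : I → Type)
    [∀ i, Field (L i)] [∀ i, NumberField (L i)] [∀ i, Algebra k (L i)] (i₀ : I)
    (S' : Finset (Pr k)) : ∃ c x₀ : ℝ, 0 < c ∧ ∀ x : ℝ, x₀ ≤ x →
      c * x / Real.log x ≤ ((PF (PS k L S') x).card : ℝ) := by
  classical
  obtain ⟨c, x0, hc, hch⟩ := chebyshev (L i₀)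
  set m := Module.finrank k (L i₀) with hm
  have hm0 : 0 < m := Module.finrank_pos
  have hm1 : (0 : ℝ) < m := by exact_mod_cast hm0
  set F : Finset (Pr (L i₀)) := S'.biUnion fun v => (finite_bl (L := L i₀) v).toFinset with hF
  refine ⟨c / (2 * m), max x0 (max 2 ((4 * F.card / c) ^ 2)), by positivity, fun x hx => ?_⟩
  have hx1 : x0 ≤ x := (le_max_left _ _).trans hx
  have hx2 : 2 ≤ x := ((le_max_left _ _).trans (le_max_right _ _)).trans hx
  have hx3 : (4 * F.card / c) ^ 2 ≤ x := ((le_max_right _ _).trans (le_max_right _ _)).trans hx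
  have hx0 : 0 < x := by linarith
  have hlogx : 0 < Real.log x := Real.log_pos (by linarith)
  have h1 := hch x hx1
  set W := PF {w : Pr (L i₀) | (nv w).Prime} x with hW
  have h2 : W.card ≤ (W \ F).card + F.card := by
    have h3 := Finset.card_le_card (Finset.subset_union_left (s₁ := W) (s₂ := F))
    rw [← Finset.sdiff_union_self_eq_union] at h3
    exact h3.trans (Finset.card_union_le _ _)
  have h3 : (W \ F).card ≤ m * (PF (PS k L S') x).card := by
    refine Finset.card_le_mul_card_image_of_maps_to (f := bl k) ?_ m ?_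
    · intro w hw
      obtain ⟨h4, h5⟩ := Finset.mem_sdiff.1 hw
      rw [hW, mem_PF] at h4
      obtain ⟨h6, h7⟩ := a8_dg (k := k) w h4.1
      rw [mem_PF]
      refine ⟨⟨?_, i₀, w, rfl, h6⟩, ?_⟩
      · intro h8
        apply h5
        rw [hF, Finset.mem_biUnion]
        exact ⟨bl k w, h8, (Set.Finite.mem_toFinset _).2 rfl⟩
      · rw [h7]
        exact h4.2
    · intro v _
      refine le_trans ?_ (card_bl (k := k) v ((W \ F).filter (fun w => bl k w = v))
        (fun w hw => (Finset.mem_filter.1 hw).2))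
      rw [Finset.card_eq_sum_ones]
      exact Finset.sum_le_sum fun w _ => dg_pos w
  have h4 : c * x / Real.log x ≤ m * ((PF (PS k L S') x).card : ℝ) + F.card := by
    have h5 : (W.card : ℝ) ≤ m * ((PF (PS k L S') x).card : ℝ) + F.card := by
      exact_mod_cast h2.trans (Nat.add_le_add_right h3 _)
    exact h1.trans h5
  have h5 : (F.card : ℝ) ≤ c / 2 * (x / Real.log x) := by
    have h6 : 4 * F.card / c ≤ Real.sqrt x := by
      rw [← Real.sqrt_sq (show 0 ≤ 4 * (F.card : ℝ) / c by positivity)]
      exact Real.sqrt_le_sqrt hx3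
    have hs0 : 0 < Real.sqrt x := Real.sqrt_pos.2 hx0
    have h7 : Real.log x ≤ 2 * Real.sqrt x := by
      have h8 := Real.log_le_sub_one_of_pos hs0
      have h9 : Real.log x = 2 * Real.log (Real.sqrt x) := by
        rw [Real.log_sqrt hx0.le]
        ring
      linarith
    have h8 : Real.sqrt x / 2 ≤ x / Real.log x := by
      rw [le_div_iff₀ hlogx]
      have h9 : Real.sqrt x * Real.sqrt x = x := Real.mul_self_sqrt hx0.le
      nlinarith
    rw [div_le_iff₀ hc] at h6
    nlinarith
  have h6 : c / (2 * m) * x / Real.log x = c / 2 * (x / Real.log x) / m := by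
    field_simp
  rw [h6, div_le_iff₀ hm1]
  have h7 : c * x / Real.log x = c / 2 * (x / Real.log x) + c / 2 * (x / Real.log x) := by ring
  linarith

end SC7
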