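import Pool.Agent.MP_c1dca2_ag.SC5.A4
import Pool.Agent.MP_c1dca2_ag.SC3.F

/-!
# [SC7-G1] a multiple by a square with small coordinates

`n = card ι`. Let `x ≠ 0`, `X = absNorm (x)`. As in `A3_pigeon` (SC5/A3.lean; there for a prime ideal and the basis
`RingOfIntegers.basis K`): the box `[0, B]^n` with `B ^ n ≤ X < (B + 1) ^ n` has more elements than `𝓞 k / (x)`, so there are `c ≠ c'` in it with
`a = el b c - el b c' ∈ (x)`, `a ≠ 0`, with coordinates `|.| ≤ B`. So `a = x r`, `r ≠ 0`, and `absNorm (a) ≤ C₁ B ^ n ≤ C₁ X` (`norm_box`, SC5/A3), so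
`absNorm (r) ≤ C₁`. There are finitely many ideals of norm `≤ C₁` (`Ideal.finite_setOf_absNorm_le`); for each principal one
choose a generator: a finite set `R₁`; `r = r₁ u`, `r₁ ∈ R₁`, `u` a unit. The group of units modulo squares is finite (`(𝓞 k)ˣ` is
finitely generated: `Units` instances / `NumberField.Units`; an abelian f.g. group modulo squares is finite; or use
`SC3.finite_sel ∅`: a finite set `U ⊆ k` such that for a unit `u` some `u₁ ∈ U` has `u u₁` a square): there is a finite set `U₁` of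
units with: every unit is `u₁ s₁ ^ 2`, `u₁ ∈ U₁`, `s₁` a unit. So `a = x r₁ u₁ s₁ ^ 2`. Let `s = r₁ s₁`: `x s ^ 2 = x r₁^2 s₁^2 = a r₁ u₁⁻¹`, whose
coordinates are at most `C₂ B` (multiplication by one of the finitely many elements `r₁ u₁⁻¹`), and `absNorm (s) = absNorm (r₁) ≤ C₁`.
So `|c i| ^ n ≤ C₂ ^ n B ^ n ≤ C₂ ^ n X`.
-/

set_option autoImplicit false

open NumberField IsDedekindDomain SC5

namespace SC7

/-- units modulo squares -/
private theorem g1_units (k : Type) [Field k] [NumberField k] :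
    ∃ U : Finset (𝓞 k)ˣ, ∀ u : (𝓞 k)ˣ, ∃ u₁ ∈ U, ∃ s : (𝓞 k)ˣ, u = u₁ * s ^ 2 := by
  classical
  have hfg : Group.FG (𝓞 k)ˣ := Group.fg_iff_monoid_fg.2 inferInstance
  have hfin : Finite ((𝓞 k)ˣ ⧸ (powMonoidHom 2 : (𝓞 k)ˣ →* (𝓞 k)ˣ).range) := by
    apply CommGroup.finite_of_fg_isMulTorsion
    intro g
    obtain ⟨u, rfl⟩ := QuotientGroup.mk_surjective g
    rw [isOfFinOrder_iff_pow_eq_one]
    refine ⟨2, by norm_num, ?_⟩
    rw [← QuotientGroup.mk_pow, QuotientGroup.eq_one_iff]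
    exact ⟨u, rfl⟩
  have := Fintype.ofFinite ((𝓞 k)ˣ ⧸ (powMonoidHom 2 : (𝓞 k)ˣ →* (𝓞 k)ˣ).range)
  refine ⟨Finset.univ.image (fun q : (𝓞 k)ˣ ⧸ (powMonoidHom 2 : (𝓞 k)ˣ →* (𝓞 k)ˣ).range => q.out),
    fun u => ⟨(QuotientGroup.mk u : (𝓞 k)ˣ ⧸ (powMonoidHom 2 : (𝓞 k)ˣ →* (𝓞 k)ˣ).range).out,
      Finset.mem_image_of_mem _ (Finset.mem_univ _), ?_⟩⟩
  obtain ⟨⟨h, t, ht⟩, hh⟩ := QuotientGroup.mk_out_eq_mul
    (powMonoidHom 2 : (𝓞 k)ˣ →* (𝓞 k)ˣ).range u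
  refine ⟨t⁻¹, ?_⟩
  have ht' : t ^ 2 = h := ht
  rw [hh]
  change u = u * h * t⁻¹ ^ 2
  rw [← ht', inv_pow, mul_assoc, mul_inv_cancel, mul_one]

/-- multiplication by an element in coordinates -/
private theorem g1_mul {k : Type} [Field k] [NumberField k] {ι : Type} [Fintype ι]
    (b : Module.Basis ι ℤ (𝓞 k)) (t : 𝓞 k) : ∃ M : ℕ, ∀ (c : ι → ℤ) (B : ℕ), (∀ i, |c i| ≤ B) →
      ∃ c' : ι → ℤ, el b c' = el b c * t ∧ ∀ i, |c' i| ≤ (M * B : ℕ) := by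
  classical
  refine ⟨∑ i, ∑ j, (b.repr (b j * t) i).natAbs, fun c B hc => ⟨fun i => b.repr (el b c * t) i,
    ?_, fun i => ?_⟩⟩
  · unfold el
    exact b.sum_repr _
  · have h1 : b.repr (el b c * t) i = ∑ j, c j * b.repr (b j * t) i := by
      unfold el
      rw [Finset.sum_mul, map_sum, Finsupp.finsetSum_apply]
      refine Finset.sum_congr rfl fun j _ => ?_
      rw [smul_mul_assoc, map_zsmul, Finsupp.smul_apply, smul_eq_mul]
    change |b.repr (el b c * t) i| ≤ _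
    rw [h1]
    refine (Finset.abs_sum_le_sum_abs _ _).trans ?_
    have h2 : ∑ j, |c j * b.repr (b j * t) i| ≤ ∑ j, (B : ℤ) * ((b.repr (b j * t) i).natAbs : ℤ) := by
      refine Finset.sum_le_sum fun j _ => ?_
      rw [abs_mul, Int.natCast_natAbs]
      exact mul_le_mul_of_nonneg_right (hc j) (abs_nonneg _)
    refine h2.trans ?_
    rw [← Finset.mul_sum, mul_comm (B : ℤ)]
    push_cast
    refine mul_le_mul_of_nonneg_right ?_ (by positivity)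
    exact Finset.single_le_sum (f := fun i => ∑ j, |b.repr (b j * t) i|)
      (fun i _ => Finset.sum_nonneg fun j _ => abs_nonneg _) (Finset.mem_univ i)

/-- the pigeonhole principle -/
private theorem g1_pigeon {k : Type} [Field k] [NumberField k] {ι : Type} [Fintype ι]
    (b : Module.Basis ι ℤ (𝓞 k)) (x : 𝓞 k) (hx : x ≠ 0) :
    ∃ (c : ι → ℤ) (B : ℕ), B ^ (Fintype.card ι) ≤ Ideal.absNorm (Ideal.span {x}) ∧
      (∀ i, |c i| ≤ B) ∧ el b c ≠ 0 ∧ x ∣ el b c := by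
  classical
  have hn : 0 < Fintype.card ι := by
    rw [card_basis b]
    exact Module.finrank_pos
  have hxb : Ideal.span {x} ≠ ⊥ := by
    rw [Ne, Ideal.span_singleton_eq_bot]
    exact hx
  obtain ⟨B, hB1, hB2⟩ := A3_root (Fintype.card ι) (Ideal.absNorm (Ideal.span {x})) hn
  have hfin : Finite (𝓞 k ⧸ Ideal.span {x}) := Ideal.finiteQuotientOfFreeOfNeBot _ hxb
  have hcq : Nat.card (𝓞 k ⧸ Ideal.span {x}) = Ideal.absNorm (Ideal.span {x}) := by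
    rw [Ideal.absNorm_apply, Submodule.cardQuot_apply]
  set f : (ι → Fin (B + 1)) → 𝓞 k ⧸ Ideal.span {x} :=
    fun c => Ideal.Quotient.mk (Ideal.span {x}) (el b fun i => ((c i : ℕ) : ℤ)) with hf
  have hninj : ¬ Function.Injective f := by
    intro hinj
    have h1 := Nat.card_le_card_of_injective f hinj
    rw [hcq, Nat.card_eq_fintype_card, Fintype.card_fun, Fintype.card_fin] at h1
    omega
  rw [Function.not_injective_iff] at hninj
  obtain ⟨c, c', hcc, hne⟩ := hninj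
  refine ⟨fun i => ((c i : ℕ) : ℤ) - ((c' i : ℕ) : ℤ), B, hB1, ?_, ?_, ?_⟩
  · intro i
    have h1 := (c i).2
    have h2 := (c' i).2
    show |((c i : ℕ) : ℤ) - ((c' i : ℕ) : ℤ)| ≤ B
    rw [abs_le]
    constructor <;> omega
  · intro h0
    apply hne
    have h1 := a4_zero b _ h0
    funext i
    have h2 := congrFun h1 i
    simp only [Pi.zero_apply] at h2
    apply Fin.ext
    omega
  · have h1 : el b (fun i => ((c i : ℕ) : ℤ) - ((c' i : ℕ) : ℤ)) =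
        el b (fun i => ((c i : ℕ) : ℤ)) - el b (fun i => ((c' i : ℕ) : ℤ)) := a4_sub b _ _
    rw [h1, ← Ideal.mem_span_singleton, ← Ideal.Quotient.eq]
    exact hcc

theorem small_mult {k : Type} [Field k] [NumberField k] {ι : Type} [Fintype ι]
    (b : Module.Basis ι ℤ (𝓞 k)) : ∃ C : ℕ, 0 < C ∧ ∀ x : 𝓞 k, x ≠ 0 → ∃ s : 𝓞 k, s ≠ 0 ∧
      ∃ c : ι → ℤ, el b c = x * s ^ 2 ∧
        ∀ i, |c i| ^ (Fintype.card ι) ≤ (C * Ideal.absNorm (Ideal.span {x}) : ℤ) := by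
  classical
  obtain ⟨C₁, hC₁, hbox⟩ := norm_box b
  obtain ⟨U, hU⟩ := g1_units k
  -- generators of the principal ideals of small norm
  have hfin := Ideal.finite_setOfPred_absNorm_le (S := 𝓞 k) C₁
  obtain ⟨g, hg⟩ : ∃ g : Ideal (𝓞 k) → 𝓞 k, ∀ r : 𝓞 k, Ideal.span {g (Ideal.span {r})} =
      Ideal.span {r} := by
    have h1 : ∀ I : Ideal (𝓞 k), ∃ r : 𝓞 k, (∃ r' : 𝓞 k, Ideal.span {r'} = I) → Ideal.span {r} = I := by
      intro I
      by_cases h : ∃ r' : 𝓞 k, Ideal.span {r'} = I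
      · obtain ⟨r', hr'⟩ := h
        exact ⟨r', fun _ => hr'⟩
      · exact ⟨0, fun h' => absurd h' h⟩
    choose g hg using h1
    exact ⟨g, fun r => hg _ ⟨r, rfl⟩⟩
  choose M hM using g1_mul b
  obtain ⟨N, hN⟩ : ∃ N : ℕ, N = ∑ I ∈ hfin.toFinset, ∑ u ∈ U, M (g I * ((u⁻¹ : (𝓞 k)ˣ) : 𝓞 k)) + 1 :=
    ⟨_, rfl⟩
  have hN0 : 0 < N := by omega
  refine ⟨N ^ (Fintype.card ι), pow_pos hN0 _, fun x hx => ?_⟩
  obtain ⟨c, B, hB, hc, hc0, r, hr⟩ := g1_pigeon b x hx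
  have hr0 : r ≠ 0 := by
    rintro rfl
    rw [mul_zero] at hr
    exact hc0 hr
  have hX : 0 < Ideal.absNorm (Ideal.span {x}) := by
    refine Nat.pos_of_ne_zero ?_
    rw [Ne, Ideal.absNorm_eq_zero_iff, Ideal.span_singleton_eq_bot]
    exact hx
  have hrC : Ideal.absNorm (Ideal.span {r}) ≤ C₁ := by
    have h1 := hbox c B hc
    rw [hr, ← Ideal.span_singleton_mul_span_singleton, map_mul] at h1
    have h2 : Ideal.absNorm (Ideal.span {x}) * Ideal.absNorm (Ideal.span {r}) ≤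
        Ideal.absNorm (Ideal.span {x}) * C₁ := by
      refine h1.trans ?_
      rw [mul_comm _ C₁]
      exact Nat.mul_le_mul_left _ hB
    exact Nat.le_of_mul_le_mul_left h2 hX
  obtain ⟨u, hu⟩ := Ideal.span_singleton_eq_span_singleton.1 (hg r)
  obtain ⟨u₁, hu₁, s₁, hs₁⟩ := hU u
  obtain ⟨c', hc'1, hc'2⟩ := hM (g (Ideal.span {r}) * ((u₁⁻¹ : (𝓞 k)ˣ) : 𝓞 k)) c B hc
  have hg0 : g (Ideal.span {r}) ≠ 0 := by
    intro h0
    rw [h0, zero_mul] at hu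
    exact hr0 hu.symm
  refine ⟨g (Ideal.span {r}) * (s₁ : 𝓞 k), mul_ne_zero hg0 s₁.ne_zero, c', ?_, fun i => ?_⟩
  · have hinv : (u₁ : 𝓞 k) * ((u₁⁻¹ : (𝓞 k)ˣ) : 𝓞 k) = 1 := Units.mul_inv u₁
    have hu' : (u : 𝓞 k) = (u₁ : 𝓞 k) * (s₁ : 𝓞 k) ^ 2 := by
      rw [hs₁, Units.val_mul, Units.val_pow_eq_pow_val]
    linear_combination hc'1 + (g (Ideal.span {r}) * ((u₁⁻¹ : (𝓞 k)ˣ) : 𝓞 k)) * hr -
      x * g (Ideal.span {r}) * ((u₁⁻¹ : (𝓞 k)ˣ) : 𝓞 k) * hu +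
      x * g (Ideal.span {r}) ^ 2 * ((u₁⁻¹ : (𝓞 k)ˣ) : 𝓞 k) * hu' +
      x * g (Ideal.span {r}) ^ 2 * (s₁ : 𝓞 k) ^ 2 * hinv
  · have h1 : M (g (Ideal.span {r}) * ((u₁⁻¹ : (𝓞 k)ˣ) : 𝓞 k)) ≤ N := by
      have h2 : M (g (Ideal.span {r}) * ((u₁⁻¹ : (𝓞 k)ˣ) : 𝓞 k)) ≤
          ∑ u ∈ U, M (g (Ideal.span {r}) * ((u⁻¹ : (𝓞 k)ˣ) : 𝓞 k)) :=
        Finset.single_le_sum (f := fun u => M (g (Ideal.span {r}) * ((u⁻¹ : (𝓞 k)ˣ) : 𝓞 k)))
          (fun _ _ => Nat.zero_le _) hu₁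
      have h3 : ∑ u ∈ U, M (g (Ideal.span {r}) * ((u⁻¹ : (𝓞 k)ˣ) : 𝓞 k)) ≤
          ∑ I ∈ hfin.toFinset, ∑ u ∈ U, M (g I * ((u⁻¹ : (𝓞 k)ˣ) : 𝓞 k)) :=
        Finset.single_le_sum (f := fun I => ∑ u ∈ U, M (g I * ((u⁻¹ : (𝓞 k)ˣ) : 𝓞 k)))
          (fun _ _ => Nat.zero_le _) (by
            rw [Set.Finite.mem_toFinset]
            exact hrC)
      omega
    have h4 : |c' i| ≤ ((N * B : ℕ) : ℤ) := by
      refine (hc'2 i).trans ?_
      exact_mod_cast Nat.mul_le_mul_right B h1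
    have h5 : |c' i| ^ (Fintype.card ι) ≤ ((N * B : ℕ) : ℤ) ^ (Fintype.card ι) :=
      pow_le_pow_left₀ (abs_nonneg _) h4 _
    refine h5.trans ?_
    have h6 : (N * B) ^ (Fintype.card ι) ≤
        N ^ (Fintype.card ι) * Ideal.absNorm (Ideal.span {x}) := by
      rw [mul_pow]
      exact Nat.mul_le_mul_left _ hB
    exact_mod_cast h6

end SC7
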