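import Pool.Agent.MP_c1dca2_ag.SC3.G8
import Pool.Agent.MP_c1dca2_ag.SC5.A2

/-!
# [SC7-P2] local roots at the places with a prime of degree one above

`θ ∈ L` with `f(θ) = 0`. Write `d θ = β` with `d ∈ 𝓞 k`, `d ≠ 0`, `β ∈ 𝓞 L` (`IsIntegralClosure.exists_smul_eq_mul` /
`exists_integral_multiple`, `θ` algebraic over `k`). `S₂` = the bad places of `f` (`SC3.good_places`) and the places dividing `d`.
Let `v ∉ S₂`, `w` a prime of `L` above `v` with `dg k w = 1`: `nv w = nv v` (`nv_eq`), so the injective map `𝓞 k ⧸ v → 𝓞 L ⧸ w`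
between finite rings of the same cardinality is bijective: there is `a₀ ∈ 𝓞 k` with `a₀ - β ∈ w`. Let `a = a₀ / d ∈ k`, `v(a) ≤ 1`;
`w(a - θ) < 1`. `f` has `v`-integral coefficients, `θ` and `a` are `w`-integral, so `w(f(a)) = w(f(a) - f(θ)) < 1`
(`f(a) - f(θ) = (a - θ) * (integral)`: `Polynomial.sub_dvd_eval_sub` over the valuation subring of `w`), hence `v(f(a)) < 1` (`w` lies above
`v`; the comparison of valuations: an element of `k` has `v < 1` iff `w < 1`; see `SC5.mem_bl` for elements of `𝓞 k` and write `f(a)` as a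
quotient with denominator prime to `v`, or `Ideal.LiesOver`/`valuation_comap` in Mathlib). By separability of the reduction
`v(f'(a)) = 1`: as at the end of the proof of `SC3.root_local` (with `GoodAt.red`). `SC3.hensel_completion`.
-/

set_option autoImplicit false

open Polynomial NumberField IsDedekindDomain SC5 SC3

namespace SC7

private theorem P2_pow {L Γ : Type*} [Field L] [LinearOrderedCommGroupWithZero Γ]
    (ν : Valuation L Γ) (x y : L) (hx : ν x ≤ 1) (hy : ν y ≤ 1) (n : ℕ) :
    ν (x ^ n - y ^ n) ≤ ν (x - y) := by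
  induction n with
  | zero => simp
  | succ n ih =>
    have h1 : x ^ (n + 1) - y ^ (n + 1) = x * (x ^ n - y ^ n) + (x - y) * y ^ n := by ring
    rw [h1]
    refine ν.map_add_le ?_ ?_
    · rw [map_mul]
      exact (mul_le_mul' hx ih).trans (le_of_eq (one_mul _))
    · rw [map_mul, map_pow]
      exact (mul_le_mul' le_rfl (pow_le_one' hy n)).trans (le_of_eq (mul_one _))

private theorem P2_eval {L Γ : Type*} [Field L] [LinearOrderedCommGroupWithZero Γ]
    (ν : Valuation L Γ) (P : L[X]) (hP : ∀ n, ν (P.coeff n) ≤ 1) (x y : L) (hx : ν x ≤ 1)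
    (hy : ν y ≤ 1) : ν (P.eval x - P.eval y) ≤ ν (x - y) := by
  rw [eval_eq_sum_range, eval_eq_sum_range, ← Finset.sum_sub_distrib]
  refine ν.map_sum_le fun i _ => ?_
  rw [← mul_sub, map_mul]
  exact (mul_le_mul' (hP i) (P2_pow ν x y hx hy i)).trans (le_of_eq (one_mul _))

private theorem P2_surj {k L : Type} [Field k] [NumberField k] [Field L] [NumberField L]
    [Algebra k L] (w : Pr L) (hw : dg k w = 1) (β : 𝓞 L) :
    ∃ a : 𝓞 k, algebraMap (𝓞 k) (𝓞 L) a - β ∈ w.asIdeal := by
  set v := bl k w with hv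
  have hle : v.asIdeal ≤ w.asIdeal.comap (algebraMap (𝓞 k) (𝓞 L)) := fun x hx => (mem_bl w x).1 hx
  have hge : w.asIdeal.comap (algebraMap (𝓞 k) (𝓞 L)) ≤ v.asIdeal := fun x hx => (mem_bl w x).2 hx
  have hinj : Function.Injective (Ideal.quotientMap w.asIdeal (algebraMap (𝓞 k) (𝓞 L)) hle) :=
    Ideal.quotientMap_injective' hge
  have hc1 : Nat.card (𝓞 k ⧸ v.asIdeal) = nv v := rfl
  have hc2 : Nat.card (𝓞 L ⧸ w.asIdeal) = nv w := rfl
  have hnv : nv w = nv v := by
    have := nv_eq (k := k) w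
    rwa [hw, pow_one] at this
  have hfin : Finite (𝓞 L ⧸ w.asIdeal) := by
    apply Nat.finite_of_card_ne_zero
    rw [hc2]
    have := two_le_nv w
    omega
  have hbij := (Nat.bijective_iff_injective_and_card
    (Ideal.quotientMap w.asIdeal (algebraMap (𝓞 k) (𝓞 L)) hle)).2 ⟨hinj, by rw [hc1, hc2, hnv]⟩
  obtain ⟨y, hy⟩ := hbij.2 (Ideal.Quotient.mk _ β)
  obtain ⟨a, rfl⟩ := Ideal.Quotient.mk_surjective y
  refine ⟨a, ?_⟩
  rw [Ideal.quotientMap_mk] at hy
  exact Ideal.Quotient.eq.1 hy

theorem root_of_degree_one {k L : Type} [Field k] [NumberField k] [Field L] [NumberField L]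
    [Algebra k L] (f : k[X]) (hf : f.Separable) (θ : L) (hθ : aeval θ f = 0) :
    ∃ S₂ : Finset (Pr k), ∀ v, v ∉ S₂ → ∀ w : Pr L, bl k w = v → dg k w = 1 →
      ∃ X : v.adicCompletion k, eval X (f.map (algebraMap k (v.adicCompletion k))) = 0 := by
  classical
  obtain ⟨d, hd0, hd⟩ : ∃ d : 𝓞 k, d ≠ 0 ∧ IsIntegral (𝓞 k) (d • θ) := by
    have h1 : IsAlgebraic k θ := Algebra.IsAlgebraic.isAlgebraic θ
    have h2 : IsAlgebraic (𝓞 k) θ := (IsFractionRing.isAlgebraic_iff (𝓞 k) k L).2 h1
    exact h2.exists_integral_multiple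
  have hd' : IsIntegral ℤ (d • θ) := isIntegral_trans _ hd
  set β : 𝓞 L := ⟨d • θ, hd'⟩ with hβ
  have hβθ : (β : L) = algebraMap k L (d : k) * θ := by
    change d • θ = _
    rw [Algebra.smul_def]
    rfl
  set S1 := (good_places f hf).toFinset with hS1
  set S2 := (G0_fin d hd0).toFinset with hS2
  refine ⟨S1 ∪ S2, fun v hv w hw hdg => ?_⟩
  rw [Finset.mem_union, not_or] at hv
  obtain ⟨A, hA⟩ := exists_isVal v
  have hgood : GoodAt A f := by
    by_contra h
    apply hv.1
    rw [hS1, Set.Finite.mem_toFinset]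
    exact ⟨A, hA, h⟩
  have hdv : d ∉ v.asIdeal := by
    intro h
    apply hv.2
    rw [hS2, Set.Finite.mem_toFinset]
    exact h
  obtain ⟨F, hFf, hsep, hdeg⟩ := hgood.red
  have hlo : w.asIdeal.LiesOver v.asIdeal := a1_liesOver_of_eq hw
  set e := v.asIdeal.ramificationIdx' w.asIdeal with he
  have he0 : e ≠ 0 := Ideal.IsDedekindDomain.ramificationIdx'_ne_zero_of_liesOver w.asIdeal v.ne_bot
  have hval : ∀ x : k, v.valuation k x ^ e = w.valuation L (algebraMap k L x) := fun x =>
    HeightOneSpectrum.valuation_liesOver L v w x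
  obtain ⟨a0, ha0⟩ := P2_surj (k := k) w hdg β
  have hdval : v.valuation k (d : k) = 1 := by
    refine le_antisymm (v.valuation_le_one d) (not_lt.1 fun h => hdv ?_)
    exact (v.valuation_lt_one_iff_mem (K := k) d).1 h
  have hdk : (d : k) ≠ 0 := by
    intro h
    rw [h, map_zero] at hdval
    exact zero_ne_one hdval
  have hdw : w.valuation L (algebraMap k L (d : k)) = 1 := by
    rw [← hval, hdval, one_pow]
  have hdL : algebraMap k L (d : k) ≠ 0 := by
    intro h
    rw [h, map_zero] at hdw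
    exact zero_ne_one hdw
  set a : k := (a0 : k) / d with ha
  have hav : v.valuation k a ≤ 1 := by
    rw [ha, map_div₀, hdval, div_one]
    exact v.valuation_le_one a0
  have haw : w.valuation L (algebraMap k L a) ≤ 1 := by
    rw [← hval]
    exact pow_le_one' hav e
  have hθeq : θ = (β : L) / algebraMap k L (d : k) := by
    rw [hβθ]
    field_simp
  have hθw : w.valuation L θ ≤ 1 := by
    rw [hθeq, map_div₀, hdw, div_one]
    exact w.valuation_le_one β
  have haθ : w.valuation L (algebraMap k L a - θ) < 1 := by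
    have h1 : algebraMap k L a - θ =
        ((algebraMap (𝓞 k) (𝓞 L) a0 - β : 𝓞 L) : L) / algebraMap k L (d : k) := by
      rw [hθeq, ha, map_div₀, ← sub_div]
      rfl
    rw [h1, map_div₀, hdw, div_one]
    exact (w.valuation_lt_one_iff_mem (K := L) _).2 ha0
  have hcoeff : ∀ n, v.valuation k (f.coeff n) ≤ 1 := by
    intro n
    rw [← hFf, coeff_map]
    exact (hA.mem _).1 (F.coeff n).2
  have hfa : v.valuation k (f.eval a) < 1 := by
    have h1 := P2_eval (w.valuation L) (f.map (algebraMap k L)) (by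
      intro n
      rw [coeff_map, ← hval]
      exact pow_le_one' (hcoeff n) e) (algebraMap k L a) θ haw hθw
    rw [eval_map_apply, eval_map_algebraMap, hθ, sub_zero] at h1
    have h2 := lt_of_le_of_lt h1 haθ
    rw [← hval] at h2
    by_contra h
    push Not at h
    exact absurd h2 (not_lt.2 (one_le_pow_of_one_le' h e))
  set aA : A := ⟨a, (hA.mem _).2 hav⟩ with haA
  have e1 : ∀ G : A[X], (G.map A.subtype).eval a = ((G.eval aA : A) : k) :=
    fun G => eval_map_apply A.subtype aA
  have habar : (F.map (IsLocalRing.residue A)).eval (IsLocalRing.residue A aA) = 0 := by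
    rw [eval_map_apply]
    rw [← hFf, e1, ← hA.lt, ← A.valuation_lt_one_iff] at hfa
    exact (IsLocalRing.residue_eq_zero_iff _).2 hfa
  refine hensel_completion v f hcoeff a hav hfa ?_
  rw [← hFf, derivative_map, e1]
  have h1 : IsLocalRing.residue A (F.derivative.eval aA) ≠ 0 := by
    rw [← eval_map_apply, ← derivative_map]
    exact hsep.eval₂_derivative_ne_zero (RingHom.id _) habar
  refine le_antisymm ((hA.mem _).1 (F.derivative.eval aA).2) (not_lt.1 fun h2 => h1 ?_)
  rw [← hA.lt, ← A.valuation_lt_one_iff] at h2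
  exact (IsLocalRing.residue_eq_zero_iff _).2 h2

end SC7
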