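import Pool.Agent.MP_c1dca2_ag.SC7.P1
import Pool.Agent.MP_c1dca2_ag.SC7.P2
import Pool.Agent.MP_c1dca2_ag.SC7.Defs
import Pool.Agent.MP_c1dca2_ag.SC5.HD

/-!
# [SC7-P4] local solubility

`ls_mul_sq`: `Y² = c f(X)` gives `(d Y)² = c d² f(X)`.
`els_of`: `S'` = `S`, the bad places of `f` (`SC3.good_places`), the `v` with `¬ Ev v c₀` (`SC3.finite_not_ev`), the `v` containing some `m`,
`1 ≤ m ≤ 2 N + 2` (`finite_mem` SC5/A1), the `v` of norm `< 100 (N + 1)^3` (`finite_nv`), the `S₂` of `root_of_degree_one` for every `i` (`RF.root`).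
At `v ∈ S'` and the infinite `v`: `x = z²` in the completion, `Y² = c₀ f(X)`, so `(z Y)² = c₀ x f(X)`.
At `v ∉ S'`: if `v ∈ PS k L S`: `Y = 0`, `X` from `root_of_degree_one`. Otherwise `Ev v x` and `Ev v c₀`, so `Ev v (c₀ x)`: `point_even`
(`SC3.exists_isVal`).
-/

set_option autoImplicit false

open Polynomial NumberField IsDedekindDomain SC5 SC3

namespace SC7

theorem p4_pt {k M : Type*} [Field k] [Field M] (φ : k →+* M) (f : k[X]) (c x : k)
    (hx : IsSquare (φ x)) (h : ∃ X Y : M, Y ^ 2 = eval X ((C c * f).map φ)) :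
    ∃ X Y : M, Y ^ 2 = eval X ((C (c * x) * f).map φ) := by
  obtain ⟨z, hz⟩ := hx
  obtain ⟨X, Y, h⟩ := h
  refine ⟨X, z * Y, ?_⟩
  rw [Polynomial.map_mul, map_C, eval_mul, eval_C] at h ⊢
  rw [mul_pow, h, map_mul, hz]
  ring

theorem ls_mul_sq {k : Type} [Field k] [NumberField k] (f : k[X]) (c d : k)
    (h : SEC.LocallySoluble k (C c * f)) : SEC.LocallySoluble k (C (c * d ^ 2) * f) := by
  refine ⟨fun v => ?_, fun v => ?_⟩
  · refine p4_pt _ f c (d ^ 2) ?_ (h.1 v)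
    rw [map_pow]
    exact IsSquare.sq _
  · refine p4_pt _ f c (d ^ 2) ?_ (h.2 v)
    rw [map_pow]
    exact IsSquare.sq _

theorem els_of {k : Type} [Field k] [NumberField k] {I : Type} [Finite I] {L : I → Type}
    [∀ i, Field (L i)] [∀ i, NumberField (L i)] [∀ i, Algebra k (L i)] (f : k[X])
    (hf : f.Separable) (hN : 1 ≤ f.natDegree) (θ : ∀ i, L i) (hR : RF k L f θ)
    (S : Finset (Pr k)) (c₀ : k) (h0 : c₀ ≠ 0) (hE : SEC.LocallySoluble k (C c₀ * f)) :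
    ∃ S' : Finset (Pr k), S ⊆ S' ∧ ∀ x : k, x ≠ 0 →
      (∀ v ∈ S', IsSquare (algebraMap k (v.adicCompletion k) x)) →
      (∀ v : InfinitePlace k, IsSquare (algebraMap k v.Completion x)) →
      (∀ v, v ∉ S' → ¬ Ev v x → v ∈ PS k L S) →
        SEC.LocallySoluble k (C (c₀ * x) * f) := by
  classical
  choose S₂ hS₂ using fun i => root_of_degree_one f hf (θ i) (hR.root i)
  have hfin : (((({v : Pr k | ∃ A, IsVal v A ∧ ¬ GoodAt A f} ∪ {v : Pr k | ¬ Ev v c₀}) ∪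
      ⋃ m ∈ Finset.Icc 1 (2 * f.natDegree + 2), {v : Pr k | (m : 𝓞 k) ∈ v.asIdeal}) ∪
      {v : Pr k | nv v ≤ 100 * (f.natDegree + 1) ^ 3}) ∪
      ⋃ i, (S₂ i : Set (Pr k))).Finite := by
    refine Set.Finite.union (Set.Finite.union (Set.Finite.union (Set.Finite.union
      (good_places f hf) (finite_not_ev c₀ h0)) ?_) (finite_nv k _)) ?_
    · refine Set.Finite.biUnion (Finset.finite_toSet _) fun m hm => finite_mem (m : 𝓞 k) ?_
      have : 1 ≤ m := (Finset.mem_Icc.1 hm).1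
      exact Nat.cast_ne_zero.2 (by omega)
    · exact Set.finite_iUnion fun i => (S₂ i).finite_toSet
  refine ⟨S ∪ hfin.toFinset, Finset.subset_union_left, ?_⟩
  intro x hx hsq hinf hps
  refine ⟨fun v => ?_, fun v => p4_pt _ f c₀ x (hinf v) (hE.2 v)⟩
  by_cases hv : v ∈ S ∪ hfin.toFinset
  · exact p4_pt _ f c₀ x (hsq v hv) (hE.1 v)
  · have hv' := hv
    rw [Finset.mem_union, Set.Finite.mem_toFinset, not_or] at hv'
    obtain ⟨hvS, hv2⟩ := hv'
    simp only [Set.mem_union, not_or] at hv2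
    obtain ⟨⟨⟨⟨hg, hev⟩, hm⟩, hn⟩, hS2⟩ := hv2
    by_cases hex : Ev v x
    · have hev' : Ev v c₀ := not_not.1 hev
      obtain ⟨A, hA⟩ := exists_isVal v
      have hgood : GoodAt A f := by
        by_contra hcon
        exact hg ⟨A, hA, hcon⟩
      refine point_even f hN v A hA hgood ?_ ?_ (c₀ * x) (mul_ne_zero h0 hx) (Ev.mul hev' hex)
      · intro m hm1 hm2 hmem
        refine hm ?_
        rw [Set.mem_iUnion₂]
        exact ⟨m, Finset.mem_Icc.2 ⟨hm1, hm2⟩, hmem⟩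
      · have h1 : ¬ nv v ≤ 100 * (f.natDegree + 1) ^ 3 := hn
        exact (not_le.1 h1).le
    · obtain ⟨-, i, w, hw1, hw2⟩ := hps v hv hex
      have hvi : v ∉ S₂ i := by
        intro h
        exact hS2 (Set.mem_iUnion.2 ⟨i, h⟩)
      obtain ⟨X, hX⟩ := hS₂ i v hvi w hw1 hw2
      refine ⟨X, 0, ?_⟩
      rw [Polynomial.map_mul, eval_mul, hX]
      ring

end SC7
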