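import Pool.Agent.MP_c1dca2_ag.SC7.K1
import Pool.Agent.MP_c1dca2_ag.SC7.G1
import Pool.Agent.MP_c1dca2_ag.SC7.P4

/-!
# [SC7-G2a] many everywhere locally soluble twists

`n = card ι ≥ 1`. `S'` from `els_of`. `P = PS k L S'` (its elements are not in `S'`).
There is `d ∈ 𝓞 k`, `d ≠ 0`, with `c₀ d² ∈ 𝓞 k`; let `e ∈ 𝓞 k` be `c₀ d²`, `e ≠ 0`.
`class_map` for `S'`, `P`: `κ, cl, V₀, x, C₂`. For a finite `V ⊆ P` apply `small_mult` (`C₃`) to `e * x V`: `s ≠ 0`, `c_V` with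
`el b c_V = e x_V s²`, `|c_V i| ^ n ≤ C₃ N(e) C₂ ∏ nv v`; `C = C₃ N(e) C₂`: if `C ∏ nv v ≤ N ^ n` then `|c_V i| ≤ N` (`n ≥ 1`). `c_V ≠ 0` (`el b 0 = 0`).
`LocallySoluble k (C (e x s²) * f)`: `e x s² = (c₀ x) (d s)²`: `ls_mul_sq` and `els_of` (`¬ Ev v x_V` implies that exactly one of `v ∈ V`,
`v ∈ V₀ (cl V)` holds, both sets are in `P ⊆ PS k L S`).
`g V = (cl V, c_V)` is injective on the finite `V ⊆ P`: for a prime `v`: `Ev v (el b c_V) ↔ Ev v (e x_V)` (`Ev` is invariant under nonzero squares), and, as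
valuations are in `ℤ`, `Ev v (e x) ↔ (Ev v e ↔ Ev v x)` for `e, x ≠ 0`. So `Ev v x_V` is determined by `c_V`, and then
`v ∈ V ↔ (Ev v x_V ↔ v ∈ V₀ (cl V))`.
-/

set_option autoImplicit false

open Polynomial NumberField IsDedekindDomain SC5 SC3

namespace SC7

private theorem g2a_ev {k : Type} [Field k] [NumberField k] (v : Pr k) (y t : k) (h : Ev v y) :
    Ev v (y * t ^ 2) := by
  obtain ⟨b, hb⟩ := h
  refine ⟨b * t, ?_⟩
  rw [map_mul, map_pow, hb, map_mul, mul_pow]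

private theorem g2a_el_zero {k : Type} [Field k] [NumberField k] {ι : Type} [Fintype ι]
    (b : Module.Basis ι ℤ (𝓞 k)) : el b (0 : ι → ℤ) = 0 := by
  unfold el
  exact Finset.sum_eq_zero fun i _ => by rw [Pi.zero_apply, zero_smul]

theorem many_els {k : Type} [Field k] [NumberField k] {I : Type} [Finite I] {L : I → Type}
    [∀ i, Field (L i)] [∀ i, NumberField (L i)] [∀ i, Algebra k (L i)] (f : k[X])
    (hf : f.Separable) (hN : 1 ≤ f.natDegree) (θ : ∀ i, L i) (hR : RF k L f θ)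
    (S : Finset (Pr k)) (c₀ : k) (h0 : c₀ ≠ 0) (hE : SEC.LocallySoluble k (C c₀ * f))
    {ι : Type} [Fintype ι] (b : Module.Basis ι ℤ (𝓞 k)) :
    ∃ (S' : Finset (Pr k)) (κ : Type) (_ : Finite κ) (g : Finset (Pr k) → κ × (ι → ℤ)) (C₁ : ℕ),
      0 < C₁ ∧ S ⊆ S' ∧ Set.InjOn g {V : Finset (Pr k) | ∀ v ∈ V, v ∈ PS k L S'} ∧
      ∀ V : Finset (Pr k), (∀ v ∈ V, v ∈ PS k L S') → ∀ N : ℕ,
        C₁ * ∏ v ∈ V, nv v ≤ N ^ (Fintype.card ι) →
        (∀ i, |(g V).2 i| ≤ N) ∧ (g V).2 ≠ 0 ∧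
          SEC.LocallySoluble k (C ((el b (g V).2 : 𝓞 k) : k) * f) := by
  classical
  obtain ⟨S', hSS, hS'⟩ := els_of f hf hN θ hR S c₀ h0 hE
  have hP : ∀ v ∈ PS k L S', v ∉ S' := fun v hv => hv.1
  have hPS : ∀ v ∈ PS k L S', v ∈ PS k L S := fun v hv => ⟨fun h => hv.1 (hSS h), hv.2⟩
  obtain ⟨κ, hκ, cl, V₀, x, C₂, hC₂, H⟩ := class_map S' (PS k L S') hP
  obtain ⟨C₃, hC₃, hsm⟩ := small_mult b
  -- the element `e`
  obtain ⟨d, e, hd, he, hde⟩ : ∃ d e : 𝓞 k, d ≠ 0 ∧ e ≠ 0 ∧ c₀ * (d : k) ^ 2 = (e : k) := by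
    obtain ⟨a, d, hd, had⟩ := IsFractionRing.div_surjective (A := 𝓞 k) c₀
    have hd0 : d ≠ 0 := nonZeroDivisors.ne_zero hd
    have hdk : (algebraMap (𝓞 k) k d) ≠ 0 := by
      rw [Ne, FaithfulSMul.algebraMap_eq_zero_iff]
      exact hd0
    have ha0 : a ≠ 0 := by
      rintro rfl
      rw [map_zero, zero_div] at had
      exact h0 had.symm
    refine ⟨d, a * d, hd0, mul_ne_zero ha0 hd0, ?_⟩
    rw [← had]
    show algebraMap (𝓞 k) k a / algebraMap (𝓞 k) k d * (algebraMap (𝓞 k) k d) ^ 2 =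
      algebraMap (𝓞 k) k (a * d)
    rw [map_mul, pow_two, ← mul_assoc, div_mul_cancel₀ _ hdk]
  have hx : ∀ V : Finset (Pr k), (∀ v ∈ V, v ∈ PS k L S') → e * x V ≠ 0 := fun V hV =>
    mul_ne_zero he (H V hV).2.1
  choose! s hs c hc hci using hsm
  let g : Finset (Pr k) → κ × (ι → ℤ) := fun V => (cl V, c (e * x V))
  have hNe : 0 < Ideal.absNorm (Ideal.span {e}) := by
    rw [Nat.pos_iff_ne_zero, Ne, Ideal.absNorm_eq_zero_iff, Ideal.span_singleton_eq_bot]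
    exact he
  refine ⟨S', κ, hκ, g, C₃ * Ideal.absNorm (Ideal.span {e}) * C₂,
    Nat.mul_pos (Nat.mul_pos hC₃ hNe) hC₂, hSS, ?_, ?_⟩
  · intro V hV V' hV' hgg
    have hV1 : ∀ v ∈ V, v ∈ PS k L S' := hV
    have hV2 : ∀ v ∈ V', v ∈ PS k L S' := hV'
    have h1 : cl V = cl V' := congrArg Prod.fst hgg
    have h2 : c (e * x V) = c (e * x V') := congrArg Prod.snd hgg
    have h3 := hc _ (hx V hV1)
    have h4 := hc _ (hx V' hV2)
    rw [h2, h4] at h3
    have hs1 := hs _ (hx V hV1)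
    have hs2 := hs _ (hx V' hV2)
    have h5 : ((x V' : 𝓞 k) : k) * ((s (e * x V') : 𝓞 k) : k) ^ 2 =
        ((x V : 𝓞 k) : k) * ((s (e * x V) : 𝓞 k) : k) ^ 2 := by
      have h6 : x V' * s (e * x V') ^ 2 = x V * s (e * x V) ^ 2 := by
        apply mul_left_cancel₀ he
        rw [← mul_assoc, ← mul_assoc, h3]
      have h7 := congrArg (algebraMap (𝓞 k) k) h6
      rw [map_mul, map_mul, map_pow, map_pow] at h7
      exact h7
    have hk1 : ((s (e * x V) : 𝓞 k) : k) ≠ 0 := by exact_mod_cast hs1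
    have hk2 : ((s (e * x V') : 𝓞 k) : k) ≠ 0 := by exact_mod_cast hs2
    have h6 : ∀ v : Pr k, Ev v ((x V : 𝓞 k) : k) ↔ Ev v ((x V' : 𝓞 k) : k) := by
      intro v
      constructor
      · intro h
        have h7 := g2a_ev v _ (((s (e * x V) : 𝓞 k) : k) / ((s (e * x V') : 𝓞 k) : k)) h
        have h8 : ((x V : 𝓞 k) : k) * (((s (e * x V) : 𝓞 k) : k) / ((s (e * x V') : 𝓞 k) : k)) ^ 2 =
            ((x V' : 𝓞 k) : k) := by
          rw [div_pow, mul_div_assoc', ← h5]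
          field_simp
        rwa [h8] at h7
      · intro h
        have h7 := g2a_ev v _ (((s (e * x V') : 𝓞 k) : k) / ((s (e * x V) : 𝓞 k) : k)) h
        have h8 : ((x V' : 𝓞 k) : k) * (((s (e * x V') : 𝓞 k) : k) / ((s (e * x V) : 𝓞 k) : k)) ^ 2 =
            ((x V : 𝓞 k) : k) := by
          rw [div_pow, mul_div_assoc', h5]
          field_simp
        rwa [h8] at h7
    ext v
    have e1 := (H V hV1).2.2.2.2.2 v
    have e2 := (H V' hV2).2.2.2.2.2 v
    rw [← h1] at e2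
    have e3 := h6 v
    rw [e1, e2] at e3
    tauto
  · intro V hV N hNV
    obtain ⟨hV0, hx0, hnorm, hsqS, hsqI, hEv⟩ := H V hV
    have hs1 := hs _ (hx V hV)
    have hc1 := hc _ (hx V hV)
    refine ⟨?_, ?_, ?_⟩
    · intro i
      have h1 := hci _ (hx V hV) i
      have h2 : Ideal.absNorm (Ideal.span {e * x V}) ≤
          Ideal.absNorm (Ideal.span {e}) * (C₂ * ∏ v ∈ V, nv v) := by
        rw [← Ideal.span_singleton_mul_span_singleton, map_mul]
        exact Nat.mul_le_mul_left _ hnorm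
      have h3 : C₃ * Ideal.absNorm (Ideal.span {e * x V}) ≤ N ^ (Fintype.card ι) := by
        refine le_trans ?_ hNV
        calc C₃ * Ideal.absNorm (Ideal.span {e * x V})
            ≤ C₃ * (Ideal.absNorm (Ideal.span {e}) * (C₂ * ∏ v ∈ V, nv v)) :=
              Nat.mul_le_mul_left _ h2
          _ = C₃ * Ideal.absNorm (Ideal.span {e}) * C₂ * ∏ v ∈ V, nv v := by ring
      have h4 : |(c (e * x V)) i| ^ (Fintype.card ι) ≤ (N : ℤ) ^ (Fintype.card ι) := by
        refine le_trans h1 ?_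
        exact_mod_cast h3
      have h5 : Fintype.card ι ≠ 0 := by
        have : Nonempty ι := ⟨i⟩
        exact Fintype.card_ne_zero
      exact (pow_le_pow_iff_left₀ (abs_nonneg _) (Int.natCast_nonneg N) h5).1 h4
    · intro h1
      have h2 : c (e * x V) = 0 := h1
      rw [h2, g2a_el_zero] at hc1
      exact mul_ne_zero (hx V hV) (pow_ne_zero 2 hs1) hc1.symm
    · have h1 : SEC.LocallySoluble k (C (c₀ * ((x V : 𝓞 k) : k)) * f) := by
        apply hS' _ (by exact_mod_cast hx0) hsqS hsqI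
        intro v hv hnot
        rw [hEv v] at hnot
        by_cases h2 : v ∈ V
        · exact hPS v (hV v h2)
        · by_cases h3 : v ∈ V₀ (cl V)
          · exact hPS v (hV0 v h3)
          · exact absurd (iff_of_false h2 h3) hnot
      have h2 := ls_mul_sq f _ ((d : k) * ((s (e * x V) : 𝓞 k) : k)) h1
      have h3 : ((el b (g V).2 : 𝓞 k) : k) =
          c₀ * ((x V : 𝓞 k) : k) * ((d : k) * ((s (e * x V) : 𝓞 k) : k)) ^ 2 := by
        show ((el b (c (e * x V)) : 𝓞 k) : k) = _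
        rw [hc1]
        have h4 : ((e * x V * s (e * x V) ^ 2 : 𝓞 k) : k) =
            (e : k) * ((x V : 𝓞 k) : k) * ((s (e * x V) : 𝓞 k) : k) ^ 2 := by
          show algebraMap (𝓞 k) k (e * x V * s (e * x V) ^ 2) = _
          rw [map_mul, map_mul, map_pow]
        rw [h4, ← hde]
        ring
      rw [h3]
      exact h2

end SC7
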