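import Pool.Agent.MP_c1dca2_ag.SC7.D2
import Pool.Agent.MP_c1dca2_ag.SC7.D3
import Pool.Agent.MP_c1dca2_ag.SC7.G2a

/-!
# [SC7-G2] the lower bound for the number of everywhere locally soluble twists

`n = card ι ≥ 1`, `S', κ, g, C₁` from `many_els`, `P = PS k L S'`. For `N ≥ 1` the map `V ↦ g V` is an injection from
`{V | V ⊆ P, ∏ nv v ≤ N ^ n / C₁}` (finite, `finite_V`) to `κ × {c in the box, c ≠ 0, locally soluble}`; so `#{V} ≤ card κ * #{c}`.
`count_V` with `chebyshev_PS` (`i₀`) at `x = N ^ n / C₁`: `#{V} ≥ c x exp (MP P x) / log x`, `log x ≤ n log N`. And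
`MP (PS k L S) (N ^ n) ≤ MP P (N ^ n) + ∑_{v ∈ S'} 1 / nv v` (`PS k L S ⊆ P ∪ S'`), `MP P (N ^ n) ≤ MP P (N ^ n / C₁) + C` by `sum_upper` (SC5/A7) with
`z = N ^ n / C₁` (`≥ 2` for `N` large): `log (N ^ n) / log (N ^ n / C₁) ≤ 2`.
-/

set_option autoImplicit false

open Polynomial NumberField IsDedekindDomain SC5 SC3

namespace SC7

/-- comparing the sums of the inverse norms for `S` and `S'` -/
theorem g2_MP {k : Type} [Field k] [NumberField k] {I : Type} (L : I → Type)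
    [∀ i, Field (L i)] [∀ i, NumberField (L i)] [∀ i, Algebra k (L i)] (S S' : Finset (Pr k)) :
    ∃ C : ℝ, ∀ X Y : ℝ, 3 / 2 ≤ X → X ≤ Y → Real.log Y ≤ 2 * Real.log X →
      MP (PS k L S) Y ≤ MP (PS k L S') X + C := by
  classical
  obtain ⟨C, hC⟩ := sum_upper k
  refine ⟨Real.log 2 + C + ∑ v ∈ S', ((nv v : ℝ))⁻¹, fun X Y hX hXY hlog => ?_⟩
  have hlX : 0 < Real.log X := Real.log_pos (by linarith)
  have hlY : 0 < Real.log Y := Real.log_pos (by linarith)
  have h1 := hC X Y hX hXY ((PF (PS k L S') Y).filter fun v => X < nv v) (by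
    intro v hv
    rw [Finset.mem_filter, mem_PF] at hv
    exact ⟨hv.2, hv.1.2⟩)
  have h2 : Real.log (Real.log Y / Real.log X) ≤ Real.log 2 := by
    apply Real.log_le_log (by positivity)
    rw [div_le_iff₀ hlX]
    exact hlog
  have h3 : MP (PS k L S) Y ≤ ∑ v ∈ S' ∪ (PF (PS k L S') X ∪
      (PF (PS k L S') Y).filter fun v => X < nv v), ((nv v : ℝ))⁻¹ := by
    unfold MP
    apply Finset.sum_le_sum_of_subset_of_nonneg
    · intro v hv
      rw [mem_PF] at hv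
      obtain ⟨⟨-, hv2⟩, hv3⟩ := hv
      rw [Finset.mem_union, Finset.mem_union, Finset.mem_filter, mem_PF, mem_PF]
      by_cases h : v ∈ S'
      · exact Or.inl h
      · right
        rcases le_or_gt (nv v : ℝ) X with h' | h'
        · exact Or.inl ⟨⟨h, hv2⟩, h'⟩
        · exact Or.inr ⟨⟨⟨h, hv2⟩, hv3⟩, h'⟩
    · intro v _ _
      positivity
  have hun : ∀ A B : Finset (Pr k), ∑ v ∈ A ∪ B, ((nv v : ℝ))⁻¹ ≤
      ∑ v ∈ A, ((nv v : ℝ))⁻¹ + ∑ v ∈ B, ((nv v : ℝ))⁻¹ := by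
    intro A B
    rw [← Finset.sum_union_inter]
    have : 0 ≤ ∑ v ∈ A ∩ B, ((nv v : ℝ))⁻¹ := Finset.sum_nonneg fun v _ => by positivity
    linarith
  have h4 := hun S' (PF (PS k L S') X ∪ (PF (PS k L S') Y).filter fun v => X < nv v)
  have h5 := hun (PF (PS k L S') X) ((PF (PS k L S') Y).filter fun v => X < nv v)
  have h6 : MP (PS k L S') X = ∑ v ∈ PF (PS k L S') X, ((nv v : ℝ))⁻¹ := rfl
  linarith

theorem lower {k : Type} [Field k] [NumberField k] {I : Type} [Finite I] {L : I → Type}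
    [∀ i, Field (L i)] [∀ i, NumberField (L i)] [∀ i, Algebra k (L i)] (i₀ : I) (f : k[X])
    (hf : f.Separable) (hN : 1 ≤ f.natDegree) (θ : ∀ i, L i) (hR : RF k L f θ)
    (S : Finset (Pr k)) (c₀ : k) (h0 : c₀ ≠ 0) (hE : SEC.LocallySoluble k (C c₀ * f))
    {ι : Type} [Fintype ι] (b : Module.Basis ι ℤ (𝓞 k)) :
    ∃ (a : ℝ) (N₀ : ℕ), 0 < a ∧ ∀ N : ℕ, N₀ ≤ N →
      a * (N : ℝ) ^ (Fintype.card ι) * Real.exp (MP (PS k L S) ((N : ℝ) ^ (Fintype.card ι))) /
          Real.log N ≤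
        (Nat.card {c : ι → ℤ // (∀ i, |c i| ≤ N) ∧ c ≠ 0 ∧
          SEC.LocallySoluble k (C ((el b c : 𝓞 k) : k) * f)} : ℝ) := by
  classical
  obtain ⟨S', κ, hκ, g, C₁, hC₁, hSS, hinj, hg⟩ := many_els f hf hN θ hR S c₀ h0 hE b
  obtain ⟨c, x₀, hc, hcount⟩ := count_V (PS k L S') (chebyshev_PS L i₀ S')
  obtain ⟨C, hC⟩ := g2_MP L S S'
  have hι : Nonempty ι := b.index_nonempty
  have hn : 1 ≤ Fintype.card ι := Fintype.card_pos
  have hκn : Nonempty κ := ⟨(g ∅).1⟩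
  have hK : 1 ≤ Nat.card κ := Nat.card_pos
  have hC₁' : (1 : ℝ) ≤ C₁ := by exact_mod_cast hC₁
  have hn' : (1 : ℝ) ≤ Fintype.card ι := by exact_mod_cast hn
  have hK' : (1 : ℝ) ≤ Nat.card κ := by exact_mod_cast hK
  set D : ℝ := C₁ * Real.exp C * Fintype.card ι * Nat.card κ with hD
  have hD0 : 0 < D := by positivity
  refine ⟨c / D, ⌈(C₁ : ℝ) * |x₀|⌉₊ + 2 * C₁ + C₁ ^ 2 + 2, by positivity, fun N hN0 => ?_⟩
  have hN2 : 2 ≤ N := by omega
  have hN2C : 2 * C₁ ≤ N := by omega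
  have hNCC : C₁ ^ 2 ≤ N := by omega
  have hNx : (C₁ : ℝ) * |x₀| ≤ N := by
    have h1 : ⌈(C₁ : ℝ) * |x₀|⌉₊ ≤ N := by omega
    exact (Nat.le_ceil _).trans (by exact_mod_cast h1)
  have hN1' : (1 : ℝ) ≤ N := by exact_mod_cast (by omega : 1 ≤ N)
  have hNn : (N : ℝ) ≤ (N : ℝ) ^ Fintype.card ι := le_self_pow₀ hN1' (by omega)
  set Y : ℝ := (N : ℝ) ^ Fintype.card ι with hY
  set X : ℝ := Y / C₁ with hX
  have hYX : Y = C₁ * X := by
    rw [hX]
    field_simp
  have hX2 : 2 ≤ X := by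
    rw [hX, le_div_iff₀ (by positivity)]
    have : (2 : ℝ) * C₁ ≤ N := by exact_mod_cast hN2C
    linarith
  have hXx : x₀ ≤ X := by
    rw [hX, le_div_iff₀ (by positivity)]
    have h1 := le_abs_self x₀
    nlinarith
  have hXY : X ≤ Y := by
    rw [hYX]
    nlinarith
  have hY0 : 0 < Y := by linarith
  have hX0 : 0 < X := by linarith
  have hlX : 0 < Real.log X := Real.log_pos (by linarith)
  have hlN : 0 < Real.log N := Real.log_pos (by exact_mod_cast (by omega : 1 < N))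
  have hCX : (C₁ : ℝ) ≤ X := by
    rw [hX, le_div_iff₀ (by positivity)]
    have : (C₁ : ℝ) ^ 2 ≤ N := by exact_mod_cast hNCC
    nlinarith
  have hlog : Real.log Y ≤ 2 * Real.log X := by
    have h1 : Real.log Y ≤ Real.log (X ^ 2) := by
      apply Real.log_le_log hY0
      rw [hYX]
      nlinarith
    rw [Real.log_pow X 2] at h1
    exact_mod_cast h1
  have hMP := hC X Y (by linarith) hXY hlog
  have hcX := hcount X hXx
  set VS : Set (Finset (Pr k)) :=
    {V : Finset (Pr k) | (∀ v ∈ V, v ∈ PS k L S') ∧ ∏ v ∈ V, (nv v : ℝ) ≤ X} with hVS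
  set T : Set (ι → ℤ) := {c : ι → ℤ | (∀ i, |c i| ≤ (N : ℤ)) ∧ c ≠ 0 ∧
    SEC.LocallySoluble k (Polynomial.C ((el b c : 𝓞 k) : k) * f)} with hT
  have hTfin : T.Finite := by
    refine (Fintype.piFinset fun _ : ι => Finset.Icc (-(N : ℤ)) N).finite_toSet.subset ?_
    intro c hc
    rw [Finset.mem_coe, Fintype.mem_piFinset]
    intro i
    rw [Finset.mem_Icc]
    exact abs_le.1 (hc.1 i)
  have hmap : ∀ V ∈ VS, g V ∈ (Set.univ : Set κ) ×ˢ T := by
    intro V hV
    refine ⟨trivial, ?_⟩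
    have h1 := hg V hV.1 N (by
      have h2 : (C₁ : ℝ) * ∏ v ∈ V, (nv v : ℝ) ≤ Y := by
        rw [hYX]
        exact mul_le_mul_of_nonneg_left hV.2 (by positivity)
      rw [hY] at h2
      exact_mod_cast h2)
    exact h1
  have hle : VS.ncard ≤ Nat.card κ * T.ncard := by
    have h1 : VS.ncard ≤ ((Set.univ : Set κ) ×ˢ T).ncard :=
      Set.ncard_le_ncard_of_injOn g hmap (hinj.mono fun V hV => hV.1)
        (Set.finite_univ.prod hTfin)
    rwa [Set.ncard_prod, Set.ncard_univ] at h1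
  have hle' : (VS.ncard : ℝ) ≤ Nat.card κ * T.ncard := by exact_mod_cast hle
  show c / D * Y * Real.exp (MP (PS k L S) Y) / Real.log N ≤ (T.ncard : ℝ)
  have hexp : Real.exp (MP (PS k L S) Y) ≤ Real.exp C * Real.exp (MP (PS k L S') X) := by
    rw [← Real.exp_add]
    apply Real.exp_le_exp.2
    linarith
  have hlXN : Real.log X ≤ Fintype.card ι * Real.log N := by
    have h1 : Real.log X ≤ Real.log Y := Real.log_le_log hX0 hXY
    rwa [hY, Real.log_pow] at h1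
  have hinv : 1 / Real.log N ≤ Fintype.card ι / Real.log X := by
    rw [div_le_div_iff₀ hlN hlX]
    linarith
  calc c / D * Y * Real.exp (MP (PS k L S) Y) / Real.log N
      = c / D * Y * Real.exp (MP (PS k L S) Y) * (1 / Real.log N) := by ring
    _ ≤ c / D * Y * (Real.exp C * Real.exp (MP (PS k L S') X)) *
        (Fintype.card ι / Real.log X) := by
        gcongr
    _ = (c * X * Real.exp (MP (PS k L S') X) / Real.log X) / Nat.card κ := by
        rw [hYX, hD]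
        field_simp
    _ ≤ (Nat.card κ * T.ncard) / Nat.card κ := by
        gcongr
        exact hcX.trans hle'
    _ = T.ncard := by
        field_simp

end SC7
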