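import Pool.Agent.MP_c1dca2_ag.SC7.U10
import Pool.Agent.MP_c1dca2_ag.SC7.G2
import Pool.Agent.MP_c1dca2_ag.SC5.F

/-!
# [SC7-F] Assembly: 100% of the everywhere locally soluble quadratic twists have no section
-/

set_option autoImplicit false

open NumberField IsDedekindDomain Polynomial SC2 SC3 SC5

namespace SC7

/-- The degree conditions from the conditions on the irreducible factors. -/
theorem deg3_of {k : Type} [Field k] [NumberField k] (f : k[X]) (hsep : f.Separable)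
    (heven : Even f.natDegree) (h6 : 6 ≤ f.natDegree) (hroot : ∀ a : k, f.eval a ≠ 0)
    (hquad : (∃ g : k[X], Irreducible g ∧ g ∣ f ∧ g.natDegree = 2) →
      ∃ g : k[X], Irreducible g ∧ g ∣ f ∧ Odd g.natDegree)
    {I : Type} [Fintype I] {L : I → Type} [∀ i, Field (L i)] [∀ i, NumberField (L i)]
    [∀ i, Algebra k (L i)] (θ : ∀ i, L i) (hR : RF k L f θ)
    (h2 : ∀ i, 2 ≤ Module.finrank k (L i)) (hsum : ∑ i, Module.finrank k (L i) = f.natDegree) :
    Deg3 k L := by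
  have hf0 : f ≠ 0 := hsep.ne_zero
  have hint : ∀ i, IsIntegral k (θ i) := fun i =>
    (show IsAlgebraic k (θ i) from ⟨f, hf0, hR.root i⟩).isIntegral
  have hfr : ∀ i, Module.finrank k (L i) = (minpoly k (θ i)).natDegree := by
    intro i
    rw [← IntermediateField.adjoin.finrank (hint i), hR.gen i, IntermediateField.finrank_top']
  refine ⟨h2, by rwa [hsum], by rwa [hsum], ?_⟩
  intro t ht
  obtain ⟨g, hg1, hg2, hg3⟩ := hquad ⟨minpoly k (θ t), minpoly.irreducible (hint t),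
    minpoly.dvd k (θ t) (hR.root t), by rw [← hfr t, ht]⟩
  have hg0 : g ≠ 0 := hg1.ne_zero
  have hu : IsUnit (C (g.leadingCoeff⁻¹) : k[X]) := by
    rw [isUnit_C]
    exact (inv_ne_zero (leadingCoeff_ne_zero.2 hg0)).isUnit
  obtain ⟨s, hs⟩ := hR.all (g * C (g.leadingCoeff⁻¹)) (monic_mul_leadingCoeff_inv hg0)
    ((irreducible_mul_isUnit hu).2 hg1) ((IsUnit.mul_right_dvd hu).2 hg2)
  refine ⟨s, ?_⟩
  rw [hfr s, hs, natDegree_mul_leadingCoeff_inv g hg0]
  exact hg3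

/-- A nonzero coordinate vector gives a nonzero element. -/
theorem el_ne {k : Type} [Field k] [NumberField k] {ι : Type} [Fintype ι]
    (b : Module.Basis ι ℤ (𝓞 k)) (c : ι → ℤ) (hc : c ≠ 0) : (el b c : 𝓞 k) ≠ 0 := by
  intro h
  apply hc
  have h3 := (Fintype.linearIndependent_iff.1 b.linearIndependent) c h
  funext i
  exact h3 i

theorem main_yes {k : Type} [Field k] [NumberField k] (f : k[X]) (hsep : f.Separable)
    (heven : Even f.natDegree) (h6 : 6 ≤ f.natDegree) (hroot : ∀ a : k, f.eval a ≠ 0)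
    (hquad : (∃ g : k[X], Irreducible g ∧ g ∣ f ∧ g.natDegree = 2) →
      ∃ g : k[X], Irreducible g ∧ g ∣ f ∧ Odd g.natDegree)
    {ι : Type} [Fintype ι] (b : Module.Basis ι ℤ (𝓞 k)) (c₀ : k) (h0 : c₀ ≠ 0)
    (hE : SEC.LocallySoluble k (C c₀ * f)) :
    (∃ δ A : ℝ, 0 < δ ∧ ∀ N : ℕ, 2 ≤ N →
      (Nat.card {c : ι → ℤ // (∀ i, |c i| ≤ N) ∧ c ≠ 0 ∧
        SEC.LocallySoluble k (C ((el b c : 𝓞 k) : k) * f) ∧
        ¬ SCJ.NoSection k (C ((el b c : 𝓞 k) : k) * f)} : ℝ) ≤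
      A * Real.log N ^ (-δ) *
      (Nat.card {c : ι → ℤ // (∀ i, |c i| ≤ N) ∧ c ≠ 0 ∧
        SEC.LocallySoluble k (C ((el b c : 𝓞 k) : k) * f)} : ℝ)) ∧
    (∃ (a : ℝ) (N₀ : ℕ), 0 < a ∧
      ∀ N : ℕ, N₀ ≤ N → a * (N : ℝ) ^ (Fintype.card ι) / Real.log N ≤
        (Nat.card {c : ι → ℤ // (∀ i, |c i| ≤ N) ∧ c ≠ 0 ∧
          SEC.LocallySoluble k (C ((el b c : 𝓞 k) : k) * f)} : ℝ)) := by
  classical
  obtain ⟨I, hI, L, θ, hR, h2, hsum⟩ := rf_exists f hsep hroot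
  have hfin : Module.Finite k f.SplittingField := inferInstance
  have hnf : NumberField f.SplittingField := NumberField.of_module_finite k _
  have hgal : IsGalois k f.SplittingField := by
    have : Algebra.IsSeparable k f.SplittingField := inferInstance
    have : Normal k f.SplittingField := inferInstance
    exact ⟨⟩
  have hLn : ∀ i, NumberField (L i) := fun i => SC4.nf (L i)
  have hf0 : f ≠ 0 := hsep.ne_zero
  have h4 : 4 ≤ f.natDegree := by omega
  have h4' : 4 ≤ ∑ i, Module.finrank k (L i) := by omega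
  obtain ⟨S, al, Cg, hS⟩ := gs_exists (C := AlgebraicClosure k) (L := fun i => L i) hR hsep h2 h4'
  obtain ⟨κ, hκ, E, hE'⟩ := interface_S hR hf0 hS
  have hdeg : Deg3 k (fun i => ↥(L i)) :=
    deg3_of f hsep heven h6 hroot hquad (L := fun i => ↥(L i)) θ hR h2 hsum
  obtain ⟨δ, A₀, hδ, hA₀, hcount⟩ := count3 (M := f.SplittingField) hS.fam hdeg E b
  obtain ⟨i₀⟩ : Nonempty I := by
    by_contra hcon
    rw [not_nonempty_iff] at hcon
    rw [Finset.univ_eq_empty, Finset.sum_empty] at h4'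
    omega
  obtain ⟨a, N₀, ha, hlow⟩ := lower (L := fun i => ↥(L i)) i₀ f hsep (by omega) θ hR S c₀ h0 hE b
  set Y : ℕ → ℝ := fun N => (N : ℝ) ^ (Fintype.card ι) with hY
  set G : ℕ → ℝ := fun N => Real.exp (MP (PS k (fun i => ↥(L i)) S) (Y N)) with hG
  have hG1 : ∀ N, 1 ≤ G N := fun N => Real.one_le_exp (MP_nonneg _ _)
  have hfinbox : ∀ N : ℕ, {c : ι → ℤ | ∀ i, |c i| ≤ (N : ℤ)}.Finite := by
    intro N
    refine (Fintype.piFinset fun _ : ι => Finset.Icc (-(N : ℤ)) N).finite_toSet.subset ?_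
    intro c hc
    rw [Finset.mem_coe, Fintype.mem_piFinset]
    intro i
    rw [Finset.mem_Icc]
    exact abs_le.1 (hc i)
  have hl2 : 0 < Real.log 2 := Real.log_pos (by norm_num)
  refine ⟨⟨δ, A₀ / a + Real.log (N₀ + 2) ^ δ, hδ, fun N hN => ?_⟩, a, max N₀ 2, ha,
    fun N hN => ?_⟩
  · have hN2 : (2 : ℝ) ≤ N := by exact_mod_cast hN
    have hN0 : (0 : ℝ) < N := by linarith
    have hlogN : Real.log 2 ≤ Real.log N := Real.log_le_log (by norm_num) hN2
    have hlogN0 : 0 < Real.log N := lt_of_lt_of_le hl2 hlogN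
    set A : Set (ι → ℤ) := {c | (∀ i, |c i| ≤ (N : ℤ)) ∧ c ≠ 0 ∧
        SEC.LocallySoluble k (C ((el b c : 𝓞 k) : k) * f) ∧
        ¬ SCJ.NoSection k (C ((el b c : 𝓞 k) : k) * f)} with hA
    set D : Set (ι → ℤ) := {c | (∀ i, |c i| ≤ (N : ℤ)) ∧ c ≠ 0 ∧
        SEC.LocallySoluble k (C ((el b c : 𝓞 k) : k) * f)} with hD
    set B : Set (ι → ℤ) := {c | (∀ i, |c i| ≤ (N : ℤ)) ∧ c ≠ 0 ∧
        ∃ (x : κ) (P : Finset (PL fun i => ↥(L i))), Cfg k S P ∧
          TT S ((el b c : 𝓞 k) : k) = (fun o => bl k o.2) '' (P : Set (PL fun i => ↥(L i))) ∧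
          ∀ o ∈ P, Rel k (E x o) o (sgn al P)} with hB
    have hsub : A ⊆ B := by
      rintro c ⟨hc1, hc0, -, hc2⟩
      refine ⟨hc1, hc0, hE' (el b c) (el_ne b c hc0) ?_⟩
      by_contra hcon
      refine hc2 (noSection_of f hsep heven h4 hroot _ ?_ hcon)
      intro h
      apply el_ne b c hc0
      exact RingOfIntegers.ext h
    have hsubD : A ⊆ D := fun c hc => ⟨hc.1, hc.2.1, hc.2.2.1⟩
    have hBfin : B.Finite := (hfinbox N).subset fun c hc => hc.1
    have hDfin : D.Finite := (hfinbox N).subset fun c hc => hc.1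
    have hAB : (A.ncard : ℝ) ≤ B.ncard := Nat.cast_le.2 (Set.ncard_le_ncard hsub hBfin)
    have hAD : (A.ncard : ℝ) ≤ D.ncard := Nat.cast_le.2 (Set.ncard_le_ncard hsubD hDfin)
    have hBc : (B.ncard : ℝ) ≤ A₀ * Y N * Real.log N ^ (-1 - δ) * G N := hcount N hN
    show (A.ncard : ℝ) ≤ (A₀ / a + Real.log (N₀ + 2) ^ δ) * Real.log N ^ (-δ) * D.ncard
    have hD0 : (0 : ℝ) ≤ D.ncard := Nat.cast_nonneg _
    have hpd : 0 < Real.log N ^ (-δ) := Real.rpow_pos_of_pos hlogN0 _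
    have hL0 : 0 ≤ Real.log ((N₀ : ℝ) + 2) ^ δ := by
      apply Real.rpow_nonneg
      apply Real.log_nonneg
      have : (0 : ℝ) ≤ N₀ := Nat.cast_nonneg _
      linarith
    rcases lt_or_ge N N₀ with hlt | hge
    · have h1 : (1 : ℝ) ≤ Real.log (N₀ + 2) ^ δ * Real.log N ^ (-δ) := by
        have h3 : Real.log N ≤ Real.log (N₀ + 2) := by
          apply Real.log_le_log hN0
          have : (N : ℝ) ≤ N₀ := by exact_mod_cast hlt.le
          linarith
        have h4 : Real.log N ^ δ ≤ Real.log (N₀ + 2) ^ δ :=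
          Real.rpow_le_rpow hlogN0.le h3 hδ.le
        have h5 : Real.log N ^ δ * Real.log N ^ (-δ) = 1 := by
          rw [← Real.rpow_add hlogN0, add_neg_cancel, Real.rpow_zero]
        calc (1 : ℝ) = Real.log N ^ δ * Real.log N ^ (-δ) := h5.symm
          _ ≤ _ := mul_le_mul_of_nonneg_right h4 hpd.le
      have h2 : (D.ncard : ℝ) ≤ (Real.log (N₀ + 2) ^ δ * Real.log N ^ (-δ)) * D.ncard :=
        le_mul_of_one_le_left hD0 h1
      have h3 : 0 ≤ A₀ / a * Real.log N ^ (-δ) * D.ncard := by positivity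
      calc (A.ncard : ℝ) ≤ D.ncard := hAD
        _ ≤ (Real.log (N₀ + 2) ^ δ * Real.log N ^ (-δ)) * D.ncard := h2
        _ ≤ _ := by linarith
    · have hDl : a * Y N * G N / Real.log N ≤ D.ncard := hlow N hge
      have hpow : Real.log N ^ (-1 - δ) = Real.log N ^ (-δ) / Real.log N := by
        rw [show (-1 - δ : ℝ) = -δ - 1 by ring, Real.rpow_sub_one hlogN0.ne']
      have h1 : A₀ * Y N * Real.log N ^ (-1 - δ) * G N =
          A₀ / a * Real.log N ^ (-δ) * (a * Y N * G N / Real.log N) := by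
        rw [hpow]
        field_simp
      have h2 : A₀ / a * Real.log N ^ (-δ) * (a * Y N * G N / Real.log N) ≤
          A₀ / a * Real.log N ^ (-δ) * D.ncard :=
        mul_le_mul_of_nonneg_left hDl (by positivity)
      have h3 : 0 ≤ Real.log (N₀ + 2) ^ δ * Real.log N ^ (-δ) * D.ncard := by positivity
      calc (A.ncard : ℝ) ≤ A₀ / a * Real.log N ^ (-δ) * D.ncard := by
            rw [h1] at hBc
            linarith
        _ ≤ _ := by linarith
  · have hN1 : N₀ ≤ N := (le_max_left _ _).trans hN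
    have hN2' : 2 ≤ N := (le_max_right _ _).trans hN
    have hN2 : (2 : ℝ) ≤ N := by exact_mod_cast hN2'
    have hlogN0 : 0 < Real.log N := Real.log_pos (by linarith)
    refine le_trans ?_ (hlow N hN1)
    apply div_le_div_of_nonneg_right _ hlogN0.le
    exact le_mul_of_one_le_right (by positivity) (hG1 N)

theorem main {k : Type} [Field k] [NumberField k] (f : k[X]) (hsep : f.Separable)
    (heven : Even f.natDegree) (h6 : 6 ≤ f.natDegree) (hroot : ∀ a : k, f.eval a ≠ 0)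
    (hquad : (∃ g : k[X], Irreducible g ∧ g ∣ f ∧ g.natDegree = 2) →
      ∃ g : k[X], Irreducible g ∧ g ∣ f ∧ Odd g.natDegree)
    {ι : Type} [Fintype ι] (b : Module.Basis ι ℤ (𝓞 k)) :
    (∃ δ A : ℝ, 0 < δ ∧ ∀ N : ℕ, 2 ≤ N →
      (Nat.card {c : ι → ℤ // (∀ i, |c i| ≤ N) ∧ c ≠ 0 ∧
        SEC.LocallySoluble k (C ((∑ i, c i • b i : 𝓞 k) : k) * f) ∧
        ¬ SCJ.NoSection k (C ((∑ i, c i • b i : 𝓞 k) : k) * f)} : ℝ) ≤
      A * Real.log N ^ (-δ) *
      (Nat.card {c : ι → ℤ // (∀ i, |c i| ≤ N) ∧ c ≠ 0 ∧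
        SEC.LocallySoluble k (C ((∑ i, c i • b i : 𝓞 k) : k) * f)} : ℝ)) ∧
    ((∃ c : k, c ≠ 0 ∧ SEC.LocallySoluble k (C c * f)) → ∃ (a : ℝ) (N₀ : ℕ), 0 < a ∧
      ∀ N : ℕ, N₀ ≤ N → a * (N : ℝ) ^ (Fintype.card ι) / Real.log N ≤
        (Nat.card {c : ι → ℤ // (∀ i, |c i| ≤ N) ∧ c ≠ 0 ∧
          SEC.LocallySoluble k (C ((∑ i, c i • b i : 𝓞 k) : k) * f)} : ℝ)) := by
  by_cases hE : ∃ c : k, c ≠ 0 ∧ SEC.LocallySoluble k (C c * f)
  · obtain ⟨c₀, h0, hE⟩ := hE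
    have h := main_yes f hsep heven h6 hroot hquad b c₀ h0 hE
    exact ⟨h.1, fun _ => h.2⟩
  · refine ⟨⟨1, 0, one_pos, fun N _ => ?_⟩, fun h => absurd h hE⟩
    have h1 : IsEmpty {c : ι → ℤ // (∀ i, |c i| ≤ (N : ℤ)) ∧ c ≠ 0 ∧
        SEC.LocallySoluble k (C ((∑ i, c i • b i : 𝓞 k) : k) * f) ∧
        ¬ SCJ.NoSection k (C ((∑ i, c i • b i : 𝓞 k) : k) * f)} := by
      refine ⟨fun c => hE ⟨_, ?_, c.2.2.2.1⟩⟩
      intro h
      exact el_ne b c.1 c.2.2.1 (RingOfIntegers.ext h)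
    rw [Nat.card_of_isEmpty]
    simp

end SC7
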