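import Pool.Agent.MP_c1dca2_ag.SC3.F
import Pool.Agent.MP_c1dca2_ag.SC5.Defs

/-!
# [SC7-K1] the class map

Follow `SC3.exists_a` (SC3/G5.lean). `M` from `SC3.sq_modulus` for the finite set `S'`, `sgn` from `SC3.exists_sgn`. For a finite set `V` of primes
let `𝔡 V = ∏ v ∈ V, v.asIdeal`, `h` the class number.
For an ideal class `y` such that some finite set `V ⊆ P` has `[𝔡 V] = y` choose such a `U y`, and let `J y = (𝔡 (U y)) ^ (h - 1)`; then for every
finite `V ⊆ P` of class `y` the ideal `𝔡 V * J y` is principal: choose a generator `α V ∈ 𝓞 k`, `α V ≠ 0`. The primes dividing `α V` are in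
`V ∪ U y ⊆ P`, so `α V ∉ v.asIdeal` for `v ∈ S'`. For all other `V`: `α V = 1`.
`κ = ` (class group) × `𝓞 k ⧸ M` × (type of `sgn`) × Prop-like bit is not needed; `cl V = ([𝔡 V], α V mod M, sgn (α V))`.
For `z ∈ κ` let `V₀ z` be a finite `V ⊆ P` with `cl V = z` if there is one, otherwise `∅`. `x V = α V * α (V₀ (cl V))`.
* `x V ≠ 0`; `cl (V₀ (cl V)) = cl V`, `V₀ (cl V) ⊆ P` for `V ⊆ P`.
* norm: `N(α V) = N(𝔡 V) N(J y)`, `N(𝔡 V) = ∏ nv v`; `C` = a bound for `N(J y) * N(α (V₀ z))` over all `y, z` (finitely many).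
* squares: `sq_modulus` with `α V - α (V₀ z) ∈ M`, and `exists_sgn`.
* for a prime `w`: the exponent of `w` in `x V` is `[w ∈ V] + [w ∈ V₀ z] + 2 (exponent in J y)`: even iff `(w ∈ V ↔ w ∈ V₀ z)`
(`g5_val`, `g5_ev`, `g5_not_ev` in SC3/G5.lean are private: copy them).
-/

set_option autoImplicit false

open NumberField IsDedekindDomain SC5 SC3

namespace SC7

/-- multiplicity of `w` in an ideal -/
private noncomputable def k1ord {k : Type} [Field k] [NumberField k] (w : HeightOneSpectrum (𝓞 k))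
    (I : Ideal (𝓞 k)) : ℕ := (Associates.mk w.asIdeal).count (Associates.mk I).factors

section
variable {k : Type} [Field k] [NumberField k] (w : HeightOneSpectrum (𝓞 k))

private theorem k1_irr : Irreducible (Associates.mk w.asIdeal) := w.associates_irreducible

private theorem k1_mul (I J : Ideal (𝓞 k)) (hI : I ≠ ⊥) (hJ : J ≠ ⊥) :
    k1ord w (I * J) = k1ord w I + k1ord w J := by
  unfold k1ord
  rw [← Associates.mk_mul_mk]
  exact Associates.count_mul (by simpa using hI) (by simpa using hJ) (k1_irr w)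

private theorem k1_self : k1ord w w.asIdeal = 1 := Associates.count_self (k1_irr w)

private theorem k1_ne (v : HeightOneSpectrum (𝓞 k)) (h : v ≠ w) : k1ord w v.asIdeal = 0 := by
  refine Associates.count_eq_zero_of_ne (k1_irr w) (k1_irr v) ?_
  intro h1
  rw [Associates.mk_eq_mk_iff_associated, associated_iff_eq] at h1
  exact h (HeightOneSpectrum.ext h1.symm)

private theorem k1_one : k1ord w (1 : Ideal (𝓞 k)) = 0 := by
  have h := k1_mul w 1 1 (by simp) (by simp)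
  rw [mul_one] at h
  omega

private theorem k1_irr_eq (v : HeightOneSpectrum (𝓞 k)) (h : w.asIdeal ∣ v.asIdeal) :
    w = v :=
  HeightOneSpectrum.ext (associated_iff_eq.1 ((w.irreducible).associated_of_dvd (v.irreducible) h))

private theorem k1_val (r : 𝓞 k) (hr : r ≠ 0) :
    w.valuation k (r : k) = WithZero.exp (-(k1ord w (Ideal.span {r}) : ℤ)) := by
  have h := w.valuation_of_algebraMap (K := k) r
  rw [w.intValuation_if_neg hr] at h
  exact h

private theorem k1_ev (a : k) (n : ℤ) (h : w.valuation k a = WithZero.exp (2 * n)) : Ev w a := by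
  obtain ⟨π, hπ⟩ := w.valuation_exists_uniformizer k
  refine ⟨π ^ (-n), ?_⟩
  rw [h, map_zpow₀, hπ, ← WithZero.exp_zsmul, ← WithZero.exp_nsmul]
  congr 1
  simp

private theorem k1_not_ev (a : k) (n : ℤ) (h : w.valuation k a = WithZero.exp (2 * n + 1)) :
    ¬ Ev w a := by
  rintro ⟨b, hb⟩
  have hb0 : w.valuation k b ≠ 0 := by
    intro h0
    rw [h, h0, zero_pow two_ne_zero] at hb
    exact WithZero.exp_ne_zero hb
  obtain ⟨m, hm⟩ : ∃ m : ℤ, w.valuation k b = WithZero.exp m :=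
    ⟨_, (WithZero.exp_log hb0).symm⟩
  rw [h, hm, ← WithZero.exp_nsmul, WithZero.exp_inj] at hb
  simp at hb
  omega

/-- the product of a finite set of primes -/
private noncomputable def k1D (V : Finset (Pr k)) : Ideal (𝓞 k) := ∏ v ∈ V, v.asIdeal

private theorem k1D_ne (V : Finset (Pr k)) : k1D V ≠ ⊥ := by
  unfold k1D
  rw [← Ideal.zero_eq_bot]
  exact Finset.prod_ne_zero_iff.2 fun v _ => v.ne_bot

open scoped Classical in
private theorem k1_ord_D (w : Pr k) (V : Finset (Pr k)) :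
    k1ord w (k1D V) = if w ∈ V then 1 else 0 := by
  induction V using Finset.induction_on with
  | empty =>
    rw [if_neg (Finset.notMem_empty w)]
    exact k1_one w
  | insert a V ha ih =>
    have h1 : k1D (insert a V) = a.asIdeal * k1D V := Finset.prod_insert ha
    rw [h1, k1_mul w _ _ a.ne_bot (k1D_ne V), ih]
    by_cases hw : w = a
    · rw [← hw] at ha ⊢
      rw [k1_self, if_neg ha, if_pos (Finset.mem_insert_self w V)]
    · rw [k1_ne w a (Ne.symm hw), zero_add]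
      by_cases h2 : w ∈ V
      · rw [if_pos h2, if_pos (Finset.mem_insert_of_mem h2)]
      · rw [if_neg h2, if_neg]
        rw [Finset.mem_insert]
        push Not
        exact ⟨hw, h2⟩

private theorem k1_norm_D (V : Finset (Pr k)) : Ideal.absNorm (k1D V) = ∏ v ∈ V, nv v := by
  unfold k1D nv
  rw [map_prod]

private theorem k1_dvd_D (w : Pr k) (V : Finset (Pr k)) (h : w.asIdeal ∣ k1D V) : w ∈ V := by
  unfold k1D at h
  obtain ⟨v, hv, h1⟩ := (Prime.dvd_finsetProd_iff w.prime _).1 h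
  rw [k1_irr_eq w v h1]
  exact hv

private noncomputable def k1cg (V : Finset (Pr k)) : ClassGroup (𝓞 k) :=
  ClassGroup.mk0 ⟨k1D V, mem_nonZeroDivisors_of_ne_zero (k1D_ne V)⟩

end

theorem class_map {k : Type} [Field k] [NumberField k] (S' : Finset (Pr k)) (P : Set (Pr k))
    (hP : ∀ v ∈ P, v ∉ S') :
    ∃ (κ : Type) (_ : Finite κ) (cl : Finset (Pr k) → κ) (V₀ : κ → Finset (Pr k))
      (x : Finset (Pr k) → 𝓞 k) (C : ℕ), 0 < C ∧ ∀ V : Finset (Pr k), (∀ v ∈ V, v ∈ P) →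
      (∀ v ∈ V₀ (cl V), v ∈ P) ∧ x V ≠ 0 ∧
      Ideal.absNorm (Ideal.span {x V}) ≤ C * ∏ v ∈ V, nv v ∧
      (∀ v ∈ S', IsSquare (algebraMap k (v.adicCompletion k) ((x V : 𝓞 k) : k))) ∧
      (∀ v : InfinitePlace k, IsSquare (algebraMap k v.Completion ((x V : 𝓞 k) : k))) ∧
      ∀ v : Pr k, Ev v ((x V : 𝓞 k) : k) ↔ (v ∈ V ↔ v ∈ V₀ (cl V)) := by
  classical
  obtain ⟨M, hM, hsq⟩ := sq_modulus (k := k) (S' : Set (Pr k)) S'.finite_toSet
  obtain ⟨I, hIfin, sgn, hsgn⟩ := exists_sgn k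
  set n : ℕ := Fintype.card (ClassGroup (𝓞 k)) - 1 with hn
  have hn1 : n + 1 = Fintype.card (ClassGroup (𝓞 k)) := Nat.succ_pred_eq_of_pos Fintype.card_pos
  -- representatives of the classes
  let U : ClassGroup (𝓞 k) → Finset (Pr k) := fun y =>
    if h : ∃ V : Finset (Pr k), (∀ v ∈ V, v ∈ P) ∧ k1cg V = y then h.choose else ∅
  have hUP : ∀ y, ∀ v ∈ U y, v ∈ P := by
    intro y v hv
    by_cases h : ∃ V : Finset (Pr k), (∀ v ∈ V, v ∈ P) ∧ k1cg V = y
    · have h1 : U y = h.choose := dif_pos h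
      rw [h1] at hv
      exact h.choose_spec.1 v hv
    · have h1 : U y = ∅ := dif_neg h
      rw [h1] at hv
      exact absurd hv (Finset.notMem_empty v)
  have hUcg : ∀ V : Finset (Pr k), (∀ v ∈ V, v ∈ P) → k1cg (U (k1cg V)) = k1cg V := by
    intro V hV
    have h : ∃ V' : Finset (Pr k), (∀ v ∈ V', v ∈ P) ∧ k1cg V' = k1cg V := ⟨V, hV, rfl⟩
    have h1 : U (k1cg V) = h.choose := dif_pos h
    rw [h1]
    exact h.choose_spec.2
  let J : ClassGroup (𝓞 k) → Ideal (𝓞 k) := fun y => k1D (U y) ^ n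
  have hJ0 : ∀ y, J y ≠ ⊥ := fun y => pow_ne_zero _ (k1D_ne _)
  have hpr : ∀ V : Finset (Pr k), (∀ v ∈ V, v ∈ P) →
      ∃ α : 𝓞 k, k1D V * J (k1cg V) = Ideal.span {α} := by
    intro V hV
    have h1 : ClassGroup.mk0 (⟨k1D V * J (k1cg V), mem_nonZeroDivisors_of_ne_zero
        (mul_ne_zero (k1D_ne V) (hJ0 _))⟩ : nonZeroDivisors (Ideal (𝓞 k))) = 1 := by
      have h2 : (⟨k1D V * J (k1cg V), mem_nonZeroDivisors_of_ne_zero
          (mul_ne_zero (k1D_ne V) (hJ0 _))⟩ : nonZeroDivisors (Ideal (𝓞 k))) =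
          ⟨k1D V, mem_nonZeroDivisors_of_ne_zero (k1D_ne V)⟩ *
            ⟨k1D (U (k1cg V)), mem_nonZeroDivisors_of_ne_zero (k1D_ne _)⟩ ^ n := by
        ext : 1
        rfl
      have h3 : ClassGroup.mk0 (⟨k1D V, mem_nonZeroDivisors_of_ne_zero (k1D_ne V)⟩ :
          nonZeroDivisors (Ideal (𝓞 k))) = k1cg V := rfl
      have h4 : ClassGroup.mk0 (⟨k1D (U (k1cg V)), mem_nonZeroDivisors_of_ne_zero (k1D_ne _)⟩ :
          nonZeroDivisors (Ideal (𝓞 k))) = k1cg V := hUcg V hV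
      rw [h2, map_mul, map_pow, h3, h4, ← pow_succ', hn1]
      exact pow_card_eq_one
    rw [ClassGroup.mk0_eq_one_iff] at h1
    obtain ⟨α, hα⟩ := h1
    exact ⟨α, hα⟩
  let α : Finset (Pr k) → 𝓞 k := fun V =>
    if h : ∀ v ∈ V, v ∈ P then (hpr V h).choose else 1
  have hα : ∀ V : Finset (Pr k), (∀ v ∈ V, v ∈ P) →
      k1D V * J (k1cg V) = Ideal.span {α V} := by
    intro V hV
    have h1 : α V = (hpr V hV).choose := dif_pos hV
    rw [h1]
    exact (hpr V hV).choose_spec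
  have hα0 : ∀ V : Finset (Pr k), (∀ v ∈ V, v ∈ P) → α V ≠ 0 := by
    intro V hV h
    have := hα V hV
    rw [h, Ideal.span_singleton_zero] at this
    exact mul_ne_zero (k1D_ne V) (hJ0 _) this
  have : Finite (𝓞 k ⧸ M) := Ideal.finiteQuotientOfFreeOfNeBot M hM
  let cl : Finset (Pr k) → ClassGroup (𝓞 k) × (𝓞 k ⧸ M) × I := fun V =>
    (k1cg V, Ideal.Quotient.mk M (α V), sgn (α V : k))
  let V₀ : ClassGroup (𝓞 k) × (𝓞 k ⧸ M) × I → Finset (Pr k) := fun z =>
    if h : ∃ V : Finset (Pr k), (∀ v ∈ V, v ∈ P) ∧ cl V = z then h.choose else ∅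
  have hV0P : ∀ z, ∀ v ∈ V₀ z, v ∈ P := by
    intro z v hv
    by_cases h : ∃ V : Finset (Pr k), (∀ v ∈ V, v ∈ P) ∧ cl V = z
    · have h1 : V₀ z = h.choose := dif_pos h
      rw [h1] at hv
      exact h.choose_spec.1 v hv
    · have h1 : V₀ z = ∅ := dif_neg h
      rw [h1] at hv
      exact absurd hv (Finset.notMem_empty v)
  have hV0cl : ∀ V : Finset (Pr k), (∀ v ∈ V, v ∈ P) → cl (V₀ (cl V)) = cl V := by
    intro V hV
    have h : ∃ V' : Finset (Pr k), (∀ v ∈ V', v ∈ P) ∧ cl V' = cl V := ⟨V, hV, rfl⟩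
    have h1 : V₀ (cl V) = h.choose := dif_pos h
    rw [h1]
    exact h.choose_spec.2
  have hfin : Finite (ClassGroup (𝓞 k) × (𝓞 k ⧸ M) × I) := inferInstance
  have hft : Fintype (ClassGroup (𝓞 k) × (𝓞 k ⧸ M) × I) := Fintype.ofFinite _
  let C1 : ℕ := ∑ y : ClassGroup (𝓞 k), Ideal.absNorm (J y)
  let C2 : ℕ := ∑ z : ClassGroup (𝓞 k) × (𝓞 k ⧸ M) × I, Ideal.absNorm (Ideal.span {α (V₀ z)})
  have hC1 : ∀ y, Ideal.absNorm (J y) ≤ C1 := fun y =>
    Finset.single_le_sum (f := fun y => Ideal.absNorm (J y)) (fun _ _ => Nat.zero_le _)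
      (Finset.mem_univ y)
  have hC2 : ∀ z, Ideal.absNorm (Ideal.span {α (V₀ z)}) ≤ C2 := fun z =>
    Finset.single_le_sum (f := fun z => Ideal.absNorm (Ideal.span {α (V₀ z)}))
      (fun _ _ => Nat.zero_le _) (Finset.mem_univ z)
  refine ⟨_, hfin, cl, V₀, fun V => α V * α (V₀ (cl V)), C1 * C2 + 1, Nat.succ_pos _, ?_⟩
  intro V hV
  have hV0 : ∀ v ∈ V₀ (cl V), v ∈ P := hV0P (cl V)
  have hcl := hV0cl V hV
  have hcg : k1cg (V₀ (cl V)) = k1cg V := congrArg Prod.fst hcl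
  have hmod : α V - α (V₀ (cl V)) ∈ M := by
    have h1 : Ideal.Quotient.mk M (α (V₀ (cl V))) = Ideal.Quotient.mk M (α V) :=
      congrArg (fun t => t.2.1) hcl
    exact Ideal.Quotient.eq.1 h1.symm
  have hsg : sgn (α V : k) = sgn (α (V₀ (cl V)) : k) :=
    (congrArg (fun t => t.2.2) hcl).symm
  have hx0 : α V ≠ 0 := hα0 V hV
  have hz0 : α (V₀ (cl V)) ≠ 0 := hα0 _ hV0
  have hcoe : ((α V * α (V₀ (cl V)) : 𝓞 k) : k) = (α V : k) * (α (V₀ (cl V)) : k) := map_mul _ _ _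
  refine ⟨hV0, mul_ne_zero hx0 hz0, ?_, ?_, ?_, ?_⟩
  · have h1 : Ideal.span {α V * α (V₀ (cl V))} = Ideal.span {α V} * Ideal.span {α (V₀ (cl V))} := by
      rw [Ideal.span_singleton_mul_span_singleton]
    have h2 : Ideal.absNorm (Ideal.span {α V}) = (∏ v ∈ V, nv v) * Ideal.absNorm (J (k1cg V)) := by
      rw [← hα V hV, map_mul, k1_norm_D]
    rw [h1, map_mul, h2]
    have h3 := hC1 (k1cg V)
    have h4 := hC2 (cl V)
    calc (∏ v ∈ V, nv v) * Ideal.absNorm (J (k1cg V)) * Ideal.absNorm (Ideal.span {α (V₀ (cl V))})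
        = (Ideal.absNorm (J (k1cg V)) * Ideal.absNorm (Ideal.span {α (V₀ (cl V))})) *
            ∏ v ∈ V, nv v := by ring
      _ ≤ (C1 * C2) * ∏ v ∈ V, nv v := Nat.mul_le_mul_right _ (Nat.mul_le_mul h3 h4)
      _ ≤ (C1 * C2 + 1) * ∏ v ∈ V, nv v := Nat.mul_le_mul_right _ (Nat.le_succ _)
  · intro v hv
    have hxS : ∀ w ∈ (S' : Set (Pr k)), α V ∉ w.asIdeal := by
      intro w hw hmem
      have h1 : w.asIdeal ∣ Ideal.span {α V} := Ideal.dvd_span_singleton.2 hmem
      rw [← hα V hV] at h1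
      rcases w.prime.dvd_or_dvd h1 with h2 | h2
      · exact hP w (hV w (k1_dvd_D w V h2)) hw
      · have h4 := w.prime.dvd_of_dvd_pow h2
        exact hP w (hUP _ w (k1_dvd_D w _ h4)) hw
    exact hsq (α V) (α (V₀ (cl V))) hxS hmod v hv
  · intro v
    rw [hcoe]
    exact hsgn _ _ (by exact_mod_cast hx0) (by exact_mod_cast hz0) hsg v
  · intro w
    have hval : w.valuation k ((α V * α (V₀ (cl V)) : 𝓞 k) : k) =
        WithZero.exp (-((k1ord w (k1D V) + k1ord w (k1D (V₀ (cl V))) +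
          2 * k1ord w (J (k1cg V)) : ℕ) : ℤ)) := by
      rw [hcoe, map_mul, k1_val w _ hx0, k1_val w _ hz0, ← hα V hV, ← hα _ hV0, hcg,
        k1_mul w _ _ (k1D_ne V) (hJ0 _), k1_mul w _ _ (k1D_ne _) (hJ0 _), ← WithZero.exp_add]
      congr 1
      push_cast
      ring
    rw [k1_ord_D, k1_ord_D] at hval
    by_cases h1 : w ∈ V
    · by_cases h2 : w ∈ V₀ (cl V)
      · rw [if_pos h1, if_pos h2] at hval
        refine iff_of_true (k1_ev w _ (-(k1ord w (J (k1cg V)) : ℤ) - 1) ?_) (iff_of_true h1 h2)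
        rw [hval]
        congr 1
        push_cast
        ring
      · rw [if_pos h1, if_neg h2] at hval
        refine iff_of_false (k1_not_ev w _ (-(k1ord w (J (k1cg V)) : ℤ) - 1) ?_)
          (fun h => h2 (h.1 h1))
        rw [hval]
        congr 1
        push_cast
        ring
    · by_cases h2 : w ∈ V₀ (cl V)
      · rw [if_neg h1, if_pos h2] at hval
        refine iff_of_false (k1_not_ev w _ (-(k1ord w (J (k1cg V)) : ℤ) - 1) ?_)
          (fun h => h1 (h.2 h2))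
        rw [hval]
        congr 1
        push_cast
        ring
      · rw [if_neg h1, if_neg h2] at hval
        refine iff_of_true (k1_ev w _ (-(k1ord w (J (k1cg V)) : ℤ)) ?_) (iff_of_false h1 h2)
        rw [hval]
        congr 1
        push_cast
        ring

end SC7
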