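import Pool.Agent.MP_c1dca2_ag.SC7.W4
import Pool.Agent.MP_c1dca2_ag.SC3.G8

/-!
# [SC7-P1] local points at the places where `c` is even

`A` is the valuation ring of `v`, `q = card (ResidueField A) = absNorm v.asIdeal` (`IsVal.card`). `GoodAt.red`: `F ∈ A[X]` with
`F.map A.subtype = f`, `Fbar = F.map (residue A)` separable (so squarefree) of the same degree.
`Ev v c`: `v(c) = v(b)^2`, `c ≠ 0`, so `b ≠ 0` and `u = c / b^2` has `v(u) = 1`: `u ∈ A`, `ū ≠ 0` in the residue field. `exists_value` (W4) gives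
`x̄` with `ū Fbar(x̄) = s̄ ^ 2 ≠ 0`. Lift `x ∈ A`, `s ∈ A`: `u f(x) / s ^ 2 = 1 + t`, `v(t) < 1`. In `v.adicCompletion k`: `|4| = 1`
(`GoodAt.two`), so `u f(x) / s^2` is a square (`SC3.g4a_sq`, `g8_lt`, `g8_eq`, or `SC3.sq_near`), `= z ^ 2`. So
`c f(x) = b^2 u f(x) = (b s z)^2`: `X = x`, `Y = b s z`.
-/

set_option autoImplicit false

open Polynomial NumberField IsDedekindDomain IsLocalRing SC3

namespace SC7

theorem point_even {k : Type} [Field k] [NumberField k] (f : k[X]) (hN : 1 ≤ f.natDegree)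
    (v : HeightOneSpectrum (𝓞 k)) (A : ValuationSubring k) (hA : IsVal v A) (hf : GoodAt A f)
    (hchar : ∀ m : ℕ, 1 ≤ m → m ≤ 2 * f.natDegree + 2 → (m : 𝓞 k) ∉ v.asIdeal)
    (hq : 100 * (f.natDegree + 1) ^ 3 ≤ Ideal.absNorm v.asIdeal) (c : k) (hc : c ≠ 0)
    (he : Ev v c) :
    ∃ X Y : v.adicCompletion k,
      Y ^ 2 = eval X ((C c * f).map (algebraMap k (v.adicCompletion k))) := by
  have hfin := hA.fin
  obtain ⟨F, hFf, hsep, hdeg⟩ := hf.red
  -- residues and valuations
  have hres : ∀ y : A, residue A y = 0 ↔ v.valuation k (y : k) < 1 := by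
    intro y
    rw [← hA.lt, ← A.valuation_lt_one_iff]
    exact residue_eq_zero_iff _
  have hone : ∀ y : A, residue A y ≠ 0 → v.valuation k (y : k) = 1 := by
    intro y hy
    refine le_antisymm ((hA.mem _).1 y.2) (not_lt.1 fun h => hy ((hres y).2 h))
  have hFdeg : F.natDegree = f.natDegree := by
    rw [← hFf, natDegree_map_eq_of_injective Subtype.val_injective]
  have hN' : (F.map (residue A)).natDegree = f.natDegree := hdeg.trans hFdeg
  -- the unit part of c
  obtain ⟨b, hb⟩ := he
  have hvc : v.valuation k c ≠ 0 := by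
    rw [Ne, map_eq_zero]
    exact hc
  have hb0 : b ≠ 0 := by
    rintro rfl
    rw [map_zero, zero_pow two_ne_zero] at hb
    exact hvc hb
  have hu : v.valuation k (c / b ^ 2) = 1 := by
    rw [map_div₀, map_pow, ← hb]
    exact div_self hvc
  set u : A := ⟨c / b ^ 2, (hA.mem _).2 hu.le⟩ with hudef
  have hu' : residue A u ≠ 0 := by
    intro h
    rw [hres] at h
    exact absurd hu h.ne
  have := Fintype.ofFinite (ResidueField A)
  obtain ⟨xb, hx1, hx2⟩ := exists_value (F.map (residue A)) hsep.squarefree (by rw [hN']; exact hN)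
    (by
      intro m hm1 hm2 hm3
      rw [hN'] at hm2
      apply hchar m hm1 hm2
      refine (v.valuation_lt_one_iff_mem (K := k) _).1 ?_
      have h1 : residue A (m : A) = 0 := by rw [map_natCast]; exact hm3
      rw [hres] at h1
      have e1 : ((m : A) : k) = m := map_natCast A.subtype m
      have e2 : ((m : 𝓞 k) : k) = m := map_natCast (algebraMap (𝓞 k) k) m
      have h5 : v.valuation k ((m : 𝓞 k) : k) < 1 := by
        rw [e2, ← e1]
        exact h1
      exact h5)
    (by rw [hN', ← Nat.card_eq_fintype_card, hA.card]; exact hq) (residue A u) hu'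
  obtain ⟨x, rfl⟩ := residue_surjective xb
  obtain ⟨sb, hsb⟩ := hx2
  obtain ⟨s, rfl⟩ := residue_surjective sb
  have hs0 : residue A s ≠ 0 := by
    intro h
    rw [h, mul_zero] at hsb
    exact hx1 hsb
  have hvs := hone s hs0
  rw [eval_map_apply, ← map_mul, ← map_mul, ← sub_eq_zero, ← map_sub, hres] at hsb
  have e1 : ((F.eval x : A) : k) = f.eval (x : k) := by
    rw [← hFf]
    exact (eval_map_apply A.subtype x).symm
  have hd : v.valuation k (c / b ^ 2 * f.eval (x : k) - (s : k) * s) < 1 := by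
    rw [← e1]
    exact hsb
  have hsk : (s : k) ≠ 0 := by
    intro h
    rw [h, map_zero] at hvs
    exact zero_ne_one hvs
  -- squares
  have hul := g4a_ultra v
  have hcz := g4a_charZero v
  have h2 : v.valuation k (2 : k) = 1 := by
    have h3 : residue A (2 : A) ≠ 0 := by rw [map_ofNat]; exact hf.two
    have h4 := hone _ h3
    have e2 : ((2 : A) : k) = 2 := map_ofNat A.subtype 2
    rwa [e2] at h4
  have h4 : ‖(4 : v.adicCompletion k)‖ = 1 := by
    have h5 : v.valuation k (4 : k) = 1 := by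
      rw [show (4 : k) = 2 * 2 by norm_num, map_mul, h2, one_mul]
    have h6 := g8_eq v h5
    rwa [map_ofNat] at h6
  have hsq : IsSquare (algebraMap k (v.adicCompletion k) (c / b ^ 2 * f.eval (x : k) / ((s : k) * s))) := by
    refine g4a_sq (by norm_num) _ ?_
    rw [h4]
    have h5 : algebraMap k (v.adicCompletion k) (c / b ^ 2 * f.eval (x : k) / ((s : k) * s)) - 1 =
        algebraMap k (v.adicCompletion k) ((c / b ^ 2 * f.eval (x : k) - (s : k) * s) / ((s : k) * s)) := by
      rw [← map_one (algebraMap k (v.adicCompletion k)), ← map_sub]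
      congr 1
      field_simp
    rw [h5]
    refine g8_lt v ?_
    rw [map_div₀, map_mul, hvs, one_mul, div_one]
    exact hd
  obtain ⟨z, hz⟩ := hsq
  refine ⟨algebraMap k _ (x : k), algebraMap k _ (b * s) * z, ?_⟩
  rw [eval_map_apply, eval_mul, eval_C, mul_pow, sq z, ← hz, ← map_pow, ← map_mul]
  congr 1
  field_simp

end SC7
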