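import Pool.Agent.MP_c1dca2_ag.SC7.Defs

/-!
# [SC7-U1] the proportion of the sign vectors satisfying the relation, all Frobenius types
-/

set_option autoImplicit false

open NumberField IsDedekindDomain SC5

namespace SC7

section

variable {k : Type} [Field k] [NumberField k] {I : Type} {L : I → Type}
    [∀ i, Field (L i)] [∀ i, NumberField (L i)] [∀ i, Algebra k (L i)]

/-- sums over the elements above a prime -/
theorem sum_up (J : Finset I) (o : PL L) (f : PL L → ℕ) :
    ∑ q ∈ up k J o, f q =
      ∑ i ∈ J, ∑ w ∈ (finite_bl (L := L i) (bl k o.2)).toFinset, f ⟨i, w⟩ := by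
  classical
  have h1 : up k J o = (J.sigma (fun i => (finite_bl (L := L i) (bl k o.2)).toFinset) :
      Finset (Σ i, Pr (L i))) := by
    have hm : ∀ q : (Σ i, Pr (L i)),
        q ∈ J.sigma (fun i => (finite_bl (L := L i) (bl k o.2)).toFinset) ↔
        q.1 ∈ J ∧ bl k q.2 = bl k o.2 := fun q => by
      rw [Finset.mem_sigma, Set.Finite.mem_toFinset]
      rfl
    ext q
    exact (mem_up J o q).trans (hm q).symm
  rw [h1]
  exact Finset.sum_sigma _ _ _

/-- If the total degree is even there is another prime of odd degree. -/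
theorem exists_odd [Fintype I] (S : Finset (Pr k))
    (heven : Even (∑ i, Module.finrank k (L i)))
    (hun : ∀ i, ∀ v, v ∉ S → ∀ T : Finset (Pr (L i)), (∀ w, w ∈ T ↔ bl k w = v) →
      ∑ w ∈ T, dg k w = Module.finrank k (L i))
    (o : PL L) (ho : dg k o.2 = 1) (hoS : bl k o.2 ∉ S) :
    ∃ q : PL L, bl k q.2 = bl k o.2 ∧ q ≠ o ∧ Odd (dg k q.2) := by
  classical
  by_contra hcon
  push Not at hcon
  have hsum := sum_up (k := k) (Finset.univ : Finset I) o (fun q => dg k q.2)
  have h2 : ∑ i ∈ (Finset.univ : Finset I),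
      ∑ w ∈ (finite_bl (L := L i) (bl k o.2)).toFinset, dg k w =
      ∑ i, Module.finrank k (L i) := by
    refine Finset.sum_congr rfl fun i _ => ?_
    exact hun i _ hoS _ (fun w => by rw [Set.Finite.mem_toFinset]; rfl)
  have hou : o ∈ up k (Finset.univ : Finset I) o := (mem_up _ _ _).2 ⟨Finset.mem_univ _, rfl⟩
  have h3 := Finset.sum_erase_add (up k (Finset.univ : Finset I) o) (fun q => dg k q.2) hou
  have h4 : Even (∑ q ∈ (up k (Finset.univ : Finset I) o).erase o, dg k q.2) := by
    refine Finset.even_sum _ fun q hq => ?_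
    rw [Finset.mem_erase, mem_up] at hq
    have := hcon q hq.2.2 hq.1
    exact Nat.not_odd_iff_even.1 this
  rw [ho] at h3
  rw [hsum, h2] at h3
  rw [← h3] at heven
  rcases h4 with ⟨m, hm⟩
  rcases heven with ⟨m', hm'⟩
  omega

end

open scoped Classical in
theorem rel_avg3 {k : Type} [Field k] [NumberField k] {I : Type} [Fintype I] {L : I → Type}
    [∀ i, Field (L i)] [∀ i, NumberField (L i)] [∀ i, Algebra k (L i)] (S : Finset (Pr k))
    (heven : Even (∑ i, Module.finrank k (L i)))
    (hun : ∀ i, ∀ v, v ∉ S → ∀ T : Finset (Pr (L i)), (∀ w, w ∈ T ↔ bl k w = v) →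
      ∑ w ∈ T, dg k w = Module.finrank k (L i))
    (o : PL L) (ho : dg k o.2 = 1) (hoS : bl k o.2 ∉ S) (J : Finset I) (hJ : o.1 ∈ J)
    (E : PL L → PL L → ℤˣ) (e : PL L → ℤˣ) :
    avg (up k J o) (fun e => if Rel k E o e then (1 : ℝ) else 0) e ≤ beta3 k J o := by
  have hou : o ∈ up k J o := (mem_up J o o).mpr ⟨hJ, rfl⟩
  have hval : ∀ q : PL L, Odd (dg k q.2) → padicValNat 2 (dg k q.2) = 0 := fun q hq =>
    padicValNat.eq_zero_of_not_dvd (fun h => (Nat.not_even_iff_odd.2 hq) (even_iff_two_dvd.2 h))
  unfold beta3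
  by_cases hs : ∀ q : PL L, bl k q.2 = bl k o.2 → Odd (dg k q.2) → q.1 ∈ J
  · rw [if_pos hs]
    obtain ⟨p, hp1, hp2, hp3⟩ := exists_odd S heven hun o ho hoS
    have hpu : p ∈ up k J o := (mem_up J o _).mpr ⟨hs p hp1 hp3, hp1⟩
    have hsub : ({o, p} : Finset (PL L)) ⊆ up k J o := by
      intro q hq
      rw [Finset.mem_insert, Finset.mem_singleton] at hq
      rcases hq with rfl | rfl
      · exact hou
      · exact hpu
    have h5 := avg_rel_le o J E e {o, p} hsub (by
      intro A hA A' hA' r r' hag q hq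
      have hqv := ((mem_up J o q).mp hq).2
      by_cases hqo : q = o
      · rw [hqo]
        exact hag o (Finset.mem_insert_self _ _)
      by_cases hqp : q = p
      · rw [hqp]
        exact hag _ (Finset.mem_insert_of_mem (Finset.mem_singleton_self _))
      exact agree_of_rel o E e A A' r r' p q hp1 hqv hp2 hqo
        (fun h => hqp h.symm) (by rw [hval p hp3]; exact Nat.zero_le _)
        (hag _ (Finset.mem_insert_of_mem (Finset.mem_singleton_self _))))
    rw [Finset.card_pair hp2.symm] at h5
    exact h5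
  · rw [if_neg hs]
    push Not at hs
    obtain ⟨p, hp1, hp3, hpJ⟩ := hs
    have hpo : p ≠ o := by
      rintro rfl
      exact hpJ hJ
    have hsub : ({o} : Finset (PL L)) ⊆ up k J o := Finset.singleton_subset_iff.mpr hou
    have hp' : p ∉ up k J o := fun h => hpJ ((mem_up J o _).mp h).1
    have h5 := avg_rel_le o J E e {o} hsub (by
      intro A hA A' hA' r r' hag q hq
      have hqv := ((mem_up J o q).mp hq).2
      by_cases hqo : q = o
      · rw [hqo]
        exact hag o (Finset.mem_singleton_self _)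
      exact agree_of_rel o E e A A' r r' p q hp1 hqv hpo hqo
        (fun h => hp' (h ▸ hq)) (by rw [hval p hp3]; exact Nat.zero_le _)
        ⟨fun h => absurd (hA h) hp', fun h => absurd (hA' h) hp'⟩)
    rw [Finset.card_singleton] at h5
    exact h5

end SC7
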