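import Pool.Agent.MP_c1dca2_ag.SC7.Defs
import Pool.Agent.MP_c1dca2_ag.SC7.C3
import Pool.Agent.MP_c1dca2_ag.SC5.T1

/-!
# [SC7-U9] the `c` with few prime factors in `T(c)`, all of them small

`n = card ι ≥ 1` (`b.index_nonempty`), `Λ = log (C N ^ n)`. If `c ≠ 0` is in the set, `V = TT S c` (finite: `TT_finite`, SC5/T1), then
`∏_{v ∈ V} nv v = exp (∑ log (nv v)) ≤ R := exp (Λ ^ (1 - 1/K) (log Λ)^2)`. By `cfg_count` (SC5/T1; `C₁`) for every finite set `V` of primes outside `S`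
at most `C₁ (C₁ N ^ n / ∏ nv v) ^ (3/4) ≤ C₁ (C₁ N ^ n) ^ (3/4)` of the `c` have `TT = V`. The number of the `V` with `∏ nv v ≤ R` is at most `C₂ R`
(`ideal_count`, SC7/C3: `V ↦ ∏_{v ∈ V} v.asIdeal` is injective, absNorm multiplicative). So the number is at most `C₃ N ^ (3n/4) R`, and for `N ≥ N₀`
`Λ ^ (1 - 1/K) (log Λ)^2 ≤ (n/8) log N`, so it is at most `C₃ N ^ (7n/8) ≤ A N ^ n (log N)^(-3)`. For `2 ≤ N < N₀`: the trivial bound
`(2 N + 1)^n ≤ (3N)^n` and a large `A`.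
-/

set_option autoImplicit false

open NumberField IsDedekindDomain SC5

namespace SC7

theorem u9_mem {k : Type} [Field k] [NumberField k] (V : Finset (Pr k)) (v : Pr k)
    (h : v.asIdeal ∣ ∏ w ∈ V, w.asIdeal) : v ∈ V := by
  obtain ⟨w, hw, hvw⟩ := (v.prime.dvd_finsetProd_iff _).1 h
  have h1 : w.asIdeal ≤ v.asIdeal := Ideal.le_of_dvd hvw
  have h2 : w.asIdeal = v.asIdeal := w.isMaximal.eq_of_le v.isPrime.ne_top h1
  rw [← HeightOneSpectrum.ext h2]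
  exact hw

theorem u9_V (k : Type) [Field k] [NumberField k] : ∃ C : ℝ, 0 < C ∧ ∀ T : ℝ, 1 ≤ T →
    {V : Finset (Pr k) | ∏ v ∈ V, (nv v : ℝ) ≤ T}.Finite ∧
    ({V : Finset (Pr k) | ∏ v ∈ V, (nv v : ℝ) ≤ T}.ncard : ℝ) ≤ C * T := by
  obtain ⟨C, hC, h⟩ := ideal_count k
  refine ⟨C, hC, fun T hT => ?_⟩
  obtain ⟨h1, h2⟩ := h T hT
  have hinj : Function.Injective fun V : Finset (Pr k) => ∏ v ∈ V, v.asIdeal := by
    intro V W hVW
    ext v
    constructor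
    · intro hv
      apply u9_mem
      have h3 : ∏ v ∈ V, v.asIdeal = ∏ v ∈ W, v.asIdeal := hVW
      rw [← h3]
      exact Finset.dvd_prod_of_mem _ hv
    · intro hv
      apply u9_mem
      have h3 : ∏ v ∈ V, v.asIdeal = ∏ v ∈ W, v.asIdeal := hVW
      rw [h3]
      exact Finset.dvd_prod_of_mem _ hv
  have hmap : ∀ V ∈ {V : Finset (Pr k) | ∏ v ∈ V, (nv v : ℝ) ≤ T},
      (∏ v ∈ V, v.asIdeal) ∈ {I : Ideal (𝓞 k) | I ≠ ⊥ ∧ (Ideal.absNorm I : ℝ) ≤ T} := by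
    intro V hV
    refine ⟨?_, ?_⟩
    · exact Finset.prod_ne_zero_iff.2 fun v _ => v.ne_bot
    · rw [map_prod, Nat.cast_prod]
      exact hV
  refine ⟨?_, ?_⟩
  · exact Set.Finite.of_injOn hmap hinj.injOn h1
  · refine le_trans ?_ h2
    exact_mod_cast Set.ncard_le_ncard_of_injOn _ hmap hinj.injOn h1

theorem u9_asymp (K : ℕ) (hK : 2 ≤ K) : ∃ L₀ : ℝ, ∀ x : ℝ, L₀ ≤ x →
    Real.log x ^ 2 * x ^ (1 - 1 / (K : ℝ)) ≤ x / 16 := by
  have hK0 : (0 : ℝ) < K := by exact_mod_cast (by omega : 0 < K)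
  have h1 := isLittleO_log_rpow_rpow_atTop (2 : ℝ) (s := 1 / (K : ℝ)) (by positivity)
  have h2 := h1.bound (c := 1 / 16) (by norm_num)
  obtain ⟨L, hL⟩ := Filter.eventually_atTop.1 h2
  refine ⟨max L 1, fun x hx => ?_⟩
  have hx1 : 1 ≤ x := (le_max_right _ _).trans hx
  have hx0 : 0 < x := by linarith
  have h3 := hL x ((le_max_left _ _).trans hx)
  have hlog : 0 ≤ Real.log x := Real.log_nonneg hx1
  rw [Real.norm_of_nonneg (Real.rpow_nonneg hlog _),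
    Real.norm_of_nonneg (Real.rpow_nonneg hx0.le _)] at h3
  have h4 : Real.log x ^ (2 : ℝ) = Real.log x ^ 2 := by
    exact_mod_cast Real.rpow_natCast (Real.log x) 2
  rw [h4] at h3
  have h5 : x ^ (1 / (K : ℝ)) * x ^ (1 - 1 / (K : ℝ)) = x := by
    rw [← Real.rpow_add hx0]
    rw [show (1 / (K : ℝ)) + (1 - 1 / (K : ℝ)) = 1 by ring, Real.rpow_one]
  calc Real.log x ^ 2 * x ^ (1 - 1 / (K : ℝ))
      ≤ (1 / 16 * x ^ (1 / (K : ℝ))) * x ^ (1 - 1 / (K : ℝ)) :=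
        mul_le_mul_of_nonneg_right h3 (Real.rpow_nonneg hx0.le _)
    _ = 1 / 16 * (x ^ (1 / (K : ℝ)) * x ^ (1 - 1 / (K : ℝ))) := by ring
    _ = x / 16 := by rw [h5]; ring

theorem u9_asymp2 : ∃ x₀ : ℝ, ∀ x : ℝ, x₀ ≤ x → Real.log x ^ (3 : ℝ) ≤ x ^ (1 / 8 : ℝ) := by
  have h1 := isLittleO_log_rpow_rpow_atTop (3 : ℝ) (s := 1 / 8) (by norm_num)
  have h2 := h1.bound (c := 1) one_pos
  obtain ⟨L, hL⟩ := Filter.eventually_atTop.1 h2
  refine ⟨max L 1, fun x hx => ?_⟩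
  have hx1 : 1 ≤ x := (le_max_right _ _).trans hx
  have h3 := hL x ((le_max_left _ _).trans hx)
  rw [Real.norm_of_nonneg (Real.rpow_nonneg (Real.log_nonneg hx1) _),
    Real.norm_of_nonneg (Real.rpow_nonneg (by linarith) _), one_mul] at h3
  exact h3

theorem typ_large3 {k : Type} [Field k] [NumberField k] {ι : Type} [Fintype ι]
    (b : Module.Basis ι ℤ (𝓞 k)) (S : Finset (Pr k)) (C : ℝ) (hC : 1 ≤ C) (K : ℕ) (hK : 2 ≤ K) :
    ∃ A : ℝ, 0 < A ∧ ∀ N : ℕ, 2 ≤ N →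
    (Nat.card {c : ι → ℤ // (∀ i, |c i| ≤ N) ∧ c ≠ 0 ∧
      ((TT S ((el b c : 𝓞 k) : k)).ncard : ℝ) ≤
        Real.log (Real.log (C * (N : ℝ) ^ (Fintype.card ι))) ^ 2 ∧
      ∀ v ∈ TT S ((el b c : 𝓞 k) : k), Real.log (nv v) ≤
        Real.log (C * (N : ℝ) ^ (Fintype.card ι)) ^ (1 - 1 / (K : ℝ))} : ℝ) ≤
      A * (N : ℝ) ^ (Fintype.card ι) * Real.log N ^ (-3 : ℝ) := by
  classical
  obtain ⟨C₁, hC₁, hcfg⟩ := cfg_count b S
  obtain ⟨C₂, hC₂, hV⟩ := u9_V k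
  obtain ⟨L₀, hL₀⟩ := u9_asymp K hK
  obtain ⟨x₀, hx₀⟩ := u9_asymp2
  have hι : Nonempty ι := b.index_nonempty
  have hn : 1 ≤ Fintype.card ι := Fintype.card_pos
  have hn' : (1 : ℝ) ≤ Fintype.card ι := by exact_mod_cast hn
  -- the threshold
  obtain ⟨N₀, hN₀⟩ : ∃ N₀ : ℕ, ∀ N : ℕ, N₀ ≤ N → L₀ ≤ Real.log N ∧ Real.log C ≤ Real.log N ∧
      x₀ ≤ N := by
    have h1 : Filter.Tendsto (fun N : ℕ => Real.log N) Filter.atTop Filter.atTop :=
      Real.tendsto_log_atTop.comp tendsto_natCast_atTop_atTop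
    have h2 := h1.eventually_ge_atTop L₀
    have h3 := h1.eventually_ge_atTop (Real.log C)
    have h4 := (tendsto_natCast_atTop_atTop (R := ℝ)).eventually_ge_atTop x₀
    exact Filter.eventually_atTop.1 (h2.and (h3.and h4))
  set C₃ : ℝ := C₂ * (C₁ * C₁ ^ (3 / 4 : ℝ)) with hC₃
  have hC₃0 : 0 < C₃ := by positivity
  set C₄ : ℝ := 3 ^ Fintype.card ι * Real.log (N₀ + 2) ^ (3 : ℝ) with hC₄
  have hC₄0 : 0 ≤ C₄ := by
    have h0 : (0 : ℝ) ≤ N₀ := Nat.cast_nonneg _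
    have : 0 ≤ Real.log ((N₀ : ℝ) + 2) := Real.log_nonneg (by linarith)
    positivity
  refine ⟨C₃ + C₄, by positivity, fun N hN => ?_⟩
  have hN2 : (2 : ℝ) ≤ N := by exact_mod_cast hN
  have hN0 : (0 : ℝ) < N := by linarith
  have hN1 : (1 : ℝ) ≤ N := by linarith
  have hlogN : 0 < Real.log N := Real.log_pos (by linarith)
  set Y : ℝ := (N : ℝ) ^ Fintype.card ι with hY
  have hY0 : 0 < Y := by positivity
  have hY1 : 1 ≤ Y := one_le_pow₀ hN1
  set Λ : ℝ := Real.log (C * Y) with hΛ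
  set B : Set (ι → ℤ) := {c : ι → ℤ | (∀ i, |c i| ≤ (N : ℤ)) ∧ c ≠ 0 ∧
      ((TT S ((el b c : 𝓞 k) : k)).ncard : ℝ) ≤ Real.log Λ ^ 2 ∧
      ∀ v ∈ TT S ((el b c : 𝓞 k) : k), Real.log (nv v) ≤ Λ ^ (1 - 1 / (K : ℝ))} with hB
  have hlog3 : 0 < Real.log N ^ (-3 : ℝ) := Real.rpow_pos_of_pos hlogN _
  show (B.ncard : ℝ) ≤ (C₃ + C₄) * Y * Real.log N ^ (-3 : ℝ)
  -- the box
  set Bx : Finset (ι → ℤ) := Fintype.piFinset fun _ : ι => Finset.Icc (-(N : ℤ)) N with hBx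
  have hbox : ∀ c : ι → ℤ, (∀ i, |c i| ≤ (N : ℤ)) → c ∈ Bx := by
    intro c hc
    rw [hBx, Fintype.mem_piFinset]
    intro i
    rw [Finset.mem_Icc]
    exact abs_le.1 (hc i)
  have hBsub : B ⊆ (Bx : Set (ι → ℤ)) := fun c hc => hbox c hc.1
  have hBfin : B.Finite := Bx.finite_toSet.subset hBsub
  rcases lt_or_ge N N₀ with hlt | hge
  · -- the trivial bound
    have h1 : B.ncard ≤ Bx.card := by
      rw [← Set.ncard_coe_finset]
      exact Set.ncard_le_ncard hBsub Bx.finite_toSet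
    have h2 : Bx.card = (2 * N + 1) ^ Fintype.card ι := by
      rw [hBx, Fintype.card_piFinset, Finset.prod_const, Int.card_Icc, Finset.card_univ]
      congr 1
      omega
    have h3 : (B.ncard : ℝ) ≤ (3 * (N : ℝ)) ^ Fintype.card ι := by
      have h4 : (B.ncard : ℝ) ≤ ((2 * N + 1) ^ Fintype.card ι : ℕ) := by
        rw [← h2]
        exact_mod_cast h1
      refine h4.trans ?_
      push_cast
      exact pow_le_pow_left₀ (by positivity) (by linarith) _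
    have h5 : (1 : ℝ) ≤ Real.log (N₀ + 2) ^ (3 : ℝ) * Real.log N ^ (-3 : ℝ) := by
      have h6 : Real.log N ≤ Real.log (N₀ + 2) := by
        apply Real.log_le_log hN0
        have : (N : ℝ) ≤ N₀ := by exact_mod_cast hlt.le
        linarith
      have h7 : Real.log N ^ (3 : ℝ) ≤ Real.log (N₀ + 2) ^ (3 : ℝ) :=
        Real.rpow_le_rpow hlogN.le h6 (by norm_num)
      have h8 : Real.log N ^ (3 : ℝ) * Real.log N ^ (-3 : ℝ) = 1 := by
        rw [← Real.rpow_add hlogN]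
        norm_num
      calc (1 : ℝ) = Real.log N ^ (3 : ℝ) * Real.log N ^ (-3 : ℝ) := h8.symm
        _ ≤ _ := mul_le_mul_of_nonneg_right h7 hlog3.le
    calc (B.ncard : ℝ) ≤ (3 * (N : ℝ)) ^ Fintype.card ι := h3
      _ = 3 ^ Fintype.card ι * Y := by rw [mul_pow]
      _ ≤ 3 ^ Fintype.card ι * Y * (Real.log (N₀ + 2) ^ (3 : ℝ) * Real.log N ^ (-3 : ℝ)) :=
          le_mul_of_one_le_right (by positivity) h5
      _ = C₄ * Y * Real.log N ^ (-3 : ℝ) := by rw [hC₄]; ring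
      _ ≤ (C₃ + C₄) * Y * Real.log N ^ (-3 : ℝ) := by
          have : 0 ≤ C₃ * Y * Real.log N ^ (-3 : ℝ) := by positivity
          linarith
  · obtain ⟨hNL, hNC, hNx⟩ := hN₀ N hge
    have hlogY : Real.log Y = Fintype.card ι * Real.log N := by
      rw [hY, Real.log_pow]
    have hΛ1 : Λ = Real.log C + Fintype.card ι * Real.log N := by
      rw [hΛ, Real.log_mul (by positivity) (by positivity), hlogY]
    have hlogC : 0 ≤ Real.log C := Real.log_nonneg hC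
    have hnN : Real.log N ≤ Fintype.card ι * Real.log N := by nlinarith
    have hΛL : L₀ ≤ Λ := by linarith
    have hΛ0 : 0 < Λ := by linarith
    have hΛ2 : Λ ≤ 2 * (Fintype.card ι * Real.log N) := by linarith
    set R : ℝ := Real.exp (Real.log Λ ^ 2 * Λ ^ (1 - 1 / (K : ℝ))) with hR
    have hR1 : 1 ≤ R := Real.one_le_exp (by positivity)
    have hR2 : R ≤ Y ^ (1 / 8 : ℝ) := by
      rw [Real.rpow_def_of_pos hY0, hlogY]
      apply Real.exp_le_exp.2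
      have := hL₀ Λ hΛL
      linarith
    obtain ⟨hVfin, hVcard⟩ := hV R hR1
    set VS : Finset (Finset (Pr k)) := hVfin.toFinset with hVS
    have hcov : B ⊆ ⋃ V ∈ VS.filter (fun V => ∀ v ∈ V, v ∉ S), {c : ι → ℤ | (∀ i, |c i| ≤ (N : ℤ)) ∧ c ≠ 0 ∧
        TT S ((el b c : 𝓞 k) : k) = (V : Set (Pr k))} := by
      rintro c ⟨hc1, hc2, hc3, hc4⟩
      have hel : (el b c : 𝓞 k) ≠ 0 := by
        intro h
        apply hc2
        have h3 := (Fintype.linearIndependent_iff.1 b.linearIndependent) c h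
        funext i
        exact h3 i
      have hfin := TT_finite S (el b c) hel
      rw [Set.mem_iUnion₂]
      refine ⟨hfin.toFinset, ?_, hc1, hc2, by rw [Set.Finite.coe_toFinset]⟩
      rw [Finset.mem_filter, hVS, Set.Finite.mem_toFinset]
      constructor
      · show ∏ v ∈ hfin.toFinset, (nv v : ℝ) ≤ R
        have hnv : ∀ v : Pr k, (0 : ℝ) < nv v := fun v => by
          exact_mod_cast (lt_of_lt_of_le two_pos (two_le_nv v))
        have h4 : ∏ v ∈ hfin.toFinset, (nv v : ℝ) =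
            Real.exp (∑ v ∈ hfin.toFinset, Real.log (nv v)) := by
          rw [Real.exp_sum]
          exact Finset.prod_congr rfl fun v _ => (Real.exp_log (hnv v)).symm
        rw [h4, hR]
        apply Real.exp_le_exp.2
        have h5 : ∑ v ∈ hfin.toFinset, Real.log (nv v) ≤
            hfin.toFinset.card • Λ ^ (1 - 1 / (K : ℝ)) := by
          apply Finset.sum_le_card_nsmul
          intro v hv
          exact hc4 v (hfin.mem_toFinset.1 hv)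
        rw [nsmul_eq_mul, ← Set.ncard_eq_toFinset_card _ hfin] at h5
        exact h5.trans (mul_le_mul_of_nonneg_right hc3 (by positivity))
      · intro v hv
        exact (hfin.mem_toFinset.1 hv).1
    have hfib : ∀ V ∈ VS.filter (fun V => ∀ v ∈ V, v ∉ S), ({c : ι → ℤ | (∀ i, |c i| ≤ (N : ℤ)) ∧ c ≠ 0 ∧
        TT S ((el b c : 𝓞 k) : k) = (V : Set (Pr k))}.ncard : ℝ) ≤
          C₁ * (C₁ * Y) ^ (3 / 4 : ℝ) := by
      intro V hVm
      rw [Finset.mem_filter] at hVm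
      have h4 := (hcfg N (by omega) V hVm.2).2
      refine le_trans h4 ?_
      have h5 : (1 : ℝ) ≤ ∏ v ∈ V, (nv v : ℝ) := by
        have h6 : 1 ≤ ∏ v ∈ V, nv v :=
          Nat.one_le_iff_ne_zero.2 (Finset.prod_ne_zero_iff.2 fun v _ => by
            have := two_le_nv v
            omega)
        exact_mod_cast h6
      apply mul_le_mul_of_nonneg_left _ (by linarith)
      apply Real.rpow_le_rpow (by positivity) _ (by norm_num)
      exact div_le_self (by positivity) h5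
    have hun : (B.ncard : ℝ) ≤ ((VS.filter (fun V => ∀ v ∈ V, v ∉ S)).card : ℝ) * (C₁ * (C₁ * Y) ^ (3 / 4 : ℝ)) := by
      have hfinV : ∀ V : Finset (Pr k), {c : ι → ℤ | (∀ i, |c i| ≤ (N : ℤ)) ∧ c ≠ 0 ∧
        TT S ((el b c : 𝓞 k) : k) = (V : Set (Pr k))}.Finite := fun V =>
          Bx.finite_toSet.subset fun c hc => hbox c hc.1
      have h4 : B.ncard ≤ ∑ V ∈ VS.filter (fun V => ∀ v ∈ V, v ∉ S), {c : ι → ℤ | (∀ i, |c i| ≤ (N : ℤ)) ∧ c ≠ 0 ∧
        TT S ((el b c : 𝓞 k) : k) = (V : Set (Pr k))}.ncard := by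
        have h5 : B.ncard ≤ ((VS.filter (fun V => ∀ v ∈ V, v ∉ S)).biUnion fun V => (hfinV V).toFinset).card := by
          rw [← Set.ncard_coe_finset]
          apply Set.ncard_le_ncard _ (Finset.finite_toSet _)
          refine hcov.trans ?_
          intro c hc
          rw [Set.mem_iUnion₂] at hc
          obtain ⟨V, hV1, hV2⟩ := hc
          rw [Finset.mem_coe, Finset.mem_biUnion]
          exact ⟨V, hV1, (hfinV V).mem_toFinset.2 hV2⟩
        refine h5.trans (Finset.card_biUnion_le.trans ?_)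
        apply Finset.sum_le_sum
        intro V _
        rw [Set.ncard_eq_toFinset_card _ (hfinV V)]
      have h6 : (B.ncard : ℝ) ≤ ∑ V ∈ VS.filter (fun V => ∀ v ∈ V, v ∉ S), ({c : ι → ℤ | (∀ i, |c i| ≤ (N : ℤ)) ∧ c ≠ 0 ∧
        TT S ((el b c : 𝓞 k) : k) = (V : Set (Pr k))}.ncard : ℝ) := by exact_mod_cast h4
      refine h6.trans ?_
      rw [← nsmul_eq_mul]
      exact Finset.sum_le_card_nsmul _ _ _ hfib
    have hVSc : ((VS.filter (fun V => ∀ v ∈ V, v ∉ S)).card : ℝ) ≤ C₂ * R := by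
      have h4 : (VS.filter (fun V => ∀ v ∈ V, v ∉ S)).card ≤ VS.card := Finset.card_filter_le _ _
      have h5 : (VS.card : ℝ) = ({V : Finset (Pr k) | ∏ v ∈ V, (nv v : ℝ) ≤ R}.ncard : ℝ) := by
        rw [Set.ncard_eq_toFinset_card _ hVfin]
      have h6 : ((VS.filter (fun V => ∀ v ∈ V, v ∉ S)).card : ℝ) ≤ VS.card := by exact_mod_cast h4
      linarith
    have hC₁0 : 0 < C₁ := by linarith
    have hYN : (N : ℝ) ^ (1 / 8 : ℝ) ≤ Y ^ (1 / 8 : ℝ) :=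
      Real.rpow_le_rpow hN0.le (le_self_pow₀ hN1 (by omega)) (by norm_num)
    have hlog3' : Real.log N ^ (3 : ℝ) ≤ Y ^ (1 / 8 : ℝ) := (hx₀ N hNx).trans hYN
    have hfin1 : Y ^ (1 / 8 : ℝ) * Y ^ (3 / 4 : ℝ) ≤ Y * Real.log N ^ (-3 : ℝ) := by
      have h4 : Real.log N ^ (3 : ℝ) * Real.log N ^ (-3 : ℝ) = 1 := by
        rw [← Real.rpow_add hlogN]
        norm_num
      have h5 : Y ^ (1 / 8 : ℝ) * Y ^ (3 / 4 : ℝ) * Y ^ (1 / 8 : ℝ) = Y := by
        rw [← Real.rpow_add hY0, ← Real.rpow_add hY0]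
        norm_num
      calc Y ^ (1 / 8 : ℝ) * Y ^ (3 / 4 : ℝ)
          = Y ^ (1 / 8 : ℝ) * Y ^ (3 / 4 : ℝ) * (Real.log N ^ (3 : ℝ) * Real.log N ^ (-3 : ℝ)) := by
            rw [h4, mul_one]
        _ ≤ Y ^ (1 / 8 : ℝ) * Y ^ (3 / 4 : ℝ) * (Y ^ (1 / 8 : ℝ) * Real.log N ^ (-3 : ℝ)) := by
            gcongr
        _ = (Y ^ (1 / 8 : ℝ) * Y ^ (3 / 4 : ℝ) * Y ^ (1 / 8 : ℝ)) * Real.log N ^ (-3 : ℝ) := by
            ring
        _ = Y * Real.log N ^ (-3 : ℝ) := by rw [h5]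
    calc (B.ncard : ℝ) ≤ ((VS.filter (fun V => ∀ v ∈ V, v ∉ S)).card : ℝ) * (C₁ * (C₁ * Y) ^ (3 / 4 : ℝ)) := hun
      _ ≤ (C₂ * R) * (C₁ * (C₁ * Y) ^ (3 / 4 : ℝ)) :=
          mul_le_mul_of_nonneg_right hVSc (by positivity)
      _ ≤ (C₂ * Y ^ (1 / 8 : ℝ)) * (C₁ * (C₁ * Y) ^ (3 / 4 : ℝ)) := by gcongr
      _ = C₃ * (Y ^ (1 / 8 : ℝ) * Y ^ (3 / 4 : ℝ)) := by
          rw [Real.mul_rpow hC₁0.le hY0.le, hC₃]
          ring
      _ ≤ C₃ * (Y * Real.log N ^ (-3 : ℝ)) := mul_le_mul_of_nonneg_left hfin1 hC₃0.le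
      _ ≤ (C₃ + C₄) * Y * Real.log N ^ (-3 : ℝ) := by
          have : 0 ≤ C₄ * Y * Real.log N ^ (-3 : ℝ) := by positivity
          linarith

end SC7
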