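import Pool.Agent.MP_c1dca2_ag.SC7.U8
import Pool.Agent.MP_c1dca2_ag.SC7.U9
import Pool.Agent.MP_c1dca2_ag.SC7.Q1
import Pool.Agent.MP_c1dca2_ag.SC5.Q4

/-!
# [SC7-U10] the upper bound
-/

set_option autoImplicit false

open NumberField IsDedekindDomain SC5

namespace SC7

/-- `MP` at `C x` and at `x`. -/
theorem MP_const {k : Type} [Field k] [NumberField k] (P : Set (Pr k)) (C : ℝ) (hC : 1 ≤ C) :
    ∃ C' : ℝ, ∀ x : ℝ, 2 ≤ x → MP P (C * x) ≤ MP P x + C' := by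
  classical
  obtain ⟨C₁, hC₁⟩ := sum_upper k
  have hl2 : 0 < Real.log 2 := Real.log_pos (by norm_num)
  have hlC : 0 ≤ Real.log C := Real.log_nonneg hC
  refine ⟨Real.log (1 + Real.log C / Real.log 2) + C₁, fun x hx => ?_⟩
  have hx0 : 0 < x := by linarith
  have hlx : Real.log 2 ≤ Real.log x := Real.log_le_log (by norm_num) hx
  have hlx0 : 0 < Real.log x := lt_of_lt_of_le hl2 hlx
  have hxx : x ≤ C * x := le_mul_of_one_le_left hx0.le hC
  have h1 : PF P x ⊆ PF P (C * x) := by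
    intro v hv
    rw [mem_PF] at hv ⊢
    exact ⟨hv.1, hv.2.trans hxx⟩
  have h2 := hC₁ x (C * x) (by linarith) hxx (PF P (C * x) \ PF P x) (by
    intro v hv
    rw [Finset.mem_sdiff, mem_PF, mem_PF] at hv
    refine ⟨?_, hv.1.2⟩
    by_contra h
    exact hv.2 ⟨hv.1.1, not_lt.1 h⟩)
  have h3 : Real.log (Real.log (C * x) / Real.log x) ≤ Real.log (1 + Real.log C / Real.log 2) := by
    apply Real.log_le_log
    · apply div_pos _ hlx0
      exact lt_of_lt_of_le hlx0 (Real.log_le_log hx0 hxx)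
    · rw [Real.log_mul (by linarith) hx0.ne', add_div, div_self hlx0.ne', add_comm]
      have := div_le_div_of_nonneg_left hlC hl2 hlx
      linarith
  have h4 : MP P (C * x) = ∑ v ∈ PF P (C * x) \ PF P x, ((nv v : ℝ))⁻¹ + MP P x := by
    unfold MP
    rw [Finset.sum_sdiff h1]
  linarith

open scoped Classical in
/-- the configurations with a large element and few elements -/
theorem u10_R {k : Type} [Field k] [NumberField k] {I : Type} {L : I → Type}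
    [∀ i, Field (L i)] [∀ i, NumberField (L i)] [∀ i, Algebra k (L i)] {S : Finset (Pr k)}
    {al : ∀ i, Pr (L i) → 𝓞 (L i)} {ι : Type} [Fintype ι] (b : Module.Basis ι ℤ (𝓞 k))
    {C : ℝ} (hC1 : 1 ≤ C)
    (hC : ∀ N : ℕ, 1 ≤ N → ∀ V : Finset (Pr k), (∀ v ∈ V, v ∉ S) →
      (C * (N : ℝ) ^ (Fintype.card ι) < ∏ v ∈ V, (nv v : ℝ) →
        ¬ ∃ c : ι → ℤ, (∀ i, |c i| ≤ N) ∧ c ≠ 0 ∧ TT S ((el b c : 𝓞 k) : k) = (V : Set (Pr k))) ∧
      (Nat.card {c : ι → ℤ // (∀ i, |c i| ≤ N) ∧ c ≠ 0 ∧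
        TT S ((el b c : 𝓞 k) : k) = (V : Set (Pr k))} : ℝ) ≤
        C * (C * (N : ℝ) ^ (Fintype.card ι) / ∏ v ∈ V, (nv v : ℝ)) ^ (3 / 4 : ℝ))
    {θ Λ₀ : ℝ} {B : ℝ → ℝ} (hθ : 1 / 2 ≤ θ) (hΛ₀1 : 1 ≤ Λ₀)
    (ht : ∀ Λ : ℝ, Λ₀ ≤ Λ → ∀ (E : PL L → PL L → PL L → ℤˣ) (Ps : Finset (Finset (PL L))),
        (∀ P ∈ Ps, Adm S al Λ E P ∧ ∃ o ∈ P, Λ ^ θ < Real.log (nv o.2)) →
        ∑ P ∈ Ps, (Real.exp Λ / NP P) ^ (3 / 4 : ℝ) ≤ B Λ)
    (E : PL L → PL L → PL L → ℤˣ) {N : ℕ} (hN : 1 ≤ N) (Λ : ℝ)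
    (hΛ : Λ = Real.log (C * (N : ℝ) ^ (Fintype.card ι))) (hΛ₀ : Λ₀ ≤ Λ) :
    (((c7_box ι N).filter (fun c => c ≠ 0 ∧ ∃ P : Finset (PL L), Cfg k S P ∧
      TT S ((el b c : 𝓞 k) : k) = (fun o : PL L => bl k o.2) '' (P : Set (PL L)) ∧
      (∀ o ∈ P, Rel k (E o) o (sgn al P)) ∧ (P.card : ℝ) ≤ Real.log Λ ^ 2 ∧
      ∃ o ∈ P, Λ ^ θ < Real.log (nv o.2))).card : ℝ) ≤
      C * B Λ := by
  have hNR : (1 : ℝ) ≤ N := by exact_mod_cast hN
  have hΛ1 : 1 ≤ Λ := hΛ₀1.trans hΛ₀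
  have hX : 0 < C * (N : ℝ) ^ (Fintype.card ι) := by positivity
  have hexp : Real.exp Λ = C * (N : ℝ) ^ (Fintype.card ι) := by
    rw [hΛ, Real.exp_log hX]
  set q : (ι → ℤ) → Finset (PL L) → Prop := fun c P => Cfg k S P ∧
      TT S ((el b c : 𝓞 k) : k) = (fun o : PL L => bl k o.2) '' (P : Set (PL L)) ∧
      (∀ o ∈ P, Rel k (E o) o (sgn al P)) ∧ (P.card : ℝ) ≤ Real.log Λ ^ 2 ∧
      ∃ o ∈ P, Λ ^ θ < Real.log (nv o.2) with hq
  show (((c7_box ι N).filter (fun c => c ≠ 0 ∧ ∃ P : Finset (PL L), q c P)).card : ℝ) ≤ _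
  set A := (c7_box ι N).filter (fun c => c ≠ 0 ∧ ∃ P : Finset (PL L), q c P) with hA
  set g : (ι → ℤ) → Finset (PL L) := fun c => if h : ∃ P, q c P then h.choose else ∅ with hg
  have hgq : ∀ c ∈ A, q c (g c) := by
    intro c hc
    rw [hA, Finset.mem_filter] at hc
    have h := hc.2.2
    simp only [hg]
    rw [dif_pos h]
    exact h.choose_spec
  have hbox : ∀ c ∈ A, (∀ i, |c i| ≤ N) ∧ c ≠ 0 := by
    intro c hc
    rw [hA, Finset.mem_filter, c7_mem_box] at hc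
    exact ⟨hc.1, hc.2.1⟩
  have hV : ∀ P : Finset (PL L), Cfg k S P → ∀ v ∈ P.image (fun o : PL L => bl k o.2), v ∉ S := by
    intro P hP v hv
    rw [Finset.mem_image] at hv
    obtain ⟨o, ho, rfl⟩ := hv
    exact hP.out o ho
  have hadm : ∀ P ∈ A.image g, Adm S al Λ E P ∧ ∃ o ∈ P, Λ ^ θ < Real.log (nv o.2) := by
    intro P hP
    rw [Finset.mem_image] at hP
    obtain ⟨c, hc, rfl⟩ := hP
    obtain ⟨h1, h2, h3, h4, o, ho, h5⟩ := hgq c hc
    refine ⟨⟨h1, ?_, h4, ⟨o, ho, lt_of_le_of_lt ?_ h5⟩, h3⟩, o, ho, h5⟩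
    · rw [hexp]
      by_contra hlt
      rw [not_le] at hlt
      rw [← c7_NP h1] at hlt
      refine (hC N hN _ (hV _ h1)).1 hlt ⟨c, (hbox c hc).1, (hbox c hc).2, ?_⟩
      rw [h2, Finset.coe_image]
    · exact Real.rpow_le_rpow_of_exponent_le hΛ1 hθ
  have hfib : ∀ P ∈ A.image g, (((A.filter (fun c => g c = P)).card : ℕ) : ℝ) ≤
      C * (Real.exp Λ / NP P) ^ (3 / 4 : ℝ) := by
    intro P hP
    have hcfg := (hadm P hP).1.cfg
    have h1 := (hC N hN _ (hV P hcfg)).2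
    rw [c7_NP hcfg, c7_card, ← hexp] at h1
    refine le_trans ?_ h1
    norm_cast
    refine Finset.card_le_card fun c hc => ?_
    rw [Finset.mem_filter] at hc
    rw [Finset.mem_filter, c7_mem_box]
    refine ⟨(hbox c hc.1).1, (hbox c hc.1).2, ?_⟩
    have h2 := (hgq c hc.1).2.1
    rw [hc.2] at h2
    rw [h2, Finset.coe_image]
  calc ((A.card : ℕ) : ℝ) = ∑ P ∈ A.image g, (((A.filter (fun c => g c = P)).card : ℕ) : ℝ) := by
        rw [Finset.card_eq_sum_card_image g A]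
        push_cast
        rfl
    _ ≤ ∑ P ∈ A.image g, C * (Real.exp Λ / NP P) ^ (3 / 4 : ℝ) := Finset.sum_le_sum hfib
    _ = C * ∑ P ∈ A.image g, (Real.exp Λ / NP P) ^ (3 / 4 : ℝ) := by rw [Finset.mul_sum]
    _ ≤ C * B Λ :=
        mul_le_mul_of_nonneg_left (ht Λ hΛ₀ E _ hadm) (by linarith)

theorem count3 {k : Type} [Field k] [NumberField k] {I : Type} [Fintype I] {L : I → Type}
    [∀ i, Field (L i)] [∀ i, NumberField (L i)] [∀ i, Algebra k (L i)] (M : Type) [Field M]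
    [NumberField M] [Algebra k M] [IsGalois k M] [∀ i, Algebra (L i) M]
    [∀ i, IsScalarTower k (L i) M] {S : Finset (Pr k)}
    {al : ∀ i, Pr (L i) → 𝓞 (L i)} {Cg : ℕ} (hF : Fam k L S al Cg) (hdeg : Deg3 k L)
    {κ : Type} [Finite κ]
    (E : κ → PL L → PL L → PL L → ℤˣ) {ι : Type} [Fintype ι] (b : Module.Basis ι ℤ (𝓞 k)) :
    ∃ δ A : ℝ, 0 < δ ∧ 0 < A ∧ ∀ N : ℕ, 2 ≤ N → (Nat.card {c : ι → ℤ // (∀ i, |c i| ≤ N) ∧
      c ≠ 0 ∧ ∃ (x : κ) (P : Finset (PL L)), Cfg k S P ∧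
        TT S ((el b c : 𝓞 k) : k) = (fun o => bl k o.2) '' (P : Set (PL L)) ∧
        ∀ o ∈ P, Rel k (E x o) o (sgn al P)} : ℝ) ≤
      A * (N : ℝ) ^ (Fintype.card ι) * Real.log N ^ (-1 - δ) *
        Real.exp (MP (PS k L S) ((N : ℝ) ^ (Fintype.card ι))) := by
  classical
  have : Fintype κ := Fintype.ofFinite κ
  obtain ⟨C, hC1, hC⟩ := cfg_count b S
  obtain ⟨δ₀, C', Λ₀, Kn, hδ₀, hC', hΛ₀, hKn, ht⟩ := total3 M hF hdeg
  obtain ⟨A₁, hA₁, hT4⟩ := typ_large3 b S C hC1 Kn hKn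
  obtain ⟨A₂, hA₂, hT2⟩ := typ_omega3 b S C hC1
  obtain ⟨C'', hC''⟩ := MP_const (PS k L S) C hC1
  have hne : Nonempty ι := b.index_nonempty
  have hn : Fintype.card ι ≠ 0 := Fintype.card_ne_zero
  have hl2 : 0 < Real.log 2 := Real.log_pos (by norm_num)
  set δ : ℝ := min δ₀ 1 with hδ
  have hδ0 : 0 < δ := lt_min hδ₀ (by norm_num)
  have hδ1 : δ ≤ δ₀ := min_le_left _ _
  have hδ2 : δ ≤ 1 := min_le_right _ _
  set K : ℝ := (Fintype.card κ : ℝ) with hK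
  have hK0 : 0 ≤ K := Nat.cast_nonneg _
  set c₁ : ℝ := Real.log 2 ^ (-(3 - (1 + δ))) with hc₁
  set c₃ : ℝ := Real.log 2 ^ (-((1 + δ₀) - (1 + δ))) with hc₃
  have hc₁0 : 0 < c₁ := Real.rpow_pos_of_pos hl2 _
  have hc₃0 : 0 < c₃ := Real.rpow_pos_of_pos hl2 _
  have hΛ₀0 : 0 < Λ₀ := by linarith
  have hexp1 : ∀ x : ℝ, 1 ≤ Real.exp (MP (PS k L S) x) := fun x =>
    Real.one_le_exp (MP_nonneg _ _)
  refine ⟨δ, A₁ * c₁ + A₂ * c₁ + K * (C * (C' * C * c₃ * Real.exp C'')) +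
    3 ^ (Fintype.card ι) * Λ₀ ^ (1 + δ), hδ0, by positivity, ?_⟩
  intro N hN
  have hN1 : 1 ≤ N := by omega
  have hNR : (2 : ℝ) ≤ N := by exact_mod_cast hN
  have hN0 : (0 : ℝ) < N := by linarith
  have hlN : Real.log 2 ≤ Real.log N := Real.log_le_log (by norm_num) hNR
  have hlN0 : 0 < Real.log N := lt_of_lt_of_le hl2 hlN
  set Y : ℝ := (N : ℝ) ^ (Fintype.card ι) with hY
  have hY0 : 0 < Y := by positivity
  have hNY : (N : ℝ) ≤ Y := le_self_pow₀ (by linarith) hn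
  set Λ : ℝ := Real.log (C * (N : ℝ) ^ (Fintype.card ι)) with hΛ
  have hNΛ : Real.log N ≤ Λ := by
    refine Real.log_le_log hN0 ?_
    nlinarith
  set G : ℝ := Real.exp (MP (PS k L S) Y) with hG
  have hG1 : 1 ≤ G := hexp1 Y
  have hG0 : 0 < G := by linarith
  have hneg : (-1 - δ : ℝ) = -(1 + δ) := by ring
  rw [hneg]
  have hpd : 0 < Real.log N ^ (-(1 + δ)) := Real.rpow_pos_of_pos hlN0 _
  rw [c7_card]
  set A := (c7_box ι N).filter (fun c => c ≠ 0 ∧ ∃ (x : κ) (P : Finset (PL L)), Cfg k S P ∧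
        TT S ((el b c : 𝓞 k) : k) = (fun o => bl k o.2) '' (P : Set (PL L)) ∧
        ∀ o ∈ P, Rel k (E x o) o (sgn al P)) with hA
  rcases lt_or_ge Λ Λ₀ with hsmall | hΛN
  · -- small `N`
    have h1 : (A.card : ℝ) ≤ (2 * N + 1) ^ (Fintype.card ι) := by
      have h2 : A.card ≤ (c7_box ι N).card := Finset.card_le_card (Finset.filter_subset _ _)
      rw [q4_box_card] at h2
      exact_mod_cast h2
    have h2 : (2 * (N : ℝ) + 1) ^ (Fintype.card ι) ≤ 3 ^ (Fintype.card ι) * Y := by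
      rw [hY, ← mul_pow]
      exact pow_le_pow_left₀ (by positivity) (by linarith) _
    have h3 : (1 : ℝ) ≤ Λ₀ ^ (1 + δ) * Real.log N ^ (-(1 + δ)) := by
      have h4 : Λ₀ ^ (-(1 + δ)) ≤ Real.log N ^ (-(1 + δ)) :=
        Real.rpow_le_rpow_of_nonpos hlN0 (by linarith) (by linarith)
      have h5 : Λ₀ ^ (1 + δ) * Λ₀ ^ (-(1 + δ)) = 1 := by
        rw [← Real.rpow_add hΛ₀0, add_neg_cancel, Real.rpow_zero]
      calc (1 : ℝ) = Λ₀ ^ (1 + δ) * Λ₀ ^ (-(1 + δ)) := h5.symm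
        _ ≤ _ := mul_le_mul_of_nonneg_left h4 (Real.rpow_nonneg hΛ₀0.le _)
    have h4 : 3 ^ (Fintype.card ι) * Y ≤
        3 ^ (Fintype.card ι) * Λ₀ ^ (1 + δ) * Y * Real.log N ^ (-(1 + δ)) * G := by
      have h5 : 0 ≤ 3 ^ (Fintype.card ι) * Y := by positivity
      have h6 := mul_le_mul_of_nonneg_left h3 h5
      have h7 : 0 ≤ 3 ^ (Fintype.card ι) * Λ₀ ^ (1 + δ) * Y * Real.log N ^ (-(1 + δ)) := by
        positivity
      have h8 := le_mul_of_one_le_right h7 hG1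
      linarith
    have h5 : 0 ≤ (A₁ * c₁ + A₂ * c₁ + K * (C * (C' * C * c₃ * Real.exp C''))) * Y *
        Real.log N ^ (-(1 + δ)) * G := by positivity
    have h6 : (A₁ * c₁ + A₂ * c₁ + K * (C * (C' * C * c₃ * Real.exp C'')) +
        3 ^ (Fintype.card ι) * Λ₀ ^ (1 + δ)) * Y * Real.log N ^ (-(1 + δ)) * G =
        (A₁ * c₁ + A₂ * c₁ + K * (C * (C' * C * c₃ * Real.exp C''))) * Y *
        Real.log N ^ (-(1 + δ)) * G +
        3 ^ (Fintype.card ι) * Λ₀ ^ (1 + δ) * Y * Real.log N ^ (-(1 + δ)) * G := by ring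
    rw [h6]
    linarith
  · -- large `N`
    have hΛpos : 0 < Λ := by linarith
    have hΛ1 : 1 ≤ Λ := by linarith
    have hθ : (1 / 2 : ℝ) ≤ 1 - 1 / (Kn : ℝ) := by
      have h1 : (2 : ℝ) ≤ Kn := by exact_mod_cast hKn
      have h2 : 1 / (Kn : ℝ) ≤ 1 / 2 := one_div_le_one_div_of_le (by norm_num) h1
      linarith
    have hB4 := hT4 N hN
    have hD2 := hT2 N hN
    rw [c7_card] at hB4 hD2
    set θ : ℝ := 1 - 1 / (Kn : ℝ) with hθdef
    set B := (c7_box ι N).filter (fun c => c ≠ 0 ∧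
        ((TT S ((el b c : 𝓞 k) : k)).ncard : ℝ) ≤ Real.log Λ ^ 2 ∧
        ∀ v ∈ TT S ((el b c : 𝓞 k) : k), Real.log (nv v) ≤ Λ ^ θ) with hB
    set D := (c7_box ι N).filter (fun c => c ≠ 0 ∧
        Real.log Λ ^ 2 < ((TT S ((el b c : 𝓞 k) : k)).ncard : ℝ)) with hDD
    set R : κ → Finset (ι → ℤ) := fun x => (c7_box ι N).filter (fun c => c ≠ 0 ∧
        ∃ P : Finset (PL L), Cfg k S P ∧
        TT S ((el b c : 𝓞 k) : k) = (fun o : PL L => bl k o.2) '' (P : Set (PL L)) ∧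
        (∀ o ∈ P, Rel k (E x o) o (sgn al P)) ∧ (P.card : ℝ) ≤ Real.log Λ ^ 2 ∧
        ∃ o ∈ P, Λ ^ θ < Real.log (nv o.2)) with hR
    have hsub : A ⊆ (B ∪ D) ∪ Finset.univ.biUnion R := by
      intro c hc
      rw [hA, Finset.mem_filter] at hc
      obtain ⟨hcb, hc0, x, P, hP, hTT, hrel⟩ := hc
      by_cases h2 : c ∈ D
      · exact Finset.mem_union_left _ (Finset.mem_union_right _ h2)
      rw [hDD, Finset.mem_filter] at h2
      have h4 : ((TT S ((el b c : 𝓞 k) : k)).ncard : ℝ) ≤ Real.log Λ ^ 2 := by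
        by_contra h5
        rw [not_le] at h5
        exact h2 ⟨hcb, hc0, h5⟩
      by_cases h1 : c ∈ B
      · exact Finset.mem_union_left _ (Finset.mem_union_left _ h1)
      refine Finset.mem_union_right _ (Finset.mem_biUnion.mpr ⟨x, Finset.mem_univ x, ?_⟩)
      rw [hB, Finset.mem_filter] at h1
      push Not at h1
      obtain ⟨v, hv, hvL⟩ := h1 hcb hc0 h4
      have hinj : Set.InjOn (fun o : PL L => bl k o.2) (P : Set (PL L)) :=
        fun o ho o' ho' h => hP.inj o ho o' ho' h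
      have h6 : (TT S ((el b c : 𝓞 k) : k)).ncard = P.card := by
        rw [hTT, Set.ncard_image_of_injOn hinj, Set.ncard_coe_finset]
      rw [h6] at h4
      rw [hTT] at hv
      obtain ⟨o, ho, hov⟩ := hv
      rw [hR, Finset.mem_filter]
      refine ⟨hcb, hc0, P, hP, hTT, hrel, h4, o, ho, ?_⟩
      rw [nv_eq (k := k) o.2, hP.deg o ho, pow_one]
      have h7 : bl k o.2 = v := hov
      rw [h7]
      exact hvL
    have hcard : (A.card : ℝ) ≤ B.card + D.card + ∑ x : κ, ((R x).card : ℝ) := by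
      have h1 := Finset.card_le_card hsub
      have h2 := Finset.card_union_le (B ∪ D) (Finset.univ.biUnion R)
      have h3 := Finset.card_union_le B D
      have h4 : (Finset.univ.biUnion R).card ≤ ∑ x : κ, (R x).card := Finset.card_biUnion_le
      have h5 : A.card ≤ B.card + D.card + ∑ x : κ, (R x).card := by omega
      exact_mod_cast h5
    have hRx : ∀ x : κ, ((R x).card : ℝ) ≤
        C * (C' * Real.exp Λ * Λ ^ (-1 - δ₀) * Real.exp (MP (PS k L S) (Real.exp Λ))) :=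
      fun x => u10_R b hC1 hC hθ hΛ₀ ht (E x) hN1 Λ hΛ hΛN
    have hexpΛ : Real.exp Λ = C * Y := by
      rw [hΛ, Real.exp_log (by positivity)]
    have hMPΛ : Real.exp (MP (PS k L S) (Real.exp Λ)) ≤ Real.exp C'' * G := by
      rw [hexpΛ, hG, ← Real.exp_add]
      apply Real.exp_le_exp.2
      have := hC'' Y (by linarith)
      linarith
    have e3 : Λ ^ (-1 - δ₀) ≤ c₃ * Real.log N ^ (-(1 + δ)) := by
      rw [show (-1 - δ₀ : ℝ) = -(1 + δ₀) by ring]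
      refine (Real.rpow_le_rpow_of_nonpos hlN0 hNΛ (by linarith)).trans ?_
      exact q4_rpow hlN (by linarith)
    have hRx' : ∀ x : κ, ((R x).card : ℝ) ≤
        C * (C' * C * c₃ * Real.exp C'') * Y * Real.log N ^ (-(1 + δ)) * G := by
      intro x
      refine (hRx x).trans ?_
      rw [hexpΛ] at hMPΛ ⊢
      have h1 : Λ ^ (-1 - δ₀) * Real.exp (MP (PS k L S) (C * Y)) ≤
          (c₃ * Real.log N ^ (-(1 + δ))) * (Real.exp C'' * G) :=
        mul_le_mul e3 hMPΛ (Real.exp_pos _).le (by positivity)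
      have h2 : 0 ≤ C * (C' * (C * Y)) := by positivity
      have h3 := mul_le_mul_of_nonneg_left h1 h2
      calc C * (C' * (C * Y) * Λ ^ (-1 - δ₀) * Real.exp (MP (PS k L S) (C * Y)))
          = C * (C' * (C * Y)) * (Λ ^ (-1 - δ₀) * Real.exp (MP (PS k L S) (C * Y))) := by ring
        _ ≤ _ := h3
        _ = _ := by ring
    have hRs : ∑ x : κ, ((R x).card : ℝ) ≤
        K * (C * (C' * C * c₃ * Real.exp C'')) * Y * Real.log N ^ (-(1 + δ)) * G := by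
      refine (Finset.sum_le_sum fun x _ => hRx' x).trans (le_of_eq ?_)
      rw [Finset.sum_const, nsmul_eq_mul, Finset.card_univ]
      ring
    -- the exponents
    have e1 : Real.log N ^ (-3 : ℝ) ≤ c₁ * Real.log N ^ (-(1 + δ)) :=
      q4_rpow hlN (by linarith)
    have f1 : (B.card : ℝ) ≤ A₁ * c₁ * Y * Real.log N ^ (-(1 + δ)) * G := by
      refine hB4.trans ?_
      have h1 := mul_le_mul_of_nonneg_left e1 (by positivity : 0 ≤ A₁ * Y)
      have h2 : 0 ≤ A₁ * c₁ * Y * Real.log N ^ (-(1 + δ)) := by positivity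
      have h3 := le_mul_of_one_le_right h2 hG1
      linarith
    have f2 : (D.card : ℝ) ≤ A₂ * c₁ * Y * Real.log N ^ (-(1 + δ)) * G := by
      refine hD2.trans ?_
      have h1 := mul_le_mul_of_nonneg_left e1 (by positivity : 0 ≤ A₂ * Y)
      have h2 : 0 ≤ A₂ * c₁ * Y * Real.log N ^ (-(1 + δ)) := by positivity
      have h3 := le_mul_of_one_le_right h2 hG1
      linarith
    have f4 : 0 ≤ 3 ^ (Fintype.card ι) * Λ₀ ^ (1 + δ) * Y * Real.log N ^ (-(1 + δ)) * G := by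
      positivity
    have h6 : (A₁ * c₁ + A₂ * c₁ + K * (C * (C' * C * c₃ * Real.exp C'')) +
        3 ^ (Fintype.card ι) * Λ₀ ^ (1 + δ)) * Y * Real.log N ^ (-(1 + δ)) * G =
        A₁ * c₁ * Y * Real.log N ^ (-(1 + δ)) * G + A₂ * c₁ * Y * Real.log N ^ (-(1 + δ)) * G +
        K * (C * (C' * C * c₃ * Real.exp C'')) * Y * Real.log N ^ (-(1 + δ)) * G +
        3 ^ (Fintype.card ι) * Λ₀ ^ (1 + δ) * Y * Real.log N ^ (-(1 + δ)) * G := by ring
    rw [h6]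
    linarith

end SC7
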