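import Pool.Agent.MP_c1dca2_ag.SC7.U1

/-!
# [SC7-U2] the sum of the costs above one prime

Let `v ∉ S` be a prime of `k` and `A` the set of the `o` with `o.1 ∈ J`, `dg k o.2 = 1`, `bl k o.2 = v` (given as the finset `T`, any
subset of it). `m` = the number of all `q` with `q.1 ∈ J`, `bl k q.2 = v` (`(up k J o).card` for every `o ∈ A`), `F` = the number of elements
of `A`, `F ≤ m`. All `o ∈ T` have the same `beta3 k J o = 2^(-(m - 2))` (if all `q` above `v` of odd degree are in `J`, case `ε = 1`), resp.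
`2^(-(m - 1))` (`ε = 0`).
`mass_le`: `∑_{o ∈ T} beta3 k J o ≤ 1`.
* `ε = 0`: `F 2^(-(m-1)) ≤ F 2^(-(F-1)) ≤ 1`.
* `ε = 1`, `m ≥ F + 1`: `F 2^(-(m-2)) ≤ F 2^(-(F-1)) ≤ 1`.
* `ε = 1`, `m = F`: all primes above `v` with index in `J` have degree one, so `F = ∑_{i ∈ J} finrank k (L i)` (`hun`, `sum_up`).
  `F ≥ 4`: `F 2^(-(F-2)) ≤ 1`. `F = 2` or `F = 3` (`F ≥ 2` as `T` is nonempty, `two_le`): then `J = {t}` with `finrank k (L t) = 2, 3`. If it is
  `3`: `∑_{i ≠ t} finrank k (L i)` is odd (`even`), so there is `s ≠ t` with `finrank k (L s)` odd. If it is `2`: `quad` gives `s` with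
  `finrank k (L s)` odd, `s ≠ t`. The degrees of the primes of `L s` above `v` have an odd sum, so one of them is odd; it is not in `J`:
  contradiction to `ε = 1`.
`mass_split`: if `Spl k L v` (all degrees are one) and `3 ≤ nJ k L J` then the sum is at most `3/4`: `F = m = nJ k L J`. `J ≠ univ`: another index
has a prime of degree one above `v`, so `ε = 0`, `F 2^(-(F-1)) ≤ 3/4` for `F ≥ 3`. `J = univ`: `F ≥ 6`, `F 2^(-(F-2)) ≤ 6/16`.
-/

set_option autoImplicit false

open NumberField IsDedekindDomain SC5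

namespace SC7

theorem beta3_nonneg {k : Type} [Field k] [NumberField k] {I : Type} {L : I → Type}
    [∀ i, Field (L i)] [∀ i, NumberField (L i)] [∀ i, Algebra k (L i)] (J : Finset I) (o : PL L) :
    0 ≤ beta3 k J o := by
  unfold beta3
  split_ifs <;> positivity

/-- `F ≤ 2 ^ (F - 1)`. -/
theorem le_two_pow (n : ℕ) (hn : 1 ≤ n) : (n : ℝ) ≤ 2 ^ (n - 1) := by
  obtain ⟨m, rfl⟩ := Nat.exists_eq_add_of_le hn
  have h1 : m + 1 ≤ 2 ^ m := Nat.lt_two_pow_self
  have h2 : ((m + 1 : ℕ) : ℝ) ≤ ((2 ^ m : ℕ) : ℝ) := by exact_mod_cast h1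
  have h3 : 1 + m - 1 = m := by omega
  rw [h3]
  push_cast at h2 ⊢
  linarith

/-- `n ≤ (3 / 4) 2 ^ (n - 1)` for `3 ≤ n`. -/
theorem le_three_quarters (n : ℕ) (hn : 3 ≤ n) : (n : ℝ) ≤ 3 / 4 * 2 ^ (n - 1) := by
  obtain ⟨m, rfl⟩ := Nat.exists_eq_add_of_le hn
  have h3 : 3 + m - 1 = m + 2 := by omega
  rw [h3, pow_add]
  have h1 : m + 1 ≤ 2 ^ m := Nat.lt_two_pow_self
  have h2 : ((m + 1 : ℕ) : ℝ) ≤ ((2 ^ m : ℕ) : ℝ) := by exact_mod_cast h1
  push_cast at h2 ⊢
  have h4 : (0 : ℝ) ≤ m := Nat.cast_nonneg m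
  linarith

/-- `n ≤ 2 ^ (n - 2)` for `4 ≤ n`. -/
theorem le_two_pow' (n : ℕ) (hn : 4 ≤ n) : (n : ℝ) ≤ 2 ^ (n - 2) := by
  obtain ⟨m, rfl⟩ := Nat.exists_eq_add_of_le hn
  have h3 : 4 + m - 2 = m + 2 := by omega
  rw [h3, pow_add]
  have h1 : m + 1 ≤ 2 ^ m := Nat.lt_two_pow_self
  have h2 : ((m + 1 : ℕ) : ℝ) ≤ ((2 ^ m : ℕ) : ℝ) := by exact_mod_cast h1
  push_cast at h2 ⊢
  have h4 : (0 : ℝ) ≤ m := Nat.cast_nonneg m
  linarith

/-- `n ≤ (3 / 4) 2 ^ (n - 2)` for `6 ≤ n`. -/
theorem le_three_quarters' (n : ℕ) (hn : 6 ≤ n) : (n : ℝ) ≤ 3 / 4 * 2 ^ (n - 2) := by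
  obtain ⟨m, rfl⟩ := Nat.exists_eq_add_of_le hn
  have h3 : 6 + m - 2 = m + 4 := by omega
  rw [h3, pow_add]
  have h1 : m + 1 ≤ 2 ^ m := Nat.lt_two_pow_self
  have h2 : ((m + 1 : ℕ) : ℝ) ≤ ((2 ^ m : ℕ) : ℝ) := by exact_mod_cast h1
  push_cast at h2 ⊢
  have h4 : (0 : ℝ) ≤ m := Nat.cast_nonneg m
  linarith

theorem two_pow_mono {a b : ℕ} (h : a ≤ b) : (2 : ℝ) ^ a ≤ 2 ^ b :=
  pow_le_pow_right₀ (by norm_num) h

section

variable {k : Type} [Field k] [NumberField k] {I : Type} {L : I → Type}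
    [∀ i, Field (L i)] [∀ i, NumberField (L i)] [∀ i, Algebra k (L i)]

open scoped Classical in
/-- The cost depends on the prime below only. -/
theorem beta3_congr (J : Finset I) (o o' : PL L) (h : bl k o.2 = bl k o'.2) :
    beta3 k J o = beta3 k J o' := by
  have h1 : up k J o = up k J o' := by
    ext q
    rw [mem_up, mem_up, h]
  unfold beta3
  rw [h1, h]

open scoped Classical in
theorem sum_eq (J : Finset I) (v : Pr k) (T : Finset (PL L))
    (hT : ∀ o ∈ T, o.1 ∈ J ∧ dg k o.2 = 1 ∧ bl k o.2 = v) (o : PL L) (ho : o ∈ T) :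
    ∑ o ∈ T, beta3 k J o = T.card * beta3 k J o := by
  rw [← nsmul_eq_mul]
  refine Finset.sum_eq_card_nsmul fun q hq => ?_
  exact beta3_congr J q o ((hT q hq).2.2.trans (hT o ho).2.2.symm)

theorem exists_odd_of_odd (S : Finset (Pr k))
    (hun : ∀ i, ∀ v, v ∉ S → ∀ T : Finset (Pr (L i)), (∀ w, w ∈ T ↔ bl k w = v) →
      ∑ w ∈ T, dg k w = Module.finrank k (L i))
    (v : Pr k) (hv : v ∉ S) (s : I) (hs : Odd (Module.finrank k (L s))) :
    ∃ w : Pr (L s), bl k w = v ∧ Odd (dg k w) := by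
  classical
  by_contra hcon
  push Not at hcon
  have hT := hun s v hv (finite_bl (L := L s) v).toFinset (fun w => by
    rw [Set.Finite.mem_toFinset]
    rfl)
  have h4 : Even (∑ w ∈ (finite_bl (L := L s) v).toFinset, dg k w) := by
    refine Finset.even_sum _ fun w hw => ?_
    rw [Set.Finite.mem_toFinset] at hw
    exact Nat.not_odd_iff_even.1 (hcon w hw)
  rw [hT] at h4
  exact Nat.not_even_iff_odd.2 hs h4

end

theorem mass_le {k : Type} [Field k] [NumberField k] {I : Type} [Fintype I] {L : I → Type}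
    [∀ i, Field (L i)] [∀ i, NumberField (L i)] [∀ i, Algebra k (L i)] (S : Finset (Pr k))
    (hdeg : Deg3 k L)
    (hun : ∀ i, ∀ v, v ∉ S → ∀ T : Finset (Pr (L i)), (∀ w, w ∈ T ↔ bl k w = v) →
      ∑ w ∈ T, dg k w = Module.finrank k (L i))
    (J : Finset I) (v : Pr k) (hv : v ∉ S) (T : Finset (PL L))
    (hT : ∀ o ∈ T, o.1 ∈ J ∧ dg k o.2 = 1 ∧ bl k o.2 = v) :
    ∑ o ∈ T, beta3 k J o ≤ 1 := by
  classical
  rcases T.eq_empty_or_nonempty with rfl | ⟨o, ho⟩
  · rw [Finset.sum_empty]
    exact zero_le_one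
  rw [sum_eq J v T hT o ho]
  obtain ⟨hoJ, hod, hov⟩ := hT o ho
  have hsub : T ⊆ up k J o := by
    intro q hq
    obtain ⟨h1, h2, h3⟩ := hT q hq
    exact (mem_up J o q).2 ⟨h1, h3.trans hov.symm⟩
  have hF1 : 1 ≤ T.card := Finset.card_pos.2 ⟨o, ho⟩
  have hFm : T.card ≤ (up k J o).card := Finset.card_le_card hsub
  have hb := le_two_pow T.card hF1
  unfold beta3
  by_cases hs : ∀ q : PL L, bl k q.2 = bl k o.2 → Odd (dg k q.2) → q.1 ∈ J
  · rw [if_pos hs]
    rcases Nat.lt_or_ge T.card (up k J o).card with hlt | hge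
    · rw [mul_one_div, div_le_one (by positivity)]
      exact hb.trans (two_pow_mono (by omega))
    · have hTe : T = up k J o := Finset.eq_of_subset_of_card_le hsub hge
      have hcard : (up k J o).card = T.card := by rw [← hTe]
      have hsumd : T.card = ∑ i ∈ J, Module.finrank k (L i) := by
        have h1 : T.card = ∑ q ∈ up k J o, dg k q.2 := by
          rw [← hTe, Finset.card_eq_sum_ones]
          refine Finset.sum_congr rfl fun q hq => ?_
          exact ((hT q hq).2.1).symm
        rw [h1]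
        refine (sum_up J o (fun q => dg k q.2)).trans ?_
        refine Finset.sum_congr rfl fun i _ => ?_
        rw [hov]
        exact hun i v hv _ (fun w => by rw [Set.Finite.mem_toFinset]; rfl)
      rw [hcard]
      by_cases h4 : 4 ≤ T.card
      · rw [mul_one_div, div_le_one (by positivity)]
        exact le_two_pow' T.card h4
      · exfalso
        have hJt : ∀ s ∈ J, s = o.1 := by
          intro s hsJ
          by_contra hne
          have h5 : ∑ i ∈ ({o.1, s} : Finset I), Module.finrank k (L i) ≤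
              ∑ i ∈ J, Module.finrank k (L i) := by
            refine Finset.sum_le_sum_of_subset ?_
            intro i hi
            rw [Finset.mem_insert, Finset.mem_singleton] at hi
            rcases hi with rfl | rfl
            · exact hoJ
            · exact hsJ
          rw [Finset.sum_pair (fun h => hne h.symm)] at h5
          have h6 := hdeg.two_le o.1
          have h7 := hdeg.two_le s
          omega
        have hJe : J = {o.1} := by
          ext s
          rw [Finset.mem_singleton]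
          exact ⟨hJt s, fun h => h ▸ hoJ⟩
        have hfin : Module.finrank k (L o.1) = T.card := by
          rw [hsumd, hJe, Finset.sum_singleton]
        have h2 := hdeg.two_le o.1
        obtain ⟨s, hso, hsodd⟩ : ∃ s, s ≠ o.1 ∧ Odd (Module.finrank k (L s)) := by
          rcases Nat.lt_or_ge (Module.finrank k (L o.1)) 3 with h3 | h3
          · have h3' : Module.finrank k (L o.1) = 2 := by omega
            obtain ⟨s, hs'⟩ := hdeg.quad o.1 h3'
            refine ⟨s, ?_, hs'⟩
            rintro rfl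
            rw [h3'] at hs'
            exact absurd hs' (by decide)
          · have h3' : Module.finrank k (L o.1) = 3 := by omega
            by_contra hcon
            push Not at hcon
            have h8 := Finset.sum_erase_add Finset.univ (fun i => Module.finrank k (L i))
              (Finset.mem_univ o.1)
            have h9 : Even (∑ i ∈ Finset.univ.erase o.1, Module.finrank k (L i)) := by
              refine Finset.even_sum _ fun i hi => ?_
              exact Nat.not_odd_iff_even.1 (hcon i (Finset.ne_of_mem_erase hi))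
            have h10 := hdeg.even
            rw [← h8] at h10
            rw [h3'] at h10
            rcases h9 with ⟨a, ha⟩
            rcases h10 with ⟨b, hb'⟩
            omega
        obtain ⟨w, hwv, hwodd⟩ := exists_odd_of_odd S hun v hv s hsodd
        have h11 := hs ⟨s, w⟩ (hwv.trans hov.symm) hwodd
        exact hso (hJt s h11)
  · rw [if_neg hs, mul_one_div, div_le_one (by positivity)]
    exact hb.trans (two_pow_mono (by omega))

theorem mass_split {k : Type} [Field k] [NumberField k] {I : Type} [Fintype I] {L : I → Type}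
    [∀ i, Field (L i)] [∀ i, NumberField (L i)] [∀ i, Algebra k (L i)] (S : Finset (Pr k))
    (hdeg : Deg3 k L)
    (hun : ∀ i, ∀ v, v ∉ S → ∀ T : Finset (Pr (L i)), (∀ w, w ∈ T ↔ bl k w = v) →
      ∑ w ∈ T, dg k w = Module.finrank k (L i))
    (J : Finset I) (hJ : 3 ≤ nJ k L J) (v : Pr k) (hv : v ∉ S) (hs : Spl k L v) (T : Finset (PL L))
    (hT : ∀ o ∈ T, o.1 ∈ J ∧ dg k o.2 = 1 ∧ bl k o.2 = v) :
    ∑ o ∈ T, beta3 k J o ≤ 3 / 4 := by
  classical
  rcases T.eq_empty_or_nonempty with rfl | ⟨o, ho⟩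
  · rw [Finset.sum_empty]
    norm_num
  rw [sum_eq J v T hT o ho]
  obtain ⟨hoJ, hod, hov⟩ := hT o ho
  have hsub : T ⊆ up k J o := by
    intro q hq
    obtain ⟨h1, h2, h3⟩ := hT q hq
    exact (mem_up J o q).2 ⟨h1, h3.trans hov.symm⟩
  have hFm : T.card ≤ (up k J o).card := Finset.card_le_card hsub
  have hoS : bl k o.2 ∉ S := by rw [hov]; exact hv
  have hm : (up k J o).card = nJ k L J := card_up S hun o hoS (by rw [hov]; exact hs) J
  have h3m : 3 ≤ (up k J o).card := by rw [hm]; exact hJ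
  have hFm' : (T.card : ℝ) ≤ (up k J o).card := by exact_mod_cast hFm
  refine (mul_le_mul_of_nonneg_right hFm' (beta3_nonneg J o)).trans ?_
  unfold beta3
  by_cases hss : ∀ q : PL L, bl k q.2 = bl k o.2 → Odd (dg k q.2) → q.1 ∈ J
  · rw [if_pos hss]
    have hJu : J = Finset.univ := by
      rw [Finset.eq_univ_iff_forall]
      intro i
      have hT' := hun i v hv (finite_bl (L := L i) v).toFinset (fun w => by
        rw [Set.Finite.mem_toFinset]
        rfl)
      have hne : (finite_bl (L := L i) v).toFinset.Nonempty := by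
        rw [Finset.nonempty_iff_ne_empty]
        intro h0
        rw [h0, Finset.sum_empty] at hT'
        have := hdeg.two_le i
        omega
      obtain ⟨w, hw⟩ := hne
      rw [Set.Finite.mem_toFinset] at hw
      have hw1 : dg k w = 1 := hs i w hw
      have hw2 : Odd (dg k w) := by rw [hw1]; exact odd_one
      have hw3 : bl k w = v := hw
      exact hss ⟨i, w⟩ (hw3.trans hov.symm) hw2
    have h6 : 6 ≤ (up k J o).card := by
      rw [hm, hJu]
      exact hdeg.six_le
    rw [mul_one_div, div_le_iff₀ (by positivity)]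
    exact le_three_quarters' _ h6
  · rw [if_neg hss, mul_one_div, div_le_iff₀ (by positivity)]
    exact le_three_quarters _ h3m

end SC7
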