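import Pool.Agent.MP_c1dca2_ag.SC7.Defs

/-!
# [SC7-U3a] a quadratic extension of `Ls`

`Lt = k(θ)`, `θ ∈ 𝓞 Lt`, `θ ^ 2 = a ∈ 𝓞 k`, `a` not a square in `k` (`finrank = 2`, characteristic zero: complete the square and multiply by a denominator).
`a` is not a square in `Ls`: otherwise `Ls` contains a field of degree `2` over `k` (`k(√a)`; the minimal polynomial `X ^ 2 - a` is irreducible) and
`2 ∣ finrank k Ls`, which is odd. `M = AdjoinRoot (X ^ 2 - C a : Ls[X])` (or a splitting field), `finrank Ls M = 2`, a number field; `θ' ∈ 𝓞 M` the root,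
`θ' ^ 2 = a`. `S` = the primes of `k` containing `2 a` (`finite_mem`, SC5/A1).
Let `w : Pr Ls`, `v = bl k w ∉ S`, `u : Pr Lt` above `v` with `dg k u = 1`: `nv u = nv v` (`nv_eq`), so `𝓞 k ⧸ v → 𝓞 Lt ⧸ u` (injective) is bijective: there
is `b ∈ 𝓞 k` with `θ - b ∈ u`, so `a - b ^ 2 = (θ - b)(θ + b) ∈ u`, `a - b ^ 2 ∈ v` (`mem_bl`). Let `W : Pr M` be above `w`: `(θ' - b)(θ' + b) = a - b ^ 2 ∈ W`,
so `θ' ≡ b` or `θ' ≡ -b` modulo `W`. For `x ∈ 𝓞 M`: `2 a x = a tr(x) + tr(x θ') θ'` with the trace of `M / Ls`, `tr(x), tr(x θ') ∈ 𝓞 Ls`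
(`x = r + s θ'`, `tr x = 2 r`, `tr (x θ') = 2 s a`; or with the conjugation of `M / Ls` instead of the trace). So modulo `W` the element `2 a x` is congruent to an element of `𝓞 Ls`, and `2 a` is a
unit modulo `w`: `𝓞 Ls ⧸ w → 𝓞 M ⧸ W` is surjective, `nv W = nv w`, `dg Ls W = 1` (`nv_eq`: `nv W = nv w ^ dg Ls W`, `nv w ≥ 2`).
-/

set_option autoImplicit false

open NumberField IsDedekindDomain SC5

namespace SC7

private theorem u3a_card {K : Type} [Field K] [NumberField K] (v : Pr K) :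
    nv v = Nat.card (𝓞 K ⧸ v.asIdeal) := by
  unfold nv
  rw [Ideal.absNorm_apply, Submodule.cardQuot_apply]

private theorem u3a_finite {K : Type} [Field K] [NumberField K] (v : Pr K) :
    Finite (𝓞 K ⧸ v.asIdeal) := Ideal.finiteQuotientOfFreeOfNeBot v.asIdeal v.ne_bot

private theorem u3a_repr {k L : Type} [Field k] [NumberField k] [Field L] [NumberField L]
    [Algebra k L] (u : Pr L) (hd : dg k u = 1) (y : 𝓞 L) :
    ∃ b : 𝓞 k, y - algebraMap (𝓞 k) (𝓞 L) b ∈ u.asIdeal := by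
  have hle : (bl k u).asIdeal ≤ Ideal.comap (algebraMap (𝓞 k) (𝓞 L)) u.asIdeal := fun a ha => ha
  let f : 𝓞 k ⧸ (bl k u).asIdeal →+* 𝓞 L ⧸ u.asIdeal :=
    Ideal.quotientMap u.asIdeal (algebraMap (𝓞 k) (𝓞 L)) hle
  have hinj : Function.Injective f := Ideal.quotientMap_injective' (fun a ha => ha)
  have hfin := u3a_finite u
  have hcard : Nat.card (𝓞 L ⧸ u.asIdeal) ≤ Nat.card (𝓞 k ⧸ (bl k u).asIdeal) := by
    rw [← u3a_card, ← u3a_card, nv_eq (k := k) u, hd, pow_one]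
  obtain ⟨c, hc⟩ := (hinj.bijective_of_nat_card_le hcard).2 (Ideal.Quotient.mk _ y)
  obtain ⟨b, rfl⟩ := Ideal.Quotient.mk_surjective c
  refine ⟨b, Ideal.Quotient.eq.1 ?_⟩
  rw [← hc]
  exact Ideal.quotientMap_mk

private theorem u3a_dg {k L : Type} [Field k] [NumberField k] [Field L] [NumberField L]
    [Algebra k L] (u : Pr L)
    (h : ∀ y : 𝓞 L, ∃ b : 𝓞 k, y - algebraMap (𝓞 k) (𝓞 L) b ∈ u.asIdeal) : dg k u = 1 := by
  have hle : (bl k u).asIdeal ≤ Ideal.comap (algebraMap (𝓞 k) (𝓞 L)) u.asIdeal := fun a ha => ha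
  let f : 𝓞 k ⧸ (bl k u).asIdeal →+* 𝓞 L ⧸ u.asIdeal :=
    Ideal.quotientMap u.asIdeal (algebraMap (𝓞 k) (𝓞 L)) hle
  have hsurj : Function.Surjective f := by
    intro c
    obtain ⟨y, rfl⟩ := Ideal.Quotient.mk_surjective c
    obtain ⟨b, hb⟩ := h y
    refine ⟨Ideal.Quotient.mk _ b, ?_⟩
    have h1 : f (Ideal.Quotient.mk _ b) = Ideal.Quotient.mk _ (algebraMap (𝓞 k) (𝓞 L) b) :=
      Ideal.quotientMap_mk
    rw [h1]
    exact (Ideal.Quotient.eq.2 hb).symm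
  have hfin := u3a_finite (bl k u)
  have h1 := Nat.card_le_card_of_surjective f hsurj
  rw [← u3a_card, ← u3a_card, nv_eq (k := k) u] at h1
  have h2 := two_le_nv (bl k u)
  have h3 : dg k u ≤ 1 := by
    by_contra hcon
    push Not at hcon
    have h4 : nv (bl k u) ^ 1 < nv (bl k u) ^ dg k u := Nat.pow_lt_pow_right (by omega) hcon
    rw [pow_one] at h4
    omega
  have h4 := dg_pos (k := k) u
  omega

private theorem u3a_main {k Ls Lt M : Type} [Field k] [NumberField k] [Field Ls] [NumberField Ls]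
    [Algebra k Ls] [Field Lt] [NumberField Lt] [Algebra k Lt] [Field M] [NumberField M]
    [Algebra Ls M] (a : 𝓞 k) (θ : 𝓞 Lt) (hθ : θ ^ 2 = algebraMap (𝓞 k) (𝓞 Lt) a) (θ' : 𝓞 M)
    (hθ' : θ' ^ 2 = algebraMap (𝓞 Ls) (𝓞 M) (algebraMap (𝓞 k) (𝓞 Ls) a))
    (hdec : ∀ x : 𝓞 M, ∃ A B : 𝓞 Ls,
      algebraMap (𝓞 Ls) (𝓞 M) (algebraMap (𝓞 k) (𝓞 Ls) (2 * a)) * x =
        algebraMap (𝓞 Ls) (𝓞 M) A + algebraMap (𝓞 Ls) (𝓞 M) B * θ')
    (w : Pr Ls) (hw : 2 * a ∉ (bl k w).asIdeal) (u : Pr Lt) (hu : bl k u = bl k w)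
    (hd : dg k u = 1) (W : Pr M) (hW : bl Ls W = w) : dg Ls W = 1 := by
  obtain ⟨b, hb⟩ := u3a_repr u hd θ
  have h1 : a - b ^ 2 ∈ (bl k u).asIdeal := by
    rw [mem_bl]
    have h2 : algebraMap (𝓞 k) (𝓞 Lt) (a - b ^ 2) =
        (θ - algebraMap (𝓞 k) (𝓞 Lt) b) * (θ + algebraMap (𝓞 k) (𝓞 Lt) b) := by
      rw [map_sub, map_pow, ← hθ]
      ring
    rw [h2]
    exact Ideal.mul_mem_right _ _ hb
  rw [hu, mem_bl] at h1
  have h2 : algebraMap (𝓞 Ls) (𝓞 M) (algebraMap (𝓞 k) (𝓞 Ls) (a - b ^ 2)) ∈ W.asIdeal := by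
    rw [← mem_bl, hW]
    exact h1
  have h3 : algebraMap (𝓞 Ls) (𝓞 M) (algebraMap (𝓞 k) (𝓞 Ls) (a - b ^ 2)) =
      (θ' - algebraMap (𝓞 Ls) (𝓞 M) (algebraMap (𝓞 k) (𝓞 Ls) b)) *
        (θ' - algebraMap (𝓞 Ls) (𝓞 M) (- algebraMap (𝓞 k) (𝓞 Ls) b)) := by
    rw [map_sub, map_sub, map_pow, map_pow, ← hθ', map_neg]
    ring
  rw [h3] at h2
  have h4 : ∃ β : 𝓞 Ls, θ' - algebraMap (𝓞 Ls) (𝓞 M) β ∈ W.asIdeal := by
    rcases W.isPrime.mem_or_mem h2 with h5 | h5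
    · exact ⟨_, h5⟩
    · exact ⟨_, h5⟩
  obtain ⟨β, hβ⟩ := h4
  -- the inverse of `2 a`
  have h5 : algebraMap (𝓞 k) (𝓞 Ls) (2 * a) ∉ w.asIdeal := by
    rw [← mem_bl (k := k)]
    exact hw
  obtain ⟨t, ht⟩ : ∃ t : 𝓞 Ls, t * algebraMap (𝓞 k) (𝓞 Ls) (2 * a) - 1 ∈ w.asIdeal := by
    have hmax : w.asIdeal.IsMaximal := w.isMaximal
    obtain ⟨t, i, hi, h6⟩ := hmax.exists_inv h5
    refine ⟨t, ?_⟩
    have h7 : t * algebraMap (𝓞 k) (𝓞 Ls) (2 * a) - 1 = - i := by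
      rw [← h6]
      ring
    rw [h7]
    exact neg_mem hi
  apply u3a_dg
  intro y
  obtain ⟨A, B, hAB⟩ := hdec y
  refine ⟨t * (A + B * β), ?_⟩
  have ht' : algebraMap (𝓞 Ls) (𝓞 M) (t * algebraMap (𝓞 k) (𝓞 Ls) (2 * a) - 1) ∈ W.asIdeal := by
    rw [← mem_bl, hW]
    exact ht
  have h6 : y - algebraMap (𝓞 Ls) (𝓞 M) (t * (A + B * β)) =
      algebraMap (𝓞 Ls) (𝓞 M) t * algebraMap (𝓞 Ls) (𝓞 M) B *
        (θ' - algebraMap (𝓞 Ls) (𝓞 M) β) -
      y * algebraMap (𝓞 Ls) (𝓞 M) (t * algebraMap (𝓞 k) (𝓞 Ls) (2 * a) - 1) := by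
    have h7 : algebraMap (𝓞 Ls) (𝓞 M) (t * algebraMap (𝓞 k) (𝓞 Ls) (2 * a) - 1) =
        algebraMap (𝓞 Ls) (𝓞 M) t *
          algebraMap (𝓞 Ls) (𝓞 M) (algebraMap (𝓞 k) (𝓞 Ls) (2 * a)) - 1 := by
      rw [map_sub, map_mul, map_one]
    rw [h7, map_mul, map_add, map_mul]
    have h8 : y * (algebraMap (𝓞 Ls) (𝓞 M) t *
          algebraMap (𝓞 Ls) (𝓞 M) (algebraMap (𝓞 k) (𝓞 Ls) (2 * a)) - 1) =
        algebraMap (𝓞 Ls) (𝓞 M) t *
          (algebraMap (𝓞 Ls) (𝓞 M) (algebraMap (𝓞 k) (𝓞 Ls) (2 * a)) * y) - y := by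
      ring
    rw [h8, hAB]
    ring
  rw [h6]
  exact sub_mem (Ideal.mul_mem_left _ _ hβ) (Ideal.mul_mem_left _ _ ht')

/-- a quadratic extension is generated by a square root of an integer -/
private theorem u3a_sqrt {k Lt : Type} [Field k] [NumberField k] [Field Lt] [NumberField Lt]
    [Algebra k Lt] (ht : Module.finrank k Lt = 2) :
    ∃ (a : 𝓞 k) (θ : 𝓞 Lt), θ ^ 2 = algebraMap (𝓞 k) (𝓞 Lt) a ∧ ∀ c : k, c ^ 2 ≠ (a : k) := by
  have hfd : FiniteDimensional k Lt := FiniteDimensional.of_finrank_pos (by omega)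
  obtain ⟨y, hy⟩ : ∃ y : Lt, y ∉ (algebraMap k Lt).range := by
    by_contra hcon
    push Not at hcon
    have h1 : Function.Surjective (Algebra.linearMap k Lt) := fun y => by
      obtain ⟨c, hc⟩ := hcon y
      exact ⟨c, hc⟩
    have h2 := LinearMap.finrank_le_finrank_of_surjective h1
    rw [ht, Module.finrank_self] at h2
    omega
  have hint : IsIntegral k y := Algebra.IsIntegral.isIntegral y
  have h1 : (minpoly k y).natDegree = 2 := by
    have h2 := minpoly.natDegree_le (A := k) y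
    have h3 := minpoly.natDegree_pos hint
    have h4 : (minpoly k y).natDegree ≠ 1 := fun h => hy (minpoly.natDegree_eq_one_iff.1 h)
    omega
  have h2 : y ^ 2 + algebraMap k Lt ((minpoly k y).coeff 1) * y +
      algebraMap k Lt ((minpoly k y).coeff 0) = 0 := by
    have h3 := minpoly.aeval k y
    rw [Polynomial.aeval_eq_sum_range, h1, Finset.sum_range_succ, Finset.sum_range_succ,
      Finset.sum_range_one] at h3
    have h4 : (minpoly k y).coeff 2 = 1 := by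
      have h5 := minpoly.monic hint
      rw [Polynomial.Monic, Polynomial.leadingCoeff, h1] at h5
      exact h5
    rw [h4, one_smul, pow_zero, pow_one, Algebra.smul_def, Algebra.smul_def, mul_one] at h3
    rw [← h3]
    ring
  set p := (minpoly k y).coeff 1 with hp
  set q := (minpoly k y).coeff 0 with hq
  -- `(y + p / 2) ^ 2 = p ^ 2 / 4 - q`
  have h3 : (y + algebraMap k Lt (p / 2)) ^ 2 = algebraMap k Lt (p ^ 2 / 4 - q) := by
    have h4 : algebraMap k Lt (p / 2) = algebraMap k Lt p / 2 := by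
      rw [map_div₀]
      congr 1
      exact map_ofNat _ 2
    have h5 : algebraMap k Lt (p ^ 2 / 4 - q) = (algebraMap k Lt p) ^ 2 / 4 - algebraMap k Lt q := by
      rw [map_sub, map_div₀, map_pow]
      congr 2
      exact map_ofNat _ 4
    rw [h4, h5]
    have h6 : y ^ 2 = - (algebraMap k Lt p * y) - algebraMap k Lt q := by
      linear_combination h2
    field_simp
    linear_combination 16 * h6
  have h4 : ∀ c : k, c ^ 2 ≠ p ^ 2 / 4 - q := by
    intro c hc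
    rw [← hc, map_pow] at h3
    apply hy
    rcases sq_eq_sq_iff_eq_or_eq_neg.1 h3 with h5 | h5
    · exact ⟨c - p / 2, by rw [map_sub, ← h5]; ring⟩
    · exact ⟨-c - p / 2, by rw [map_sub, map_neg, ← h5]; ring⟩
  obtain ⟨n, m, hm, hnm⟩ := IsFractionRing.div_surjective (A := 𝓞 k) (p ^ 2 / 4 - q)
  have hm0 : m ≠ 0 := nonZeroDivisors.ne_zero hm
  have hmk : (algebraMap (𝓞 k) k m) ≠ 0 := by
    rw [Ne, FaithfulSMul.algebraMap_eq_zero_iff]
    exact hm0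
  have h5 : (algebraMap k Lt (m : k) * (y + algebraMap k Lt (p / 2))) ^ 2 =
      algebraMap k Lt ((m * n : 𝓞 k) : k) := by
    rw [mul_pow, h3, ← hnm, ← map_pow, ← map_mul]
    congr 1
    show (algebraMap (𝓞 k) k m) ^ 2 * (algebraMap (𝓞 k) k n / algebraMap (𝓞 k) k m) =
      algebraMap (𝓞 k) k (m * n)
    rw [map_mul]
    field_simp
  have h6 : IsIntegral ℤ (algebraMap k Lt (m : k) * (y + algebraMap k Lt (p / 2))) := by
    apply IsIntegral.of_pow (n := 2) (by norm_num)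
    rw [h5]
    exact ((m * n : 𝓞 k).isIntegral_coe).map (Algebra.algHom ℤ k Lt)
  refine ⟨m * n, ⟨_, h6⟩, ?_, ?_⟩
  · apply RingOfIntegers.ext
    exact h5
  · intro c hc
    apply h4 (c / (m : k))
    have h7 : ((m * n : 𝓞 k) : k) = algebraMap (𝓞 k) k m * algebraMap (𝓞 k) k n := map_mul _ _ _
    rw [div_pow, hc, h7, ← hnm]
    show _ / (algebraMap (𝓞 k) k m) ^ 2 = _
    field_simp

open Polynomial in
private theorem u3a_dec {Ls : Type} [Field Ls] [NumberField Ls] (a' : 𝓞 Ls)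
    (hns : ∀ c : Ls, c ^ 2 ≠ (a' : Ls)) :
    ∃ (M : Type) (_ : Field M) (_ : NumberField M) (_ : Algebra Ls M),
      Module.finrank Ls M = 2 ∧ ∃ θ' : 𝓞 M, θ' ^ 2 = algebraMap (𝓞 Ls) (𝓞 M) a' ∧
        ∀ x : 𝓞 M, ∃ A B : 𝓞 Ls, algebraMap (𝓞 Ls) (𝓞 M) (2 * a') * x =
          algebraMap (𝓞 Ls) (𝓞 M) A + algebraMap (𝓞 Ls) (𝓞 M) B * θ' := by
  have hirr : Irreducible (X ^ 2 - C (a' : Ls)) :=
    X_pow_sub_C_irreducible_of_prime Nat.prime_two hns
  have hfact : Fact (Irreducible (X ^ 2 - C (a' : Ls))) := ⟨hirr⟩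
  let M := AdjoinRoot (X ^ 2 - C (a' : Ls))
  have hf0 : (X ^ 2 - C (a' : Ls)) ≠ 0 := hirr.ne_zero
  let pb : PowerBasis Ls M := AdjoinRoot.powerBasis hf0
  have hpbdim : pb.dim = 2 := by
    show (AdjoinRoot.powerBasis hf0).dim = 2
    rw [AdjoinRoot.powerBasis_dim, natDegree_X_pow_sub_C]
  have hpbgen : pb.gen = AdjoinRoot.root _ := AdjoinRoot.powerBasis_gen hf0
  have hfin : Module.Finite Ls M := pb.finite
  have hchar : CharZero M := charZero_of_injective_algebraMap (algebraMap Ls M).injective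
  have hfd : FiniteDimensional ℚ M := Module.Finite.trans (R := ℚ) Ls M
  have hNF : NumberField M := ⟨⟩
  have hroot : (AdjoinRoot.root (X ^ 2 - C (a' : Ls)) : M) ^ 2 = algebraMap Ls M (a' : Ls) := by
    have h1 := AdjoinRoot.eval₂_root (X ^ 2 - C (a' : Ls))
    rw [eval₂_sub, eval₂_pow, eval₂_X, eval₂_C, sub_eq_zero] at h1
    exact h1
  set ρ : M := AdjoinRoot.root (X ^ 2 - C (a' : Ls)) with hρ
  have hσ : ∃ σ : M →ₐ[Ls] M, σ ρ = -ρ := by
    refine ⟨AdjoinRoot.liftAlgHom _ (Algebra.ofId Ls M) (-ρ) ?_, AdjoinRoot.liftAlgHom_root _ _ _ _⟩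
    rw [eval₂_sub, eval₂_pow, eval₂_X, eval₂_C, neg_sq, hroot, sub_eq_zero]
    rfl
  obtain ⟨σ, hσ⟩ := hσ
  have hrep : ∀ x : M, ∃ r s : Ls, x = algebraMap Ls M r + algebraMap Ls M s * ρ := by
    intro x
    obtain ⟨g, hg, hx⟩ := pb.exists_eq_aeval x
    rw [hpbdim] at hg
    have hg1 : g = C (g.coeff 1) * X + C (g.coeff 0) :=
      eq_X_add_C_of_natDegree_le_one (by omega)
    refine ⟨g.coeff 0, g.coeff 1, ?_⟩
    rw [hx, hpbgen]
    conv_lhs => rw [hg1]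
    rw [map_add, map_mul, aeval_C, aeval_C, aeval_X, add_comm]
  have hρint : IsIntegral ℤ ρ := by
    apply IsIntegral.of_pow (n := 2) (by norm_num)
    rw [hroot]
    exact (a'.isIntegral_coe).map (Algebra.algHom ℤ Ls M)
  have hpull : ∀ r : Ls, IsIntegral ℤ (algebraMap Ls M r) → IsIntegral ℤ r := fun r hr =>
    (isIntegral_algebraMap_iff (algebraMap Ls M).injective).1 hr
  refine ⟨M, inferInstance, hNF, inferInstance, ?_, ⟨ρ, hρint⟩, ?_, ?_⟩
  · rw [pb.finrank, hpbdim]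
  · apply RingOfIntegers.ext
    exact hroot
  · intro x
    obtain ⟨r, s, hx⟩ := hrep (x : M)
    have hxint : IsIntegral ℤ (x : M) := x.isIntegral_coe
    have hσint : IsIntegral ℤ (σ (x : M)) := hxint.map (σ.restrictScalars ℤ)
    have hσx : σ (x : M) = algebraMap Ls M r - algebraMap Ls M s * ρ := by
      rw [hx, map_add, map_mul, AlgHom.commutes, AlgHom.commutes, hσ]
      ring
    have h1 : IsIntegral ℤ (2 * r) := by
      apply hpull
      have h2 : algebraMap Ls M (2 * r) = (x : M) + σ (x : M) := by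
        rw [hσx, hx, map_mul, map_ofNat]
        ring
      rw [h2]
      exact hxint.add hσint
    have h2 : IsIntegral ℤ (2 * s * (a' : Ls)) := by
      apply hpull
      have h3 : algebraMap Ls M (2 * s * (a' : Ls)) = ((x : M) - σ (x : M)) * ρ := by
        rw [hσx, hx, map_mul, map_mul, map_ofNat, ← hroot]
        ring
      rw [h3]
      exact (hxint.sub hσint).mul hρint
    refine ⟨a' * ⟨2 * r, h1⟩, ⟨2 * s * (a' : Ls), h2⟩, ?_⟩
    apply RingOfIntegers.ext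
    show algebraMap Ls M ((2 * a' : 𝓞 Ls) : Ls) * (x : M) =
      algebraMap Ls M ((a' : Ls) * (2 * r)) + algebraMap Ls M (2 * s * (a' : Ls)) * ρ
    have h4 : ((2 * a' : 𝓞 Ls) : Ls) = 2 * (a' : Ls) := by
      show algebraMap (𝓞 Ls) Ls (2 * a') = _
      rw [map_mul, map_ofNat]
    rw [h4, hx]
    simp only [map_mul, map_ofNat]
    ring

theorem comp_quad {k : Type} [Field k] [NumberField k] (Ls Lt : Type) [Field Ls] [NumberField Ls]
    [Algebra k Ls] [Field Lt] [NumberField Lt] [Algebra k Lt] (hs : Odd (Module.finrank k Ls))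
    (ht : Module.finrank k Lt = 2) :
    ∃ (M : Type) (_ : Field M) (_ : NumberField M) (_ : Algebra Ls M),
      Module.finrank Ls M = 2 ∧ ∃ S : Finset (Pr k), ∀ w : Pr Ls, bl k w ∉ S →
        (∃ u : Pr Lt, bl k u = bl k w ∧ dg k u = 1) → ∀ W : Pr M, bl Ls W = w → dg Ls W = 1 := by
  classical
  obtain ⟨a, θ, hθ, hns⟩ := u3a_sqrt (k := k) (Lt := Lt) ht
  have ha0 : a ≠ 0 := by
    rintro rfl
    exact hns 0 (by simp)
  have hns' : ∀ c : Ls, c ^ 2 ≠ ((algebraMap (𝓞 k) (𝓞 Ls) a : 𝓞 Ls) : Ls) := by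
    intro c hc
    have hirr : Irreducible (Polynomial.X ^ 2 - Polynomial.C (a : k)) :=
      X_pow_sub_C_irreducible_of_prime Nat.prime_two hns
    have h1 : Polynomial.aeval c (Polynomial.X ^ 2 - Polynomial.C (a : k)) = 0 := by
      rw [map_sub, map_pow, Polynomial.aeval_X, Polynomial.aeval_C, hc, sub_eq_zero]
      rfl
    have h2 := minpoly.eq_of_irreducible_of_monic hirr h1 (Polynomial.monic_X_pow_sub_C _ two_ne_zero)
    have h3 := minpoly.degree_dvd (K := k) (x := c) (Algebra.IsIntegral.isIntegral c)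
    rw [← h2, Polynomial.natDegree_X_pow_sub_C] at h3
    obtain ⟨m, hm⟩ := hs
    omega
  obtain ⟨M, hF, hNF, hAlg, hrank, θ', hθ', hdec⟩ := u3a_dec (algebraMap (𝓞 k) (𝓞 Ls) a) hns'
  refine ⟨M, hF, hNF, hAlg, hrank, ?_⟩
  have h2a : (2 * a : 𝓞 k) ≠ 0 := mul_ne_zero two_ne_zero ha0
  refine ⟨(finite_mem (2 * a) h2a).toFinset, ?_⟩
  rintro w hw ⟨u, hu, hd⟩ W hW
  refine u3a_main a θ hθ θ' hθ' ?_ w ?_ u hu hd W hW
  · intro x
    obtain ⟨A, B, h1⟩ := hdec x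
    refine ⟨A, B, ?_⟩
    rw [← h1, map_mul (algebraMap (𝓞 k) (𝓞 Ls)), map_ofNat]
  · intro h1
    apply hw
    rw [Set.Finite.mem_toFinset]
    exact h1

end SC7
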