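import Pool.Agent.MP_c1dca2_ag.SC7.U2
import Pool.Agent.MP_c1dca2_ag.SC7.U3a
import Pool.Agent.MP_c1dca2_ag.SC5.A2

/-!
# [SC7-U3] the primes which are not counted

`quad_lower`: there are many primes `v ∉ S` of `k` above which `Ls` has a prime of degree one but `Lt` has not. `M`, `S₀` from `comp_quad`. Let
`l = log (log z' / log z)`.
By `sum_lower` (SC5/A7) for `Ls`: a finset `T` of primes `w` of `Ls` of prime norm in `(z, z']` with `∑ 1/nv w ≥ l - C₁`. Remove the `w` with
`bl k w ∈ S ∪ S₀` and those ramified in `M` (`SC5.unram Ls M`): finitely many, at most a constant `C₂`. Let `T'` be the subset of the remaining `w` above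
which `M` has a prime `W` with `dg Ls W = 1`: as the degrees above `w` sum up to `finrank Ls M = 2` (`unram`), there are then two such `W`, with
`nv W = nv w`: `2 ∑_{T'} 1/nv w ≤ ∑ 1/nv W ≤ l + C₃` (`sum_upper` for `M`). So `∑_{T \ T'} 1/nv w ≥ l/2 - C₄`.
For `w ∈ T \ T'`: `dg k w = 1`, `nv (bl k w) = nv w` (`a8_dg`, SC5/A8), and no `u : Pr Lt` above `v = bl k w` has `dg k u = 1` (otherwise `comp_quad` gives that the
primes `W` of `M` above `w` have `dg Ls W = 1`; there is one by `exists_bl`).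
Every `v` has at most `finrank k Ls` primes `w` above it (`card_bl`, `dg_pos`); so the set of the `v = bl k w`, `w ∈ T \ T'`, has
`∑ 1/nv v ≥ (l/2 - C₄) / finrank k Ls`: `d = 1 / (2 finrank k Ls)`.
-/

set_option autoImplicit false

open NumberField IsDedekindDomain SC5

namespace SC7

private theorem u3_two {Ls M : Type} [Field Ls] [NumberField Ls] [Field M] [NumberField M]
    [Algebra Ls M] (w : Pr Ls)
    (h : ∑ W ∈ (finite_bl (k := Ls) (L := M) w).toFinset, dg Ls W = 2)
    (hW : ∃ W : Pr M, bl Ls W = w ∧ dg Ls W = 1) :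
    2 ≤ ((finite_bl (k := Ls) (L := M) w).toFinset.filter (fun W => dg Ls W = 1)).card := by
  classical
  obtain ⟨W0, h0, h1⟩ := hW
  set A := (finite_bl (k := Ls) (L := M) w).toFinset with hA
  have hW0 : W0 ∈ A := (Set.Finite.mem_toFinset _).2 h0
  have h2 : dg Ls W0 + ∑ W ∈ A.erase W0, dg Ls W = 2 := by
    rw [Finset.add_sum_erase A _ hW0]
    exact h
  rw [h1] at h2
  have h3 : ∑ W ∈ A.erase W0, dg Ls W = 1 := by omega
  have h4 : ∃ W1 ∈ A.erase W0, dg Ls W1 ≠ 0 := by
    by_contra hcon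
    push Not at hcon
    rw [Finset.sum_eq_zero hcon] at h3
    omega
  obtain ⟨W1, hW1, h5⟩ := h4
  have h6 : dg Ls W1 ≤ 1 := by
    rw [← h3]
    exact Finset.single_le_sum (f := fun W => dg Ls W) (fun _ _ => Nat.zero_le _) hW1
  have h7 : ({W0, W1} : Finset (Pr M)) ⊆ A.filter (fun W => dg Ls W = 1) := by
    intro W hW
    rw [Finset.mem_insert, Finset.mem_singleton] at hW
    rw [Finset.mem_filter]
    rcases hW with rfl | rfl
    · exact ⟨hW0, h1⟩
    · exact ⟨Finset.mem_of_mem_erase hW1, by omega⟩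
  calc 2 = ({W0, W1} : Finset (Pr M)).card :=
        (Finset.card_pair (Finset.ne_of_mem_erase hW1).symm).symm
    _ ≤ _ := Finset.card_le_card h7

theorem quad_lower {k : Type} [Field k] [NumberField k] {Ls Lt : Type} [Field Ls] [NumberField Ls]
    [Algebra k Ls] [Field Lt] [NumberField Lt] [Algebra k Lt] (hs : Odd (Module.finrank k Ls))
    (ht : Module.finrank k Lt = 2) (S : Finset (Pr k)) : ∃ d C : ℝ, 0 < d ∧ d ≤ 1 ∧
    ∀ z z' : ℝ, 3 / 2 ≤ z → z ≤ z' →
      ∃ T : Finset (Pr k), (∀ v ∈ T, v ∉ S ∧ (∃ w : Pr Ls, bl k w = v ∧ dg k w = 1) ∧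
        (∀ w : Pr Lt, bl k w = v → dg k w ≠ 1) ∧ z < nv v ∧ (nv v : ℝ) ≤ z') ∧
        d * Real.log (Real.log z' / Real.log z) - C ≤ ∑ v ∈ T, ((nv v : ℝ))⁻¹ := by
  classical
  obtain ⟨M, _, _, _, hM, S₀, hS₀⟩ := comp_quad Ls Lt hs ht
  obtain ⟨C₁, hC₁⟩ := sum_lower Ls
  obtain ⟨C₃, hC₃⟩ := sum_upper M
  obtain ⟨Sr, hSr⟩ := unram Ls M
  set E : Finset (Pr Ls) := Sr ∪ (S ∪ S₀).biUnion (fun v => (finite_bl (k := k) (L := Ls) v).toFinset)
    with hE
  have hn : 0 < Module.finrank k Ls := Module.finrank_pos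
  set n : ℝ := (Module.finrank k Ls : ℝ) with hndef
  have hn' : (0 : ℝ) < n := by rw [hndef]; exact_mod_cast hn
  have hn1 : (1 : ℝ) ≤ n := by rw [hndef]; exact_mod_cast hn
  refine ⟨1 / (2 * n), (C₁ + E.card + C₃ / 2) / n, by positivity, by
    rw [div_le_one (by positivity)]; linarith, fun z z' hz hzz => ?_⟩
  obtain ⟨T, hT, hsum⟩ := hC₁ z z' hz hzz
  set l : ℝ := Real.log (Real.log z' / Real.log z) with hl
  set Q : Pr Ls → Prop := fun w => ∃ W : Pr M, bl Ls W = w ∧ dg Ls W = 1 with hQ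
  -- removing the exceptional primes
  have hE1 : ∑ w ∈ T, ((nv w : ℝ))⁻¹ ≤ ∑ w ∈ T \ E, ((nv w : ℝ))⁻¹ + E.card := by
    rw [← Finset.sum_inter_add_sum_sdiff T E, add_comm]
    gcongr
    calc ∑ w ∈ T ∩ E, ((nv w : ℝ))⁻¹ ≤ ∑ w ∈ T ∩ E, (1 : ℝ) := by
          refine Finset.sum_le_sum fun w _ => ?_
          have h3 : (1 : ℝ) ≤ nv w := by
            have := two_le_nv w
            exact_mod_cast (by omega : 1 ≤ nv w)
          exact inv_le_one_of_one_le₀ h3
      _ = (T ∩ E).card := by simp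
      _ ≤ E.card := by exact_mod_cast Finset.card_le_card Finset.inter_subset_right
  have hsplit : ∑ w ∈ T \ E, ((nv w : ℝ))⁻¹ = ∑ w ∈ (T \ E).filter Q, ((nv w : ℝ))⁻¹ +
      ∑ w ∈ (T \ E).filter (fun w => ¬ Q w), ((nv w : ℝ))⁻¹ :=
    (Finset.sum_filter_add_sum_filter_not _ _ _).symm
  -- the primes with a prime of degree one above
  have hup : 2 * ∑ w ∈ (T \ E).filter Q, ((nv w : ℝ))⁻¹ ≤ l + C₃ := by
    set U : Finset (Pr M) := ((T \ E).filter Q).biUnion (fun w =>
      (finite_bl (k := Ls) (L := M) w).toFinset.filter (fun W => dg Ls W = 1)) with hU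
    have hnv : ∀ w : Pr Ls, ∀ W ∈ (finite_bl (k := Ls) (L := M) w).toFinset.filter
        (fun W => dg Ls W = 1), nv W = nv w := by
      intro w W hW
      rw [Finset.mem_filter, Set.Finite.mem_toFinset] at hW
      have h1 := nv_eq (k := Ls) W
      rw [hW.2, pow_one] at h1
      rw [h1]
      exact congrArg nv hW.1
    have h1 := hC₃ z z' hz hzz U (by
      intro W hW
      rw [hU, Finset.mem_biUnion] at hW
      obtain ⟨w, hw, hW⟩ := hW
      rw [Finset.mem_filter, Finset.mem_sdiff] at hw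
      rw [hnv w W hW]
      exact (hT w hw.1.1).2)
    have h2 : ∑ W ∈ U, ((nv W : ℝ))⁻¹ = ∑ w ∈ (T \ E).filter Q,
        ∑ W ∈ (finite_bl (k := Ls) (L := M) w).toFinset.filter (fun W => dg Ls W = 1),
          ((nv W : ℝ))⁻¹ := by
      rw [hU]
      apply Finset.sum_biUnion
      intro w _ w' _ hne
      rw [Function.onFun, Finset.disjoint_left]
      intro W hW hW'
      rw [Finset.mem_filter, Set.Finite.mem_toFinset] at hW hW'
      exact hne (hW.1.symm.trans hW'.1)
    rw [h2] at h1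
    refine le_trans ?_ h1
    rw [Finset.mul_sum]
    apply Finset.sum_le_sum
    intro w hw
    rw [Finset.mem_filter, Finset.mem_sdiff] at hw
    have hwE : w ∉ Sr := fun h => hw.1.2 (Finset.mem_union_left _ h)
    have h3 : ∑ W ∈ (finite_bl (k := Ls) (L := M) w).toFinset, dg Ls W = 2 := by
      rw [← hM]
      exact (hSr w hwE).1 _ (fun W => Set.Finite.mem_toFinset _)
    have h4 := u3_two w h3 hw.2
    rw [Finset.sum_congr rfl (fun W hW => by rw [hnv w W hW]), Finset.sum_const, nsmul_eq_mul]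
    apply mul_le_mul_of_nonneg_right _ (by positivity)
    exact_mod_cast h4
  -- the image
  refine ⟨((T \ E).filter (fun w => ¬ Q w)).image (bl k), fun v hv => ?_, ?_⟩
  · rw [Finset.mem_image] at hv
    obtain ⟨w, hw, rfl⟩ := hv
    rw [Finset.mem_filter, Finset.mem_sdiff] at hw
    obtain ⟨⟨hwT, hwE⟩, hwQ⟩ := hw
    obtain ⟨hp, hz1, hz2⟩ := hT w hwT
    obtain ⟨h1, h2⟩ := a8_dg (k := k) w hp
    have hS : bl k w ∉ S ∪ S₀ := by
      intro h
      apply hwE
      rw [hE, Finset.mem_union, Finset.mem_biUnion]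
      exact Or.inr ⟨_, h, (Set.Finite.mem_toFinset _).2 rfl⟩
    refine ⟨fun h => hS (Finset.mem_union_left _ h), ⟨w, rfl, h1⟩, ?_, by rw [h2]; exact hz1,
      by rw [h2]; exact hz2⟩
    intro u hu hu1
    obtain ⟨W, hW⟩ := exists_bl (k := Ls) (L := M) w
    exact hwQ ⟨W, hW, hS₀ w (fun h => hS (Finset.mem_union_right _ h)) ⟨u, hu, hu1⟩ W hW⟩
  · have h1 : ∑ w ∈ (T \ E).filter (fun w => ¬ Q w), ((nv w : ℝ))⁻¹ ≤
        n * ∑ v ∈ ((T \ E).filter (fun w => ¬ Q w)).image (bl k), ((nv v : ℝ))⁻¹ := by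
      rw [← Finset.sum_fiberwise_of_maps_to
        (t := ((T \ E).filter (fun w => ¬ Q w)).image (bl k)) (g := bl k)
        (fun W hW => Finset.mem_image_of_mem _ hW), Finset.mul_sum]
      refine Finset.sum_le_sum fun v _ => ?_
      have h2 : ∀ w ∈ ((T \ E).filter (fun w => ¬ Q w)).filter (fun w => bl k w = v),
          ((nv w : ℝ))⁻¹ = ((nv v : ℝ))⁻¹ := by
        intro w hw
        rw [Finset.mem_filter, Finset.mem_filter, Finset.mem_sdiff] at hw
        rw [← hw.2, (a8_dg (k := k) w (hT w hw.1.1.1).1).2]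
      rw [Finset.sum_congr rfl h2, Finset.sum_const, nsmul_eq_mul]
      have h3 : (((T \ E).filter (fun w => ¬ Q w)).filter (fun w => bl k w = v)).card ≤
          Module.finrank k Ls := by
        refine le_trans ?_ (card_bl (k := k) v
          (((T \ E).filter (fun w => ¬ Q w)).filter (fun w => bl k w = v))
          (fun W hW => (Finset.mem_filter.1 hW).2))
        rw [Finset.card_eq_sum_ones]
        exact Finset.sum_le_sum fun W _ => dg_pos (k := k) W
      have h4 : ((((T \ E).filter (fun w => ¬ Q w)).filter (fun w => bl k w = v)).card : ℝ) ≤ n := by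
        rw [hndef]
        exact_mod_cast h3
      exact mul_le_mul_of_nonneg_right h4 (by positivity)
    have h2 : l / 2 - (C₁ + E.card + C₃ / 2) ≤
        n * ∑ v ∈ ((T \ E).filter (fun w => ¬ Q w)).image (bl k), ((nv v : ℝ))⁻¹ := by
      linarith
    have h3 : 1 / (2 * n) * l - (C₁ + E.card + C₃ / 2) / n =
        (l / 2 - (C₁ + E.card + C₃ / 2)) / n := by
      field_simp
    rw [h3, div_le_iff₀ hn', mul_comm]
    exact h2

end SC7
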