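import Pool.Agent.MP_c1dca2_ag.SC7.U3

/-!
# [SC7-U4] the average of `beta3`, compared with the primes in `PS`

`T` as in the statement. Group by `v = bl k o.2` (`nv o.2 = nv v` since `dg k o.2 = 1`, `nv_eq`). All `v` that occur are in `W := {v ∈ PS k L S, z < nv v ≤ z'}`
(`PF (PS k L S) z' \ PF (PS k L S) z`), so the sum is `∑_{v ∈ W} (1/nv v) mass_v`, `mass_v = ∑_{o ∈ T, bl o = v} beta3 k J o ≤ 1` (`mass_le`).
* `nJ k L J ≥ 3`: for the `v` of `split_lower` (`d, C₂`; they are in `W`: a split `v` has primes of degree one) `mass_v ≤ 3/4` (`mass_split`): the sum is at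
most `∑_W 1/nv v - (1/4) (d l - C₂)`.
* `nJ k L J ≤ 2`: as all degrees are `≥ 2` and `J ≠ ∅`: `J = {t}`, `finrank k (L t) = 2`. `quad` gives `s`, `quad_lower`: `d', C₂'` and for the `v` of its set (in
`W`) `mass_v = 0` (no `o` of index `t` and degree one above `v`): at most `∑_W 1/nv v - (d' l - C₂')`.
`η` = the minimum of `d / 4` and the finitely many `d'` (at least, `min` over pairs; or choose for every `t` with `finrank = 2` the `s`), `C` the sum of the
absolute values of the constants. `MP (PS k L S) z' - MP (PS k L S) z = ∑_W 1/nv v`.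
-/

set_option autoImplicit false

open NumberField IsDedekindDomain SC5

namespace SC7

private theorem u4_sum {X : Type} [DecidableEq X] (W V : Finset X) (hV : V ⊆ W) (x m : X → ℝ)
    (hx : ∀ v ∈ W, 0 ≤ x v) (hm : ∀ v ∈ W, m v ≤ 1) (θ : ℝ) (hθ : ∀ v ∈ V, m v ≤ 1 - θ) :
    ∑ v ∈ W, x v * m v ≤ ∑ v ∈ W, x v - θ * ∑ v ∈ V, x v := by
  rw [← Finset.sum_sdiff hV, ← Finset.sum_sdiff (f := x) hV]
  have h1 : ∑ v ∈ W \ V, x v * m v ≤ ∑ v ∈ W \ V, x v := by
    refine Finset.sum_le_sum fun v hv => ?_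
    have h := (Finset.mem_sdiff.1 hv).1
    exact mul_le_of_le_one_right (hx v h) (hm v h)
  have h2 : ∑ v ∈ V, x v * m v ≤ ∑ v ∈ V, x v * (1 - θ) := by
    refine Finset.sum_le_sum fun v hv => ?_
    exact mul_le_mul_of_nonneg_left (hθ v hv) (hx v (hV hv))
  rw [← Finset.sum_mul] at h2
  linarith

theorem beta3_sum {k : Type} [Field k] [NumberField k] {I : Type} [Fintype I] (L : I → Type)
    [∀ i, Field (L i)] [∀ i, NumberField (L i)] [∀ i, Algebra k (L i)] (M : Type) [Field M]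
    [NumberField M] [Algebra k M] [IsGalois k M] [∀ i, Algebra (L i) M]
    [∀ i, IsScalarTower k (L i) M] (S : Finset (Pr k)) (hdeg : Deg3 k L)
    (hun : ∀ i, ∀ v, v ∉ S → ∀ T : Finset (Pr (L i)), (∀ w, w ∈ T ↔ bl k w = v) →
      ∑ w ∈ T, dg k w = Module.finrank k (L i)) :
    ∃ η C : ℝ, 0 < η ∧ η ≤ 1 ∧ ∀ J : Finset I, J.Nonempty → ∀ z z' : ℝ, 3 / 2 ≤ z → z ≤ z' →
      ∀ T : Finset (PL L), (∀ o ∈ T, o.1 ∈ J ∧ dg k o.2 = 1 ∧ bl k o.2 ∉ S ∧ z < nv o.2 ∧
        (nv o.2 : ℝ) ≤ z') →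
      ∑ o ∈ T, beta3 k J o / nv o.2 ≤
        MP (PS k L S) z' - MP (PS k L S) z -
          η * Real.log (Real.log z' / Real.log z) + C := by
  classical
  obtain ⟨d, C₂, hd, hd1, hlow⟩ := split_lower (k := k) L M S
  have hq : ∀ t : I, Module.finrank k (L t) = 2 → ∃ d' C' : ℝ, 0 < d' ∧ d' ≤ 1 ∧
      ∀ z z' : ℝ, 3 / 2 ≤ z → z ≤ z' → ∃ T : Finset (Pr k), (∀ v ∈ T, v ∈ PS k L S ∧
        (∀ w : Pr (L t), bl k w = v → dg k w ≠ 1) ∧ z < nv v ∧ (nv v : ℝ) ≤ z') ∧
        d' * Real.log (Real.log z' / Real.log z) - C' ≤ ∑ v ∈ T, ((nv v : ℝ))⁻¹ := by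
    intro t ht
    obtain ⟨s, hs⟩ := hdeg.quad t ht
    obtain ⟨d', C', h1, h2, h3⟩ := quad_lower hs ht S
    refine ⟨d', C', h1, h2, fun z z' hz hzz => ?_⟩
    obtain ⟨T, hT, hTs⟩ := h3 z z' hz hzz
    refine ⟨T, fun v hv => ?_, hTs⟩
    obtain ⟨a1, ⟨w, a2, a2'⟩, a3, a4, a5⟩ := hT v hv
    exact ⟨⟨a1, s, w, a2, a2'⟩, a3, a4, a5⟩
  choose! dq Cq hq1 hq2 hq3 using hq
  set e : I → ℝ := fun t => if Module.finrank k (L t) = 2 then dq t else 1 with he
  have he0 : ∀ t, 0 < e t := by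
    intro t
    simp only [he]
    split_ifs with h
    · exact hq1 t h
    · exact one_pos
  have he1 : ∀ t, e t ≤ 1 := by
    intro t
    simp only [he]
    split_ifs with h
    · exact hq2 t h
    · exact le_rfl
  set Q : ℝ := ∏ t, e t with hQ
  have hQ0 : 0 < Q := Finset.prod_pos fun t _ => he0 t
  have hQ1 : Q ≤ 1 := Finset.prod_le_one (fun t _ => (he0 t).le) fun t _ => he1 t
  have hQt : ∀ t, Q ≤ e t := by
    intro t
    rw [hQ, ← Finset.mul_prod_erase Finset.univ e (Finset.mem_univ t)]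
    exact mul_le_of_le_one_right (he0 t).le
      (Finset.prod_le_one (fun t _ => (he0 t).le) fun t _ => he1 t)
  refine ⟨d / 4 * Q, |C₂| + ∑ t, |Cq t|, by positivity, ?_, ?_⟩
  · have : d / 4 * Q ≤ 1 * 1 := mul_le_mul (by linarith) hQ1 hQ0.le (by norm_num)
    linarith
  intro J hJ z z' hz hzz T hT
  set l := Real.log (Real.log z' / Real.log z) with hl
  have hl0 : 0 ≤ l := by
    have h1 : 0 < Real.log z := Real.log_pos (by linarith)
    apply Real.log_nonneg
    rw [le_div_iff₀ h1, one_mul]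
    exact Real.log_le_log (by linarith) hzz
  set PP := PS k L S with hPP
  set W : Finset (Pr k) := PF PP z' \ PF PP z with hW
  have hmemW : ∀ v, v ∈ W ↔ v ∈ PP ∧ z < nv v ∧ (nv v : ℝ) ≤ z' := by
    intro v
    rw [hW, Finset.mem_sdiff, mem_PF, mem_PF]
    constructor
    · rintro ⟨⟨h1, h2⟩, h3⟩
      refine ⟨h1, ?_, h2⟩
      by_contra h4
      exact h3 ⟨h1, not_lt.1 h4⟩
    · rintro ⟨h1, h2, h3⟩
      exact ⟨⟨h1, h3⟩, fun h4 => absurd h4.2 (not_le.2 h2)⟩
  have hMP : MP PP z' - MP PP z = ∑ v ∈ W, ((nv v : ℝ))⁻¹ := by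
    have h1 : PF PP z ⊆ PF PP z' := by
      intro v hv
      rw [mem_PF] at hv ⊢
      exact ⟨hv.1, hv.2.trans hzz⟩
    unfold MP
    rw [hW, ← Finset.sum_sdiff h1]
    ring
  have hnvo : ∀ o ∈ T, nv (bl k o.2) = nv o.2 := by
    intro o ho
    have h1 := nv_eq (k := k) o.2
    rw [(hT o ho).2.1, pow_one] at h1
    exact h1.symm
  have hmaps : ∀ o ∈ T, bl k o.2 ∈ W := by
    intro o ho
    obtain ⟨h1, h2, h3, h4, h5⟩ := hT o ho
    rw [hmemW, hnvo o ho]
    exact ⟨⟨h3, o.1, o.2, rfl, h2⟩, h4, h5⟩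
  set m : Pr k → ℝ := fun v => ∑ o ∈ T with bl k o.2 = v, beta3 k J o with hm
  have hsum : ∑ o ∈ T, beta3 k J o / nv o.2 = ∑ v ∈ W, ((nv v : ℝ))⁻¹ * m v := by
    rw [← Finset.sum_fiberwise_of_maps_to hmaps]
    refine Finset.sum_congr rfl fun v _ => ?_
    rw [hm]
    simp only
    rw [Finset.mul_sum]
    refine Finset.sum_congr rfl fun o ho => ?_
    obtain ⟨h1, h2⟩ := Finset.mem_filter.1 ho
    rw [← h2, hnvo o h1, div_eq_mul_inv, mul_comm]
  have hTv : ∀ v, ∀ o ∈ T.filter (fun o => bl k o.2 = v),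
      o.1 ∈ J ∧ dg k o.2 = 1 ∧ bl k o.2 = v := by
    intro v o ho
    obtain ⟨h1, h2⟩ := Finset.mem_filter.1 ho
    obtain ⟨h3, h4, -⟩ := hT o h1
    exact ⟨h3, h4, h2⟩
  have hm1 : ∀ v ∈ W, m v ≤ 1 := by
    intro v hv
    exact mass_le S hdeg hun J v ((hmemW v).1 hv).1.1 _ (hTv v)
  have hx : ∀ v ∈ W, (0 : ℝ) ≤ ((nv v : ℝ))⁻¹ := fun v _ => by positivity
  rw [hsum, hMP]
  have hC2 := abs_nonneg C₂
  have hCs : 0 ≤ ∑ t, |Cq t| := Finset.sum_nonneg fun t _ => abs_nonneg _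
  rcases Nat.lt_or_ge (nJ k L J) 3 with hn | hn
  · -- one quadratic field
    obtain ⟨t, ht⟩ := hJ
    have hJt : J = {t} := by
      by_contra hne
      obtain ⟨s, hs, hst⟩ : ∃ s ∈ J, s ≠ t := by
        by_contra hcon
        push Not at hcon
        exact hne (Finset.eq_singleton_iff_unique_mem.2 ⟨ht, hcon⟩)
      have h1 : ∑ i ∈ ({t, s} : Finset I), Module.finrank k (L i) ≤ nJ k L J := by
        unfold nJ
        refine Finset.sum_le_sum_of_subset ?_
        intro i hi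
        rw [Finset.mem_insert, Finset.mem_singleton] at hi
        rcases hi with rfl | rfl
        · exact ht
        · exact hs
      rw [Finset.sum_pair hst.symm] at h1
      have h2 := hdeg.two_le t
      have h3 := hdeg.two_le s
      omega
    have hft : Module.finrank k (L t) = 2 := by
      have h1 : nJ k L J = Module.finrank k (L t) := by
        rw [hJt]
        unfold nJ
        rw [Finset.sum_singleton]
      have h2 := hdeg.two_le t
      omega
    obtain ⟨V, hV, hVs⟩ := hq3 t hft z z' hz hzz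
    have hVW : V ⊆ W := by
      intro v hv
      obtain ⟨h1, h2, h3, h4⟩ := hV v hv
      exact (hmemW v).2 ⟨h1, h3, h4⟩
    have h0 : ∀ v ∈ V, m v ≤ 1 - 1 := by
      intro v hv
      have h1 : T.filter (fun o => bl k o.2 = v) = ∅ := by
        rw [Finset.eq_empty_iff_forall_notMem]
        rintro ⟨i, w⟩ ho
        obtain ⟨h2, h3, h4⟩ := hTv v _ ho
        rw [hJt, Finset.mem_singleton] at h2
        simp only at h2
        subst h2
        exact (hV v hv).2.1 w h4 h3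
      rw [hm]
      simp only
      rw [h1, Finset.sum_empty, sub_self]
    have h1 := u4_sum W V hVW _ m hx hm1 1 h0
    refine h1.trans ?_
    have h2 : d / 4 * Q * l ≤ dq t * l := by
      apply mul_le_mul_of_nonneg_right _ hl0
      have h3 := hQt t
      simp only [he] at h3
      rw [if_pos hft] at h3
      have h4 : d / 4 * Q ≤ 1 * Q := mul_le_mul_of_nonneg_right (by linarith) hQ0.le
      linarith
    have h3 : |Cq t| ≤ ∑ t, |Cq t| :=
      Finset.single_le_sum (f := fun t => |Cq t|) (fun _ _ => abs_nonneg _) (Finset.mem_univ t)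
    have h4 := le_abs_self (Cq t)
    rw [one_mul]
    linarith
  · obtain ⟨V, hV, hVs⟩ := hlow z z' hz hzz
    obtain ⟨t, ht⟩ := hJ
    have hVW : V ⊆ W := by
      intro v hv
      obtain ⟨h1, h2, h3, h4⟩ := hV v hv
      obtain ⟨w, hw⟩ := exists_bl (L := L t) v
      exact (hmemW v).2 ⟨⟨h1, t, w, hw, h2 t w hw⟩, h3, h4⟩
    have h0 : ∀ v ∈ V, m v ≤ 1 - 1 / 4 := by
      intro v hv
      have := mass_split S hdeg hun J hn v (hV v hv).1 (hV v hv).2.1 _ (hTv v)
      rw [hm]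
      simp only
      linarith
    have h1 := u4_sum W V hVW _ m hx hm1 (1 / 4) h0
    refine h1.trans ?_
    have h2 : d / 4 * Q * l ≤ d / 4 * l := by
      apply mul_le_mul_of_nonneg_right _ hl0
      exact mul_le_of_le_one_right (by positivity) hQ1
    have h3 := le_abs_self C₂
    linarith

end SC7
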