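import Pool.Agent.MP_c1dca2_ag.SC7.U1

/-!
# [SC7-U5] the sum over the special elements (copy of SC5/C2 with `beta3`)
-/

set_option autoImplicit false

open NumberField IsDedekindDomain SC5

namespace SC7

open scoped Classical in
theorem slot_sum3 {k : Type} [Field k] [NumberField k] {I : Type} [Fintype I] {L : I → Type}
    [∀ i, Field (L i)] [∀ i, NumberField (L i)] [∀ i, Algebra k (L i)] {S : Finset (Pr k)}
    {al : ∀ i, Pr (L i) → 𝓞 (L i)} {Cg : ℕ} (hF : Fam k L S al Cg)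
    (hdeg : Deg3 k L) (K : ℕ) (hK : 2 ≤ K) (ε : ℝ)
    (hε : 0 < ε) (hε' : ε < 1) :
    ∃ A Λ₀ : ℝ, 0 < A ∧ 1 ≤ Λ₀ ∧ ∀ Λ : ℝ, Λ₀ ≤ Λ → ∀ p : I → ℕ, (∀ i, p i ≤ K) → ∀ i₁ : I,
      1 ≤ p i₁ → p i₁ < K → (∀ i, 1 ≤ p i → p i₁ ≤ p i) → ∀ P' : Finset (PL L), Cfg k S P' →
      (P'.card : ℝ) ≤ Real.log Λ ^ 2 → ∀ (d : PL L) (T : I → Finset (PL L)),
      (∀ i, p i = 0 → T i = {d}) →
      (∀ i, 1 ≤ p i → ∀ w ∈ T i, w.1 = i ∧ blk K Λ w = p i ∧ ∀ o ∈ P', bl k w.2 ≠ bl k o.2) →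
      ∀ (E : PL L → PL L → PL L → ℤˣ) (Z : ℝ), 0 < Z →
      ∑ w ∈ (Fintype.piFinset T).filter (fun w =>
          (∏ i ∈ Finset.univ.filter (fun i => 1 ≤ p i), (nv (w i).2 : ℝ)) ≤ Z ∧
          ∀ o ∈ P', Rel k (E o) o
            (sgn al (P' ∪ (Finset.univ.filter (fun i => 1 ≤ p i)).image w))),
        (Z / ∏ i ∈ Finset.univ.filter (fun i => 1 ≤ p i), (nv (w i).2 : ℝ)) ^ (3 / 4 : ℝ) ≤
      A * Z * tau K Λ (p i₁) ^ (-1 + ε) * Λ ^ (ε * Fintype.card I) *
        ∏ o ∈ P', cp3 k K Λ p o := by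
  have hK0 : (0 : ℝ) < K := Nat.cast_pos.2 (by omega)
  have hε₁ : (0 : ℝ) < 1 / (2 * (K : ℝ)) := by positivity
  obtain ⟨Aa, ta, hAa, hta, ha⟩ := slot_a hF ε (1 / (2 * (K : ℝ))) hε hε' hε₁
  obtain ⟨Ab, tb, hAb, htb, hb⟩ := slot_b hF ε (1 / (2 * (K : ℝ))) hε hε' hε₁
  obtain ⟨Ac, hAc, hc⟩ := c2_crude L ε hε
  obtain ⟨Λ₁, hΛ₁⟩ := c2_log hK
  set A₀ : ℝ := max 1 (max Aa Ac) with hA₀
  have hA1 : 1 ≤ A₀ := le_max_left _ _
  have hAaA : Aa ≤ A₀ := (le_max_left _ _).trans (le_max_right _ _)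
  have hAcA : Ac ≤ A₀ := (le_max_right _ _).trans (le_max_right _ _)
  set t₀ : ℝ := max ta tb with ht₀
  have ht₀1 : 1 ≤ t₀ := hta.trans (le_max_left _ _)
  refine ⟨Ab * A₀ ^ Fintype.card I, max (max Λ₁ 1) (t₀ ^ (K : ℝ)), by positivity,
    (le_max_right _ _).trans (le_max_left _ _), ?_⟩
  intro Λ hΛ p hpK i₁ hi₁ hi₁K hmin P' hP' hcard d T hT0 hT E Z hZ
  have hΛ1 : 1 ≤ Λ := (le_max_right _ _).trans ((le_max_left _ _).trans hΛ)
  have hΛ0 : 0 < Λ := by linarith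
  have hlog := hΛ₁ Λ ((le_max_left _ _).trans ((le_max_left _ _).trans hΛ))
  have hτ₀ : ∀ j : ℕ, j < K → t₀ ≤ tau K Λ j := by
    intro j hj
    have h1 : t₀ ≤ Λ ^ (1 / (K : ℝ)) := by
      have h2 : t₀ ^ (K : ℝ) ≤ Λ := (le_max_right _ _).trans hΛ
      have h3 := Real.rpow_le_rpow (by positivity) h2 (by positivity : (0 : ℝ) ≤ 1 / (K : ℝ))
      rwa [← Real.rpow_mul (by linarith), mul_one_div_cancel hK0.ne', Real.rpow_one] at h3
    refine h1.trans ?_
    unfold tau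
    rw [if_pos hj]
    apply Real.rpow_le_rpow_of_exponent_le hΛ1
    have h4 : ((j : ℝ) + 1) ≤ K := by exact_mod_cast hj
    rw [le_sub_iff_add_le, ← add_div, div_le_one hK0]
    linarith
  set Sl : Finset I := Finset.univ.filter (fun i => 1 ≤ p i) with hSl
  have hSlmem : ∀ i, i ∈ Sl ↔ 1 ≤ p i := fun i => by
    rw [hSl, Finset.mem_filter]; exact ⟨fun h => h.2, fun h => ⟨Finset.mem_univ _, h⟩⟩
  set V : Finset (PL L) := P'.filter (fun o => o.1 ∈ vis p (blk K Λ o)) with hV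
  have hVP : V ⊆ P' := Finset.filter_subset _ _
  have hvmem : ∀ i (o : PL L), i ∈ vis p (blk K Λ o) ↔ 1 ≤ p i ∧ p i + 2 ≤ blk K Λ o := by
    intro i o
    unfold vis
    rw [Finset.mem_filter]
    exact ⟨fun h => h.2, fun h => ⟨Finset.mem_univ _, h⟩⟩
  have hVi : ∀ i, ∀ o ∈ V.filter (fun o => i ∈ vis p (blk K Λ o)), p i + 2 ≤ blk K Λ o := by
    intro i o ho
    exact ((hvmem i o).1 (Finset.mem_filter.1 ho).2).2
  have hViP : ∀ i, V.filter (fun o => i ∈ vis p (blk K Λ o)) ⊆ P' := fun i =>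
    (Finset.filter_subset _ _).trans hVP
  have hVic : ∀ i, ((V.filter (fun o => i ∈ vis p (blk K Λ o))).card : ℝ) ≤ Real.log Λ ^ 2 :=
    fun i => le_trans (Nat.cast_le.2 (Finset.card_le_card (hViP i))) hcard
  have hsumlog : ∀ i, (∑ o ∈ V.filter (fun o => i ∈ vis p (blk K Λ o)),
      Real.log (nv (bl k o.2))) ≤ tau K Λ (p i) ^ (1 - 1 / (2 * (K : ℝ))) := fun i =>
    c2_card_log hK hΛ1 hlog (p i) _ (hVi i) (hVic i)
  have hLε : 1 ≤ Λ ^ ε := Real.one_le_rpow hΛ1 hε.le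
  have hnpos : ∀ w : PL L, (0 : ℝ) < nv w.2 := fun w =>
    Nat.cast_pos.2 (by have := two_le_nv w.2; omega)
  have key := multi_top p (fun o : PL L => vis p (blk K Λ o)) (fun i o => up k {i} o)
    (fun o => up k Finset.univ o) (fun w q => bt al q w) (fun w : PL L => (nv w.2 : ℝ)) hnpos
    (fun _ => A₀ * Λ ^ ε) (fun _ => by positivity) (Ab * tau K Λ (p i₁) ^ (-1 + ε))
    (mul_nonneg hAb.le (Real.rpow_nonneg (tau_nonneg K Λ hΛ1 _) _)) d Sl T
    (fun i hi => hT0 i (by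
      by_contra h
      exact hi ((hSlmem i).2 (by omega))))
    V i₁ ((hSlmem i₁).2 hi₁) (fun i hi => hmin i ((hSlmem i).1 hi))
    (by
      intro o _ i _ i' hi' hio hpi
      rw [hvmem] at hio ⊢
      exact ⟨(hSlmem i').1 hi', by omega⟩)
    (by
      intro o _ i i' hii
      rw [Finset.disjoint_left]
      intro q hq hq'
      rw [mem_up, Finset.mem_singleton] at hq hq'
      exact hii (hq.1.symm.trans hq'.1))
    (by
      intro i hi w hw o _ q hq hq'
      rw [mem_up] at hq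
      rw [mem_up, Finset.mem_singleton, not_and] at hq'
      have h1 := (hT i ((hSlmem i).1 hi) w hw).1
      have h2 : w.1 ≠ q.1 := by
        intro h
        exact hq' (h.symm.trans h1) hq.2
      show bt al q w = 1
      unfold bt
      rw [dif_neg h2])
    (by
      intro i hi _ g hg hgl
      have hpi := (hSlmem i).1 hi
      rcases lt_or_eq_of_le (hpK i) with hlt | heq
      · refine (ha (tau K Λ (p i)) (tau K Λ (p i - 1)) ((le_max_left _ _).trans (hτ₀ _ hlt))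
          (tau_anti K Λ hΛ1 _ _ (by omega)) _ (fun o ho => hP'.out o (hViP i ho))
          (fun o ho o' ho' => hP'.inj o (hViP i ho) o' (hViP i ho')) (hsumlog i) i g hg hgl (T i)
          ?_).trans ?_
        · intro w hw
          obtain ⟨h1, h2, h3⟩ := hT i hpi w hw
          refine ⟨h1, ?_, ?_, fun o ho => h3 o (hViP i ho)⟩
          · rw [← h2]; exact tau_blk_lt K Λ w
          · exact log_le_tau K Λ w (p i - 1) (by omega)
        · apply mul_le_mul_of_nonneg_right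
          · apply mul_le_mul hAaA _ (Real.rpow_nonneg (tau_nonneg K Λ hΛ1 _) _) (by positivity)
            exact Real.rpow_le_rpow (tau_nonneg K Λ hΛ1 _) (tau_le K (by omega) Λ hΛ1 _) hε.le
          · exact Finset.prod_nonneg fun o _ => avg_nonneg _ _ (hg o) _
      · have hemp : V.filter (fun o => i ∈ vis p (blk K Λ o)) = ∅ := by
          apply Finset.eq_empty_of_forall_notMem
          intro o ho
          have h1 := hVi i o ho
          have h2 := blk_le K Λ o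
          omega
        simp only [hemp, Finset.prod_empty, mul_one]
        refine (hc K hK Λ hΛ1 (T i) (fun w hw => ?_)).trans ?_
        · rw [(hT i hpi w hw).2.1, heq]
        · exact mul_le_mul_of_nonneg_right hAcA (by positivity))
    (by
      intro Y hY g hg hgl
      refine (hb (tau K Λ (p i₁)) Y ((le_max_right _ _).trans (hτ₀ _ hi₁K)) hY _
        (fun o ho => hP'.out o (hViP i₁ ho))
        (fun o ho o' ho' => hP'.inj o (hViP i₁ ho) o' (hViP i₁ ho')) (hsumlog i₁) i₁ g hg hgl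
        ((T i₁).filter (fun w => (nv w.2 : ℝ) ≤ Y)) ?_).trans (le_of_eq (by ring))
      intro w hw
      rw [Finset.mem_filter] at hw
      obtain ⟨h1, h2, h3⟩ := hT i₁ hi₁ w hw.1
      refine ⟨h1, ?_, hw.2, fun o ho => h3 o (hViP i₁ ho)⟩
      rw [← h2]; exact tau_blk_lt K Λ w)
    (fun o e => if Rel k (E o) o e then (1 : ℝ) else 0)
    (fun o e => by
      show (0 : ℝ) ≤ if Rel k (E o) o e then (1 : ℝ) else 0
      split_ifs <;> norm_num)
    (fun o e e' hee => by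
      show (if Rel k (E o) o e then (1 : ℝ) else 0) = if Rel k (E o) o e' then (1 : ℝ) else 0
      simp only [c2_rel (E o) o e e' hee])
    (fun o => beta3 k (vis p (blk K Λ o)) o)
    (by
      intro o ho e
      have h1 : (Sl ∩ vis p (blk K Λ o)).biUnion (fun i => up k {i} o)
          = up k (vis p (blk K Λ o)) o := by
        ext q
        rw [Finset.mem_biUnion, mem_up]
        constructor
        · rintro ⟨i, hi, hq⟩
          rw [mem_up, Finset.mem_singleton] at hq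
          rw [Finset.mem_inter] at hi
          exact ⟨hq.1 ▸ hi.2, hq.2⟩
        · rintro ⟨h2, h3⟩
          refine ⟨q.1, ?_, (mem_up _ _ _).2 ⟨Finset.mem_singleton_self _, h3⟩⟩
          rw [Finset.mem_inter]
          exact ⟨(hSlmem _).2 ((hvmem _ _).1 h2).1, h2⟩
      rw [h1]
      exact rel_avg3 S hdeg.even hF.unr o (hP'.deg o (hVP ho)) (hP'.out o (hVP ho)) _
        (Finset.mem_filter.1 ho).2 (E o) e)
    (sgn al P') Z hZ
  -- comparison
  have hcp : ∏ o ∈ V, beta3 k (vis p (blk K Λ o)) o = ∏ o ∈ P', cp3 k K Λ p o := by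
    rw [hV, Finset.prod_filter]
    apply Finset.prod_congr rfl
    intro o _
    rfl
  have hcp0 : 0 ≤ ∏ o ∈ P', cp3 k K Λ p o := by
    apply Finset.prod_nonneg
    intro o _
    unfold cp3 beta3
    split_ifs <;> positivity
  have hΘ : ∏ i ∈ Sl.erase i₁, (A₀ * Λ ^ ε) ≤ A₀ ^ Fintype.card I * Λ ^ (ε * Fintype.card I) := by
    rw [Finset.prod_const, Real.rpow_mul hΛ0.le, Real.rpow_natCast, ← mul_pow]
    apply pow_le_pow_right₀ _ (Finset.card_le_univ _)
    nlinarith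
  have hτ0 : 0 ≤ tau K Λ (p i₁) ^ (-1 + ε) := Real.rpow_nonneg (tau_nonneg K Λ hΛ1 _) _
  have step1 : ∑ w ∈ (Fintype.piFinset T).filter (fun w =>
          (∏ i ∈ Sl, (nv (w i).2 : ℝ)) ≤ Z ∧
          ∀ o ∈ P', Rel k (E o) o (sgn al (P' ∪ Sl.image w))),
        (Z / ∏ i ∈ Sl, (nv (w i).2 : ℝ)) ^ (3 / 4 : ℝ) ≤
      ∑ w ∈ (Fintype.piFinset T).filter (fun w => (∏ i ∈ Sl, (nv (w i).2 : ℝ)) ≤ Z),
        (Z / ∏ i ∈ Sl, (nv (w i).2 : ℝ)) ^ (3 / 4 : ℝ) *
          ∏ o ∈ V, (if Rel k (E o) o (fun q => sgn al P' q * ∏ i ∈ Sl, bt al q (w i)) then (1 : ℝ)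
            else 0) := by
    have hsub : (Fintype.piFinset T).filter (fun w =>
          (∏ i ∈ Sl, (nv (w i).2 : ℝ)) ≤ Z ∧
          ∀ o ∈ P', Rel k (E o) o (sgn al (P' ∪ Sl.image w))) ⊆
        (Fintype.piFinset T).filter (fun w => (∏ i ∈ Sl, (nv (w i).2 : ℝ)) ≤ Z) := by
      intro w hw
      rw [Finset.mem_filter] at hw ⊢
      exact ⟨hw.1, hw.2.1⟩
    refine le_trans (le_of_eq ?_) (Finset.sum_le_sum_of_subset_of_nonneg hsub ?_)
    · apply Finset.sum_congr rfl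
      intro w hw
      rw [Finset.mem_filter, Fintype.mem_piFinset] at hw
      obtain ⟨hwT, -, hrel⟩ := hw
      have h2 : ∏ o ∈ V, (if Rel k (E o) o (fun q => sgn al P' q * ∏ i ∈ Sl, bt al q (w i))
          then (1 : ℝ) else 0) = 1 := by
        apply Finset.prod_eq_one
        intro o ho
        rw [if_pos]
        have h1 : (fun q => sgn al P' q * ∏ i ∈ Sl, bt al q (w i)) =
            sgn al (P' ∪ Sl.image w) := by
          funext q
          rw [c2_sgn al P' Sl w (fun i hi => (hT i ((hSlmem i).1 hi) (w i) (hwT i)).1)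
            (fun i hi hmem => (hT i ((hSlmem i).1 hi) (w i) (hwT i)).2.2 _ hmem rfl)]
        rw [h1]
        exact hrel o (hVP ho)
      rw [h2, mul_one]
    · intro w _ _
      apply mul_nonneg
      · apply Real.rpow_nonneg
        apply div_nonneg hZ.le
        exact Finset.prod_nonneg fun i _ => Nat.cast_nonneg _
      · apply Finset.prod_nonneg
        intro o _
        split_ifs <;> norm_num
  refine step1.trans (le_trans ?_ (le_trans key ?_))
  · exact le_of_eq rfl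
  · rw [hcp]
    have h1 : Ab * tau K Λ (p i₁) ^ (-1 + ε) * Z * ∏ i ∈ Sl.erase i₁, (A₀ * Λ ^ ε) ≤
        Ab * tau K Λ (p i₁) ^ (-1 + ε) * Z *
          (A₀ ^ Fintype.card I * Λ ^ (ε * Fintype.card I)) :=
      mul_le_mul_of_nonneg_left hΘ (by positivity)
    refine (mul_le_mul_of_nonneg_right h1 hcp0).trans (le_of_eq ?_)
    ring

end SC7
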