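import Pool.Agent.MP_c1dca2_ag.SC7.U4

/-!
# [SC7-U6] the sum of the costs, compared with the primes in `PS`
-/

set_option autoImplicit false

open NumberField IsDedekindDomain SC5

namespace SC7

section MP

variable {k : Type} [Field k] [NumberField k] (P : Set (Pr k))

theorem MP_nonneg (x : ℝ) : 0 ≤ MP P x :=
  Finset.sum_nonneg fun _ _ => by positivity

theorem MP_mono {x y : ℝ} (h : x ≤ y) : MP P x ≤ MP P y := by
  classical
  refine Finset.sum_le_sum_of_subset_of_nonneg ?_ fun _ _ _ => by positivity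
  intro v hv
  rw [mem_PF] at hv ⊢
  exact ⟨hv.1, hv.2.trans h⟩

end MP

private theorem log_three_half : (3 / 8 : ℝ) ≤ Real.log (3 / 2) := by
  have h1 : (3 : ℝ) ≤ Real.log ((3 / 2) ^ 8) := by
    rw [Real.le_log_iff_exp_le (by positivity)]
    have h2 : Real.exp 3 = Real.exp 1 ^ 3 := by
      rw [← Real.exp_nat_mul]
      norm_num
    rw [h2]
    have h3 := Real.exp_one_lt_d9
    have h4 : Real.exp 1 ^ 3 ≤ (2.7182818286 : ℝ) ^ 3 :=
      pow_le_pow_left₀ (Real.exp_pos 1).le h3.le 3
    refine h4.trans ?_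
    norm_num
  rw [Real.log_pow] at h1
  push_cast at h1
  linarith

private theorem neg_loglog : -Real.log (Real.log (3 / 2)) ≤ 1 := by
  have h1 := log_three_half
  have h2 : Real.log (3 / 8 : ℝ) ≤ Real.log (Real.log (3 / 2)) :=
    Real.log_le_log (by norm_num) h1
  have h3 : Real.log (8 / 3 : ℝ) ≤ 1 := by
    rw [Real.log_le_iff_le_exp (by norm_num)]
    have := Real.exp_one_gt_d9
    linarith
  have h4 : Real.log (3 / 8 : ℝ) = -Real.log (8 / 3) := by
    rw [← Real.log_inv]
    norm_num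
  linarith

private theorem loglog_neg : Real.log (Real.log (3 / 2)) ≤ 0 := by
  apply Real.log_nonpos
  · have := log_three_half
    linarith
  · rw [Real.log_le_iff_le_exp (by norm_num)]
    have := Real.exp_one_gt_d9
    linarith

/-- The block boundaries. -/
noncomputable def yb (K : ℕ) (Λ : ℝ) (j : ℕ) : ℝ := if j < K then Real.exp (tau K Λ j) else 3 / 2

section
variable {I : Type} {L : I → Type} [∀ i, Field (L i)] [∀ i, NumberField (L i)]

private theorem block (K : ℕ) (hK : 1 ≤ K) (Λ : ℝ) (hΛ : 1 ≤ Λ) (j : ℕ) (hj : 1 ≤ j)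
    (hjK : j ≤ K) : 3 / 2 ≤ yb K Λ j ∧ yb K Λ j ≤ yb K Λ (j - 1) ∧
      Real.log (Real.log (yb K Λ (j - 1)) / Real.log (yb K Λ j)) ≤ Real.log Λ / K + 1 ∧
      Real.log Λ / K ≤ Real.log (Real.log (yb K Λ (j - 1)) / Real.log (yb K Λ j)) ∧
      ∀ o : PL L, blk K Λ o = j → yb K Λ j < nv o.2 ∧ (nv o.2 : ℝ) ≤ yb K Λ (j - 1) := by
  have hup : ∀ o : PL L, blk K Λ o = j → (nv o.2 : ℝ) ≤ Real.exp (tau K Λ (j - 1)) := by
    intro o ho
    have h2 : 0 < (nv o.2 : ℝ) := by
      have := two_le_nv o.2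
      positivity
    have := log_le_tau K Λ o (j - 1) (by omega)
    rwa [Real.log_le_iff_le_exp h2] at this
  have hy1 : yb K Λ (j - 1) = Real.exp (tau K Λ (j - 1)) := by
    unfold yb
    rw [if_pos (by omega)]
  rw [hy1]
  rcases hjK.eq_or_lt with hjeq | hlt
  · have hy : yb K Λ j = 3 / 2 := by
      unfold yb
      rw [if_neg (by omega)]
    rw [hy]
    have h1 := one_le_tau K Λ hΛ (j - 1) (by omega)
    have h3 := log_three_half
    have h2 : Real.log (tau K Λ (j - 1)) = Real.log Λ / K := by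
      rw [hjeq]
      exact tau_last K hK Λ hΛ
    refine ⟨le_rfl, ?_, ?_, ?_, ?_⟩
    · have h2 := Real.add_one_le_exp (tau K Λ (j - 1))
      linarith
    · rw [Real.log_exp, Real.log_div (by linarith) (by linarith), h2]
      have := neg_loglog
      linarith
    · rw [Real.log_exp, Real.log_div (by linarith) (by linarith), h2]
      have := loglog_neg
      linarith
    · intro o ho
      refine ⟨?_, hup o ho⟩
      have h1 : (2 : ℝ) ≤ nv o.2 := by exact_mod_cast two_le_nv o.2
      linarith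
  · have hy : yb K Λ j = Real.exp (tau K Λ j) := by
      unfold yb
      rw [if_pos hlt]
    rw [hy]
    refine ⟨?_, ?_, ?_, ?_, ?_⟩
    · have h1 := one_le_tau K Λ hΛ j hlt
      have h2 := Real.add_one_le_exp (tau K Λ j)
      linarith
    · exact Real.exp_le_exp.2 (tau_anti K Λ hΛ (j - 1) j (Nat.sub_le _ _))
    · rw [Real.log_exp, Real.log_exp, rat_tau K Λ hΛ j hj hlt]
      linarith
    · rw [Real.log_exp, Real.log_exp, rat_tau K Λ hΛ j hj hlt]
    · intro o ho
      refine ⟨?_, hup o ho⟩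
      have h2 : 0 < (nv o.2 : ℝ) := by
        have := two_le_nv o.2
        positivity
      have := tau_blk_lt K Λ o
      rw [ho, Real.lt_log_iff_exp_lt h2] at this
      exact this

end

theorem cp3_sum {k : Type} [Field k] [NumberField k] {I : Type} [Fintype I] {L : I → Type}
    [∀ i, Field (L i)] [∀ i, NumberField (L i)] [∀ i, Algebra k (L i)] (M : Type) [Field M]
    [NumberField M] [Algebra k M] [IsGalois k M] [∀ i, Algebra (L i) M]
    [∀ i, IsScalarTower k (L i) M] {S : Finset (Pr k)}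
    {al : ∀ i, Pr (L i) → 𝓞 (L i)} {Cg : ℕ} (hF : Fam k L S al Cg) (hdeg : Deg3 k L) :
    ∃ η : ℝ, 0 < η ∧ η ≤ 1 ∧ ∀ K : ℕ, 1 ≤ K → ∃ C : ℝ, ∀ Λ : ℝ, 1 ≤ Λ → ∀ p : I → ℕ,
      ∀ i₁ : I, 1 ≤ p i₁ → p i₁ ≤ K → (∀ i, 1 ≤ p i → p i₁ ≤ p i) → ∀ T : Finset (PL L),
      (∀ o ∈ T, dg k o.2 = 1 ∧ bl k o.2 ∉ S ∧ 1 ≤ p o.1 ∧ p o.1 ≤ blk K Λ o) →
      ∑ o ∈ T, cp3 k K Λ p o / nv o.2 ≤ MP (PS k L S) (Real.exp Λ) +
        (2 * (Fintype.card I : ℝ) ^ 2 / K - η * (K - p i₁ - 1) / K) * Real.log Λ + C := by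
  classical
  obtain ⟨η, C₀, hη0, hη1, hbeta⟩ := beta3_sum L M S hdeg hF.unr
  obtain ⟨C₁, hcrude⟩ := crude_sum L
  refine ⟨η, hη0, hη1, ?_⟩
  intro K hK
  set r : ℝ := (Fintype.card I : ℝ) with hr
  have hr0 : 0 ≤ r := Nat.cast_nonneg _
  refine ⟨(K + 1) * |C₀| + 2 * r * (r + |C₁|), ?_⟩
  intro Λ hΛ p i₁ hj₁ hj₁K hp T hT
  set j₁ : ℕ := p i₁ with hj₁def
  have hKpos : (0 : ℝ) < K := by exact_mod_cast hK
  have hlogΛ : 0 ≤ Real.log Λ := Real.log_nonneg hΛ
  set l : ℝ := Real.log Λ / K + 1 with hl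
  have hl0 : 0 ≤ l := by positivity
  set b : ℝ := r * l + |C₁| with hb
  have hb0 : 0 ≤ b := add_nonneg (mul_nonneg hr0 hl0) (abs_nonneg _)
  set PP := PS k L S with hPP
  set D : ℕ → ℝ := fun j => MP PP (yb K Λ (j - 1)) - MP PP (yb K Λ j) with hD
  set sv : ℕ → ℝ := fun j => if j₁ + 2 ≤ j then η * (Real.log Λ / K) else 0 with hsv
  set U : Finset ℕ := (Finset.univ.image p) ∪ (Finset.univ.image fun i => p i + 1) with hU
  have hUcard : (U.card : ℝ) ≤ 2 * r := by
    have h1 : U.card ≤ 2 * Fintype.card I := by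
      calc U.card ≤ (Finset.univ.image p).card + (Finset.univ.image fun i => p i + 1).card :=
            Finset.card_union_le _ _
        _ ≤ Fintype.card I + Fintype.card I := by
            refine Nat.add_le_add ?_ ?_
            · exact Finset.card_image_le
            · exact Finset.card_image_le
        _ = 2 * Fintype.card I := by ring
    rw [hr]
    exact_mod_cast h1
  -- splitting into blocks
  have hmaps : ∀ o ∈ T, blk K Λ o ∈ Finset.Icc j₁ K := by
    intro o ho
    obtain ⟨-, -, h3, h4⟩ := hT o ho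
    exact Finset.mem_Icc.2 ⟨(hp _ h3).trans h4, blk_le K Λ o⟩
  rw [← Finset.sum_fiberwise_of_maps_to hmaps]
  have hper : ∀ j ∈ Finset.Icc j₁ K, ∑ o ∈ T with blk K Λ o = j, cp3 k K Λ p o / nv o.2 ≤
      (D j - sv j + |C₀|) + (if j ∈ U then b else 0) := by
    intro j hj
    obtain ⟨hj1, hj2⟩ := Finset.mem_Icc.1 hj
    obtain ⟨hz, hzz, hlog, hlog', hcond⟩ := block (L := L) K hK Λ hΛ j (hj₁.trans hj1) hj2
    rw [← Finset.sum_filter_add_sum_filter_not (T.filter fun o => blk K Λ o = j)
      (fun o => o.1 ∈ vis p j)]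
    have hmem : ∀ o ∈ T.filter (fun o => blk K Λ o = j), (dg k o.2 = 1 ∧ bl k o.2 ∉ S ∧
        1 ≤ p o.1 ∧ p o.1 ≤ j) ∧ blk K Λ o = j := by
      intro o ho
      obtain ⟨h1, h2⟩ := Finset.mem_filter.1 ho
      have h3 := hT o h1
      rw [h2] at h3
      exact ⟨h3, h2⟩
    refine add_le_add ?_ ?_
    · -- visible
      rcases Finset.eq_empty_or_nonempty (vis p j) with he | hJ
      · have h1 : (T.filter fun o => blk K Λ o = j).filter (fun o => o.1 ∈ vis p j) = ∅ := by
          rw [he]
          simp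
        rw [h1, Finset.sum_empty]
        have h2 : sv j = 0 := by
          rw [hsv]
          simp only
          rw [if_neg]
          intro h3
          have h4 : i₁ ∈ vis p j := by
            unfold vis
            rw [Finset.mem_filter]
            exact ⟨Finset.mem_univ _, hj₁, h3⟩
          rw [he] at h4
          exact absurd h4 (Finset.notMem_empty _)
        rw [h2]
        have h3 : 0 ≤ D j := sub_nonneg.2 (MP_mono PP hzz)
        have := abs_nonneg C₀
        linarith
      · have h1 := hbeta (vis p j) hJ _ _ hz hzz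
          ((T.filter fun o => blk K Λ o = j).filter fun o => o.1 ∈ vis p j) (by
            intro o ho
            obtain ⟨h2, h3⟩ := Finset.mem_filter.1 ho
            obtain ⟨⟨h4, h5, h6, h7⟩, h8⟩ := hmem o h2
            exact ⟨h3, h4, h5, (hcond o h8).1, (hcond o h8).2⟩)
        have h2 : ∑ o ∈ (T.filter fun o => blk K Λ o = j).filter (fun o => o.1 ∈ vis p j),
            cp3 k K Λ p o / nv o.2 =
            ∑ o ∈ (T.filter fun o => blk K Λ o = j).filter (fun o => o.1 ∈ vis p j),
              beta3 k (vis p j) o / nv o.2 := by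
          refine Finset.sum_congr rfl fun o ho => ?_
          obtain ⟨h2, h3⟩ := Finset.mem_filter.1 ho
          have h4 := (hmem o h2).2
          unfold cp3
          rw [h4, if_pos h3]
        rw [h2]
        refine h1.trans ?_
        have h3 : sv j ≤ η * Real.log (Real.log (yb K Λ (j - 1)) / Real.log (yb K Λ j)) := by
          have h5 := mul_le_mul_of_nonneg_left hlog' hη0.le
          rw [hsv]
          simp only
          split_ifs
          · exact h5
          · refine le_trans ?_ h5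
            positivity
        have h4 := le_abs_self C₀
        simp only [hD]
        linarith
    · -- the others
      rcases Finset.eq_empty_or_nonempty
        ((T.filter fun o => blk K Λ o = j).filter fun o => ¬ o.1 ∈ vis p j) with he | hne
      · rw [he, Finset.sum_empty]
        split_ifs
        · exact hb0
        · exact le_rfl
      · obtain ⟨o₀, ho₀⟩ := hne
        have hvis : ∀ o : PL L, 1 ≤ p o.1 → ¬ o.1 ∈ vis p j → j < p o.1 + 2 := by
          intro o h1 h2
          by_contra h3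
          apply h2
          unfold vis
          rw [Finset.mem_filter]
          exact ⟨Finset.mem_univ _, h1, not_lt.1 h3⟩
        have hjU : j ∈ U := by
          obtain ⟨h2, h3⟩ := Finset.mem_filter.1 ho₀
          obtain ⟨⟨h4, h5, h6, h7⟩, h8⟩ := hmem o₀ h2
          have h9 := hvis o₀ h6 h3
          rw [hU, Finset.mem_union, Finset.mem_image, Finset.mem_image]
          have h10 : p o₀.1 = j ∨ p o₀.1 + 1 = j := by omega
          rcases h10 with h10 | h10
          · left; exact ⟨o₀.1, Finset.mem_univ _, h10⟩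
          · right; exact ⟨o₀.1, Finset.mem_univ _, h10⟩
        rw [if_pos hjU]
        have h1 := hcrude _ _ hz hzz
          ((T.filter fun o => blk K Λ o = j).filter fun o => ¬ o.1 ∈ vis p j) (by
            intro o ho
            obtain ⟨h2, h3⟩ := Finset.mem_filter.1 ho
            exact hcond o (hmem o h2).2)
        have h2 : ∑ o ∈ (T.filter fun o => blk K Λ o = j).filter (fun o => ¬ o.1 ∈ vis p j),
            cp3 k K Λ p o / nv o.2 =
            ∑ o ∈ (T.filter fun o => blk K Λ o = j).filter (fun o => ¬ o.1 ∈ vis p j),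
              ((nv o.2 : ℝ))⁻¹ := by
          refine Finset.sum_congr rfl fun o ho => ?_
          obtain ⟨h2, h3⟩ := Finset.mem_filter.1 ho
          have h4 := (hmem o h2).2
          unfold cp3
          rw [h4, if_neg h3, one_div]
        rw [h2]
        refine h1.trans ?_
        rw [hb]
        refine add_le_add ?_ (le_abs_self _)
        exact mul_le_mul_of_nonneg_left hlog hr0
  refine (Finset.sum_le_sum hper).trans ?_
  rw [Finset.sum_add_distrib, Finset.sum_add_distrib, Finset.sum_sub_distrib, Finset.sum_const,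
    ← Finset.sum_filter (fun j => j ∈ U), Finset.sum_const, nsmul_eq_mul, nsmul_eq_mul,
    Nat.card_Icc]
  -- telescoping
  have htel : ∀ m : ℕ, j₁ ≤ m → ∑ j ∈ Finset.Icc j₁ m, D j =
      MP PP (yb K Λ (j₁ - 1)) - MP PP (yb K Λ m) := by
    intro m hm
    induction m, hm using Nat.le_induction with
    | base => simp [hD]
    | succ m hm ih =>
      rw [Finset.sum_Icc_succ_top (by omega), ih]
      simp only [hD, Nat.add_sub_cancel]
      ring
  have hDs : ∑ j ∈ Finset.Icc j₁ K, D j ≤ MP PP (Real.exp Λ) := by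
    rw [htel K hj₁K]
    have h1 := MP_nonneg PP (yb K Λ K)
    have h2 : MP PP (yb K Λ (j₁ - 1)) ≤ MP PP (Real.exp Λ) := by
      apply MP_mono
      unfold yb
      rw [if_pos (by omega)]
      exact Real.exp_le_exp.2 (tau_le K hK Λ hΛ _)
    linarith
  have hsvs : η * (K - j₁ - 1) / K * Real.log Λ ≤ ∑ j ∈ Finset.Icc j₁ K, sv j := by
    rw [hsv]
    rw [← Finset.sum_filter, Finset.sum_const, nsmul_eq_mul]
    have h1 : (K : ℝ) - j₁ - 1 ≤ (((Finset.Icc j₁ K).filter fun j => j₁ + 2 ≤ j).card : ℝ) := by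
      have h2 : Finset.Icc (j₁ + 2) K ⊆ (Finset.Icc j₁ K).filter fun j => j₁ + 2 ≤ j := by
        intro j hj
        rw [Finset.mem_Icc] at hj
        rw [Finset.mem_filter, Finset.mem_Icc]
        omega
      have h3 := Finset.card_le_card h2
      rw [Nat.card_Icc] at h3
      have h4 : K ≤ ((Finset.Icc j₁ K).filter fun j => j₁ + 2 ≤ j).card + (j₁ + 1) := by omega
      have h5 : (K : ℝ) ≤ (((Finset.Icc j₁ K).filter fun j => j₁ + 2 ≤ j).card : ℝ) +
          (j₁ + 1) := by exact_mod_cast h4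
      linarith
    have h2 : 0 ≤ η * (Real.log Λ / K) := by positivity
    calc η * (K - j₁ - 1) / K * Real.log Λ = (K - j₁ - 1) * (η * (Real.log Λ / K)) := by ring
      _ ≤ _ := mul_le_mul_of_nonneg_right h1 h2
  have hc2 : (((Finset.Icc j₁ K).filter fun j => j ∈ U).card : ℝ) ≤ 2 * r := by
    refine le_trans ?_ hUcard
    exact_mod_cast Finset.card_le_card fun j hj => (Finset.mem_filter.1 hj).2
  have hc3 := mul_le_mul_of_nonneg_right hc2 hb0
  have hc4 : ((K + 1 - j₁ : ℕ) : ℝ) * |C₀| ≤ (K + 1) * |C₀| := by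
    apply mul_le_mul_of_nonneg_right _ (abs_nonneg _)
    have : ((K + 1 - j₁ : ℕ) : ℝ) ≤ ((K + 1 : ℕ) : ℝ) := by
      exact_mod_cast Nat.sub_le _ _
    push_cast at this
    exact this
  have e2 : 2 * r * b = (2 * r ^ 2 / K) * Real.log Λ + 2 * r * (r + |C₁|) := by
    rw [hb, hl]
    field_simp
    ring
  rw [e2] at hc3
  have e3 : (2 * r ^ 2 / K - η * (K - j₁ - 1) / K) * Real.log Λ =
      (2 * r ^ 2 / K) * Real.log Λ - η * (K - j₁ - 1) / K * Real.log Λ := by ring
  rw [e3]
  linarith

end SC7
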