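import Mathlib

/-!
# [SC7-W2] Stepanov's method, the derivatives

`F` finite field with `q` elements, `q` odd, `f ∈ F[X]`, `g = f ^ ((q - 1) / 2)`. For `M : ℕ` define recursively linear maps
`R 0 = id`, `R (l + 1) r = f * (R l r)' + (M - l) f' * R l r`, `S 0 = id`,
`S (l + 1) s = f * (S l s)' + (M - l + (q - 1) / 2) f' * S l s`. The degrees grow by at most `N - 1` in every step, `N = natDegree f`
(so `natDegree (R l r) ≤ natDegree r + l (N - 1)`; `N ≥ 1`). For `l ≤ M`:
`derivative^[l] (f ^ M * (r + s g) * X ^ (j q)) = f ^ (M - l) * (R l r + S l s * g) * X ^ (j q)`.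
Proof by induction on `l`: the derivative of `X ^ (j q)` is zero (`q = 0` in `F`), and
`(f ^ m * u)' = f ^ (m - 1) * (f u' + m f' u)` for `m ≥ 1`, `f * g' = ((q - 1) / 2) f' g` (for `f ^ e`, `e = (q - 1) / 2`:
`f * (f ^ e)' = e f' f ^ e`).
-/

set_option autoImplicit false

open Polynomial

namespace SC7

/-- one step -/
private noncomputable def w2_T {F : Type} [Field F] (f : F[X]) (c : ℕ) : F[X] →ₗ[F] F[X] :=
  (LinearMap.mulLeft F f) ∘ₗ derivative + LinearMap.mulLeft F ((c : F[X]) * derivative f)

private theorem w2_T_apply {F : Type} [Field F] (f : F[X]) (c : ℕ) (u : F[X]) :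
    w2_T f c u = f * derivative u + (c : F[X]) * derivative f * u := rfl

private theorem w2_T_degree {F : Type} [Field F] (f : F[X]) (hN : 1 ≤ f.natDegree) (c : ℕ) (u : F[X]) :
    (w2_T f c u).degree ≤ u.degree + ((f.natDegree - 1 : ℕ) : WithBot ℕ) := by
  by_cases hu : u = 0
  · rw [hu, map_zero, degree_zero]
    exact bot_le
  rw [w2_T_apply]
  have hdu : u.degree = (u.natDegree : WithBot ℕ) := degree_eq_natDegree hu
  have key : (f * derivative u + (c : F[X]) * derivative f * u).degree ≤
      ((u.natDegree + (f.natDegree - 1) : ℕ) : WithBot ℕ) := by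
    refine (degree_add_le _ _).trans (max_le ?_ ?_)
    · by_cases hu' : derivative u = 0
      · rw [hu', mul_zero, degree_zero]
        exact bot_le
      · have h1 : (derivative u).natDegree < u.natDegree := by
          apply natDegree_derivative_lt
          intro h2
          apply hu'
          rw [eq_C_of_natDegree_eq_zero h2, derivative_C]
        refine degree_le_natDegree.trans ?_
        have h2 := natDegree_mul_le (p := f) (q := derivative u)
        exact_mod_cast (by omega : (f * derivative u).natDegree ≤ u.natDegree + (f.natDegree - 1))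
    · refine degree_le_natDegree.trans ?_
      have h2 := natDegree_mul_le (p := (c : F[X]) * derivative f) (q := u)
      have h3 := natDegree_mul_le (p := (c : F[X])) (q := derivative f)
      have h4 := natDegree_derivative_le f
      rw [natDegree_natCast] at h3
      exact_mod_cast (by omega : ((c : F[X]) * derivative f * u).natDegree ≤ u.natDegree + (f.natDegree - 1))
  rw [hdu]
  exact_mod_cast key

/-- iterates -/
private noncomputable def w2_R {F : Type} [Field F] (f : F[X]) (M e : ℕ) : ℕ → (F[X] →ₗ[F] F[X])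
  | 0 => LinearMap.id
  | l + 1 => (w2_T f (M - l + e)) ∘ₗ (w2_R f M e l)

private theorem w2_R_degree {F : Type} [Field F] (f : F[X]) (hN : 1 ≤ f.natDegree) (M e : ℕ) (l : ℕ)
    (u : F[X]) : (w2_R f M e l u).degree ≤ u.degree + ((l * (f.natDegree - 1) : ℕ) : WithBot ℕ) := by
  induction l with
  | zero =>
    rw [zero_mul, Nat.cast_zero, add_zero]
    exact le_rfl
  | succ l ih =>
    refine (w2_T_degree f hN (M - l + e) (w2_R f M e l u)).trans ?_
    rw [Nat.succ_mul, Nat.cast_add, ← add_assoc]
    exact add_le_add_left ih _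

theorem stepanov_deriv {F : Type} [Field F] [Fintype F] (hodd : Odd (Fintype.card F)) (f : F[X])
    (hN : 1 ≤ f.natDegree) (M : ℕ) :
    ∃ R S : ℕ → F[X] →ₗ[F] F[X],
      (∀ l r, (R l r).degree ≤ r.degree + ((l * (f.natDegree - 1) : ℕ) : WithBot ℕ)) ∧
      (∀ l r, (S l r).degree ≤ r.degree + ((l * (f.natDegree - 1) : ℕ) : WithBot ℕ)) ∧
      ∀ l ≤ M, ∀ (r s : F[X]) (j : ℕ),
        derivative^[l] (f ^ M * ((r + s * f ^ ((Fintype.card F - 1) / 2)) *
          X ^ (j * Fintype.card F))) =
        f ^ (M - l) * ((R l r + S l s * f ^ ((Fintype.card F - 1) / 2)) *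
          X ^ (j * Fintype.card F)) := by
  set q := Fintype.card F with hq
  set e := (q - 1) / 2 with he
  have hq0 : ((q : ℕ) : F) = 0 := Nat.cast_card_eq_zero F
  refine ⟨w2_R f M 0, w2_R f M e, fun l r => w2_R_degree f hN M 0 l r, fun l r => w2_R_degree f hN M e l r, ?_⟩
  intro l
  induction l with
  | zero =>
    intro _ r s j
    rfl
  | succ l ih =>
    intro hl r s j
    rw [Function.iterate_succ_apply', ih (by omega)]
    obtain ⟨m, hm⟩ : ∃ m, M - l = m + 1 := ⟨M - l - 1, by omega⟩
    have hm' : M - (l + 1) = m := by omega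
    rw [hm']
    have h1 : w2_R f M 0 (l + 1) r = f * derivative (w2_R f M 0 l r) +
        ((m + 1 + 0 : ℕ) : F[X]) * derivative f * w2_R f M 0 l r := by
      rw [← hm]
      rfl
    have h2 : w2_R f M e (l + 1) s = f * derivative (w2_R f M e l s) +
        ((m + 1 + e : ℕ) : F[X]) * derivative f * w2_R f M e l s := by
      rw [← hm]
      rfl
    rw [h1, h2, hm]
    have h3 : derivative (X ^ (j * q) : F[X]) = 0 := by
      rw [derivative_X_pow, Nat.cast_mul, hq0, mul_zero, C_0, zero_mul]
    have h4 : f * derivative (f ^ e) = (e : F[X]) * derivative f * f ^ e := by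
      rcases Nat.eq_zero_or_pos e with h5 | h5
      · rw [h5]
        simp
      · obtain ⟨e', he'⟩ := Nat.exists_eq_succ_of_ne_zero h5.ne'
        rw [he', derivative_pow_succ]
        simp only [map_add, map_natCast, map_one, Nat.succ_eq_add_one, Nat.cast_add, Nat.cast_one]
        ring
    rw [derivative_mul, derivative_mul, h3, mul_zero, add_zero, derivative_add, derivative_mul, derivative_pow_succ]
    simp only [map_add, map_natCast, map_one, Nat.cast_add, Nat.cast_one, Nat.cast_zero]
    linear_combination (f ^ m * w2_R f M e l s * X ^ (j * q)) * h4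

end SC7
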