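import Mathlib

/-!
# [SC7-W3] Stepanov's method, existence of the coefficients by linear algebra

The space of the `(r, s)`, `r s : Fin J → degreeLT F B` has dimension `2 J B`. The map to `∏_{l < M} degreeLT F (B + l n + J - 1)`,
`(r, s) ↦ ∑_j (R l (r j) - S l (s j)) X ^ j` (degree `< B + l n + J - 1`: `degree (R l r) < B + l n`, times `X ^ j`, `j ≤ J - 1`), is linear
and the dimension of the target is `∑_{l < M} (B + l n + J - 1) = M (B + J - 1) + n M (M - 1) / 2 < 2 J B`.
`LinearMap.ker_ne_bot_of_finrank_lt`. (`Polynomial.degreeLT`, `Polynomial.degreeLTEquiv`, `Module.finrank_pi_fintype`.)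
Extend `r, s` by zero to `ℕ → F[X]`.
-/

set_option autoImplicit false

open Polynomial

namespace SC7

theorem w3_finrank (F : Type) [Field F] (n : ℕ) : Module.finrank F (degreeLT F n) = n := by
  rw [(degreeLTEquiv F n).finrank_eq, Module.finrank_pi, Fintype.card_fin]

theorem w3_finite (F : Type) [Field F] (n : ℕ) : Module.Finite F (degreeLT F n) :=
  Module.Finite.equiv (degreeLTEquiv F n).symm

theorem w3_mem {F : Type} [Field F] (B n l j J' : ℕ) (hj : j ≤ J') (R : F[X] →ₗ[F] F[X])
    (hR : ∀ r, (R r).degree ≤ r.degree + ((l * n : ℕ) : WithBot ℕ)) (r : F[X])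
    (hr : r ∈ degreeLT F B) : R r * X ^ j ∈ degreeLT F (B + l * n + J') := by
  rw [mem_degreeLT] at hr ⊢
  rw [degree_mul, degree_X_pow]
  have h1 : r.degree + ((l * n : ℕ) : WithBot ℕ) < (B : WithBot ℕ) + ((l * n : ℕ) : WithBot ℕ) :=
    WithBot.add_lt_add_right (WithBot.coe_ne_bot) hr
  have h2 : (R r).degree < (B : WithBot ℕ) + ((l * n : ℕ) : WithBot ℕ) := (hR r).trans_lt h1
  have h3 : (R r).degree + ((j : ℕ) : WithBot ℕ) <
      (B : WithBot ℕ) + ((l * n : ℕ) : WithBot ℕ) + ((j : ℕ) : WithBot ℕ) :=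
    WithBot.add_lt_add_right (WithBot.coe_ne_bot) h2
  refine h3.trans_le ?_
  have : (B : WithBot ℕ) + ((l * n : ℕ) : WithBot ℕ) + ((j : ℕ) : WithBot ℕ) =
      ((B + l * n + j : ℕ) : WithBot ℕ) := by push_cast; rfl
  rw [this]
  exact_mod_cast Nat.add_le_add_left hj _

theorem w3_sum (M B n J' : ℕ) : ∑ l : Fin M, (B + l * n + J') ≤ M * (B + J') + n * (M * (M - 1)) := by
  rw [Fin.sum_univ_eq_sum_range (fun l => B + l * n + J') M]
  have h1 : ∀ l ∈ Finset.range M, B + l * n + J' ≤ (B + J') + n * (M - 1) := by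
    intro l hl
    have : l ≤ M - 1 := by
      have := Finset.mem_range.1 hl
      omega
    have := Nat.mul_le_mul_right n this
    rw [Nat.mul_comm (M - 1) n] at this
    omega
  calc ∑ l ∈ Finset.range M, (B + l * n + J') ≤ ∑ l ∈ Finset.range M, ((B + J') + n * (M - 1)) :=
        Finset.sum_le_sum h1
    _ = M * (B + J') + n * (M * (M - 1)) := by
        rw [Finset.sum_const, Finset.card_range, smul_eq_mul]; ring

theorem stepanov_exists {F : Type} [Field F] (M J B n : ℕ) (hJ : 1 ≤ J)
    (hdim : M * (B + J - 1) + n * (M * (M - 1)) < 2 * J * B) (R S : ℕ → F[X] →ₗ[F] F[X])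
    (hR : ∀ l r, (R l r).degree ≤ r.degree + ((l * n : ℕ) : WithBot ℕ))
    (hS : ∀ l r, (S l r).degree ≤ r.degree + ((l * n : ℕ) : WithBot ℕ)) :
    ∃ r s : ℕ → F[X], (∀ j, (r j).degree < B) ∧ (∀ j, (s j).degree < B) ∧
      (∃ j < J, r j ≠ 0 ∨ s j ≠ 0) ∧
      ∀ l < M, ∑ j ∈ Finset.range J, (R l (r j) - S l (s j)) * X ^ j = 0 := by
  classical
  obtain ⟨J', rfl⟩ : ∃ J', J = J' + 1 := ⟨J - 1, by omega⟩
  have hB' : B + (J' + 1) - 1 = B + J' := by omega
  rw [hB'] at hdim
  have hmem : ∀ (l : Fin M) (v : (Fin (J' + 1) → degreeLT F B) × (Fin (J' + 1) → degreeLT F B)),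
      ∑ j : Fin (J' + 1), (R l (v.1 j : F[X]) - S l (v.2 j : F[X])) * X ^ (j : ℕ) ∈
        degreeLT F (B + l * n + J') := by
    intro l v
    refine Submodule.sum_mem _ fun j _ => ?_
    rw [sub_mul]
    exact Submodule.sub_mem _
      (w3_mem B n l j J' (by omega) (R l) (hR l) _ (v.1 j).2)
      (w3_mem B n l j J' (by omega) (S l) (hS l) _ (v.2 j).2)
  let Φ : ((Fin (J' + 1) → degreeLT F B) × (Fin (J' + 1) → degreeLT F B)) →ₗ[F]
      (∀ l : Fin M, degreeLT F (B + l * n + J')) :=
    { toFun := fun v l =>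
        ⟨∑ j : Fin (J' + 1), (R l (v.1 j : F[X]) - S l (v.2 j : F[X])) * X ^ (j : ℕ), hmem l v⟩
      map_add' := by
        intro v w
        funext l
        apply Subtype.ext
        simp only [Pi.add_apply, Prod.fst_add, Prod.snd_add, Submodule.coe_add, map_add]
        rw [← Finset.sum_add_distrib]
        refine Finset.sum_congr rfl fun j _ => ?_
        ring
      map_smul' := by
        intro c v
        funext l
        apply Subtype.ext
        simp only [Pi.smul_apply, Prod.smul_fst, Prod.smul_snd, Submodule.coe_smul, map_smul,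
          RingHom.id_apply]
        rw [Finset.smul_sum]
        refine Finset.sum_congr rfl fun j _ => ?_
        rw [← smul_sub, smul_mul_assoc] }
  have hfin : ∀ m, Module.Finite F (degreeLT F m) := fun m => w3_finite F m
  have hlt : Module.finrank F (∀ l : Fin M, degreeLT F (B + l * n + J')) <
      Module.finrank F ((Fin (J' + 1) → degreeLT F B) × (Fin (J' + 1) → degreeLT F B)) := by
    rw [Module.finrank_prod, Module.finrank_pi_fintype, Module.finrank_pi_fintype]
    simp only [w3_finrank, Finset.sum_const, Finset.card_univ, Fintype.card_fin, smul_eq_mul]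
    have h1 := w3_sum M B n J'
    have h2 : 2 * (J' + 1) * B = (J' + 1) * B + (J' + 1) * B := by ring
    omega
  have hker := LinearMap.ker_ne_bot_of_finrank_lt (f := Φ) hlt
  obtain ⟨v, hv, hv0⟩ := (Submodule.ne_bot_iff _).1 hker
  rw [LinearMap.mem_ker] at hv
  refine ⟨fun j => if h : j < J' + 1 then (v.1 ⟨j, h⟩ : F[X]) else 0,
    fun j => if h : j < J' + 1 then (v.2 ⟨j, h⟩ : F[X]) else 0, ?_, ?_, ?_, ?_⟩
  · intro j
    by_cases h : j < J' + 1
    · simp only [h, dif_pos]
      exact mem_degreeLT.1 (v.1 ⟨j, h⟩).2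
    · simp only [h, dif_neg, not_false_iff, degree_zero]
      exact WithBot.bot_lt_coe B
  · intro j
    by_cases h : j < J' + 1
    · simp only [h, dif_pos]
      exact mem_degreeLT.1 (v.2 ⟨j, h⟩).2
    · simp only [h, dif_neg, not_false_iff, degree_zero]
      exact WithBot.bot_lt_coe B
  · by_contra hcon
    push Not at hcon
    apply hv0
    have h1 : v.1 = 0 := by
      funext j
      apply Subtype.ext
      have := (hcon j j.2).1
      simp only [j.2, dif_pos] at this
      exact this
    have h2 : v.2 = 0 := by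
      funext j
      apply Subtype.ext
      have := (hcon j j.2).2
      simp only [j.2, dif_pos] at this
      exact this
    exact Prod.ext h1 h2
  · intro l hl
    have h1 := congrArg Subtype.val (congrFun hv ⟨l, hl⟩)
    change ∑ j : Fin (J' + 1), (R l (v.1 j : F[X]) - S l (v.2 j : F[X])) * X ^ (j : ℕ) = 0 at h1
    refine Eq.trans ?_ h1
    rw [Finset.sum_range]
    refine Finset.sum_congr rfl fun j _ => ?_
    simp only [j.2, dif_pos]

end SC7
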