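import Pool.Agent.MP_c1dca2_ag.SC7.W1
import Pool.Agent.MP_c1dca2_ag.SC7.W2
import Pool.Agent.MP_c1dca2_ag.SC7.W3

/-!
# [SC7-W4] a squarefree polynomial over a large finite field takes a nonzero square value

`N = natDegree f ≥ 1`, `q = card F` odd, `q ≥ 100 (N + 1) ^ 3`, characteristic larger than `2 N + 2` (hypothesis `hchar`: no
`1 ≤ m ≤ 2 N + 2` is zero in `F`). Claim: some `x` has `f(x) ≠ 0` a square.

Proof (Stepanov). `q > N`, so there is `a` with `f(a) ≠ 0`; replace `f` by `f.comp (X + C a)` (same degree, squarefree; `taylor`): we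
may assume `f(0) ≠ 0`. Suppose no value is a nonzero square. Then `f(x) ^ ((q - 1) / 2) = -1` for all `x` with `f(x) ≠ 0` (Euler:
`FiniteField.isSquare_iff`, `FiniteField.pow_dichotomy`), let `Z` be the set of these `x`, `#Z ≥ q - N`.
`M = 2 N + 2`, `J = N + 2`, `B = (q - N) / 2` (natural number division), `n = N - 1`. `R, S` from `stepanov_deriv`, `r, s` from
`stepanov_exists`: `M (B + J - 1) + n M (M - 1) < 2 J B`, i.e. `2 B > M (J - 1) + n M (M - 1) = (2N+2)(N+1) + (N-1)(2N+2)(2N+1)`, true since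
`2 B ≥ q - N - 1`. Let `P = f ^ M * ∑_{j < J} (r j + s j g) X ^ (j q)`, `g = f ^ ((q - 1) / 2)`. `P ≠ 0` by `nonvanish`
(`2 B + N ≤ q + 1`). For `x ∈ Z`, `l < M`: `derivative^[l] P` at `x` is
`f(x) ^ (M - l) ∑_j ((R l (r j))(x) - (S l (s j))(x)) x ^ (j q) = f(x)^(M-l) (∑_j (R l (r j) - S l (s j)) X ^ j)(x) = 0`, since
`x ^ q = x`, `g(x) = -1`. As the characteristic is larger than `M` this gives `rootMultiplicity x P ≥ M`
(`Polynomial.lt_rootMultiplicity_of_isRoot_iterate_derivative_of_mem_nonZeroDivisors`; `(M-1)!` is not zero in `F`). So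
`∏_{x ∈ Z} (X - C x) ^ M ∣ P`, `M (q - N) ≤ natDegree P ≤ M N + (B - 1) + N (q - 1) / 2 + (J - 1) q`, but
`M (q - N) = (2N+2) q - (2N+2) N` and the right hand side is at most `(2N+2) N + q / 2 + N q / 2 + (N + 1) q`:
`(N + 1) q / 2 ≤ 2 (2N+2) N = 4 N (N+1)`, `q ≤ 8 N`, contradiction.
-/

set_option autoImplicit false

open Polynomial

namespace SC7

theorem w4_factorial {F : Type} [Field F] (m : ℕ) (h : ∀ k : ℕ, 1 ≤ k → k ≤ m → (k : F) ≠ 0) :
    ((m.factorial : ℕ) : F) ≠ 0 := by
  induction m with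
  | zero => simp
  | succ m ih =>
    rw [Nat.factorial_succ, Nat.cast_mul]
    exact mul_ne_zero (h (m + 1) (by omega) le_rfl) (ih (fun k hk hk' => h k hk (by omega)))

theorem w4_num (n q B : ℕ) (hq : 100 * (n + 1 + 1) ^ 3 ≤ q) (hB : q ≤ 2 * B + n + 2) :
    (2 * (n + 1) + 2) * (B + (n + 1 + 2) - 1) +
      (n + 1 - 1) * ((2 * (n + 1) + 2) * (2 * (n + 1) + 2 - 1)) < 2 * (n + 1 + 2) * B := by
  have e1 : B + (n + 1 + 2) - 1 = B + n + 2 := by omega
  have e2 : n + 1 - 1 = n := by omega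
  have e3 : 2 * (n + 1) + 2 - 1 = 2 * n + 3 := by omega
  rw [e1, e2, e3]
  have h1 : 100 * (n + 1 + 1) ^ 3 = 100 * n ^ 3 + 600 * n ^ 2 + 1200 * n + 800 := by ring
  rw [h1] at hq
  have h2 : (2 * (n + 1) + 2) * (B + n + 2) + n * ((2 * (n + 1) + 2) * (2 * n + 3)) =
      2 * n * B + 4 * B + (4 * n ^ 3 + 16 * n ^ 2 + 20 * n + 8) := by ring
  have h3 : 2 * (n + 1 + 2) * B = 2 * n * B + 4 * B + 2 * B := by ring
  rw [h2, h3]
  have h4 : 0 ≤ n ^ 3 := Nat.zero_le _
  have h5 : 0 ≤ n ^ 2 := Nat.zero_le _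
  omega

theorem w4_main {F : Type} [Field F] [Fintype F] (f : F[X]) (hf : Squarefree f)
    (hN : 1 ≤ f.natDegree) (hchar : ∀ m : ℕ, 1 ≤ m → m ≤ 2 * f.natDegree + 2 → (m : F) ≠ 0)
    (hq : 100 * (f.natDegree + 1) ^ 3 ≤ Fintype.card F) (h0 : f.eval 0 ≠ 0) :
    ∃ x : F, f.eval x ≠ 0 ∧ IsSquare (f.eval x) := by
  classical
  by_contra hcon
  push Not at hcon
  have hf0 : f ≠ 0 := hf.ne_zero
  have h2 : ringChar F ≠ 2 := by
    intro h
    have h1 := hchar 2 (by norm_num) (by omega)
    apply h1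
    have h3 : ((ringChar F : ℕ) : F) = 0 := CharP.cast_eq_zero F (ringChar F)
    rw [h] at h3
    exact h3
  have hodd : Odd (Fintype.card F) := Nat.odd_iff.2 (FiniteField.odd_card_of_char_ne_two h2)
  have hhalf : (Fintype.card F - 1) / 2 = Fintype.card F / 2 := by
    obtain ⟨k, hk⟩ := hodd
    omega
  obtain ⟨n, hn⟩ : ∃ n, f.natDegree = n + 1 := ⟨f.natDegree - 1, by omega⟩
  set q := Fintype.card F with hqdef
  set B := (q - f.natDegree) / 2 with hB
  obtain ⟨R, S, hR, hS, hder⟩ := stepanov_deriv hodd f hN (2 * f.natDegree + 2)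
  rw [← hqdef] at hder
  have hqn : f.natDegree + 10 ≤ q := by
    have h3 : f.natDegree + 1 ≤ (f.natDegree + 1) ^ 3 := Nat.le_self_pow (by norm_num) _
    omega
  have hdim : (2 * f.natDegree + 2) * (B + (f.natDegree + 2) - 1) +
      (f.natDegree - 1) * ((2 * f.natDegree + 2) * (2 * f.natDegree + 2 - 1)) <
      2 * (f.natDegree + 2) * B := by
    rw [hn] at hq hB hqn ⊢
    exact w4_num n q B hq (by omega)
  obtain ⟨r, s, hr, hs, hne, hlin⟩ := stepanov_exists (2 * f.natDegree + 2) (f.natDegree + 2) B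
    (f.natDegree - 1) (by omega) hdim R S hR hS
  set g := f ^ ((q - 1) / 2) with hg
  have hsum : ∑ j ∈ Finset.range (f.natDegree + 2), (r j + s j * g) * X ^ (j * q) ≠ 0 := by
    intro h
    obtain ⟨j, hj, hj'⟩ := hne
    have h3 := nonvanish hodd f hf hN h0 (f.natDegree + 2) B (by omega) r s hr hs h j hj
    rcases hj' with h4 | h4
    · exact h4 h3.1
    · exact h4 h3.2
  set P := f ^ (2 * f.natDegree + 2) *
    ∑ j ∈ Finset.range (f.natDegree + 2), (r j + s j * g) * X ^ (j * q) with hP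
  have hP0 : P ≠ 0 := mul_ne_zero (pow_ne_zero _ hf0) hsum
  -- the values of `g`
  have hgx : ∀ x, f.eval x ≠ 0 → g.eval x = -1 := by
    intro x hx
    rw [hg, eval_pow, hhalf]
    rcases FiniteField.pow_dichotomy h2 hx with h3 | h3
    · exact absurd ((FiniteField.isSquare_iff h2 hx).2 h3) (hcon x hx)
    · exact h3
  -- the derivatives
  have hder' : ∀ l < 2 * f.natDegree + 2, ∀ x, f.eval x ≠ 0 →
      (derivative^[l] P).eval x = 0 := by
    intro l hl x hx
    rw [hP, Finset.mul_sum, iterate_derivative_sum]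
    rw [Finset.sum_congr rfl (fun j _ => hder l hl.le (r j) (s j) j)]
    rw [← Finset.mul_sum, eval_mul, eval_finsetSum]
    have h3 : ∑ j ∈ Finset.range (f.natDegree + 2),
        eval x ((R l (r j) + S l (s j) * g) * X ^ (j * q)) =
        eval x (∑ j ∈ Finset.range (f.natDegree + 2), (R l (r j) - S l (s j)) * X ^ j) := by
      rw [eval_finsetSum]
      apply Finset.sum_congr rfl
      intro j _
      rw [eval_mul, eval_mul, eval_add, eval_mul, hgx x hx, eval_sub, eval_pow, eval_X, eval_pow,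
        eval_X, mul_comm j q, pow_mul, hqdef, FiniteField.pow_card]
      ring
    rw [h3, hlin l hl, eval_zero, mul_zero]
  have hmult : ∀ x, f.eval x ≠ 0 → 2 * f.natDegree + 2 ≤ P.rootMultiplicity x := by
    intro x hx
    have h3 := lt_rootMultiplicity_of_isRoot_iterate_derivative_of_mem_nonZeroDivisors
      (n := 2 * f.natDegree + 1) hP0 (fun m hm => hder' m (by omega) x hx)
      (mem_nonZeroDivisors_of_ne_zero (w4_factorial _ (fun k hk hk' => hchar k hk (by omega))))
    omega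
  -- counting
  set Z := Finset.univ.filter (fun x : F => f.eval x ≠ 0) with hZ
  have hZcard : q ≤ Z.card + f.natDegree := by
    have h3 : (Finset.univ.filter (fun x : F => ¬ f.eval x ≠ 0)).card ≤ f.natDegree := by
      calc _ ≤ f.roots.toFinset.card := by
            apply Finset.card_le_card
            intro x hx
            rw [Finset.mem_filter] at hx
            rw [Multiset.mem_toFinset, mem_roots hf0]
            exact not_not.1 hx.2
        _ ≤ _ := Multiset.toFinset_card_le _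
        _ ≤ _ := card_roots' f
    have h4 : Z.card + (Finset.univ.filter (fun x : F => ¬ f.eval x ≠ 0)).card = q := by
      rw [hZ, hqdef, ← Finset.card_univ]
      exact Finset.card_filter_add_card_filter_not _
    omega
  have hcount : (2 * f.natDegree + 2) * Z.card ≤ P.natDegree := by
    calc (2 * f.natDegree + 2) * Z.card = ∑ _x ∈ Z, (2 * f.natDegree + 2) := by
          rw [Finset.sum_const, smul_eq_mul, mul_comm]
      _ ≤ ∑ x ∈ Z, P.roots.count x := by
          apply Finset.sum_le_sum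
          intro x hx
          rw [count_roots]
          exact hmult x (Finset.mem_filter.1 hx).2
      _ ≤ ∑ x : F, P.roots.count x :=
          Finset.sum_le_sum_of_subset (Finset.subset_univ _)
      _ = Multiset.card P.roots := Multiset.sum_count_eq_card (fun a _ => Finset.mem_univ a)
      _ ≤ _ := card_roots' P
  have hdr : ∀ j, (r j).natDegree ≤ B := fun j => natDegree_le_of_degree_le (hr j).le
  have hds : ∀ j, (s j).natDegree ≤ B := fun j => natDegree_le_of_degree_le (hs j).le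
  have hPd : P.natDegree ≤ (2 * f.natDegree + 2) * f.natDegree +
      (B + ((q - 1) / 2) * f.natDegree + (f.natDegree + 1) * q) := by
    refine natDegree_mul_le.trans (add_le_add natDegree_pow_le ?_)
    apply natDegree_sum_le_of_forall_le
    intro j hj
    have hj' : j ≤ f.natDegree + 1 := by
      rw [Finset.mem_range] at hj
      omega
    refine natDegree_mul_le.trans (add_le_add ?_ ?_)
    · refine (natDegree_add_le _ _).trans (max_le ?_ ?_)
      · exact (hdr j).trans (by omega)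
      · exact natDegree_mul_le.trans (add_le_add (hds j) natDegree_pow_le)
    · rw [natDegree_X_pow]
      exact Nat.mul_le_mul_right _ hj'
  have hfin := hcount.trans hPd
  rw [hn] at hfin hZcard hqn hB
  have h5 : 2 * B ≤ q - (n + 1) := by omega
  have h6 : 2 * ((q - 1) / 2) ≤ q - 1 := by omega
  have h7 : q ≤ Z.card + (n + 1) := hZcard
  have h8 : 16 * (n + 1) < q := by
    rw [hn] at hq
    have h9 : (n + 1 + 1) ≤ (n + 1 + 1) ^ 3 := Nat.le_self_pow (by norm_num) _
    omega
  obtain ⟨z, hz⟩ : ∃ z, Z.card = z := ⟨_, rfl⟩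
  obtain ⟨c, hc⟩ : ∃ c, (q - 1) / 2 = c := ⟨_, rfl⟩
  rw [hz] at hfin h7
  rw [hc] at hfin h6
  have h6' : 2 * c ≤ q := by omega
  have h5' : 2 * B + (n + 1) ≤ q := by omega
  clear_value B q
  zify at hfin h7 h6' h5' h8
  nlinarith [mul_le_mul_of_nonneg_left h7 (by positivity : (0 : ℤ) ≤ 2 * (2 * (n + 1) + 2)),
    mul_le_mul_of_nonneg_left h6' (by positivity : (0 : ℤ) ≤ (n : ℤ) + 1),
    mul_lt_mul_of_pos_left h8 (by positivity : (0 : ℤ) < (n : ℤ) + 1)]

theorem w4_comp_squarefree {F : Type} [Field F] (f : F[X]) (hf : Squarefree f) (a : F) :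
    Squarefree (f.comp (X + C a)) := by
  intro z hz
  have e1 : (z.comp (X - C a)) * (z.comp (X - C a)) ∣ f := by
    obtain ⟨w, hw⟩ := hz
    refine ⟨w.comp (X - C a), ?_⟩
    have h1 := congrArg (fun p : F[X] => p.comp (X - C a)) hw
    simp only [comp_assoc, add_comp, X_comp, C_comp, sub_add_cancel, comp_X, mul_comp] at h1
    exact h1
  have h2 := hf _ e1
  rw [isUnit_iff_degree_eq_zero] at h2 ⊢
  have h3 : (z.comp (X - C a)).natDegree = z.natDegree := by
    rw [natDegree_comp, natDegree_X_sub_C, mul_one]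
  have h4 : z ≠ 0 := by
    intro h
    rw [h] at h2
    simp at h2
  have h5 : (z.comp (X - C a)).natDegree = 0 := natDegree_eq_of_degree_eq_some h2
  rw [degree_eq_natDegree h4, ← h3, h5]
  rfl

theorem exists_sq_value {F : Type} [Field F] [Fintype F] (f : F[X]) (hf : Squarefree f)
    (hN : 1 ≤ f.natDegree) (hchar : ∀ m : ℕ, 1 ≤ m → m ≤ 2 * f.natDegree + 2 → (m : F) ≠ 0)
    (hq : 100 * (f.natDegree + 1) ^ 3 ≤ Fintype.card F) :
    ∃ x : F, f.eval x ≠ 0 ∧ IsSquare (f.eval x) := by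
  have hf0 : f ≠ 0 := hf.ne_zero
  obtain ⟨a, ha⟩ : ∃ a : F, f.eval a ≠ 0 := by
    by_contra hcon
    push Not at hcon
    apply hf0
    apply eq_zero_of_natDegree_lt_card_of_eval_eq_zero f Function.injective_id (fun x => hcon x)
    have h3 : f.natDegree + 1 ≤ (f.natDegree + 1) ^ 3 := Nat.le_self_pow (by norm_num) _
    omega
  have hd : (f.comp (X + C a)).natDegree = f.natDegree := by
    rw [natDegree_comp, natDegree_X_add_C, mul_one]
  obtain ⟨x, hx, hx'⟩ := w4_main (f.comp (X + C a)) (w4_comp_squarefree f hf a)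
    (by rw [hd]; exact hN) (by rw [hd]; exact hchar) (by rw [hd]; exact hq)
    (by simpa [eval_comp] using ha)
  rw [eval_comp] at hx hx'
  exact ⟨_, hx, hx'⟩

/-- Both signs. -/
theorem exists_value {F : Type} [Field F] [Fintype F] (f : F[X]) (hf : Squarefree f)
    (hN : 1 ≤ f.natDegree) (hchar : ∀ m : ℕ, 1 ≤ m → m ≤ 2 * f.natDegree + 2 → (m : F) ≠ 0)
    (hq : 100 * (f.natDegree + 1) ^ 3 ≤ Fintype.card F) (u : F) (hu : u ≠ 0) :
    ∃ x : F, u * f.eval x ≠ 0 ∧ IsSquare (u * f.eval x) := by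
  have hf0 : f ≠ 0 := hf.ne_zero
  have hCu : (C u : F[X]) ≠ 0 := by simpa using hu
  have hdeg : (C u * f).natDegree = f.natDegree := natDegree_C_mul hu
  have hunit : IsUnit (C u : F[X]) := by
    rw [Polynomial.isUnit_C]
    exact isUnit_iff_ne_zero.2 hu
  have hsq : Squarefree (C u * f) := by
    intro z hz
    exact hf z ((hunit.dvd_mul_left).1 hz)
  obtain ⟨x, hx, hx'⟩ := exists_sq_value (C u * f) hsq (by rw [hdeg]; exact hN)
    (by rw [hdeg]; exact hchar) (by rw [hdeg]; exact hq)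
  rw [eval_mul, eval_C] at hx hx'
  exact ⟨x, hx, hx'⟩

end SC7
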